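import Pool.Agent.P.MP_746f10_nt.HL.Base

/-! The asymptotic formula on average over the shifts. -/

namespace Pool.Agent.P.MP_746f10_nt.HL

open Finset
open Pool.Agent.P.MP_746f10_nt.AP Pool.Agent.P.MP_746f10_nt.AZ

namespace AvgP

lemma small_zero (a N : ℕ) (c : ℕ → ℝ) {δ : ℝ} (hδ : 0 ≤ δ) :
    SmallC a N (fun m => c m - c m) δ := by
  intro u v _ _
  simp only [Bf, sub_self, mul_zero, Complex.ofReal_zero, zero_mul, sum_const_zero, norm_zero]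
  positivity

lemma tel_num {k S : ℕ} {P : ℝ} (hP : 0 ≤ P) (hS : ((k + 4 : ℕ) : ℝ) ≤ S) :
    ((k + 1 : ℕ) : ℝ) * ((S : ℝ) ^ 4) ^ (k + 1) * (1 / ((S ^ (4 * k + 7) : ℕ) : ℝ)) * P ≤
      P / (S : ℝ) ^ 2 := by
  have h0 : (0 : ℝ) ≤ k := Nat.cast_nonneg k
  push_cast at hS ⊢
  have hS0 : (0 : ℝ) < S := by linarith
  have e : ((k : ℝ) + 1) * ((S : ℝ) ^ 4) ^ (k + 1) * (1 / (S : ℝ) ^ (4 * k + 7)) * P =
      (k + 1) / S * (P / (S : ℝ) ^ 2) := by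
    field_simp
    ring
  rw [e]
  exact mul_le_of_le_one_left (by positivity) ((div_le_one hS0).2 (by linarith))

lemma ss_num {S N A ρ t : ℕ} {T : ℝ} (hS : 1 ≤ S) (hρ : 2 * A + 4 ≤ ρ) (hT0 : 0 ≤ T)
    (hT : T ≤ (S : ℝ) ^ t) (hN : S ^ (A + 2 + 2 * t) ≤ N) :
    (S : ℝ) ^ A * (T ^ 2 + N / √((S ^ ρ : ℕ) : ℝ)) ≤ 2 * (N / (S : ℝ) ^ 2) := by
  have hS1 : (1 : ℝ) ≤ S := by exact_mod_cast hS
  have hN' : (S : ℝ) ^ (A + 2 + 2 * t) ≤ N := by exact_mod_cast hN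
  have h1 : (S : ℝ) ^ A * T ^ 2 ≤ N / (S : ℝ) ^ 2 := by
    rw [le_div_iff₀ (by positivity)]
    calc (S : ℝ) ^ A * T ^ 2 * (S : ℝ) ^ 2 ≤ (S : ℝ) ^ A * ((S : ℝ) ^ t) ^ 2 * (S : ℝ) ^ 2 := by
          gcongr
      _ = (S : ℝ) ^ (A + 2 + 2 * t) := by ring
      _ ≤ N := hN'
  have h2 : (S : ℝ) ^ (A + 2) ≤ √((S ^ ρ : ℕ) : ℝ) := by
    refine Real.le_sqrt_of_sq_le ?_
    push_cast
    rw [← pow_mul]
    exact pow_le_pow_right₀ hS1 (by omega)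
  have h3 : (S : ℝ) ^ A * (N / √((S ^ ρ : ℕ) : ℝ)) ≤ N / (S : ℝ) ^ 2 := by
    calc (S : ℝ) ^ A * (N / √((S ^ ρ : ℕ) : ℝ)) ≤ (S : ℝ) ^ A * (N / (S : ℝ) ^ (A + 2)) := by
          gcongr
      _ = _ := by field_simp; ring
  rw [mul_add]
  linarith

lemma tri {ι : Type*} {s : Finset ι} {f g h : ι → ℝ} {x y : ℝ} (h0 : ∀ b ∈ s, f b ≤ g b + h b)
    (h1 : ∑ b ∈ s, g b ≤ x) (h2 : ∑ b ∈ s, h b ≤ y) : ∑ b ∈ s, f b ≤ x + y := by
  have := sum_le_sum h0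
  rw [sum_add_distrib] at this
  linarith

end AvgP

open AvgP in
theorem yAvg (h1 : T_CN) (h2 : T_BD) (h3 : T_SS) (h4 : T_Tel) (h5 : T_Zer) (h6 : T_Cr) :
    T_Avg := by
  classical
  intro k
  obtain ⟨j1, r, hCN⟩ := h1
  obtain ⟨i2, j2, hBD⟩ := h2
  obtain ⟨A, hSS⟩ := h3 (k + 1)
  obtain ⟨c1, hc1⟩ : ∃ c, c = 4 * k + 7 := ⟨_, rfl⟩
  obtain ⟨ρ, hρ⟩ : ∃ c, c = c1 * r + (2 * A + 4) := ⟨_, rfl⟩
  obtain ⟨c2, hc2⟩ : ∃ c, c = (ρ + 1) * k + 2 := ⟨_, rfl⟩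
  obtain ⟨w, hw⟩ : ∃ c, c = c1 * j1 + ρ * k * 2 + c2 * j2 := ⟨_, rfl⟩
  obtain ⟨e1, he1⟩ : ∃ c, c = ρ * (k + 1) * 9 + c1 * j1 := ⟨_, rfl⟩
  obtain ⟨e2, he2⟩ : ∃ c, c = w * i2 + ρ * k + c2 * j2 := ⟨_, rfl⟩
  obtain ⟨e3, he3⟩ : ∃ c, c = ρ * (k + 1) * 3 + c2 * j2 := ⟨_, rfl⟩
  obtain ⟨e4, he4⟩ : ∃ c, c = A + 2 + 2 * (ρ * (k + 1) * (k + 1)) := ⟨_, rfl⟩
  refine ⟨e1 + e2 + e3 + e4, fun n => ?_⟩
  obtain ⟨s1, hCN⟩ := hCN n
  obtain ⟨s2, hBD⟩ := hBD n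
  obtain ⟨s3, hSS⟩ := hSS (3 * n + 1)
  obtain ⟨s4, hok⟩ := ev_ok (3 * n + 1) ((k + 4 : ℕ) : ℝ)
  refine ⟨s1 + s2 + s3 + s4, fun S N a hS hN hj ha ha' => ?_⟩
  obtain ⟨ok, hk⟩ := hok S (by omega)
  have S2 := ok.two
  have S1 : 1 ≤ S := by omega
  have Sr : (4 : ℝ) ≤ S := le_trans (by push_cast; linarith [Nat.cast_nonneg (α := ℝ) k]) hk
  have mono : ∀ {e e' : ℕ}, e ≤ e' → S ^ e ≤ S ^ e' := fun h => Nat.pow_le_pow_right S1 h
  have pw : ∀ e, e ≤ e1 + e2 + e3 + e4 → S ^ e ≤ N := fun e h => (mono h).trans hj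
  have N1 : 1 ≤ N := le_trans (Nat.one_le_pow _ _ S1) hj
  have bs : ∀ c, 1 ≤ c → S ≤ S ^ c ∧ N ≤ (S ^ c) ^ n := fun c hc => by
    have : S ≤ S ^ c := by simpa using mono hc
    exact ⟨this, hN.trans (Nat.pow_le_pow_left this _)⟩
  have aN : ∀ i, a i ≤ N ^ 2 := fun i =>
    le_sq_of_sq_le_cube ((Nat.le_mul_of_pos_right _ (by positivity)).trans (ha' i))
  have hY : 2 * N ^ 3 ≤ S ^ (3 * n + 1) := by
    calc 2 * N ^ 3 ≤ S * (S ^ n) ^ 3 := by gcongr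
      _ = _ := by ring
  have NY : N ^ 2 ≤ S ^ (3 * n + 1) :=
    (Nat.pow_le_pow_right N1 (by norm_num : 2 ≤ 3)).trans (by omega)
  have aY : ∀ i, a i ≤ S ^ (3 * n + 1) := fun i => (aN i).trans NY
  have mY : ∀ i, ∀ x ∈ Ico N (2 * N), ∀ b ∈ Ico 1 (a i),
      1 ≤ a i * x + b ∧ a i * x + b ≤ S ^ (3 * n + 1) := by
    intro i x hx b hb
    obtain ⟨-, x2⟩ := mem_Ico.1 hx
    obtain ⟨b1, b2⟩ := mem_Ico.1 hb
    refine ⟨by omega, le_trans ?_ hY⟩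
    calc a i * x + b ≤ a i * (x + 1) := by rw [mul_add, mul_one]; omega
      _ ≤ N ^ 2 * (2 * N) := Nat.mul_le_mul (aN i) x2
      _ = _ := by ring
  have B1 : (1 : ℝ) ≤ (S : ℝ) ^ 4 := one_le_pow₀ (by linarith)
  have bth : ∀ i, ∀ x ∈ Ico N (2 * N), ∀ b ∈ Ico 1 (a i), |th (a i * x + b)| ≤ (S : ℝ) ^ 4 := by
    intro i x hx b hb
    rw [abs_of_nonneg (th_nonneg _)]
    have := ok.log (mY i x hx b hb).2
    have h := th_le_log (a i * x + b)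
    have : (S : ℝ) ^ 1 ≤ (S : ℝ) ^ 4 := pow_le_pow_right₀ (by linarith) (by norm_num)
    linarith
  have bmo : ∀ i e, e ≤ ρ * (k + 1) → ∀ x ∈ Ico N (2 * N), ∀ b ∈ Ico 1 (a i),
      |mo (a i) (S ^ e) (a i * x + b)| ≤ (S : ℝ) ^ 4 := by
    intro i e he x hx b hb
    refine h6.2.2 S _ _ _ _ ok (mY i x hx b hb).1 (mY i x hx b hb).2 (aY i) ?_
    exact (pw e (by omega)).trans ((Nat.le_self_pow two_ne_zero N).trans NY)
  have cn : ∀ i e, ρ ≤ e → e ≤ ρ * (k + 1) → N * (S ^ c1) ^ j1 ≤ a i →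
      SmallC (a i) N (fun m => th m - mo (a i) (S ^ e) m) (1 / ((S ^ c1 : ℕ) : ℝ)) := by
    intro i e g1 g2 g3
    obtain ⟨b1, b2⟩ := bs c1 (by omega)
    refine hCN _ _ _ _ (by omega) b2 ⟨g3, le_trans ?_ (ha' i)⟩ ?_ ?_
    · rw [← pow_mul]
      exact Nat.mul_le_mul_left _ (mono (by omega))
    · rw [← pow_mul]
      exact mono (by omega)
    · rw [← pow_mul, ← pow_mul, ← pow_add]
      exact pw _ (by omega)
  have big : ∀ i : Fin k, N * (S ^ c1) ^ j1 ≤ a i.succ := fun i => by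
    refine le_trans ?_ (ha i)
    rw [← pow_mul]
    exact Nat.mul_le_mul_left _ (mono (by omega))
  have ρle : ρ ≤ ρ * (k + 1) := Nat.le_mul_of_pos_right _ (by omega)
  set P : ℝ := N * ∏ i, (a i : ℝ) with hP
  have P0 : 0 ≤ P := by positivity
  set E : Fin (k + 1) → ℕ := Fin.cons (ρ * (k + 1)) (fun _ => ρ) with hE
  have hE1 : ∀ i, ρ ≤ E i ∧ E i ≤ ρ * (k + 1) := fun i => by
    refine Fin.cases ?_ (fun i => ?_) i <;> simp [hE, ρle]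
  have δ0 : (0 : ℝ) ≤ 1 / ((S ^ c1 : ℕ) : ℝ) := by positivity
  have tn := tel_num (k := k) P0 hk
  rw [← hc1] at tn
  have X : ∑ b ∈ Fintype.piFinset (fun i => RU (a i)),
      |∑ x ∈ Ico N (2 * N), ∏ i, th (a i * x + b i) -
        ∑ x ∈ Ico N (2 * N), ∏ i, mo (a i) (S ^ E i) (a i * x + b i)| ≤
      2 * (P / (S : ℝ) ^ 2) := by
    have Q0 : 0 ≤ P / (S : ℝ) ^ 2 := by positivity
    by_cases hc : N * (S ^ c1) ^ j1 ≤ a 0
    · have := h4 (k + 1) N a (fun _ => th) (fun i => mo (a i) (S ^ E i)) _ _ B1 δ0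
        (fun i x hx b hb => ⟨bth i x hx b hb, bmo i _ (hE1 i).2 x hx b hb⟩)
        (fun i => cn i _ (hE1 i).1 (hE1 i).2 (Fin.cases hc big i))
      linarith
    · have t1 := h4 (k + 1) N a (fun _ => th)
        (Fin.cons th (fun i => mo (a i.succ) (S ^ ρ))) _ _ B1 δ0
        (fun i => Fin.cases (fun x hx b hb => ⟨bth 0 x hx b hb, bth 0 x hx b hb⟩)
          (fun i x hx b hb => ⟨bth _ x hx b hb, bmo _ _ ρle x hx b hb⟩) i)
        (fun i => Fin.cases (small_zero _ _ _ δ0) (fun i => cn _ _ le_rfl ρle (big i)) i)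
      have t2 := h5 k N (S ^ ρ) a (fun m => th m - mo (a 0) (S ^ (ρ * (k + 1))) m) S
        (1 / ((S ^ c2 : ℕ) : ℝ)) (by positivity) (fun i => ok.tot (aY i)) (by
          intro d φ d1 d2 p1 p2
          obtain ⟨b1, b2⟩ := bs c2 (by omega)
          have := hBD (S ^ c2) (a 0) N d ((S ^ ρ) ^ k) (S ^ (ρ * (k + 1))) (S ^ w) φ (by omega)
            b2 (aN 0) d1 d2 (by rw [← pow_mul]; exact mono (Nat.mul_le_mul_left _ (by omega)))
            (Nat.one_le_pow _ _ S1)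
            (by simp only [← pow_mul, ← pow_add]; exact pw _ (by omega))
            (by
              calc a 0 * ((S ^ ρ) ^ k) ^ 2 * (S ^ c2) ^ j2
                  ≤ N * (S ^ c1) ^ j1 * ((S ^ ρ) ^ k) ^ 2 * (S ^ c2) ^ j2 := by
                    gcongr; omega
                _ = N * S ^ w := by rw [hw]; ring)
            (by simp only [← pow_mul, ← pow_add]; exact pw _ (by omega)) p1 p2
          refine this.trans (le_of_eq ?_)
          ring)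
      have t3 : (((S ^ ρ : ℕ) : ℝ) * S) ^ k * (1 / ((S ^ c2 : ℕ) : ℝ)) * P = P / (S : ℝ) ^ 2 := by
        rw [hc2]
        push_cast
        field_simp
        ring
      rw [t3] at t2
      refine (tri (fun b _ => ?_) t1 t2).trans (by linarith)
      refine le_trans (le_of_eq ?_) (abs_add_le _ _)
      congr 1
      simp only [Fin.prod_univ_succ, Fin.cons_zero, Fin.cons_succ, hE, sub_mul, sum_sub_distrib]
      ring
  have Z : ∑ b ∈ (Fintype.piFinset fun i => RU (a i)).filter (fun b => Nd a b),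
      |∑ x ∈ Ico N (2 * N), ∏ i, mo (a i) (S ^ E i) (a i * x + b i) - N * SS a b| ≤
      2 * (P / (S : ℝ) ^ 2) := by
    have c : ((((Fintype.piFinset fun i => RU (a i)).filter (fun b => Nd a b)).card : ℕ) : ℝ) ≤
        ∏ i, (a i : ℝ) := by
      have := (card_filter_le (Fintype.piFinset fun i => RU (a i)) (fun b => Nd a b)).trans
        (Fintype.card_piFinset _).le
      exact_mod_cast this.trans (prod_le_prod' fun i _ => card_RU_le (a i))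
    refine (sum_le_card_nsmul _ _ (2 * (N / (S : ℝ) ^ 2)) fun b hb => ?_).trans ?_
    · obtain ⟨b1, b2⟩ := mem_filter.1 hb
      refine (hSS S N (S ^ ρ) a b (fun i => S ^ E i) (by omega) (Nat.one_le_pow _ _ S1)
        (fun i => ⟨aY i, Fintype.mem_piFinset.1 b1 i, mono (hE1 i).1⟩) b2).trans
        (ss_num (t := ρ * (k + 1) * (k + 1)) S1 (by omega) (by positivity) ?_ (pw _ (by omega)))
      calc ∏ i, ((S ^ E i : ℕ) : ℝ) ≤ ∏ _i : Fin (k + 1), (S : ℝ) ^ (ρ * (k + 1)) :=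
            prod_le_prod (fun _ _ => by positivity) fun i _ => by exact_mod_cast mono (hE1 i).2
        _ = _ := by rw [prod_const, card_univ, Fintype.card_fin, ← pow_mul]
    · rw [nsmul_eq_mul]
      calc _ ≤ (∏ i, (a i : ℝ)) * (2 * (N / (S : ℝ) ^ 2)) := by gcongr
        _ = _ := by rw [hP]; ring
  have X' := (sum_le_sum_of_subset_of_nonneg (filter_subset (fun b => Nd a b) _)
    fun _ _ _ => abs_nonneg _).trans X
  refine (tri (fun b _ => abs_sub_le _ _ _) X' Z).trans ?_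
  have : 4 * (P / (S : ℝ) ^ 2) ≤ S * (P / (S : ℝ) ^ 2) := by gcongr
  have e : S * (P / (S : ℝ) ^ 2) = P / S := by field_simp
  linarith

end Pool.Agent.P.MP_746f10_nt.HL
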