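import Pool.Agent.P.MP_746f10_nt.HL.Base

/-! The bilinear term of the Vaughan identity on average over residue classes. -/

namespace Pool.Agent.P.MP_746f10_nt.HL

open Finset ComplexConjugate
open Pool.Agent.P.MP_746f10_nt.AP Pool.Agent.P.MP_746f10_nt.AZ
open Pool.Agent.P.MP_a14ce1_nt.Ch (nit)
open scoped ArithmeticFunction.vonMangoldt ArithmeticFunction.Moebius

namespace B2P

lemma diff (f : ℕ → ℂ) {P y : ℕ} (h : P ≤ y) :
    ‖∑ n ∈ Ioc P y, f n‖ ≤ ‖∑ n ∈ Icc 1 y, f n‖ + ‖∑ n ∈ Icc 1 P, f n‖ := by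
  have e : ∀ y : ℕ, Icc 1 y = Ioc 0 y := fun y => by ext; simp only [mem_Icc, mem_Ioc]; omega
  rw [e, e, eq_sub_of_add_eq' (sum_Ioc_consecutive f (Nat.zero_le P) h)]
  exact norm_sub_le _ _

lemma nit_zero (y : ℝ) : nit 0 y = 1 := by
  simp [nit, Pool.Agent.P.MP_a14ce1_nt.Ch.ex]

lemma num (S X P L q W : ℝ) (hS : 2 ≤ S) (hP : 0 < P) (hL : 0 < L) (hq : 0 ≤ q)
    (h1 : L * P * S ^ 7 ≤ X) (h2 : X ≤ 2 * (L * P * S ^ 7)) (hW : S ^ 7 ≤ W)
    (h3 : P * q * S ^ 14 ≤ 2 * X * W) :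
    (2 * X / (P * L) + 1) * (4 * S * P / W) * (L + q) + 8 * P * L ≤ 68 * (X / S ^ 6) := by
  have hS0 : 0 < S := by linarith
  have h7 : 1 ≤ S ^ 7 := one_le_pow₀ (by linarith)
  have hW0 : 0 < W := by linarith
  have hX : 0 ≤ X := le_trans (by positivity) h1
  have a1 : 2 * X / (P * L) + 1 ≤ 5 * S ^ 7 := by
    have : 2 * X / (P * L) ≤ 4 * S ^ 7 := by
      rw [div_le_iff₀ (by positivity)]
      linarith
    linarith
  have a2 : S ^ 8 * (P * L) / W ≤ X / S ^ 6 := by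
    rw [div_le_div_iff₀ hW0 (by positivity)]
    calc S ^ 8 * (P * L) * S ^ 6 = L * P * S ^ 7 * S ^ 7 := by ring
      _ ≤ X * W := by gcongr
  have a3 : S ^ 8 * (P * q) / W ≤ 2 * (X / S ^ 6) := by
    rw [← mul_div_assoc, div_le_div_iff₀ hW0 (by positivity)]
    calc S ^ 8 * (P * q) * S ^ 6 = P * q * S ^ 14 := by ring
      _ ≤ _ := h3
  have a4 : P * L ≤ X / S ^ 6 := by
    rw [le_div_iff₀ (by positivity)]
    calc P * L * S ^ 6 ≤ P * L * S ^ 7 := by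
          gcongr
          · linarith
          · norm_num
      _ = L * P * S ^ 7 := by ring
      _ ≤ X := h1
  calc _ ≤ 5 * S ^ 7 * (4 * S * P / W) * (L + q) + 8 * P * L := by gcongr
    _ = 20 * (S ^ 8 * (P * L) / W) + 20 * (S ^ 8 * (P * q) / W) + 8 * (P * L) := by ring
    _ ≤ _ := by linarith

lemma choose_w {i S X q U W P : ℕ} (hS : 2 ≤ S) (hq : 1 ≤ q) (hW : 1 ≤ W)
    (hP : S ^ (7 * i + 8) ≤ P) (hPU : P * U ≤ 2 * X) (h1 : W ^ i * q * S ^ (7 * i + 8) ≤ X)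
    (h2 : q * S ^ (7 * i + 8) ≤ U * W) :
    ∃ W', S ^ 7 ≤ W' ∧ W' ^ i ≤ 2 * P ∧ P * q * S ^ 14 ≤ 2 * X * W' := by
  have hS1 : 1 ≤ S := by omega
  by_cases hc : P * q * S ^ 7 ≤ X
  · refine ⟨S ^ 7, le_rfl, ?_, ?_⟩
    · rw [← pow_mul]
      have := Nat.pow_le_pow_right hS1 (show 7 * i ≤ 7 * i + 8 by omega)
      omega
    · calc P * q * S ^ 14 = P * q * S ^ 7 * S ^ 7 := by ring
        _ ≤ 2 * X * S ^ 7 := Nat.mul_le_mul_right _ (by omega)
  · refine ⟨W * S ^ 7, Nat.le_mul_of_pos_left _ hW, ?_, ?_⟩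
    · have a1 : (W * S ^ 7) ^ i * S * (q * S ^ 7) ≤ P * (q * S ^ 7) := by
        calc (W * S ^ 7) ^ i * S * (q * S ^ 7) = W ^ i * q * S ^ (7 * i + 8) := by ring
          _ ≤ X := h1
          _ ≤ P * q * S ^ 7 := by omega
          _ = _ := by ring
      have a2 : (W * S ^ 7) ^ i * S ≤ P := le_of_mul_le_mul_right a1 (by positivity)
      have a3 : (W * S ^ 7) ^ i ≤ (W * S ^ 7) ^ i * S := Nat.le_mul_of_pos_right _ hS1
      omega
    · have a1 : S ^ 7 ≤ S ^ (7 * i + 8) := Nat.pow_le_pow_right hS1 (by omega)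
      calc P * q * S ^ 14 = P * (q * S ^ 7) * S ^ 7 := by ring
        _ ≤ P * (q * S ^ (7 * i + 8)) * S ^ 7 := by gcongr
        _ ≤ P * (U * W) * S ^ 7 := by gcongr
        _ = P * U * (W * S ^ 7) := by ring
        _ ≤ 2 * X * (W * S ^ 7) := by gcongr

lemma piece (h2 : T_Bil3) {i S X q V P W : ℕ} (β : ℕ → ℝ) (hS : 2 ≤ S) (hq : 1 ≤ q)
    (hP : 1 ≤ P) (hVP : V ≤ P) (hPX : P * S ^ 7 ≤ X) (hW : S ^ 7 ≤ W) (hWi : W ^ i ≤ 2 * P)
    (hPq : P * q * S ^ 14 ≤ 2 * X * W) (hβ : ∀ l, |β l| ≤ 1)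
    (hmu : ∀ (χ : DirichletCharacter ℂ q) (Y Y' W : ℕ), Y ≤ Y' → 1 ≤ W → W ^ i ≤ Y' →
      ‖∑ m ∈ Icc 1 Y, (μ m : ℂ) * χ m‖ ≤ S * Y' / W) :
    ∑ c ∈ RR q, |cl X q (cv (dy (muG V) P) β) c| ≤ 68 * (X / (S : ℝ) ^ 6) := by
  have h0 : 0 < P * S ^ 7 := by positivity
  have hW1 : 1 ≤ W := le_trans (Nat.one_le_pow _ _ (by omega)) hW
  obtain ⟨L, hL⟩ : ∃ L, L = X / (P * S ^ 7) := ⟨_, rfl⟩
  have l1 : 1 ≤ L := by rw [hL]; exact (Nat.one_le_div_iff h0).2 hPX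
  have l2 : L * (P * S ^ 7) ≤ X := by rw [hL]; exact Nat.div_mul_le_self _ _
  have l3 : X ≤ 2 * (L * (P * S ^ 7)) := by
    have : X < (L + 1) * (P * S ^ 7) := by
      rw [hL, mul_comm]; exact Nat.lt_mul_div_succ X h0
    have : 1 * (P * S ^ 7) ≤ L * (P * S ^ 7) := Nat.mul_le_mul_right _ l1
    nlinarith
  refine (h2 X q P L (4 * S * P / W) (dy (muG V) P) β hq hP l1 (by positivity) (fun k => ?_) hβ
    (fun k hk => mem_of_dy hk) fun χ x y hx hxy hy => ?_).trans ?_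
  · unfold dy
    split_ifs
    · exact abs_muG_le V k
    · simp
  · have e : ∑ k ∈ Ioc x y, ((dy (muG V) P k : ℝ) : ℂ) * χ k = ∑ k ∈ Ioc x y, (μ k : ℂ) * χ k := by
      refine sum_congr rfl fun k hk => ?_
      obtain ⟨k1, k2⟩ := mem_Ioc.1 hk
      unfold dy muG
      rw [if_pos (mem_Ioc.2 ⟨by omega, by omega⟩), if_pos (by omega)]
      push_cast
      rfl
    rw [e]
    refine (diff _ hxy).trans ?_
    have b1 := hmu χ y (2 * P) W hy hW1 hWi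
    have b2 := hmu χ x (2 * P) W (hxy.trans hy) hW1 hWi
    have e2 : (4 * S * P / W : ℝ) = S * (2 * P : ℕ) / W + S * (2 * P : ℕ) / W := by
      push_cast; ring
    rw [e2]
    exact add_le_add b1 b2
  · refine num S X P L q W (by exact_mod_cast hS) (by exact_mod_cast hP) (by exact_mod_cast l1)
      (by positivity) ?_ ?_ (by exact_mod_cast hW) (by exact_mod_cast hPq)
    · rw [mul_assoc]; exact_mod_cast l2
    · rw [mul_assoc]; exact_mod_cast l3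

end B2P

open B2P in
theorem yB2 (h1 : T_Mu) (h2 : T_Bil3) (h3 : T_Vau) : T_B2 := by
  obtain ⟨i, h1⟩ := h1
  refine ⟨i, 7 * i + 8, fun n => ?_⟩
  obtain ⟨S1, h1⟩ := h1 n
  obtain ⟨S2, hok⟩ := ev_ok (n + 1) 136
  refine ⟨max S1 S2, fun S X q U V W hS hX hq hW hV hU hWX hqU => ?_⟩
  obtain ⟨ok, hC⟩ := hok S ((le_max_right _ _).trans hS)
  have hS2 : 2 ≤ S := ok.two
  have hS0 : (0 : ℝ) < S := by linarith
  have hp1 : 1 ≤ S ^ (7 * i + 8) := Nat.one_le_pow _ _ (by omega)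
  have hX2 : 2 * X ≤ S ^ (n + 1) := by
    rw [pow_succ, mul_comm (S ^ n)]
    exact Nat.mul_le_mul hS2 hX
  have hqX : q ≤ X := by
    have a1 : 1 ≤ W ^ i := Nat.one_le_pow _ _ hW
    calc q = 1 * q * 1 := by ring
      _ ≤ W ^ i * q * S ^ (7 * i + 8) := by gcongr
      _ ≤ X := hWX
  have : NeZero q := ⟨by omega⟩
  have hmu : ∀ (χ : DirichletCharacter ℂ q) (Y Y' W : ℕ), Y ≤ Y' → 1 ≤ W → W ^ i ≤ Y' →
      ‖∑ m ∈ Icc 1 Y, (μ m : ℂ) * χ m‖ ≤ S * Y' / W := by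
    intro χ Y Y' W a1 a2 a3
    have := h1 S q χ 0 Y Y' W ((le_max_left _ _).trans hS) (hqX.trans hX)
      (by rw [abs_zero]; positivity) a1 a2 a3
    simpa only [nit_zero, mul_one] using this
  obtain ⟨β, hβ⟩ : ∃ β : ℕ → ℝ, β = fun l => if l ≤ 2 * X then laG U l / S else 0 := ⟨_, rfl⟩
  have b1 : ∀ l, |β l| ≤ 1 := by
    intro l
    rw [hβ]
    dsimp only
    split_ifs with hl
    · obtain ⟨c1, c2, -⟩ := h3.2.2.1 U l
      have := ok.log (hl.trans hX2)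
      rw [abs_of_nonneg (by positivity), div_le_one hS0]
      linarith
    · simp
  have b2 : ∀ l, β l ≠ 0 → U < l := by
    intro l hl
    refine (h3.2.2.1 U l).2.2 fun h0 => hl ?_
    rw [hβ]
    simp [h0]
  have key : ∀ m ∈ Ico X (2 * X), cv (muG V) (laG U) m =
      S * ∑ j ∈ DI V (2 * X / U), cv (dy (muG V) (V * 2 ^ j)) β m := by
    intro m hm
    obtain ⟨-, hm2⟩ := mem_Ico.1 hm
    rw [← cv_dy (by omega) (fun k hk => lt_of_muG hk) fun k l hkl _ hl => ?_]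
    · unfold cv
      rw [mul_sum]
      refine sum_congr rfl fun x hx => ?_
      have hx2 : x.2 ≤ 2 * X := (Nat.le_of_dvd
        (Nat.pos_of_ne_zero (Nat.mem_divisorsAntidiagonal.1 hx).2)
        (Nat.snd_mem_divisors_of_mem_antidiagonal hx |> Nat.dvd_of_mem_divisors)).trans hm2.le
      rw [hβ]
      dsimp only
      rw [if_pos hx2]
      field_simp
    · rw [Nat.le_div_iff_mul_le (by omega)]
      have := Nat.mul_le_mul_left k (b2 l hl).le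
      omega
  have key2 : ∀ c, cl X q (cv (muG V) (laG U)) c =
      S * ∑ j ∈ DI V (2 * X / U), cl X q (cv (dy (muG V) (V * 2 ^ j)) β) c := by
    intro c
    unfold cl
    rw [sum_comm, mul_sum]
    exact sum_congr rfl fun m hm => key m (mem_filter.1 hm).1
  have hpc : ∀ j ∈ DI V (2 * X / U),
      ∑ c ∈ RR q, |cl X q (cv (dy (muG V) (V * 2 ^ j)) β) c| ≤ 68 * (X / (S : ℝ) ^ 6) := by
    intro j hj
    have p1 : V ≤ V * 2 ^ j := Nat.le_mul_of_pos_right _ (by positivity)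
    have p2 : V * 2 ^ j * U ≤ 2 * X :=
      (Nat.le_div_iff_mul_le (by omega)).1 (lt_of_mem_DI hj).le
    obtain ⟨W', w1, w2, w3⟩ := choose_w hS2 hq hW (hV.trans p1) p2 hWX hqU
    refine piece h2 β hS2 hq (by omega) p1 ?_ w1 w2 w3 b1 hmu
    have p3 : 2 * S ^ 7 ≤ U := by
      refine le_trans ?_ hU
      calc 2 * S ^ 7 ≤ S * S ^ 7 := Nat.mul_le_mul_right _ hS2
        _ = S ^ 8 := by ring
        _ ≤ S ^ (7 * i + 8) := Nat.pow_le_pow_right (by omega) (by omega)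
    have p4 : V * 2 ^ j * (2 * S ^ 7) ≤ V * 2 ^ j * U := Nat.mul_le_mul_left _ p3
    have p5 : V * 2 ^ j * (2 * S ^ 7) = 2 * (V * 2 ^ j * S ^ 7) := by ring
    omega
  have hcard : ((DI V (2 * X / U)).card : ℝ) ≤ 2 * S := by
    have := (card_DI_le V (2 * X / U)).trans (ok.lg ((Nat.div_le_self _ _).trans hX2))
    exact_mod_cast this
  calc _ ≤ ∑ c ∈ RR q, S * ∑ j ∈ DI V (2 * X / U), |cl X q (cv (dy (muG V) (V * 2 ^ j)) β) c| := by
        refine sum_le_sum fun c _ => ?_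
        rw [key2, abs_mul, abs_of_pos hS0]
        exact mul_le_mul_of_nonneg_left (abs_sum_le_sum_abs _ _) hS0.le
    _ = S * ∑ j ∈ DI V (2 * X / U), ∑ c ∈ RR q, |cl X q (cv (dy (muG V) (V * 2 ^ j)) β) c| := by
        rw [← mul_sum, sum_comm]
    _ ≤ S * ((DI V (2 * X / U)).card * (68 * (X / (S : ℝ) ^ 6))) := by
        refine mul_le_mul_of_nonneg_left ?_ hS0.le
        have := sum_le_card_nsmul _ _ _ hpc
        rwa [nsmul_eq_mul] at this
    _ ≤ S * (2 * S * (68 * (X / (S : ℝ) ^ 6))) := by gcongr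
    _ = 136 / S ^ 3 * (X / S) := by field_simp; ring
    _ ≤ 1 * (X / S) := by
        gcongr
        rw [div_le_one (by positivity)]
        calc (136 : ℝ) ≤ S := hC
          _ = S ^ 1 := (pow_one _).symm
          _ ≤ S ^ 3 := pow_le_pow_right₀ (by linarith) (by norm_num)
    _ = _ := one_mul _

end Pool.Agent.P.MP_746f10_nt.HL
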