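import Pool.Agent.P.MP_746f10_nt.HL.Base

/-! The model in residue classes, and periodic test functions for a small modulus. -/

namespace Pool.Agent.P.MP_746f10_nt.HL

open Finset
open Pool.Agent.P.MP_746f10_nt.AP Pool.Agent.P.MP_746f10_nt.AZ
open Pool.Agent.P.MP_746f10_nt.AP.TIaP (cq)
open Pool.Agent.P.MP_0ad054_nt (e e_add)
open scoped ArithmeticFunction.vonMangoldt ArithmeticFunction.Moebius

namespace BDP

/-- a residue class in an interval is a progression -/
lemma cl_eq (X : ℕ) {M c : ℕ} (hc : c < M) : ∃ x I : ℕ, |(I : ℝ) - X / M| ≤ 1 ∧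
    ∀ h : ℕ → ℝ, cl X M h c = ∑ i ∈ range I, h (M * (x + i) + c) := by
  have hM : 0 < M := by omega
  obtain ⟨t, rfl⟩ : ∃ t, M = c + t + 1 := ⟨M - c - 1, by omega⟩
  set M := c + t + 1 with hMe
  have key : ∀ Y i : ℕ, (Y + t) / M ≤ i ↔ Y ≤ M * i + c := fun Y i => by
    rw [← Nat.lt_succ_iff, Nat.div_lt_iff_lt_mul hM, Nat.succ_mul, mul_comm i M]
    omega
  obtain ⟨I, hI⟩ := Nat.exists_eq_add_of_le
    (Nat.div_le_div_right (c := M) (show X + t ≤ 2 * X + t by omega))
  refine ⟨(X + t) / M, I, ?_, fun h => ?_⟩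
  · have a1 := Nat.div_add_mod (X + t) M
    have a2 := Nat.div_add_mod (2 * X + t) M
    have a3 := Nat.mod_lt (X + t) hM
    have a4 := Nat.mod_lt (2 * X + t) hM
    rw [hI, mul_add] at a2
    have b1 : M * I ≤ X + M := by omega
    have b2 : X ≤ M * I + M := by omega
    have hM' : (0 : ℝ) < M := by exact_mod_cast hM
    have c1 : (M : ℝ) * I ≤ X + M := by exact_mod_cast b1
    have c2 : (X : ℝ) ≤ M * I + M := by exact_mod_cast b2
    rw [abs_le, le_sub_comm, sub_le_comm, div_le_iff₀ hM', le_div_iff₀ hM']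
    constructor <;> linarith
  · refine (sum_nbij' (fun i => M * ((X + t) / M + i) + c) (fun m => m / M - (X + t) / M)
      (fun i hi => ?_) (fun m hm => ?_) (fun i _ => ?_) (fun m hm => ?_) fun _ _ => rfl).symm
    · refine mem_filter.2 ⟨mem_Ico.2 ⟨(key _ _).1 (Nat.le_add_right _ _), not_le.1 fun e => ?_⟩,
        by rw [Nat.mul_add_mod, Nat.mod_eq_of_lt hc]⟩
      have := (key _ _).2 e
      have := mem_range.1 hi
      omega
    · obtain ⟨m1, m2⟩ := mem_filter.1 hm
      have e := Nat.div_add_mod m M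
      rw [m2] at e
      have f1 := (key X (m / M)).2 ((mem_Ico.1 m1).1.trans e.ge)
      have f2 := mt (key (2 * X) (m / M)).1 (not_le.2 (e.trans_lt (mem_Ico.1 m1).2))
      exact mem_range.2 (by omega)
    · rw [Nat.mul_add_div hM, Nat.div_eq_of_lt hc, add_zero, Nat.add_sub_cancel_left]
    · obtain ⟨m1, m2⟩ := mem_filter.1 hm
      have e := Nat.div_add_mod m M
      rw [m2] at e
      rw [Nat.add_sub_cancel' ((key X (m / M)).2 ((mem_Ico.1 m1).1.trans e.ge)), e]

lemma per {g : ℕ → ℝ} {q : ℕ} (hq : 1 ≤ q) (h0 : ∀ z, ∑ i ∈ range q, g (z + i) = 0)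
    (h1 : ∀ i, |g i| ≤ 1) (I : ℕ) : |∑ i ∈ range I, g i| ≤ q := by
  have key : ∀ r k, ∑ i ∈ range (r + q * k), g i = ∑ i ∈ range r, g i := fun r k => by
    induction k with
    | zero => simp
    | succ k ih => rw [mul_add, mul_one, ← add_assoc, sum_range_add, ih, h0, add_zero]
  rw [← Nat.mod_add_div I q, key]
  refine (abs_sum_le_sum_abs _ _).trans ((sum_le_card_nsmul _ _ _ fun i _ => h1 i).trans ?_)
  simpa using (Nat.mod_lt I hq).le

lemma zero (h : T_Cr) {a d R q : ℕ} (hq : q ∈ SQ a R) (hd : ¬ q ∣ d) (m : ℕ) :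
    ∑ i ∈ range q, rn q (m + a * d * i) = 0 := by
  obtain ⟨⟨h1, -⟩, h2, h3⟩ := mem_SQ.1 hq
  rw [← Complex.ofReal_eq_zero, Complex.ofReal_sum]
  simp only [h.1 q _ h2, ← mul_sum, cq]
  rw [sum_comm, sum_eq_zero fun r hr => ?_, mul_zero]
  have e1 : ∀ i : ℕ, e ((r : ℝ) * (m + a * d * i : ℕ) / q) =
      e ((r : ℝ) * m / q) * e ((i : ℝ) * (r * (a * d) : ℕ) / q) := fun i => by
    rw [← e_add]; congr 1; push_cast; ring
  simp only [e1, ← mul_sum]
  rw [TIaP.sum_e h1, dd, if_neg fun e2 => hd (h3.dvd_of_dvd_mul_left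
    ((mem_filter.1 hr).2.symm.dvd_of_dvd_mul_left e2))]
  simp

lemma col {a N d b : ℕ} {H φ : ℕ → ℝ} (hd : 1 ≤ d) (hba : b < a)
    (hφ : ∀ n n', n ≡ n' [MOD d] → φ n = φ n') :
    ∑ n ∈ Ico N (2 * N), H (a * n + b) * φ n =
      ∑ c ∈ (range (a * d)).filter (fun c => c % a = b), φ (c / a) * cl (a * N) (a * d) H c := by
  have ha : 0 < a := by omega
  have h1 : ∑ n ∈ Ico N (2 * N), H (a * n + b) * φ n =
      ∑ n ∈ Ico N (2 * N), (fun m => H m * φ (m / a)) (a * n + b) := by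
    refine sum_congr rfl fun n _ => ?_
    show _ = H (a * n + b) * φ ((a * n + b) / a)
    rw [Nat.mul_add_div ha, Nat.div_eq_of_lt hba, add_zero]
  rw [h1.trans (sum_col hba N (2 * N) fun m => H m * φ (m / a)),
    show a * (2 * N) = 2 * (a * N) by ring, sum_filter]
  unfold cl
  simp_rw [mul_sum, sum_filter (s := Ico (a * N) (2 * (a * N)))]
  rw [sum_comm]
  refine sum_congr rfl fun m _ => ?_
  rw [sum_ite_eq]
  have hm : m % (a * d) % a = m % a := Nat.mod_mod_of_dvd _ (dvd_mul_right a d)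
  have hq : φ (m % (a * d) / a) = φ (m / a) := by
    rw [Nat.mod_mul_right_div_self]
    exact hφ _ _ (Nat.mod_modEq _ _)
  simp only [mem_filter, hm, hq, mem_range, Nat.mod_lt _ (Nat.mul_pos ha hd), true_and, mul_comm]

end BDP

open BDP

theorem yGAP (h : T_Cr) : T_GAP := by
  intro a N d R c ha hd hR hc hlt
  obtain ⟨x, I, hI, hcl⟩ := cl_eq (a * N) hlt
  have ha' : (0 : ℝ) < a := by exact_mod_cast ha
  have hA : (0 : ℝ) ≤ a / a.totient := by positivity
  have hcard : ∀ p : ℕ → Prop, ∀ [DecidablePred p], (((SQ a R).filter p).card : ℝ) ≤ R :=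
    fun p _ => by exact_mod_cast (card_filter_le _ _).trans (card_SQ_le a R)
  rw [show ((a * N : ℕ) : ℝ) / (a * d : ℕ) = N / d by push_cast; field_simp] at hI
  have e1 : ∀ q ∈ (SQ a R).filter (fun q => q ∣ d),
      ∑ i ∈ range I, rn q (a * d * (x + i) + c) = I * rn q c := fun q hq => by
    rw [sum_congr rfl fun i _ => rn_congr (m' := c) ?_, sum_const, card_range, nsmul_eq_mul]
    exact (Nat.modEq_iff_dvd' (Nat.le_add_left _ _)).2 (by
      rw [Nat.add_sub_cancel]
      exact (((mem_filter.1 hq).2.mul_left a).mul_right _)) |>.symm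
  have b1 : |∑ q ∈ (SQ a R).filter (fun q => q ∣ d), rn q c| ≤ R :=
    (abs_sum_le_sum_abs _ _).trans ((sum_le_card_nsmul _ _ _ fun q _ => abs_rn_le q c).trans
      (by simpa using hcard _))
  have b2 : |∑ q ∈ (SQ a R).filter (fun q => ¬ q ∣ d),
      ∑ i ∈ range I, rn q (a * d * (x + i) + c)| ≤ (R : ℝ) ^ 2 := by
    refine (abs_sum_le_sum_abs _ _).trans ((sum_le_card_nsmul _ _ (R : ℝ) fun q hq => ?_).trans ?_)
    · obtain ⟨h1, h2⟩ := mem_filter.1 hq
      refine (per (mem_SQ.1 h1).1.1 (fun z => ?_) (fun i => abs_rn_le _ _) I).trans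
        (Nat.cast_le.2 (mem_SQ.1 h1).1.2)
      rw [← zero h h1 h2 (a * d * (x + z) + c)]
      exact sum_congr rfl fun i _ => by congr 1; ring
    · rw [nsmul_eq_mul, sq]
      exact mul_le_mul_of_nonneg_right (hcard _) (Nat.cast_nonneg R)
  rw [hcl, ← h.2.1 a d R c ha hd hR hc]
  simp only [mo, ← mul_sum]
  rw [sum_comm, ← sum_filter_add_sum_filter_not (SQ a R) (fun q => q ∣ d), sum_congr rfl e1,
    ← mul_sum, mul_left_comm, ← mul_sub, abs_mul, abs_of_nonneg hA, add_sub_right_comm, ← sub_mul,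
    add_comm ((R : ℝ) ^ 2)]
  refine mul_le_mul_of_nonneg_left ((abs_add_le _ _).trans (add_le_add ?_ b2)) hA
  rw [abs_mul]
  exact (mul_le_mul hI b1 (abs_nonneg _) zero_le_one).trans_eq (one_mul _)

theorem yBD (h1 : T_BDL) (h2 : T_GAP) : T_BD := by
  obtain ⟨i, j, h1⟩ := h1
  refine ⟨i, 2 * j + 4, fun n => ?_⟩
  obtain ⟨S1, h1⟩ := h1 (3 * n)
  obtain ⟨S2, hok⟩ := ev_ok (2 * n) 0
  refine ⟨max S1 S2, fun S a N d E R W φ hS hN haN hd hE hR hW c1 c2 c3 hφ hφ1 => ?_⟩
  obtain ⟨hS1, hS2⟩ := max_le_iff.1 hS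
  have ok := (hok S hS2).1
  have S2' := ok.two
  rcases Nat.eq_zero_or_pos a with rfl | ha
  · simp [RU]
  have p1 : (S ^ 2) ^ j ≤ S ^ (2 * j + 4) := by
    rw [← pow_mul]; exact Nat.pow_le_pow_right (by omega) (by omega)
  have p2 : 4 * S ^ 2 ≤ S ^ (2 * j + 4) := by
    calc 4 * S ^ 2 ≤ S ^ 2 * S ^ 2 := by gcongr; nlinarith
      _ = S ^ 4 := by ring
      _ ≤ _ := Nat.pow_le_pow_right (by omega) (by omega)
  have hdN : d < N := by
    have : 1 * E * (4 * 1) ≤ W ^ i * E * S ^ (2 * j + 4) := by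
      gcongr
      · exact Nat.one_le_pow _ _ hW
      · nlinarith
    omega
  have had : 1 ≤ a * d := Nat.mul_pos ha hd
  have k1 := h1 (S ^ 2) (a * N) (a * d) W (by nlinarith) (by
      calc a * N ≤ (S ^ n) ^ 2 * S ^ n := by gcongr; exact haN.trans (by gcongr)
        _ = S ^ (3 * n) := by ring
        _ ≤ _ := by gcongr; nlinarith) had hW (by
      calc _ = a * (W ^ i * d * (S ^ 2) ^ j) := by ring
        _ ≤ a * (W ^ i * E * S ^ (2 * j + 4)) := by gcongr
        _ ≤ _ := by gcongr) (by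
      calc _ = a * (a * d ^ 2 * (S ^ 2) ^ j) := by ring
        _ ≤ a * (a * E ^ 2 * S ^ (2 * j + 4)) := by gcongr
        _ ≤ a * (N * W) := by gcongr
        _ = _ := by ring)
  have hA := ok.tot (a := a) (haN.trans (by rw [mul_comm, pow_mul]; gcongr))
  have s0 : (0 : ℝ) < S := by exact_mod_cast (by omega : 0 < S)
  have d0 : (0 : ℝ) < d := by exact_mod_cast hd
  have k2 : ∑ c ∈ range (a * d), |cl (a * N) (a * d) th c - N / d * mq (a * d) c| ≤
      a * N / (2 * S) := by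
    rw [← sum_filter_of_ne (p := fun c => c.Coprime (a * d)) fun c hc h0 => ?_]
    · refine le_trans (le_of_eq (sum_congr rfl fun c hc => ?_)) (k1.trans ?_)
      · rw [mq, cp_of (mem_filter.1 hc).2]
        congr 2
        push_cast
        field_simp
      · have := ok.two'
        push_cast
        gcongr
        nlinarith
    · refine by_contra fun hn => h0 ?_
      rw [mq, cp_of_not hn, cl, sum_eq_zero fun m hm => ?_]
      · simp
      obtain ⟨m1, m2⟩ := mem_filter.1 hm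
      rw [← cp_mul_th had ((Nat.mul_lt_mul_of_pos_left hdN ha).trans_le (mem_Ico.1 m1).1),
        cp_of_not fun e => hn (m2 ▸ (coprime_mod _ _).2 e), zero_mul]
  have k3 : (a * d : ℕ) * (S * ((R : ℝ) ^ 2 + R)) ≤ a * N / (2 * S) := by
    have r1 : 1 ≤ R := by omega
    have : a * d * (S * (R ^ 2 + R)) * (2 * S) ≤ a * N := by
      calc _ ≤ a * R * (S * (R ^ 2 + R ^ 2)) * (2 * S) := by
            gcongr
            · omega
            · nlinarith
        _ = a * (R ^ 3 * (4 * S ^ 2)) := by ring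
        _ ≤ a * (R ^ 3 * S ^ (2 * j + 4)) := by gcongr
        _ ≤ _ := by gcongr
    rw [le_div_iff₀ (by positivity)]
    exact_mod_cast this
  calc _ ≤ ∑ b ∈ RU a, ∑ c ∈ (range (a * d)).filter (fun c => c % a = b),
        (|cl (a * N) (a * d) th c - N / d * mq (a * d) c| + S * ((R : ℝ) ^ 2 + R)) := by
        refine sum_le_sum fun b hb => ?_
        obtain ⟨b1, b2⟩ := mem_RU.1 hb
        rw [col (H := fun m => th m - mo a R m) hd (mem_Ico.1 b1).2 hφ]
        refine (abs_sum_le_sum_abs _ _).trans (sum_le_sum fun c hc => ?_)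
        obtain ⟨c4, c5⟩ := mem_filter.1 hc
        have g := h2 a N d R c ha hd (hE.trans hR) ((coprime_mod a c).1 (c5 ▸ b2)) (mem_range.1 c4)
        rw [abs_mul, cl_sub]
        refine (mul_le_of_le_one_left (abs_nonneg _) (hφ1 _)).trans
          ((abs_sub_le _ (N / d * mq (a * d) c) _).trans (add_le_add le_rfl ?_))
        rw [abs_sub_comm]
        exact g.trans (by gcongr)
    _ ≤ ∑ c ∈ range (a * d),
        (|cl (a * N) (a * d) th c - N / d * mq (a * d) c| + S * ((R : ℝ) ^ 2 + R)) := by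
        rw [sum_fiberwise_eq_sum_filter]
        exact sum_le_sum_of_subset_of_nonneg (filter_subset _ _) fun _ _ _ => by positivity
    _ ≤ a * N / (2 * S) + a * N / (2 * S) := by
        rw [sum_add_distrib, sum_const, card_range, nsmul_eq_mul]
        exact add_le_add k2 k3
    _ = _ := by field_simp; ring

end Pool.Agent.P.MP_746f10_nt.HL
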