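import Pool.Agent.P.MP_746f10_nt.HL.Base

/-! Equidistribution of the primes in the reduced classes, on average over the classes. -/

namespace Pool.Agent.P.MP_746f10_nt.HL

open Finset
open Pool.Agent.P.MP_746f10_nt.AP Pool.Agent.P.MP_746f10_nt.AZ
open scoped ArithmeticFunction.vonMangoldt ArithmeticFunction.Moebius

namespace BDLP

variable {X q d c : ℕ}

lemma base (hq : 1 ≤ q) (hd : 1 ≤ d) (hc : c ∈ RR q) (x : ℕ) (hx : X ≤ x) :
    |∑ m ∈ Ico X x, ((if m % q = c then dd m d else 0) - cp q d / (q * d))| ≤ 1 := by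
  by_cases h : d.Coprime q
  · obtain ⟨c', h1, h2⟩ := Nat.chineseRemainder h.symm c 0
    have e : ∀ m, (if m % q = c then dd m d else 0) =
        if m ≡ c' [MOD q * d] then (1 : ℝ) else 0 := by
      intro m
      have a1 : m ≡ c' [MOD q] ↔ m ≡ c [MOD q] := ⟨fun h => h.trans h1, fun h => h.trans h1.symm⟩
      have a2 : m ≡ c' [MOD d] ↔ d ∣ m := by
        rw [← Nat.modEq_zero_iff_dvd]
        exact ⟨fun h => h.trans h2, fun h => h.trans h2.symm⟩
      simp only [← Nat.modEq_and_modEq_iff_modEq_mul h.symm, mod_eq_iff (mem_RR.1 hc).1, a1, a2, dd,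
        ite_and]
    have := count_class (q := q * d) (Nat.mul_pos hq hd) c' hx
    simp only [e, cp_of h, sum_sub_distrib, sum_const, Nat.card_Ico, nsmul_eq_mul,
      Nat.cast_sub hx]
    push_cast at this
    rwa [mul_one_div]
  · rw [sum_eq_zero]
    · simp
    intro m _
    rw [cp_of_not h, zero_div, sub_zero]
    split_ifs with h1
    · exact if_neg fun h2 => h ((coprime_of_mod hc h1).coprime_dvd_left h2)
    · rfl

lemma cl_eq (ω : ℕ → ℝ) : cl X q (fun m => ω m * dd m d) c -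
    cp q d / (q * d) * ∑ m ∈ Ico X (2 * X), ω m =
    ∑ m ∈ Ico X (2 * X), ω m * ((if m % q = c then dd m d else 0) - cp q d / (q * d)) := by
  unfold cl
  rw [sum_filter, mul_sum, ← sum_sub_distrib]
  refine sum_congr rfl fun m _ => ?_
  split_ifs <;> ring

lemma lin1 (hq : 1 ≤ q) (hd : 1 ≤ d) (hc : c ∈ RR q) :
    |cl X q (fun m => 1 * dd m d) c - cp q d / (q * d) * ∑ _m ∈ Ico X (2 * X), 1| ≤ 1 := by
  rw [cl_eq fun _ => 1]
  simpa only [one_mul] using base hq hd hc (2 * X) (by omega)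

lemma lin2 (hX : 1 ≤ X) (hq : 1 ≤ q) (hd : 1 ≤ d) (hc : c ∈ RR q) :
    |cl X q (fun m => Real.log m * dd m d) c -
      cp q d / (q * d) * ∑ m ∈ Ico X (2 * X), Real.log m| ≤ 2 * Real.log (2 * X : ℕ) := by
  rw [cl_eq fun m => Real.log m]
  have h0 := Real.log_natCast_nonneg (2 * X)
  have h1 := abel_le_real (fun m => (if m % q = c then dd m d else 0) - cp q d / (q * d))
    (fun m => max 0 (Real.log (2 * X : ℕ) - Real.log m)) X (2 * X) 1 (fun _ _ => le_max_left _ _)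
    (fun m hm => max_le_max le_rfl (sub_le_sub_left (Real.log_le_log
      (by exact_mod_cast (show 0 < m by omega)) (by push_cast; linarith)) _))
    (fun x hx _ => base hq hd hc x hx) (by omega)
  have h2 := base hq hd hc (2 * X) (show X ≤ 2 * X by omega)
  have h3 : max 0 (Real.log (2 * X : ℕ) - Real.log X) ≤ Real.log (2 * X : ℕ) :=
    max_le h0 (by linarith [Real.log_natCast_nonneg X])
  have e : ∑ m ∈ Ico X (2 * X), Real.log m *
      ((if m % q = c then dd m d else 0) - cp q d / (q * d)) =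
      Real.log (2 * X : ℕ) * ∑ m ∈ Ico X (2 * X),
        ((if m % q = c then dd m d else 0) - cp q d / (q * d)) -
      ∑ m ∈ Ico X (2 * X), max 0 (Real.log (2 * X : ℕ) - Real.log m) *
        ((if m % q = c then dd m d else 0) - cp q d / (q * d)) := by
    rw [mul_sum, ← sum_sub_distrib]
    refine sum_congr rfl fun m hm => ?_
    have := mem_Ico.1 hm
    rw [max_eq_right (sub_nonneg.2 (Real.log_le_log
      (by exact_mod_cast (show 0 < m by omega)) (by exact_mod_cast this.2.le)))]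
    ring
  rw [e]
  refine (abs_sub _ _).trans ?_
  rw [abs_mul, abs_of_nonneg h0]
  have := mul_le_mul_of_nonneg_left h2 h0
  linarith

lemma lin (ω γ : ℕ → ℝ) (D : ℕ) (B G : ℝ) (hγ : ∀ d ∈ Icc 1 D, |γ d| ≤ G)
    (h : ∀ d ∈ Icc 1 D, |cl X q (fun m => ω m * dd m d) c -
      cp q d / (q * d) * ∑ m ∈ Ico X (2 * X), ω m| ≤ B) :
    |cl X q (fun m => ω m * ∑ d ∈ Icc 1 D, γ d * dd m d) c -
      ∑ d ∈ Icc 1 D, γ d * (cp q d / (q * d) * ∑ m ∈ Ico X (2 * X), ω m)| ≤ D * (G * B) := by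
  have e : cl X q (fun m => ω m * ∑ d ∈ Icc 1 D, γ d * dd m d) c =
      ∑ d ∈ Icc 1 D, γ d * cl X q (fun m => ω m * dd m d) c := by
    unfold cl
    simp only [mul_sum]
    rw [sum_comm]
    exact sum_congr rfl fun _ _ => sum_congr rfl fun _ _ => by ring
  rw [e, ← sum_sub_distrib]
  refine (abs_sum_le_sum_abs _ _).trans ((sum_le_card_nsmul _ _ (G * B) fun d hd => ?_).trans ?_)
  · rw [← mul_sub, abs_mul]
    exact mul_le_mul (hγ d hd) (h d hd) (abs_nonneg _) ((abs_nonneg _).trans (hγ d hd))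
  · simp

/-- the classes have a common main term -/
lemma vm (h1 : T_Vau) {S U V : ℕ} (hS : Ok S (2 * X)) (hq : 1 ≤ q) (hU : 1 ≤ U) (hUX : U < X)
    (hUV : U * V ≤ X) : ∃ μ0 : ℝ, ∀ c ∈ RR q, |cl X q (fun m => Λ m) c - μ0| ≤
      4 * S * (U * V) + |cl X q (cv (muG V) (laG U)) c| := by
  refine ⟨∑ d ∈ Icc 1 V, μ d * (cp q d / (q * d) * ∑ m ∈ Ico X (2 * X), Real.log m) -
    ∑ d ∈ Icc 1 (U * V), vg U V d * (cp q d / (q * d) * ∑ _m ∈ Ico X (2 * X), 1), fun c hc => ?_⟩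
  have a1 := lin (X := X) (q := q) (c := c) (fun m => Real.log m) (fun d => μ d) V (2 * S) 1
    (fun d _ => abs_mu_le d) fun d hd => (lin2 (by omega) hq (mem_Icc.1 hd).1 hc).trans (by
      have := hS.log le_rfl
      linarith)
  have a2 := lin (X := X) (q := q) (c := c) (fun _ => 1) (vg U V) (U * V) 1 (2 * S)
    (fun d hd => (h1.2.1 U V d).trans (by
      have := hS.log (m := d) (by have := (mem_Icc.1 hd).2; omega)
      linarith)) fun d hd => lin1 hq (mem_Icc.1 hd).1 hc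
  have e : cl X q (fun m => Λ m) c =
      cl X q (fun m => Real.log m * ∑ d ∈ Icc 1 V, (μ d : ℝ) * dd m d) c -
        cl X q (fun m => 1 * ∑ d ∈ Icc 1 (U * V), vg U V d * dd m d) c +
        cl X q (cv (muG V) (laG U)) c := by
    rw [← cl_sub, ← cl_add]
    refine cl_congr hc fun m hm _ => ?_
    rw [one_mul]
    exact h1.1 U V m hU (by have := (mem_Ico.1 hm).1; omega)
  have a3 : (V : ℝ) ≤ U * V := by exact_mod_cast Nat.le_mul_of_pos_left V hU
  have a4 : (V : ℝ) * (1 * (2 * S)) ≤ U * V * (1 * (2 * S)) := by gcongr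
  push_cast at a2
  rw [e, abs_le]
  have b1 := abs_le.1 a1
  have b2 := abs_le.1 a2
  have b3 := le_abs_self (cl X q (cv (muG V) (laG U)) c)
  have b4 := neg_abs_le (cl X q (cv (muG V) (laG U)) c)
  constructor <;> linarith

lemma pw (h1 : T_Vau) (hq : 1 ≤ q) : ∑ c ∈ RR q, |cl X q th c - cl X q (fun m => Λ m) c| ≤
    2 * √(2 * X : ℕ) * Real.log (2 * X : ℕ) := by
  have h0 : ∀ m, 0 ≤ Λ m - th m := fun m => sub_nonneg.2 (th_le_vm m)
  have e : ∀ c, |cl X q th c - cl X q (fun m => Λ m) c| = cl X q (fun m => Λ m - th m) c := by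
    intro c
    rw [abs_sub_comm, ← cl_sub]
    exact abs_of_nonneg (sum_nonneg fun m _ => h0 m)
  simp only [e]
  rw [← tot_eq hq]
  refine le_trans ?_ (h1.2.2.2 (2 * X))
  refine (sum_le_sum fun m _ => mul_le_of_le_one_left (h0 m) (cp_bd q m).2).trans
    (sum_le_sum_of_subset_of_nonneg (fun m hm => ?_) fun m _ _ => h0 m)
  have := mem_Ico.1 hm
  exact mem_range.2 (by omega)

lemma pin (hq : 1 ≤ q) (hqX : q < X) {μ0 δ δ' : ℝ} (h : ∑ c ∈ RR q, |cl X q th c - μ0| ≤ δ)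
    (h' : |∑ m ∈ Ico X (2 * X), th m - X| ≤ δ') :
    ∑ c ∈ RR q, |cl X q th c - X / q.totient| ≤ 2 * δ + δ' := by
  have t0 : (0 : ℝ) < q.totient := by exact_mod_cast Nat.totient_pos.2 hq
  have e : ∑ m ∈ Ico X (2 * X), th m = ∑ c ∈ RR q, cl X q th c := by
    rw [← tot_eq hq]
    exact sum_congr rfl fun m hm => (cp_mul_th hq (by have := (mem_Ico.1 hm).1; omega)).symm
  have a1 := (abs_sum_le_sum_abs _ _).trans h
  rw [sum_sub_distrib, ← e, sum_const, card_RR, nsmul_eq_mul] at a1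
  have a2 : q.totient * |μ0 - X / q.totient| ≤ δ + δ' := by
    rw [← abs_of_pos t0, ← abs_mul, abs_of_pos t0, mul_sub, mul_div_cancel₀ _ t0.ne', abs_le]
    have := abs_le.1 a1
    have := abs_le.1 h'
    constructor <;> linarith
  refine (sum_le_sum fun c _ => abs_sub_le _ μ0 _).trans ?_
  rw [sum_add_distrib, sum_const, card_RR, nsmul_eq_mul]
  linarith

end BDLP

theorem yBDL (h1 : T_Vau) (h2 : T_B2) (h3 : T_PN2) : T_BDL := by
  obtain ⟨i, p, h2⟩ := h2
  obtain ⟨j, h3⟩ := h3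
  refine ⟨i, 4 * p + 9 + 2 * j, fun n => ?_⟩
  obtain ⟨S1, h2⟩ := h2 n
  obtain ⟨S2, h3⟩ := h3 n
  obtain ⟨S3, h4⟩ := ev_ok (n + 1) 9
  refine ⟨max S1 (max S2 S3), fun S X q W hS hX hq hW g1 g2 => ?_⟩
  simp only [max_le_iff] at hS
  obtain ⟨ok, S9⟩ := h4 S hS.2.2
  have two := ok.two
  have hSS : S ≤ S ^ 2 := Nat.le_self_pow (by norm_num) S
  have hX2 : X ≤ (S ^ 2) ^ n := hX.trans (Nat.pow_le_pow_left hSS n)
  have ok2 : Ok S (2 * X) := ok.mono (by rw [pow_succ]; nlinarith)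
  have g3 : ∀ k, k ≤ 4 * p + 9 + 2 * j → W ^ i * q * S ^ k ≤ X := fun k hk =>
    (Nat.mul_le_mul_left _ (Nat.pow_le_pow_right (by omega) hk)).trans g1
  have g4 : ∀ k, k ≤ 4 * p + 9 + 2 * j → q * S ^ k ≤ X := fun k hk =>
    le_trans (by rw [mul_assoc]; exact Nat.le_mul_of_pos_left _ (by positivity)) (g3 k hk)
  have g5 : ∀ k, k ≤ 4 * p + 9 + 2 * j → S ^ k ≤ X := fun k hk =>
    (Nat.le_mul_of_pos_left _ hq).trans (g4 k hk)
  obtain ⟨V, hV⟩ : ∃ V, V = (S ^ 2) ^ p := ⟨_, rfl⟩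
  have V0 : 1 ≤ V := by rw [hV]; exact Nat.pos_of_ne_zero (by positivity)
  obtain ⟨U, hU⟩ : ∃ U, U = X / (q * V * S ^ 4) := ⟨_, rfl⟩
  have M0 : 0 < q * V * S ^ 4 := by positivity
  have u1 : V ≤ U := by
    rw [hU, Nat.le_div_iff_mul_le M0]
    refine le_trans (le_of_eq ?_) (g4 (4 * p + 4) (by omega))
    rw [hV]; ring
  have u2 : U * (q * V * S ^ 4) ≤ X := hU ▸ Nat.div_mul_le_self _ _
  have u3 : X ≤ S * U * (q * V * S ^ 4) := by
    have := Nat.lt_mul_div_succ X M0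
    rw [← hU] at this
    have : U + 1 ≤ S * U := by nlinarith
    nlinarith
  have u4 : q * V ≤ U * W := by
    refine Nat.le_of_mul_le_mul_left (c := S * (q * V * S ^ 4)) ?_ (by positivity)
    calc _ = q ^ 2 * S ^ (4 * p + 5) := by rw [hV]; ring
      _ ≤ q ^ 2 * S ^ (4 * p + 9 + 2 * j) :=
        Nat.mul_le_mul_left _ (Nat.pow_le_pow_right (by omega) (by omega))
      _ ≤ S * U * (q * V * S ^ 4) * W := g2.trans (Nat.mul_le_mul_right _ u3)
      _ = _ := by ring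
  have s4 : 2 ≤ S ^ 4 := two.trans (Nat.le_self_pow (by norm_num) S)
  have u5 : U * V * 2 ≤ X := by
    refine le_trans ?_ u2
    calc U * V * 2 = U * (1 * V * 2) := by ring
      _ ≤ _ := by gcongr
  have u6 : U ≤ U * V := Nat.le_mul_of_pos_right _ V0
  have b1 := h2 (S ^ 2) X q U V W (hS.1.trans hSS) hX2 hq hW hV.ge (hV ▸ u1)
    (by rw [← pow_mul]; exact g3 _ (by omega)) (hV ▸ u4)
  have b2 := h3 (S ^ 2) X X (2 * X) (hS.2.1.trans hSS) hX2
    (by rw [← pow_mul]; exact g5 _ (by omega)) (by omega) (by omega)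
  obtain ⟨μ0, b3⟩ := BDLP.vm h1 (U := U) (V := V) ok2 hq (by omega) (by omega) (by omega)
  have b4 := BDLP.pw (X := X) h1 hq
  have S0 : (0 : ℝ) < S := by linarith
  have X0 : (0 : ℝ) ≤ X := Nat.cast_nonneg X
  obtain ⟨Z, hZ⟩ : ∃ Z : ℝ, Z = X / S ^ 2 := ⟨_, rfl⟩
  have Z0 : 0 ≤ Z := by rw [hZ]; positivity
  push_cast at b1 b2
  rw [← hZ] at b1 b2
  have c1 : (q.totient : ℝ) * (4 * S * (U * V)) ≤ Z := by
    have e1 : (q.totient : ℝ) ≤ q := by exact_mod_cast Nat.totient_le q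
    have e2 : (U : ℝ) * (q * V * S ^ 4) ≤ X := by exact_mod_cast u2
    rw [hZ, le_div_iff₀ (by positivity)]
    calc _ ≤ (q : ℝ) * (S * S * (U * V)) * S ^ 2 := by gcongr; linarith
      _ = U * (q * V * S ^ 4) := by ring
      _ ≤ _ := e2
  have c2 : 2 * √(2 * X : ℕ) * Real.log (2 * X : ℕ) ≤ Z := by
    have e1 := ok2.log le_rfl
    have e2 : (S : ℝ) ^ 9 ≤ X := by exact_mod_cast g5 9 (by omega)
    have e3 : √(2 * X : ℕ) ≤ X / S ^ 4 := by
      refine Real.sqrt_le_iff.2 ⟨by positivity, ?_⟩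
      rw [div_pow, le_div_iff₀ (by positivity)]
      push_cast
      calc 2 * (X : ℝ) * ((S : ℝ) ^ 4) ^ 2 ≤ S * X * ((S : ℝ) ^ 4) ^ 2 := by gcongr; linarith
        _ = X * (S : ℝ) ^ 9 := by ring
        _ ≤ (X : ℝ) * X := by gcongr
        _ = _ := by ring
    have e4 := Real.log_natCast_nonneg (2 * X)
    calc _ ≤ S * (X / S ^ 4) * (S : ℝ) := by gcongr <;> linarith
      _ = Z := by rw [hZ]; field_simp
  have c3 : ∑ c ∈ RR q, |cl X q th c - μ0| ≤ 3 * Z := by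
    refine (sum_le_sum fun c _ => abs_sub_le _ (cl X q (fun m => Λ m) c) _).trans ?_
    have := sum_le_sum b3
    rw [sum_add_distrib, sum_const, card_RR, nsmul_eq_mul] at this
    rw [sum_add_distrib]
    linarith
  have c4 := BDLP.pin hq (δ' := Z) (by have := g4 1 (by omega); nlinarith) c3
    (by rwa [show 2 * (X : ℝ) - X = X by ring] at b2)
  refine c4.trans ?_
  have : X / (S : ℝ) = S * Z := by rw [hZ]; field_simp
  rw [this]
  nlinarith

end Pool.Agent.P.MP_746f10_nt.HL
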