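import Pool.Agent.P.MP_746f10_nt.HL.Defs

/-! Small facts on the definitions for the asymptotic formula. -/

namespace Pool.Agent.P.MP_746f10_nt.HL

open Finset Filter
open Pool.Agent.P.MP_746f10_nt.AP Pool.Agent.P.MP_746f10_nt.AZ
open scoped ArithmeticFunction.vonMangoldt ArithmeticFunction.Moebius

/-! ### Sizes -/

lemma div_totient_le_tau (a : ℕ) : (a : ℝ) / a.totient ≤ a.divisors.card := by
  rcases Nat.eq_zero_or_pos a with rfl | ha
  · simp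
  rw [div_le_iff₀ (by exact_mod_cast Nat.totient_pos.2 ha)]
  have h := sum_le_card_nsmul a.divisors Nat.totient a.totient fun d hd =>
    Nat.le_of_dvd (Nat.totient_pos.2 ha) (Nat.totient_dvd_of_dvd (Nat.dvd_of_mem_divisors hd))
  rw [Nat.sum_totient, smul_eq_mul] at h
  exact_mod_cast h

variable {S Y : ℕ}

lemma Ok.two (h : Ok S Y) : 2 ≤ S := h.1

lemma Ok.two' (h : Ok S Y) : (2 : ℝ) ≤ S := by exact_mod_cast h.1

lemma Ok.tau (h : Ok S Y) {m : ℕ} (hm : m ≤ Y) : (m.divisors.card : ℝ) ≤ S := by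
  exact_mod_cast h.2.1 m hm

lemma Ok.log (h : Ok S Y) {m : ℕ} (hm : m ≤ Y) : 1 + Real.log m ≤ S := by
  refine le_trans ?_ h.2.2
  rcases Nat.eq_zero_or_pos m with rfl | h0
  · simpa using Real.log_natCast_nonneg Y
  · have := Real.log_le_log (by exact_mod_cast h0) (show (m : ℝ) ≤ Y by exact_mod_cast hm)
    linarith

lemma Ok.mono (h : Ok S Y) {Y' : ℕ} (hY : Y' ≤ Y) : Ok S Y' :=
  ⟨h.1, fun m hm => h.2.1 m (hm.trans hY), h.log hY⟩

lemma Ok.tot (h : Ok S Y) {a : ℕ} (ha : a ≤ Y) : (a : ℝ) / a.totient ≤ S :=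
  (div_totient_le_tau a).trans (h.tau ha)

lemma Ok.lg (h : Ok S Y) {m : ℕ} (hm : m ≤ Y) : lg m + 1 ≤ 2 * S := by
  rcases Nat.eq_zero_or_pos m with rfl | h0
  · have := h.1
    have : AP.lg 0 = 0 := by simp [AP.lg]
    omega
  have h1 := lg_le_log h0
  have h2 := h.log hm
  have : ((AP.lg m + 1 : ℕ) : ℝ) ≤ (2 * S : ℕ) := by push_cast; linarith
  exact_mod_cast this

/-- for large `S` all powers are under control -/
lemma ev_ok (n : ℕ) (C : ℝ) : ∃ S0 : ℕ, ∀ S : ℕ, S0 ≤ S → Ok S (S ^ n) ∧ C ≤ S := by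
  obtain ⟨c, hc1, hc⟩ := exists_tau_le 2 n
  refine ⟨max (max 2 ⌈C⌉₊) (max ⌈c⌉₊ ((2 * n + 1) ^ 2)), fun S hS => ?_⟩
  simp only [max_le_iff] at hS
  obtain ⟨⟨h1, h2⟩, h3, h4⟩ := hS
  have S2 : (2 : ℝ) ≤ S := by exact_mod_cast h1
  refine ⟨⟨h1, fun m hm => ?_, ?_⟩, Nat.ceil_le.1 h2⟩
  · rcases Nat.eq_zero_or_pos m with rfl | h0
    · simp
    have h5 := hc m S h0.ne' (by linarith) (by exact_mod_cast hm)
    have h6 : c ≤ S := Nat.ceil_le.1 h3
    have h7 : (m.divisors.card : ℝ) ^ 2 ≤ (S : ℝ) ^ 2 := by nlinarith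
    exact_mod_cast (abs_le_of_sq_le_sq' h7 (by linarith)).2
  · have h5 : (2 * n + 1 : ℝ) ≤ √S := Real.le_sqrt_of_sq_le (by exact_mod_cast h4)
    have h6 := Real.log_le_sub_one_of_pos (Real.sqrt_pos.2 (by linarith : (0 : ℝ) < S))
    rw [Real.log_sqrt (by linarith)] at h6
    have h7 := Real.mul_self_sqrt (by linarith : (0 : ℝ) ≤ S)
    have h8 : (0 : ℝ) ≤ n := Nat.cast_nonneg n
    push_cast
    rw [Real.log_pow]
    nlinarith

variable {j a N : ℕ}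

lemma Reg.mono (h : Reg S j a N) {S' j' : ℕ} (h' : S' ^ j' ≤ S ^ j) : Reg S' j' a N :=
  ⟨(Nat.mul_le_mul_left _ h').trans h.1, (Nat.mul_le_mul_left _ h').trans h.2⟩

lemma Reg.pow_le (h : Reg S j a N) (hN : 1 ≤ N) : S ^ (3 * j) ≤ N := by
  refine le_of_mul_le_mul_left ?_ (show 0 < N ^ 2 by positivity)
  calc N ^ 2 * S ^ (3 * j) = (N * S ^ j) ^ 2 * S ^ j := by ring
    _ ≤ a ^ 2 * S ^ j := by gcongr; exact h.1
    _ ≤ N ^ 3 := h.2
    _ = _ := by ring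

lemma le_sq_of_sq_le_cube (h : a ^ 2 ≤ N ^ 3) : a ≤ N ^ 2 := by
  rcases Nat.eq_zero_or_pos N with rfl | h0
  · simpa using h
  refine (Nat.pow_le_pow_iff_left (n := 2) (by norm_num)).1 (h.trans ?_)
  rw [← pow_mul]
  exact Nat.pow_le_pow_right h0 (by norm_num)

lemma Reg.sq_le (h : Reg S j a N) (hS : 1 ≤ S) : a ^ 2 ≤ N ^ 3 :=
  (Nat.le_mul_of_pos_right _ (by positivity)).trans h.2

lemma Reg.a_le (h : Reg S j a N) (hS : 1 ≤ S) : a ≤ N ^ 2 := le_sq_of_sq_le_cube (h.sq_le hS)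

lemma Reg.N_le (h : Reg S j a N) (hS : 1 ≤ S) : N ≤ a :=
  (Nat.le_mul_of_pos_right _ (by positivity)).trans h.1

/-! ### The weights -/

lemma th_nonneg (m : ℕ) : 0 ≤ th m := mul_nonneg (pr1_bd m).1 (Real.log_natCast_nonneg m)

lemma th_le_log (m : ℕ) : th m ≤ Real.log m :=
  mul_le_of_le_one_left (Real.log_natCast_nonneg m) (pr1_bd m).2

lemma th_of_prime {m : ℕ} (h : m.Prime) : th m = Real.log m := by simp [th, pr1, h]

lemma th_of_not {m : ℕ} (h : ¬ m.Prime) : th m = 0 := by simp [th, pr1, h]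

lemma th_le_vm (m : ℕ) : th m ≤ Λ m := by
  by_cases h : m.Prime
  · rw [th_of_prime h, ArithmeticFunction.vonMangoldt_apply_prime h]
  · rw [th_of_not h]
    exact ArithmeticFunction.vonMangoldt_nonneg

/-- primes above the modulus are coprime to it -/
lemma cp_mul_th {M m : ℕ} (hM : 1 ≤ M) (h : M < m) : cp M m * th m = th m := by
  by_cases h1 : m.Prime
  · rw [cp_of ((Nat.Prime.coprime_iff_not_dvd h1).2 fun h2 => by
      have := Nat.le_of_dvd hM h2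
      omega), one_mul]
  · rw [th_of_not h1, mul_zero]

lemma abs_mu_le (d : ℕ) : |(μ d : ℝ)| ≤ 1 := by
  exact_mod_cast ArithmeticFunction.abs_moebius_le_one (n := d)

lemma abs_muG_le (V d : ℕ) : |muG V d| ≤ 1 := by
  unfold muG
  split_ifs
  · exact abs_mu_le d
  · simp

lemma lt_of_muG {V d : ℕ} (h : muG V d ≠ 0) : V < d := by
  by_contra h1
  exact h (if_neg h1)

lemma lf_of_dvd {p m : ℕ} (hp2 : 2 ≤ p) (h : p ∣ m) : lf p m = -1 := by
  have : (2 : ℝ) ≤ p := by exact_mod_cast hp2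
  unfold lf dd
  rw [if_pos h, div_eq_iff (by linarith)]
  ring

lemma lf_of_not {p m : ℕ} (h : ¬ p ∣ m) : lf p m = 1 / (p - 1) := by
  unfold lf dd
  rw [if_neg h, mul_zero, sub_zero]

lemma abs_lf_le {p : ℕ} (hp2 : 2 ≤ p) (m : ℕ) : |lf p m| ≤ 1 := by
  have : (2 : ℝ) ≤ p := by exact_mod_cast hp2
  by_cases h : p ∣ m
  · rw [lf_of_dvd hp2 h]; simp
  · rw [lf_of_not h, abs_of_nonneg (div_nonneg zero_le_one (by linarith))]
    exact (div_le_one (by linarith)).2 (by linarith)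

lemma lf_congr {p m m' : ℕ} (h : m ≡ m' [MOD p]) : lf p m = lf p m' := by
  unfold lf dd
  simp only [h.dvd_iff dvd_rfl]

lemma abs_rn_le (q m : ℕ) : |rn q m| ≤ 1 := by
  unfold rn
  rw [abs_prod]
  exact prod_le_one (fun _ _ => abs_nonneg _) fun p hp1 =>
    abs_lf_le (Nat.prime_of_mem_primeFactors hp1).two_le m

lemma rn_congr {q m m' : ℕ} (h : m ≡ m' [MOD q]) : rn q m = rn q m' :=
  prod_congr rfl fun _ hp1 => lf_congr (h.of_dvd (Nat.dvd_of_mem_primeFactors hp1))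

lemma mem_SQ {a R q : ℕ} : q ∈ SQ a R ↔ (1 ≤ q ∧ q ≤ R) ∧ Squarefree q ∧ q.Coprime a := by
  simp [SQ]

lemma card_SQ_le (a R : ℕ) : (SQ a R).card ≤ R :=
  (card_filter_le _ _).trans (by simp)

lemma mq_nonneg (M m : ℕ) : 0 ≤ mq M m := mul_nonneg (by positivity) (cp_bd M m).1

lemma mq_le (M m : ℕ) : mq M m ≤ M / M.totient :=
  mul_le_of_le_one_right (by positivity) (cp_bd M m).2

lemma abs_lfi_le {k : ℕ} (a b : Fin k → ℕ) (i : Fin k) {p : ℕ} (hp2 : 2 ≤ p) (n : ℕ) :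
    |lfi a b i p n| ≤ 1 := by
  unfold lfi
  split_ifs
  · simp
  · exact abs_lf_le hp2 _

lemma mI_empty {k : ℕ} (a b : Fin k → ℕ) {p : ℕ} (hp1 : 1 ≤ p) : mI a b p ∅ = 1 := by
  have : (0 : ℝ) < p := by exact_mod_cast hp1
  simp [mI, this.ne']

lemma nI_nonneg {k : ℕ} (a b : Fin k → ℕ) (p : ℕ) : 0 ≤ nI a b p :=
  sum_nonneg fun _ _ => abs_nonneg _

/-! ### The major family -/

lemma famQ_of_fam {a ρ : ℕ} {φ : ZMod a → ℂ} (h : φ ∈ Fam a ρ) :
    ∃ q, 1 ≤ q ∧ q ≤ ρ ∧ φ ∈ FamQ a ρ q := by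
  obtain ⟨q1, q2, r, ξ, χ, h1, h2, h3, h4, h5, h6⟩ := h
  exact ⟨q1 * q2, Nat.mul_pos h1 h2, h3, q1, q2, r, ξ, χ, h1, h2, rfl, h4, h5, h6⟩

lemma fam_of_famQ {a ρ q : ℕ} {φ : ZMod a → ℂ} (h : φ ∈ FamQ a ρ q) (hq1 : q ≤ ρ) :
    φ ∈ Fam a ρ := by
  obtain ⟨q1, q2, r, ξ, χ, h1, h2, h3, h4, h5, h6⟩ := h
  exact ⟨q1, q2, r, ξ, χ, h1, h2, h3 ▸ hq1, h4, h5, h6⟩

/-! ### Dyadic pieces -/

section dyadic
variable {R : Type} [CommSemiring R]

/-- restriction to a dyadic interval -/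
def dy (α : ℕ → R) (P k : ℕ) : R := if k ∈ Ioc P (2 * P) then α k else 0

lemma mem_of_dy {α : ℕ → R} {P k : ℕ} (h : dy α P k ≠ 0) : k ∈ Ioc P (2 * P) := by
  by_contra h1
  exact h (if_neg h1)

/-- the indices of the dyadic pieces between `V` and `Z` -/
def DI (V Z : ℕ) : Finset ℕ := (range (lg Z + 1)).filter fun i => V * 2 ^ i < Z

lemma card_DI_le (V Z : ℕ) : (DI V Z).card ≤ lg Z + 1 := (card_filter_le _ _).trans (by simp)

lemma lt_of_mem_DI {V Z i : ℕ} (h : i ∈ DI V Z) : V * 2 ^ i < Z := (mem_filter.1 h).2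

lemma sum_dy (α : ℕ → R) {V Z k : ℕ} (hV : 1 ≤ V) (h1 : V < k) (h2 : k ≤ Z) :
    ∑ i ∈ DI V Z, dy α (V * 2 ^ i) k = α k := by
  have hex : ∃ i, k ≤ 2 * (V * 2 ^ i) := ⟨k, by
    have := Nat.lt_two_pow_self (n := k)
    nlinarith⟩
  have a1 := Nat.find_spec hex
  have a2 : V * 2 ^ Nat.find hex < k := by
    rcases h : Nat.find hex with _ | i
    · simpa using h1
    · have := Nat.find_min hex (m := i) (by omega)
      rw [pow_succ]
      nlinarith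
  have a3 : Nat.find hex < lg Z + 1 := by
    refine (Nat.pow_lt_pow_iff_right (a := 2) (by norm_num)).1 (lt_trans ?_ (lt_two_pow_lg Z))
    have : 2 ^ Nat.find hex ≤ V * 2 ^ Nat.find hex := Nat.le_mul_of_pos_left _ hV
    omega
  have a4 : Nat.find hex ∈ DI V Z := mem_filter.2 ⟨mem_range.2 a3, by omega⟩
  rw [sum_eq_single_of_mem (Nat.find hex) a4]
  · exact if_pos (mem_Ioc.2 ⟨a2, a1⟩)
  · intro i _ hi
    refine if_neg fun h => ?_
    obtain ⟨b1, b2⟩ := mem_Ioc.1 h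
    rcases lt_or_gt_of_ne hi with h3 | h3
    · exact Nat.find_min hex h3 b2
    · have : V * 2 ^ (Nat.find hex + 1) ≤ V * 2 ^ i :=
        Nat.mul_le_mul_left _ (Nat.pow_le_pow_right (by norm_num) h3)
      rw [pow_succ] at this
      nlinarith

/-- dyadic decomposition of the first factor of a convolution -/
lemma cv_dy {α β : ℕ → R} {V Z m : ℕ} (hV : 1 ≤ V) (h1 : ∀ k, α k ≠ 0 → V < k)
    (h2 : ∀ k l, k * l = m → α k ≠ 0 → β l ≠ 0 → k ≤ Z) :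
    cv α β m = ∑ i ∈ DI V Z, cv (dy α (V * 2 ^ i)) β m := by
  unfold cv
  rw [sum_comm]
  refine sum_congr rfl fun x hx => ?_
  rw [← sum_mul]
  by_cases c1 : α x.1 = 0
  · simp [dy, c1]
  by_cases c2 : β x.2 = 0
  · simp [c2]
  rw [sum_dy α hV (h1 _ c1) (h2 _ _ (Nat.mem_divisorsAntidiagonal.1 hx).1 c1 c2)]

end dyadic

end Pool.Agent.P.MP_746f10_nt.HL
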