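import Pool.Agent.P.MP_746f10_nt.HL.Base
import Pool.Agent.P.MP_746f10_nt.AZ.Bil

/-! Bilinear sums with cancellation in one factor, on average over the reduced classes. -/

namespace Pool.Agent.P.MP_746f10_nt.HL

open Finset ComplexConjugate
open Pool.Agent.P.MP_746f10_nt.AP Pool.Agent.P.MP_746f10_nt.AZ
open Pool.Agent.P.MP_746f10_nt.AZ.BilP (In edge)

namespace Bil3P

/-- the indicator of a class -/
noncomputable def ic (q m c : ℕ) : ℝ := if m % q = c then 1 else 0

lemma sum_ic (q m : ℕ) : ∑ c ∈ RR q, |ic q m c| ≤ 1 := by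
  have h1 : ∀ c, |ic q m c| = if m % q = c then 1 else 0 := fun c => by
    unfold ic; split_ifs <;> simp
  simp only [h1, sum_ite_eq]
  split_ifs <;> norm_num

lemma conv {P : ℕ} {S : Finset ℕ} (hS : S ⊆ Ioc P (2 * P))
    (h : ∀ p ∈ S, ∀ p' ∈ S, ∀ r, p ≤ r → r ≤ p' → r ∈ S) :
    ∃ x y, P ≤ x ∧ x ≤ y ∧ y ≤ 2 * P ∧ S = Ioc x y := by
  rcases S.eq_empty_or_nonempty with rfl | hn
  · exact ⟨P, P, le_rfl, le_rfl, by omega, by simp⟩
  have h1 := mem_Ioc.1 (hS (S.min'_mem hn))
  have h2 := mem_Ioc.1 (hS (S.max'_mem hn))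
  have h3 := S.min'_le _ (S.max'_mem hn)
  refine ⟨S.min' hn - 1, S.max' hn, by omega, by omega, h2.2, ?_⟩
  ext r
  rw [mem_Ioc]
  exact ⟨fun hr => ⟨by have := S.min'_le r hr; omega, S.le_max' r hr⟩,
    fun hr => h _ (S.min'_mem hn) _ (S.max'_mem hn) r (by omega) hr.2⟩

open Classical in
lemma piece (H : T_PlA) {q L y0 : ℕ} (hq : 1 ≤ q) {K : ℝ} (hK : 0 ≤ K) {α β : ℕ → ℝ}
    (hβ : ∀ l, |β l| ≤ 1) {S Λ : Finset ℕ} (hΛ : Λ ⊆ Ico y0 (y0 + L))
    (hS : ∀ χ : DirichletCharacter ℂ q, ‖∑ p ∈ S, (α p : ℂ) * χ p‖ ≤ K) :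
    ∑ c ∈ RR q, |∑ l ∈ Λ, β l * ∑ p ∈ S, α p * ic q (p * l) c| ≤ K * (L + q) := by
  have : NeZero q := ⟨by omega⟩
  have q0 : (0 : ℝ) < q := by exact_mod_cast hq
  set f1 : ZMod q → ℝ := fun z => ∑ p ∈ S, α p * (if (p : ZMod q) = z then 1 else 0) with hf1
  set f2 : ZMod q → ℝ := fun y => ∑ l ∈ Λ, if (l : ZMod q) * y = 1 then β l else 0 with hf2
  set g : ZMod q → ℝ := fun y => ∑ l ∈ Λ, if (l : ZMod q) * y = 1 then 1 else 0 with hg
  have f20 : ∀ y, |f2 y| ≤ g y := fun y => (abs_sum_le_sum_abs _ _).trans (sum_le_sum fun l _ => by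
    split_ifs
    exacts [hβ l, by simp])
  have h1 := H q (fun z => f1 z) (fun y => f2 y) K (fun y hy => by
    simp only [hf2]
    rw [sum_eq_zero fun l _ => if_neg fun h => hy (IsUnit.of_mul_eq_one_right _ h),
      Complex.ofReal_zero]) fun χ => by
    have e1 : ∑ z, (f1 z : ℂ) * conj (χ z) = conj (∑ p ∈ S, (α p : ℂ) * χ p) := by
      simp only [hf1, Complex.ofReal_sum, sum_mul, map_sum, map_mul, Complex.conj_ofReal]
      rw [sum_comm]
      refine sum_congr rfl fun p _ => ?_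
      simp only [mul_ite, mul_one, mul_zero, apply_ite Complex.ofReal, ite_mul,
        Complex.ofReal_zero, zero_mul, sum_ite_eq, mem_univ, if_true]
    rw [e1, Complex.norm_conj]
    exact hS χ
  have h2 : ∀ c ∈ RR q, ∑ l ∈ Λ, β l * ∑ p ∈ S, α p * ic q (p * l) c = ∑ y, f1 (c * y) * f2 y :=
    fun c hc => by
      simp only [hf2, mul_sum (s := Λ)]
      rw [sum_comm]
      refine sum_congr rfl fun l _ => ?_
      by_cases h0 : l.Coprime q
      · obtain ⟨u, hu⟩ := (ZMod.isUnit_iff_coprime _ _).2 h0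
        rw [sum_eq_single (↑u⁻¹ : ZMod q) (fun y _ hy => ?_) (fun h => absurd (mem_univ _) h),
          if_pos (by rw [← hu, Units.mul_inv]), mul_comm]
        · congr 1
          refine sum_congr rfl fun p _ => ?_
          unfold ic
          rw [if_congr (mod_eq_iff_cast (mem_RR.1 hc).1) rfl rfl, Nat.cast_mul, ← hu,
            if_congr (Units.eq_mul_inv_iff_mul_eq u).symm rfl rfl]
        · rw [if_neg fun h => hy ?_, mul_zero]
          rw [← hu] at h
          exact (Units.inv_eq_of_mul_eq_one_right h).symm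
      · rw [sum_eq_zero fun p _ => ?_, mul_zero, sum_eq_zero fun y _ => ?_]
        · rw [if_neg fun h => h0 ((ZMod.isUnit_iff_coprime _ _).1 (IsUnit.of_mul_eq_one _ h)),
            mul_zero]
        · have h3 : ¬ (p * l).Coprime q := fun h => h0 h.coprime_mul_left
          unfold ic
          rw [if_neg fun h => h3 (coprime_of_mod hc h), mul_zero]
  have h3 : ∀ y, g y ≤ L / q + 1 := fun y => by
    have h4 := (abs_le.1 (count_class hq (y⁻¹).val (Nat.le_add_right y0 L))).2
    rw [Nat.cast_add, add_sub_cancel_left] at h4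
    refine le_trans ((sum_le_sum fun l _ => ?_).trans (sum_le_sum_of_subset_of_nonneg hΛ
      (f := fun l => if l ≡ (y⁻¹).val [MOD q] then (1 : ℝ) else 0)
      fun _ _ _ => by split_ifs <;> norm_num)) (by linarith)
    split_ifs with h5 h6
    · exact le_rfl
    · refine absurd ((ZMod.natCast_eq_natCast_iff _ _ _).1 ?_) h6
      rw [ZMod.natCast_zmod_val]
      exact (ZMod.inv_eq_of_mul_eq_one _ _ _ (by rw [mul_comm]; exact h5)).symm
    · exact le_rfl.trans (by norm_num)
    · exact le_rfl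
  have h4 : ∑ y, g y ≤ L := by
    simp only [hg]
    rw [sum_comm]
    refine (sum_le_card_nsmul _ _ 1 fun l _ => ?_).trans ?_
    · refine (sum_le_sum (g := fun y => if y = (l : ZMod q)⁻¹ then (1 : ℝ) else 0)
        fun y _ => ?_).trans (by simp)
      split_ifs with h5 h6
      · exact le_rfl
      · exact absurd (ZMod.inv_eq_of_mul_eq_one _ _ _ h5).symm h6
      · norm_num
      · exact le_rfl
    · rw [nsmul_eq_mul, mul_one]
      exact_mod_cast (card_le_card hΛ).trans (by simp)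
  have h5 : ∑ y, ‖(f2 y : ℂ)‖ ^ 2 ≤ (L / q + 1) * L := by
    refine le_trans (sum_le_sum fun y _ => ?_) ((mul_sum _ _ _).symm.trans_le
      (mul_le_mul_of_nonneg_left h4 (by positivity)))
    rw [Complex.norm_real, Real.norm_eq_abs, sq]
    exact mul_le_mul ((f20 y).trans (h3 y)) (f20 y) (abs_nonneg _) (by positivity)
  rw [sum_congr rfl fun c hc => by rw [h2 c hc], sum_RR fun x => |∑ y, f1 (x * y) * f2 y|]
  refine abs_le_of_sq_le_sq' ?_ (by positivity) |>.2
  refine (sq_sum_le_card_mul_sum_sq).trans ?_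
  have h6 : (((univ.filter IsUnit : Finset (ZMod q)).card : ℕ) : ℝ) ≤ q := by
    exact_mod_cast (card_filter_le _ _).trans (by simp)
  have h7 : ∑ x ∈ univ.filter IsUnit, |∑ y, f1 (x * y) * f2 y| ^ 2 ≤ K ^ 2 * ((L / q + 1) * L) := by
    refine le_trans (le_of_eq (sum_congr rfl fun x _ => ?_)) (h1.trans (by gcongr))
    simp only [Complex.conj_ofReal, ← Complex.ofReal_mul, ← Complex.ofReal_sum, Complex.norm_real,
      Real.norm_eq_abs]
  calc _ ≤ q * (K ^ 2 * ((L / q + 1) * L)) := by gcongr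
    _ = K ^ 2 * ((L + q) * L) := by field_simp
    _ ≤ K ^ 2 * ((L + q) * (L + q)) := by gcongr; linarith
    _ = _ := by ring

lemma cv_eq {X P : ℕ} {α : ℕ → ℝ} (hα : ∀ k, α k ≠ 0 → k ∈ Ioc P (2 * P)) (β G : ℕ → ℝ) :
    ∑ m ∈ Ico X (2 * X), cv α β m * G m =
      ∑ p ∈ Ioc P (2 * P), ∑ l ∈ range (2 * X),
        if X ≤ p * l ∧ p * l < 2 * X then β l * (α p * G (p * l)) else 0 := by
  have e : ∀ m, cv α β m = ∑ x ∈ m.divisorsAntidiagonal.filter (fun x => x.1 ∈ Ioc P (2 * P)),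
      α x.1 * β x.2 := fun m => (sum_filter_of_ne fun x _ h => hα _ (left_ne_zero_of_mul h)).symm
  simp only [e, sum_mul, ← sum_filter]
  rw [sum_sigma', sum_sigma']
  refine sum_nbij' (fun x => ⟨x.2.1, x.2.2⟩) (fun x => ⟨x.1 * x.2, x.1, x.2⟩) ?_ ?_ ?_ ?_ ?_
  · rintro ⟨m, p, l⟩ h
    simp only [mem_sigma, mem_filter, mem_Ico, Nat.mem_divisorsAntidiagonal, mem_range] at h ⊢
    obtain ⟨h1, ⟨rfl, -⟩, h2⟩ := h
    exact ⟨h2, lt_of_le_of_lt (Nat.le_mul_of_pos_left l (by have := mem_Ioc.1 h2; omega)) h1.2, h1⟩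
  · rintro ⟨p, l⟩ h
    simp only [mem_sigma, mem_filter, mem_Ico, Nat.mem_divisorsAntidiagonal, mem_range] at h ⊢
    exact ⟨h.2.2, ⟨trivial, by omega⟩, h.1⟩
  · rintro ⟨m, p, l⟩ h
    simp only [mem_sigma, mem_filter, Nat.mem_divisorsAntidiagonal] at h
    obtain ⟨-, ⟨rfl, -⟩, -⟩ := h
    rfl
  · rintro ⟨p, l⟩ _
    rfl
  · rintro ⟨m, p, l⟩ h
    simp only [mem_sigma, mem_filter, Nat.mem_divisorsAntidiagonal] at h
    obtain ⟨-, ⟨rfl, -⟩, -⟩ := h
    ring

end Bil3P

open Bil3P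

theorem yBil3 (H : T_PlA) : T_Bil3 := by
  classical
  intro X q P L K α β hq hP hL hK hα hβ hs hχ
  have h1 : ∀ c, cl X q (cv α β) c =
      ∑ i ∈ range (2 * X / (P * L) + 1), ∑ l ∈ (range (2 * X)).filter (fun l => l / L = i), β l *
        ∑ p ∈ (Ioc P (2 * P)).filter (fun p => In X L p i), α p * ic q (p * l) c +
      ∑ p ∈ Ioc P (2 * P), ∑ l ∈ (range (2 * X)).filter (fun l =>
        (X ≤ p * l ∧ p * l < 2 * X) ∧ ¬ In X L p (l / L)), β l * (α p * ic q (p * l) c) := by
    intro c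
    have e1 : cl X q (cv α β) c = ∑ m ∈ Ico X (2 * X), cv α β m * ic q m c := by
      unfold cl ic
      rw [sum_filter]
      exact sum_congr rfl fun m _ => by split_ifs <;> ring
    have e2 : ∑ i ∈ range (2 * X / (P * L) + 1),
        ∑ l ∈ (range (2 * X)).filter (fun l => l / L = i), β l *
          ∑ p ∈ (Ioc P (2 * P)).filter (fun p => In X L p i), α p * ic q (p * l) c =
        ∑ l ∈ range (2 * X), β l *
          ∑ p ∈ (Ioc P (2 * P)).filter (fun p => In X L p (l / L)), α p * ic q (p * l) c := by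
      simp only [sum_filter (s := range (2 * X))]
      rw [sum_comm]
      refine sum_congr rfl fun l _ => ?_
      rw [sum_ite_eq]
      split_ifs with h
      · rfl
      · rw [filter_false_of_mem fun p hp h2 => h (mem_range.2 (Nat.lt_succ_of_le
          ((Nat.le_div_iff_mul_le (Nat.mul_pos hP hL)).2 (le_trans ?_ h2.2)))), sum_empty, mul_zero]
        have := (mem_Ioc.1 hp).1.le
        calc _ = P * (l / L * L) := by ring
          _ ≤ _ := by gcongr; omega
    rw [e1, e2, cv_eq hs β fun m => ic q m c]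
    simp only [sum_filter, mul_sum (s := Ioc P (2 * P))]
    rw [sum_comm (s := range (2 * X)), ← sum_add_distrib]
    refine sum_congr rfl fun p hp => ?_
    rw [← sum_add_distrib]
    refine sum_congr rfl fun l _ => ?_
    by_cases h2 : In X L p (l / L)
    · have h5 : p * (l / L * L) ≤ p * l := Nat.mul_le_mul_left _ (Nat.div_mul_le_self l L)
      have h6 : p * l < p * ((l / L + 1) * L) := Nat.mul_lt_mul_of_pos_left
        (by linarith [Nat.lt_div_mul_add (a := l) hL]) (by have := mem_Ioc.1 hp; omega)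
      rw [if_pos ⟨h2.1.trans h5, h6.trans_le h2.2⟩, if_pos h2, if_neg fun h => h.2 h2, add_zero]
    · simp only [h2, if_false, mul_zero, zero_add, not_false_eq_true, and_true]
  simp only [h1]
  refine (sum_le_sum fun c _ => abs_add_le _ _).trans ?_
  rw [sum_add_distrib]
  refine add_le_add ?_ ?_
  · refine (sum_le_sum fun c _ => abs_sum_le_sum_abs _ _).trans ?_
    rw [sum_comm]
    refine (sum_le_card_nsmul _ _ (K * (L + q)) fun i _ => piece H (y0 := i * L) hq hK hβ
      (fun l hl => ?_) fun χ => ?_).trans ?_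
    · rw [← (mem_filter.1 hl).2]
      exact mem_Ico.2 ⟨Nat.div_mul_le_self l L, Nat.lt_div_mul_add hL⟩
    · obtain ⟨x, y, k1, k2, k3, k4⟩ := conv (filter_subset (fun p => In X L p i) (Ioc P (2 * P)))
        fun p hp p' hp' r h2 h3 => by
          have a1 := mem_filter.1 hp
          have a2 := mem_filter.1 hp'
          exact mem_filter.2 ⟨mem_Ioc.2 ⟨(mem_Ioc.1 a1.1).1.trans_le h2,
            h3.trans (mem_Ioc.1 a2.1).2⟩, a1.2.1.trans (Nat.mul_le_mul_right _ h2),
            (Nat.mul_le_mul_right _ h3).trans a2.2.2⟩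
      rw [k4]
      exact hχ χ x y k1 k2 k3
    · rw [card_range, nsmul_eq_mul, mul_assoc]
      gcongr
      rw [Nat.cast_succ]
      gcongr
      exact Nat.cast_div_le.trans_eq (by push_cast; rfl)
  · refine (sum_le_sum fun c _ => (abs_sum_le_sum_abs _ _).trans
      (sum_le_sum fun p _ => abs_sum_le_sum_abs _ _)).trans ?_
    rw [sum_comm]
    refine (sum_le_card_nsmul _ _ (2 * L : ℝ) fun p hp => ?_).trans ?_
    · rw [sum_comm]
      refine (sum_le_card_nsmul _ _ 1 fun l _ => ?_).trans ?_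
      · refine le_trans (sum_le_sum fun c _ => ?_) (sum_ic q (p * l))
        rw [abs_mul, abs_mul]
        exact (mul_le_of_le_one_left (by positivity) (hβ l)).trans
          (mul_le_of_le_one_left (abs_nonneg _) (hα p))
      · have := (Nat.cast_le (α := ℝ)).2
          (edge (X := X) (p := p) hL (by have := mem_Ioc.1 hp; omega))
        rw [nsmul_eq_mul]
        push_cast at this
        linarith
    · have h4 : (0 : ℝ) ≤ L := L.cast_nonneg
      have h5 : (0 : ℝ) ≤ P := P.cast_nonneg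
      rw [nsmul_eq_mul, Nat.card_Ioc, show 2 * P - P = P by omega]
      nlinarith

end Pool.Agent.P.MP_746f10_nt.HL
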