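import Pool.Agent.P.MP_746f10_nt.HL.Base
import Pool.Agent.P.MP_746f10_nt.AP.Diff

/-! The difference of the primes and the model has small cut norm. -/

namespace Pool.Agent.P.MP_746f10_nt.HL

open Finset
open Pool.Agent.P.MP_746f10_nt.AP Pool.Agent.P.MP_746f10_nt.AZ

open DiffP in
theorem yCN (h1 : T_Split) (h2 : T_MinL) (h3 : T_Maj2) : T_CN := by
  obtain ⟨j1, h2⟩ := h2
  obtain ⟨j2, h3⟩ := h3
  refine ⟨2 * j1 + 562 * j2, 170, fun n0 => ?_⟩
  obtain ⟨S1, h2⟩ := h2 n0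
  obtain ⟨S2, h3⟩ := h3 n0
  refine ⟨S1 + S2 + 2, fun S a N R hS hN hR hr hj => ?_⟩
  have s1 : 1 ≤ S := by omega
  have r1 : 1 ≤ R := (Nat.one_le_pow _ _ s1).trans hr
  have rN : R ≤ N := ((Nat.le_self_pow (by norm_num) R).trans
    (Nat.le_mul_of_pos_right _ (by positivity))).trans hj
  have : NeZero a := ⟨by have := hR.N_le s1; omega⟩
  have g2 : (2 : ℝ) ≤ S := by exact_mod_cast (by omega : 2 ≤ S)
  have up : ∀ A, A ≠ 0 → S ≤ S ^ A := fun A hA => Nat.le_self_pow hA S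
  have upN : ∀ A, A ≠ 0 → N ≤ (S ^ A) ^ n0 := fun A hA =>
    hN.trans (Nat.pow_le_pow_left (up A hA) _)
  have pw : ∀ A i, A * i ≤ 2 * j1 + 562 * j2 → (S ^ A) ^ i ≤ S ^ (2 * j1 + 562 * j2) :=
    fun A i h => by rw [← pow_mul]; exact Nat.pow_le_pow_right s1 h
  refine smallC_of fun U v hU hv hv0 => ?_
  obtain ⟨n, φ, cf, f, s2, s1', s3, s4⟩ := h1 a v (Fam a (((S ^ 2) ^ 5) ^ 17))
    (1 / (((S ^ 2 : ℕ) : ℝ) ^ 5) ^ 28) (by positivity) Fam_bd hv hv0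
  have hn : (n : ℝ) ≤ (S : ℝ) ^ 560 := by
    refine s2.trans_eq ?_
    rw [div_pow, one_pow, one_div_one_div]; push_cast; ring
  have hL : 1 + (n : ℝ) ≤ (((S ^ 2 : ℕ) : ℝ) ^ 5) ^ 57 := by
    have e1 : (1 : ℝ) ≤ (S : ℝ) ^ 560 := one_le_pow₀ (by linarith)
    have e2 : (2 : ℝ) ≤ (S : ℝ) ^ 10 := g2.trans (le_self_pow₀ (by linarith) (by norm_num))
    calc _ ≤ (S : ℝ) ^ 560 * 2 := by linarith
      _ ≤ (S : ℝ) ^ 560 * (S : ℝ) ^ 10 := by gcongr
      _ = _ := by push_cast; ring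
  have b1 := h2 (S ^ 2) a N R U f (le_trans (by omega) (up 2 two_ne_zero)) (by omega)
    (upN 2 two_ne_zero) (hR.mono (pw 2 j1 (by omega))) rN hU (s4.mono hL)
  rw [Bf_split a N _ U (fun b => v b) (fun b => f b) (range n) cf (fun i b => φ i b)
    fun b _ => s3 b]
  refine (norm_add_le _ _).trans ?_
  have e170 : ((S ^ 2) ^ 5) ^ 17 = S ^ 170 := by ring
  have b2 : ‖∑ i ∈ range n, cf i * Bf a N (fun m => ((th m - mo a R m : ℝ) : ℂ)) U
      (fun b => φ i b)‖ ≤ n * (a * N / (S ^ 562 : ℕ)) := by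
    rw [← nsmul_eq_mul]
    refine (norm_sum_le _ _).trans ((sum_le_card_nsmul _ _ _ fun i hi => ?_).trans
      (by rw [card_range]))
    rw [norm_mul]
    exact (mul_le_of_le_one_left (norm_nonneg _) (s1' i (mem_range.1 hi)).2).trans
      (h3 (S ^ 562) a N R (S ^ 170) U (φ i) (le_trans (by omega) (up 562 (by norm_num)))
        (by omega) (upN 562 (by norm_num)) (hR.mono (pw 562 j2 (by omega)))
        (Nat.pow_le_pow_right s1 (by norm_num)) hr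
        ((Nat.mul_le_mul_left _ (pw 562 j2 (by omega))).trans hj) hU
        (e170 ▸ (s1' i (mem_range.1 hi)).1))
  have b3 : n * ((a : ℝ) * N / (S ^ 562 : ℕ)) ≤ a * N / (S ^ 2 : ℕ) := by
    calc _ ≤ (S : ℝ) ^ 560 * (a * N / (S ^ 562 : ℕ)) := by gcongr
      _ = _ := by push_cast; field_simp
  have b4 : (a : ℝ) * N / (S ^ 2 : ℕ) ≤ 1 / (S : ℝ) * a * N / 2 := by
    rw [Nat.cast_pow, sq, ← div_div, mul_assoc, one_div_mul_eq_div]
    gcongr
  linarith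

end Pool.Agent.P.MP_746f10_nt.HL
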