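import Pool.Agent.P.MP_746f10_nt.HL.Base
import Pool.Agent.P.MP_746f10_nt.AP.QPV

/-! Counting triples of points with a common ratio. -/

namespace Pool.Agent.P.MP_746f10_nt.HL

open Finset
open Pool.Agent.P.MP_746f10_nt.AP Pool.Agent.P.MP_746f10_nt.AZ

namespace CntP

lemma fib {α β : Type*} [DecidableEq β] {s : Finset α} {t : Finset β} {f : α → β}
    (hf : ∀ x ∈ s, f x ∈ t) {r : ℝ} (h : ∀ y ∈ t, ((s.filter fun x => f x = y).card : ℝ) ≤ r) :
    (s.card : ℝ) ≤ t.card * r := by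
  rw [card_eq_sum_card_fiberwise (f := f) (t := t) fun x hx => hf x hx, ← nsmul_eq_mul]
  push_cast
  exact sum_le_card_nsmul _ _ _ h

lemma mult (B : ℕ) {g : ℕ} (hg : 1 ≤ g) :
    ((Icc (-(B : ℤ)) B).filter fun x => (g : ℤ) ∣ x).card ≤ 2 * (B / g) + 1 := by
  have g0 : (0 : ℤ) < g := by exact_mod_cast hg
  refine (card_le_card_of_injOn (t := Icc (-((B / g : ℕ) : ℤ)) (B / g : ℕ)) (fun x => x / g)
    (fun x hx => ?_) fun x hx y hy h => ?_).trans (by rw [Int.card_Icc]; omega)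
  · obtain ⟨h1, c, rfl⟩ := mem_filter.1 hx
    rw [mem_Icc] at h1
    simp only [coe_Icc, Set.mem_Icc, Int.mul_ediv_cancel_left _ g0.ne', Int.natCast_div]
    constructor
    · rw [neg_le, Int.le_ediv_iff_mul_le g0]
      linarith
    · rw [Int.le_ediv_iff_mul_le g0]
      linarith
  · rw [← Int.mul_ediv_cancel' (mem_filter.1 hx).2, ← Int.mul_ediv_cancel' (mem_filter.1 hy).2]
    exact congrArg _ h

lemma cls (K M : ℕ) {S : Finset ℕ} (h1 : ∀ k ∈ S, k ≤ K) (hM : 1 ≤ M)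
    (h2 : ∀ k ∈ S, ∀ k' ∈ S, k ≡ k' [MOD M]) : (S.card : ℝ) ≤ 1 + K / M := by
  have h := card_le_card_of_injOn (s := S) (t := range (K / M + 1)) (fun k => k / M)
    (fun k hk => mem_coe.2 (mem_range.2 (Nat.lt_succ_of_le (Nat.div_le_div_right (h1 k hk)))))
    fun k hk k' hk' h => by
      rw [← Nat.div_add_mod k M, ← Nat.div_add_mod k' M, h2 k hk k' hk']
      exact congrArg (fun x => M * x + k' % M) h
  rw [card_range] at h
  have h3 : (S.card : ℝ) ≤ (K / M : ℕ) + 1 := by exact_mod_cast h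
  linarith [Nat.cast_div_le (α := ℝ) (m := K) (n := M)]

variable {a K : ℕ}

lemma rt_mul {p : ℕ × ℕ} (h : p ∈ Pc a K) : (p.1 : ZMod a) = rt a p * p.2 := by
  rw [rt, mul_assoc, mul_comm _ (p.2 : ZMod a), ZMod.coe_mul_inv_eq_one _ (mem_filter.1 h).2.2,
    mul_one]

lemma bd {p : ℕ × ℕ} (h : p ∈ Pc a K) : (1 ≤ p.1 ∧ p.1 ≤ K) ∧ 1 ≤ p.2 ∧ p.2 ≤ K := by
  simpa only [mem_product, mem_Icc] using (mem_filter.1 h).1

lemma eq_of {p q : ℕ × ℕ} (hK : K < a) (h : p ∈ Pc a K) (h' : q ∈ Pc a K) (e1 : rt a p = rt a q)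
    (e2 : p.2 = q.2) : p = q := by
  have e3 : (p.1 : ZMod a) = q.1 := by rw [rt_mul h, rt_mul h', e1, e2]
  refine Prod.ext (Nat.ModEq.eq_of_lt_of_lt ((ZMod.natCast_eq_natCast_iff _ _ _).1 e3) ?_ ?_) e2
  exacts [(bd h).1.2.trans_lt hK, (bd h').1.2.trans_lt hK]

/-- two points are chosen through their sum or difference, the third through a congruence -/
lemma tri (H : T_CV) [NeZero a] {P : Finset (ℕ × ℕ)} (hP : P ⊆ Pc a K) (hK : K < a) {Sx : ℝ}
    (hS : ∀ x, ((P.filter fun p => rt a p = x).card : ℝ) ≤ Sx) {s : ℤ} (hs : s = 1 ∨ s = -1)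
    {g g' g'' : ℕ} (hg : 1 ≤ g) (hg' : 1 ≤ g') (hg'' : 1 ≤ g'') {ι : Type*} (T : Finset ι)
    (u v w : ι → ℕ × ℕ) (hi : ∀ t t', u t = u t' → v t = v t' → w t = w t' → t = t')
    {s' s'' : ℤ} (h1 : ∀ t ∈ T, (u t ∈ P ∧ v t ∈ P ∧ w t ∈ P) ∧ (rt a (v t) = rt a (u t) ∧
      rt a (w t) = rt a (u t)) ∧ ((u t).2 + s * (v t).2 : ℤ) ≠ 0 ∧
      (g : ℤ) ∣ (u t).2 + s * (v t).2 ∧ (g' : ℤ) ∣ (w t).2 + s' * (u t).2 ∧
      (g'' : ℤ) ∣ (w t).2 + s'' * (v t).2) :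
    (T.card : ℝ) ≤ 24 * (K : ℝ) ^ 2 * Sx * (1 / g + K * Nat.gcd g' g'' / (g * g' * g'')) := by
  classical
  have S0 : 0 ≤ Sx := (Nat.cast_nonneg _).trans (hS 0)
  have hM : 1 ≤ Nat.lcm g' g'' := Nat.lcm_pos hg' hg''
  have key := fib (s := T) (f := fun t => (rt a (u t), ((u t).1 + s * (v t).1 : ℤ),
    ((u t).2 + s * (v t).2 : ℤ))) (r := Sx * (1 + K / Nat.lcm g' g''))
    (t := ((univ : Finset (ZMod a)) ×ˢ Icc (-((2 * K : ℕ) : ℤ)) (2 * K : ℕ) ×ˢ
      Icc (-((2 * K : ℕ) : ℤ)) (2 * K : ℕ)).filter fun t =>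
      t.2.2 ≠ 0 ∧ (g : ℤ) ∣ t.2.2 ∧ (t.2.1 : ZMod a) = t.1 * (t.2.2 : ZMod a))
    (fun t ht => by
      obtain ⟨⟨a1, a2, -⟩, ⟨a4, -⟩, a6, a7, -⟩ := h1 t ht
      have b1 := bd (hP a1)
      have b2 := bd (hP a2)
      refine mem_filter.2 ⟨mem_product.2 ⟨mem_univ _, mem_product.2 ⟨mem_Icc.2 ?_, mem_Icc.2 ?_⟩⟩,
        a6, a7, ?_⟩
      · rcases hs with rfl | rfl <;> dsimp only <;> omega
      · rcases hs with rfl | rfl <;> dsimp only <;> omega
      · push_cast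
        rw [rt_mul (hP a1), rt_mul (hP a2), a4]
        ring)
    fun c _ => (fib (f := u) (t := P.filter fun p => rt a p = c.1) (r := 1 + K / Nat.lcm g' g'')
      (fun t ht => mem_filter.2 ⟨(h1 t (mem_filter.1 ht).1).1.1,
        congrArg Prod.fst (mem_filter.1 ht).2⟩)
      fun p _ => ?_).trans (mul_le_mul_of_nonneg_right (hS _) (by positivity))
  · refine key.trans ((mul_le_mul_of_nonneg_right (H a (2 * K) g hg) (by positivity)).trans
      (le_of_eq ?_))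
    have e : ((Nat.gcd g' g'' : ℕ) : ℝ) * Nat.lcm g' g'' = g' * g'' := by
      exact_mod_cast Nat.gcd_mul_lcm g' g''
    have : (0 : ℝ) < Nat.lcm g' g'' := by exact_mod_cast hM
    have : (0 : ℝ) < Nat.gcd g' g'' := by exact_mod_cast Nat.gcd_pos_of_pos_left _ hg'
    rw [mul_assoc (g : ℝ), ← e]
    push_cast
    field_simp
    ring
  set T' := (T.filter fun t => (rt a (u t), ((u t).1 + s * (v t).1 : ℤ),
    ((u t).2 + s * (v t).2 : ℤ)) = c).filter fun t => u t = p with hT'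
  have e1 : ∀ t ∈ T', ∀ t' ∈ T', t ∈ T ∧ u t = u t' ∧ v t = v t' := fun t ht t' ht' => by
    obtain ⟨a1, a2⟩ := mem_filter.1 ht
    obtain ⟨a3, a4⟩ := mem_filter.1 ht'
    have a5 := (mem_filter.1 a1).2.trans (mem_filter.1 a3).2.symm
    rw [a2, a4] at a5
    simp only [Prod.mk.injEq, true_and, add_right_inj] at a5
    refine ⟨(mem_filter.1 a1).1, a2.trans a4.symm, Prod.ext ?_ ?_⟩
    · rcases hs with rfl | rfl <;> omega
    · rcases hs with rfl | rfl <;> omega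
  rw [← card_image_of_injOn (s := T') (f := fun t => (w t).2) fun t ht t' ht' h => ?_]
  · refine cls K _ (fun k hk => ?_) hM fun k hk k' hk' => ?_
    · obtain ⟨t, ht, rfl⟩ := mem_image.1 hk
      exact (bd (hP (h1 t (e1 t ht t ht).1).1.2.2)).2.2
    · obtain ⟨t, ht, rfl⟩ := mem_image.1 hk
      obtain ⟨t', ht', rfl⟩ := mem_image.1 hk'
      obtain ⟨a1, a2, a3⟩ := e1 t ht t' ht'
      obtain ⟨-, -, -, -, b1, b2⟩ := h1 t a1
      obtain ⟨-, -, -, -, b3, b4⟩ := h1 t' (e1 t' ht' t' ht').1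
      rw [a2] at b1
      rw [a3] at b2
      rw [Nat.modEq_iff_dvd, Int.natCast_dvd, Nat.lcm_dvd_iff, ← Int.natCast_dvd,
        ← Int.natCast_dvd]
      exact ⟨by simpa using dvd_sub b3 b1, by simpa using dvd_sub b4 b2⟩
  · obtain ⟨a1, a2, a3⟩ := e1 t ht t' ht'
    have b1 := h1 t a1
    have b2 := h1 t' (e1 t' ht' t' ht').1
    exact hi t t' a2 a3 (eq_of hK (hP b1.1.2.2) (hP b2.1.2.2)
      (b1.2.1.2.trans (a2 ▸ b2.2.1.2.symm)) h)

lemma two {x y z : ℕ} (hz : 1 ≤ z) (h : Nat.gcd (Nat.gcd x z) (Nat.gcd y z) ≤ 2) :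
    Nat.gcd x z * Nat.gcd y z ≤ 2 * z := by
  rw [← Nat.gcd_mul_lcm]
  exact Nat.mul_le_mul h (Nat.le_of_dvd hz
    (Nat.lcm_dvd (Nat.gcd_dvd_right _ _) (Nat.gcd_dvd_right _ _)))

/-- one of the three common divisors is small -/
lemma small {x y z D : ℕ} (hx : 1 ≤ x) (hy : 1 ≤ y) (hz : 1 ≤ z)
    (h : ∀ d, d ∣ x → d ∣ y → d ∣ z → d ≤ 2) (hD : 8 * (x * y * z) ≤ D ^ 6) :
    Nat.gcd y z ≤ D ∨ Nat.gcd x z ≤ D ∨ Nat.gcd x y ≤ D := by
  have l := @Nat.gcd_dvd_left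
  have r := @Nat.gcd_dvd_right
  have h1 := two (x := x) (y := y) hz
    (h _ ((l _ _).trans (l _ _)) ((r _ _).trans (l _ _)) ((l _ _).trans (r _ _)))
  have h2 := two (x := x) (y := z) hy
    (h _ ((l _ _).trans (l _ _)) ((l _ _).trans (r _ _)) ((r _ _).trans (l _ _)))
  have h3 := two (x := y) (y := z) hx
    (h _ ((l _ _).trans (r _ _)) ((l _ _).trans (l _ _)) ((r _ _).trans (l _ _)))
  rw [Nat.gcd_comm z y] at h2
  rw [Nat.gcd_comm y x, Nat.gcd_comm z x] at h3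
  by_contra hn
  simp only [not_or, not_le] at hn
  obtain ⟨b1, b2, b3⟩ := hn
  generalize Nat.gcd y z = d1 at *
  generalize Nat.gcd x z = d2 at *
  generalize Nat.gcd x y = d3 at *
  have c1 : (D + 1) ^ 6 ≤ d2 * d1 * (d3 * d1) * (d3 * d2) := by
    calc (D + 1) ^ 6 = (D + 1) * (D + 1) * ((D + 1) * (D + 1)) * ((D + 1) * (D + 1)) := by ring
      _ ≤ _ := by gcongr <;> omega
  have c2 : d2 * d1 * (d3 * d1) * (d3 * d2) ≤ 2 * z * (2 * y) * (2 * x) := by gcongr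
  have c3 : D ^ 6 < (D + 1) ^ 6 := Nat.pow_lt_pow_left (by omega) (by norm_num)
  nlinarith

end CntP

open CntP

theorem yCV : T_CV := by
  classical
  intro a _ B q hq
  refine (fib (f := fun t => t.2.2) (r := 3 * B)
    (t := ((Icc (-(B : ℤ)) B).filter fun x => (q : ℤ) ∣ x).erase 0) (fun t ht => ?_)
    fun y hy => ?_).trans ?_
  · obtain ⟨h1, h2, h3, -⟩ := mem_filter.1 ht
    exact mem_erase.2 ⟨h2, mem_filter.2 ⟨(mem_product.1 (mem_product.1 h1).2).2, h3⟩⟩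
  · obtain ⟨y0, y1⟩ := mem_erase.1 hy
    have y2 := abs_le.2 (mem_Icc.1 (mem_filter.1 y1).1)
    set g := Nat.gcd (y : ZMod a).val a with hg
    have g1 : 1 ≤ g := Nat.gcd_pos_of_pos_right _ (NeZero.pos a)
    have g2 : (g : ℤ) ∣ a := Int.natCast_dvd_natCast.2 (Nat.gcd_dvd_right _ _)
    have g3 : (g : ℤ) ∣ y := by
      have b1 : (a : ℤ) ∣ ((y : ZMod a).val : ℤ) - y :=
        (ZMod.intCast_eq_intCast_iff_dvd_sub _ _ _).1 (by simp)
      simpa using dvd_sub (Int.natCast_dvd_natCast.2 (Nat.gcd_dvd_left (y : ZMod a).val a))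
        (g2.trans b1)
    have g4 : g ≤ B := by
      have := (Int.le_of_dvd (abs_pos.2 y0) ((dvd_abs _ _).2 g3)).trans y2
      exact_mod_cast this
    refine (fib (f := fun t => t.2.1) (r := g) (t := (Icc (-(B : ℤ)) B).filter fun x => (g : ℤ) ∣ x)
      (fun t ht => ?_) fun x _ => ?_).trans ?_
    · obtain ⟨h0, rfl⟩ := mem_filter.1 ht
      obtain ⟨h1, -, -, h4⟩ := mem_filter.1 h0
      refine mem_filter.2 ⟨(mem_product.1 (mem_product.1 h1).2).1, ?_⟩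
      have b1 : (a : ℤ) ∣ t.2.1 - (t.1.val : ℤ) * t.2.2 :=
        (ZMod.intCast_eq_intCast_iff_dvd_sub _ _ _).1 (by rw [h4]; simp)
      simpa using dvd_add (g2.trans b1) (g3.mul_left (t.1.val : ℤ))
    · refine Nat.cast_le.2 (le_trans (card_le_card_of_injOn (fun t => t.1) (fun t ht => ?_)
        fun t ht t' ht' h => ?_) (QPVP.fibre (y : ZMod a) (x : ZMod a)))
      · obtain ⟨h0, rfl⟩ := mem_filter.1 ht
        obtain ⟨h1, rfl⟩ := mem_filter.1 h0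
        exact mem_filter.2 ⟨mem_univ _, by rw [(mem_filter.1 h1).2.2.2, mul_comm]⟩
      · obtain ⟨h0, h1⟩ := mem_filter.1 ht
        obtain ⟨h2, h3⟩ := mem_filter.1 ht'
        exact Prod.ext h (Prod.ext (h1.trans h3.symm)
          ((mem_filter.1 h0).2.trans (mem_filter.1 h2).2.symm))
    · have b1 := Nat.mul_le_mul_right g (mult B g1)
      have b2 := Nat.div_mul_le_self B g
      exact_mod_cast b1.trans (by nlinarith)
  · rw [card_erase_of_mem (mem_filter.2 ⟨mem_Icc.2 (by omega), dvd_zero _⟩)]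
    have b1 := mult B hq
    have b2 : (((((Icc (-(B : ℤ)) B).filter fun x => (q : ℤ) ∣ x).card - 1 : ℕ)) : ℝ) ≤
        2 * (B / q : ℕ) := by exact_mod_cast (by omega)
    have b3 := Nat.cast_div_le (α := ℝ) (m := B) (n := q)
    calc _ ≤ 2 * ((B : ℝ) / q) * (3 * B) := by gcongr; linarith
      _ = _ := by ring

theorem yCnt (H : T_CV) : T_Cnt := by
  classical
  intro a _ K D Sx h P hP hK hS hD
  have S0 : 0 ≤ Sx := (Nat.cast_nonneg _).trans (hS 0)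
  have a0 : 0 < a := NeZero.pos a
  have a0' : (0 : ℝ) < a := by exact_mod_cast a0
  set g := Int.gcd h a with hg
  have g0 : 0 < g := Int.gcd_pos_of_ne_zero_right _ (by omega)
  have g1 : (1 : ℝ) ≤ g := by exact_mod_cast g0
  obtain ⟨c, hc⟩ : g ∣ a := Int.natCast_dvd_natCast.1 (Int.gcd_dvd_right _ _)
  have c0 : 0 < c := Nat.pos_of_mul_pos_left (hc ▸ a0)
  have t1 : (1 : ℝ) ≤ a.divisors.card := by
    exact_mod_cast card_pos.2 ⟨1, Nat.one_mem_divisors.2 a0.ne'⟩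
  let A : (ℕ × ℕ) × (ℕ × ℕ) × (ℕ × ℕ) → ℤ := fun t => (t.2.1.2 : ℤ) - t.1.2
  let B : (ℕ × ℕ) × (ℕ × ℕ) × (ℕ × ℕ) → ℤ := fun t => (t.2.2.2 : ℤ) - t.1.2
  let C : (ℕ × ℕ) × (ℕ × ℕ) × (ℕ × ℕ) → ℤ := fun t => (t.2.2.2 : ℤ) + t.2.1.2
  have m : ∀ t ∈ Tr a P h, (t.1 ∈ P ∧ t.2.1 ∈ P ∧ t.2.2 ∈ P) ∧ (rt a t.2.1 = rt a t.1 ∧
      rt a t.2.2 = rt a t.1) ∧ A t ≠ 0 ∧ ∃ x y z : ℕ, x * y * z = c ∧ (x : ℤ) ∣ A t ∧
      (y : ℤ) ∣ B t ∧ (z : ℤ) ∣ C t := fun t ht => by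
    obtain ⟨h1, h2, h3, h4, h5⟩ := mem_filter.1 ht
    simp only [mem_product] at h1
    refine ⟨h1, ⟨h2, h3⟩, sub_ne_zero.2 (by exact_mod_cast h4), ?_⟩
    have h6 : (c : ℤ) ∣ A t * B t * C t := by
      obtain ⟨h', hh⟩ : (g : ℤ) ∣ h := Int.gcd_dvd_left _ _
      have b1 := Int.gcd_div_gcd_div_gcd g0
      rw [← hg] at b1
      have b2 : h / g = h' := by rw [hh, Int.mul_ediv_cancel_left _ (by omega)]
      have b3 : (a : ℤ) / g = c := by
        rw [hc, Nat.cast_mul, Int.mul_ediv_cancel_left _ (by omega)]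
      rw [b2, b3] at b1
      refine Int.dvd_of_dvd_mul_right_of_gcd_one (b := h') ?_ (by rwa [Int.gcd_comm])
      refine Int.dvd_of_mul_dvd_mul_left (a := g) (by omega) ?_
      rw [← Nat.cast_mul, ← hc, ← mul_assoc, ← hh]
      simpa only [A, B, C, mul_assoc] using h5
    rw [Int.natCast_dvd, Int.natAbs_mul, Int.natAbs_mul] at h6
    obtain ⟨w, z, b1, b2, rfl⟩ := (Nat.dvd_mul).1 h6
    obtain ⟨x, y, b3, b4, rfl⟩ := (Nat.dvd_mul).1 b1
    exact ⟨x, y, z, rfl, Int.natCast_dvd.2 b3, Int.natCast_dvd.2 b4, Int.natCast_dvd.2 b2⟩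
  set W : ℝ := (K : ℝ) ^ 2 * Sx * (1 + K * D / a) with hW
  have W1 : (K : ℝ) ^ 2 * Sx ≤ W := le_mul_of_one_le_right (by positivity)
    (le_add_of_nonneg_right (by positivity))
  have W0 : 0 ≤ W := by positivity
  have e0 : (((Tr a P h).filter fun t => B t = 0).card : ℝ) ≤ W := by
    refine le_trans ?_ W1
    refine (fib (f := fun t => t.1) (t := P) (r := Sx) (fun t ht => (m t (mem_filter.1 ht).1).1.1)
      fun p _ => le_trans (Nat.cast_le.2 (card_le_card_of_injOn (fun t => t.2.1) (fun t ht => ?_)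
        fun t ht t' ht' e => ?_)) (hS (rt a p))).trans ?_
    · obtain ⟨b1, rfl⟩ := mem_filter.1 ht
      have := m t (mem_filter.1 b1).1
      exact mem_filter.2 ⟨this.1.2.1, this.2.1.1⟩
    · have k : ∀ t ∈ (Tr a P h).filter fun t => B t = 0, t.2.2 = t.1 := fun t ht => by
        have b1 := m t (mem_filter.1 ht).1
        exact eq_of hK (hP b1.1.2.2) (hP b1.1.1) b1.2.1.2
          (by exact_mod_cast sub_eq_zero.1 (mem_filter.1 ht).2)
      obtain ⟨b1, b2⟩ := mem_filter.1 ht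
      obtain ⟨b3, b4⟩ := mem_filter.1 ht'
      exact Prod.ext (b2.trans b4.symm) (Prod.ext e (by rw [k t b1, k t' b3, b2, b4]))
    · have := card_le_card (hP.trans (filter_subset _ _))
      rw [card_product, Nat.card_Icc, Nat.add_sub_cancel, ← sq] at this
      gcongr
      exact_mod_cast this
  let cls : ℕ × ℕ → Finset ((ℕ × ℕ) × (ℕ × ℕ) × (ℕ × ℕ)) := fun d => (Tr a P h).filter fun t =>
    B t ≠ 0 ∧ ∃ z : ℕ, d.1 * d.2 * z = c ∧ (d.1 : ℤ) ∣ A t ∧ (d.2 : ℤ) ∣ B t ∧ (z : ℤ) ∣ C t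
  have e1 : ∀ d, ((cls d).card : ℝ) ≤ 24 * g * W := fun ⟨x, y⟩ => by
    rcases (cls (x, y)).eq_empty_or_nonempty with h0 | ⟨t0, h0⟩
    · rw [h0, card_empty, Nat.cast_zero]
      positivity
    obtain ⟨b0, -, z, b1, b2, b3, b4⟩ := mem_filter.1 h0
    dsimp only at b1 b2 b3
    have xy : 0 < x * y := Nat.pos_of_mul_pos_right (b1 ▸ c0)
    have x0 : 0 < x := Nat.pos_of_mul_pos_right xy
    have y0 : 0 < y := Nat.pos_of_mul_pos_left xy
    have z0 : 0 < z := Nat.pos_of_mul_pos_left (b1 ▸ c0)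
    have mm : ∀ t ∈ cls (x, y), t ∈ Tr a P h ∧ B t ≠ 0 ∧ (x : ℤ) ∣ A t ∧ (y : ℤ) ∣ B t ∧
        (z : ℤ) ∣ C t := fun t ht => by
      obtain ⟨d0, d1, z', d2, d3, d4, d5⟩ := mem_filter.1 ht
      obtain rfl : z' = z := Nat.eq_of_mul_eq_mul_left xy (d2.trans b1.symm)
      exact ⟨d0, d1, d3, d4, d5⟩
    have fin : ∀ {r : ℝ} {i j l : ℕ}, 1 ≤ i → i * j * l = c → Nat.gcd j l ≤ D →
        r ≤ 24 * (K : ℝ) ^ 2 * Sx * (1 / i + K * Nat.gcd j l / (i * j * l)) →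
        r ≤ 24 * g * W := fun {r i j l} d1 d2 d3 d4 => by
      refine d4.trans ?_
      have d5 : (i : ℝ) * j * l = a / g := by
        rw [eq_div_iff (by positivity), hc, ← d2]; push_cast; ring
      have d6 : 1 / (i : ℝ) ≤ g := (div_le_one (by positivity)).2 (by exact_mod_cast d1) |>.trans g1
      rw [d5, hW]
      calc _ ≤ 24 * (K : ℝ) ^ 2 * Sx * (g + K * D / (a / g)) := by gcongr
        _ = _ := by field_simp
    have sm := small x0 y0 z0 (D := D) (fun d d1 d2 d3 => by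
      have f1 := (Int.natCast_dvd_natCast.2 d1).trans b2
      have f2 := (Int.natCast_dvd_natCast.2 d2).trans b3
      have f3 := (Int.natCast_dvd_natCast.2 d3).trans b4
      have f4 : (d : ℤ) ∣ ((2 * t0.1.2 : ℕ) : ℤ) := by
        have := dvd_sub (dvd_sub f3 f1) f2
        rwa [show C t0 - A t0 - B t0 = ((2 * t0.1.2 : ℕ) : ℤ) by
          simp only [A, B, C]; push_cast; ring] at this
      have f5 : d ∣ a := d3.trans (hc ▸ b1 ▸ (Dvd.intro_left _ rfl).mul_left g)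
      exact Nat.le_of_dvd two_pos (((mem_filter.1 (hP (m t0 b0).1.1)).2.2.symm.coprime_dvd_left
        f5).dvd_of_dvd_mul_right (Int.natCast_dvd_natCast.1 f4)))
      (le_trans (by rw [b1, hc]; nlinarith) hD)
    rcases sm with sm | sm | sm
    · refine fin x0 b1 sm (tri H hP hK hS (s := -1) (s' := -1) (s'' := 1) (Or.inr rfl) x0 y0 z0 _
        (fun t => t.1) (fun t => t.2.1) (fun t => t.2.2)
        (fun t t' f1 f2 f3 => Prod.ext f1 (Prod.ext f2 f3)) fun t ht => ?_)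
      obtain ⟨d0, -, d2, d3, d4⟩ := mm t ht
      obtain ⟨f1, f2, f3, -⟩ := m t d0
      simp only [A, B, C] at d2 d3 d4 f3
      exact ⟨f1, f2, by omega, by simpa [← sub_eq_add_neg] using dvd_sub_comm.1 d2,
        by simpa [← sub_eq_add_neg] using d3, by simpa using d4⟩
    · refine fin y0 (by rw [← b1]; ring) sm (tri H hP hK hS (s := -1) (s' := -1) (s'' := 1)
        (Or.inr rfl) y0 x0 z0 _ (fun t => t.1) (fun t => t.2.2) (fun t => t.2.1)
        (fun t t' f1 f2 f3 => Prod.ext f1 (Prod.ext f3 f2)) fun t ht => ?_)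
      obtain ⟨d0, d1, d2, d3, d4⟩ := mm t ht
      obtain ⟨f1, f2, -⟩ := m t d0
      simp only [A, B, C] at d1 d2 d3 d4
      exact ⟨⟨f1.1, f1.2.2, f1.2.1⟩, f2.symm, by omega,
        by simpa [← sub_eq_add_neg] using dvd_sub_comm.1 d3,
        by simpa [← sub_eq_add_neg] using d2, by simpa [add_comm] using d4⟩
    · refine fin z0 (by rw [← b1]; ring) sm (tri H hP hK hS (s := 1) (s' := -1) (s'' := -1)
        (Or.inl rfl) z0 x0 y0 _ (fun t => t.2.1) (fun t => t.2.2) (fun t => t.1)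
        (fun t t' f1 f2 f3 => Prod.ext f3 (Prod.ext f1 f2)) fun t ht => ?_)
      obtain ⟨d0, -, d2, d3, d4⟩ := mm t ht
      obtain ⟨f1, f2, -⟩ := m t d0
      have f3 := (bd (hP f1.2.1)).2.1
      simp only [A, B, C] at d2 d3 d4
      exact ⟨⟨f1.2.1, f1.2.2, f1.1⟩, ⟨f2.2.trans f2.1.symm, f2.1.symm⟩, by omega,
        by simpa [add_comm] using d4, by simpa [← sub_eq_add_neg] using dvd_sub_comm.1 d2,
        by simpa [← sub_eq_add_neg] using dvd_sub_comm.1 d3⟩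
  have e2 : Tr a P h ⊆ ((Tr a P h).filter fun t => B t = 0) ∪
      (a.divisors ×ˢ a.divisors).biUnion cls := fun t ht => by
    by_cases h0 : B t = 0
    · exact mem_union_left _ (mem_filter.2 ⟨ht, h0⟩)
    obtain ⟨-, -, -, x, y, z, b1, b2⟩ := m t ht
    have b3 : x * y ∣ a := hc ▸ b1 ▸ (Dvd.intro _ rfl).mul_left g
    exact mem_union_right _ (mem_biUnion.2 ⟨(x, y), mem_product.2
      ⟨Nat.mem_divisors.2 ⟨(Dvd.intro _ rfl).trans b3, a0.ne'⟩,
        Nat.mem_divisors.2 ⟨(Dvd.intro_left _ rfl).trans b3, a0.ne'⟩⟩,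
      mem_filter.2 ⟨ht, h0, z, b1, b2⟩⟩)
  have e3 := (card_le_card e2).trans ((card_union_le _ _).trans
    (Nat.add_le_add_left card_biUnion_le _))
  have e4 := sum_le_card_nsmul (a.divisors ×ˢ a.divisors) _ _ fun d _ => e1 d
  rw [card_product, nsmul_eq_mul] at e4
  have e5 : ((Tr a P h).card : ℝ) ≤ ((Tr a P h).filter fun t => B t = 0).card +
      ∑ d ∈ a.divisors ×ˢ a.divisors, ((cls d).card : ℝ) := by exact_mod_cast e3
  push_cast at e4
  have e6 : W ≤ g * (a.divisors.card : ℝ) ^ 2 * W :=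
    le_mul_of_one_le_left W0 (one_le_mul_of_one_le_of_one_le g1 (one_le_pow₀ t1))
  rw [hW] at *
  nlinarith

end Pool.Agent.P.MP_746f10_nt.HL
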