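import Pool.Agent.P.MP_746f10_nt.HL.Base

/-! Ramanujan sums and the model. -/

namespace Pool.Agent.P.MP_746f10_nt.HL

open Finset ComplexConjugate
open Pool.Agent.P.MP_746f10_nt.AP Pool.Agent.P.MP_746f10_nt.AZ
open Pool.Agent.P.MP_746f10_nt.AP.TIaP (cq)
open scoped ArithmeticFunction.vonMangoldt ArithmeticFunction.Moebius

namespace CrP

lemma sum_prod {n : ℕ} (hn : Squarefree n) (g : ℕ → ℝ) :
    ∑ d ∈ n.divisors, ∏ p ∈ d.primeFactors, g p = ∏ p ∈ n.primeFactors, (1 + g p) := by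
  have h := (ArithmeticFunction.IsMultiplicative.prodPrimeFactors
    g).prodPrimeFactors_one_add_of_squarefree hn
  calc _ = _ := sum_congr rfl fun d hd => (ArithmeticFunction.prodPrimeFactors_apply
        (Nat.pos_of_mem_divisors hd).ne').symm
    _ = _ := h.symm
    _ = _ := prod_congr rfl fun p hp => by
      have hp' := Nat.prime_of_mem_primeFactors hp
      rw [ArithmeticFunction.prodPrimeFactors_apply hp'.ne_zero, hp'.primeFactors, prod_singleton]

lemma cq_eq (m q : ℕ) (hq : Squarefree q) :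
    cq q m = ((∏ p ∈ q.primeFactors, (p * dd m p - 1) : ℝ) : ℂ) := by
  induction q using Nat.strong_induction_on with
  | _ q ih =>
    have h1 := TIaP.sum_cq (Nat.pos_of_ne_zero hq.ne_zero) m
    have h2 := sum_prod hq fun p => p * dd m p - 1
    simp only [add_sub_cancel] at h2
    rw [prod_mul_distrib, ← Nat.cast_prod, prod_dd fun p => Nat.prime_of_mem_primeFactors,
      Nat.prod_primeFactors_of_squarefree hq] at h2
    have h3 : ∑ d ∈ q.divisors, cq d m =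
        ∑ d ∈ q.divisors, ((∏ p ∈ d.primeFactors, (p * dd m p - 1) : ℝ) : ℂ) := by
      rw [h1, ← Complex.ofReal_sum, h2]
      push_cast
      rfl
    rw [← Nat.cons_self_properDivisors hq.ne_zero, sum_cons, sum_cons,
      sum_congr rfl fun d hd => ih d (Nat.mem_properDivisors.1 hd).2
        (hq.squarefree_of_dvd (Nat.mem_properDivisors.1 hd).1)] at h3
    exact add_right_cancel h3

lemma tot (n : ℕ) : (n.totient : ℝ) = n * ∏ p ∈ n.primeFactors, (1 - (p : ℝ)⁻¹) := by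
  have h := congrArg (Rat.cast : ℚ → ℝ) (Nat.totient_eq_mul_prod_factors n)
  push_cast at h
  exact h

lemma tot_sq {q : ℕ} (hq : Squarefree q) :
    (q.totient : ℝ) = ∏ p ∈ q.primeFactors, ((p : ℝ) - 1) := by
  have h : (q : ℝ) = ∏ p ∈ q.primeFactors, (p : ℝ) := by
    rw [← Nat.cast_prod, Nat.prod_primeFactors_of_squarefree hq]
  rw [tot]
  nth_rewrite 1 [h]
  rw [← prod_mul_distrib]
  refine prod_congr rfl fun p hp => ?_
  have : (p : ℝ) ≠ 0 := Nat.cast_ne_zero.2 (Nat.prime_of_mem_primeFactors hp).ne_zero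
  field_simp

lemma div_tot {n : ℕ} (hn : n ≠ 0) :
    (n : ℝ) / n.totient = ∏ p ∈ n.primeFactors, (1 - (p : ℝ)⁻¹)⁻¹ := by
  rw [tot, prod_inv_distrib, div_mul_cancel_left₀ (Nat.cast_ne_zero.2 hn)]

lemma one (q m : ℕ) (hq : Squarefree q) : (rn q m : ℂ) = (μ q : ℂ) / q.totient * cq q m := by
  have h1 : (μ q : ℝ) = ∏ _p ∈ q.primeFactors, (-1 : ℝ) := by
    rw [← ArithmeticFunction.isMultiplicative_moebius.prod_primeFactors hq, Int.cast_prod]
    exact prod_congr rfl fun p hp => by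
      rw [ArithmeticFunction.moebius_apply_prime (Nat.prime_of_mem_primeFactors hp)]
      norm_num
  have h2 : rn q m = (μ q : ℝ) / q.totient * ∏ p ∈ q.primeFactors, (p * dd m p - 1) := by
    rw [h1, tot_sq hq, ← prod_div_distrib, ← prod_mul_distrib]
    exact prod_congr rfl fun p _ => by rw [lf]; ring
  rw [cq_eq m q hq, h2]
  simp only [Complex.ofReal_mul, Complex.ofReal_div, Complex.ofReal_intCast, Complex.ofReal_natCast]

lemma two (a q R m : ℕ) (ha : 1 ≤ a) (hq : 1 ≤ q) (hR : q ≤ R) (hm : m.Coprime a) :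
    a / a.totient * ∑ q' ∈ (SQ a R).filter (fun q' => q' ∣ q), rn q' m = mq (a * q) m := by
  set T := q.primeFactors \ a.primeFactors with hT
  have a0 : a ≠ 0 := by omega
  have q0 : q ≠ 0 := by omega
  have mT : ∀ p, p ∈ T ↔ p.Prime ∧ p ∣ q ∧ ¬ p ∣ a := fun p => by
    simp only [hT, mem_sdiff, Nat.mem_primeFactors]
    tauto
  have n1 : (∏ p ∈ T, p) ∣ ∏ p ∈ q.primeFactors, p := prod_dvd_prod_of_subset _ _ _ sdiff_subset
  have n2 : Squarefree (∏ p ∈ T, p) := squarefree_prod_of_pairwise_isCoprime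
    (fun p hp p' hp' h => Nat.coprime_iff_isRelPrime.1
      ((Nat.coprime_primes ((mT p).1 hp).1 ((mT p').1 hp').1).2 h))
    fun p hp => ((mT p).1 hp).1.squarefree
  have n3 : (∏ p ∈ T, p) ∣ q := n1.trans (Nat.prod_primeFactors_dvd q)
  have n4 : (∏ p ∈ T, p).Coprime a := Nat.Coprime.prod_left fun p hp =>
    (((mT p).1 hp).1.coprime_iff_not_dvd).2 ((mT p).1 hp).2.2
  have e : (SQ a R).filter (fun q' => q' ∣ q) = (∏ p ∈ T, p).divisors := by
    ext d
    rw [mem_filter, mem_SQ, Nat.mem_divisors]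
    constructor
    · rintro ⟨⟨-, h1, h2⟩, h3⟩
      refine ⟨?_, n2.ne_zero⟩
      rw [← Nat.prod_primeFactors_of_squarefree h1]
      refine prod_dvd_prod_of_subset _ _ _ fun p hp => ?_
      have hp' := Nat.prime_of_mem_primeFactors hp
      have hd := Nat.dvd_of_mem_primeFactors hp
      exact (mT p).2 ⟨hp', hd.trans h3,
        hp'.coprime_iff_not_dvd.1 (Nat.Coprime.coprime_dvd_left hd h2)⟩
    · rintro ⟨h, -⟩
      exact ⟨⟨⟨Nat.pos_of_dvd_of_pos (h.trans n3) hq, (Nat.le_of_dvd hq (h.trans n3)).trans hR⟩,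
        n2.squarefree_of_dvd h, Nat.Coprime.coprime_dvd_left h n4⟩, h.trans n3⟩
  unfold rn mq cp
  rw [e, sum_prod n2, Nat.primeFactors_prod fun p hp => ((mT p).1 hp).1, div_tot a0,
    div_tot (mul_ne_zero a0 q0), Nat.primeFactors_mul a0 q0, ← union_sdiff_self_eq_union,
    prod_union disjoint_sdiff, mul_assoc]
  congr 1
  split_ifs with h
  · rw [mul_one]
    refine prod_congr rfl fun p hp => ?_
    obtain ⟨h1, h2, -⟩ := (mT p).1 hp
    have h3 : ¬ p ∣ m := fun h4 =>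
      h1.one_lt.ne' (Nat.eq_one_of_dvd_coprimes h h4 (h2.mul_left a))
    have h5 : (2 : ℝ) ≤ p := by exact_mod_cast h1.two_le
    have h6 : (p : ℝ) - 1 ≠ 0 := by linarith
    rw [lf_of_not h3]
    field_simp
    ring
  · obtain ⟨p, h1, h2, h3⟩ := Nat.Prime.not_coprime_iff_dvd.1 h
    have h4 : ¬ p ∣ a := fun h5 => h1.one_lt.ne' (Nat.eq_one_of_dvd_coprimes hm h2 h5)
    rw [mul_zero]
    exact prod_eq_zero ((mT p).2 ⟨h1, (h1.dvd_mul.1 h3).resolve_left h4, h4⟩)
      (by rw [lf_of_dvd h1.two_le h2, add_neg_cancel])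

lemma rn_le {S Y q : ℕ} (h : Ok S Y) (m : ℕ) (hq : Squarefree q) (hY : q ≤ Y) :
    |rn q m| ≤ S * ((q / q.gcd m : ℕ) : ℝ)⁻¹ := by
  have e := Nat.mul_div_cancel' (Nat.gcd_dvd_left q m)
  set r := q / q.gcd m
  have hr : r ∣ q := Dvd.intro_left _ e
  have r1 := hq.squarefree_of_dvd hr
  have r0 : (0 : ℝ) < r := by exact_mod_cast Nat.pos_of_ne_zero r1.ne_zero
  have h1 : |rn q m| ≤ (r.totient : ℝ)⁻¹ := by
    rw [rn, abs_prod, tot_sq r1, ← prod_inv_distrib]
    refine (prod_le_prod_of_subset_of_le_one (Nat.primeFactors_mono hr hq.ne_zero)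
      (fun p _ => abs_nonneg _) fun p hp _ =>
        abs_lf_le (Nat.prime_of_mem_primeFactors hp).two_le m).trans (le_of_eq ?_)
    refine prod_congr rfl fun p hp => ?_
    have hp' := Nat.prime_of_mem_primeFactors hp
    have hd := Nat.dvd_of_mem_primeFactors hp
    have h3 : ¬ p ∣ m := fun h4 => hp'.not_isUnit
      (hq p (e ▸ mul_dvd_mul (Nat.dvd_gcd (hd.trans hr) h4) hd))
    have h5 : (2 : ℝ) ≤ p := by exact_mod_cast hp'.two_le
    rw [lf_of_not h3, one_div, abs_of_nonneg (inv_nonneg.2 (by linarith))]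
  refine h1.trans ?_
  rw [← div_eq_mul_inv, le_div_iff₀ r0, mul_comm, ← div_eq_mul_inv]
  exact h.tot ((Nat.le_of_dvd (Nat.pos_of_ne_zero hq.ne_zero) hr).trans hY)

lemma three (S Y a R m : ℕ) (h : Ok S Y) (hm : 1 ≤ m) (h1 : m ≤ Y) (h2 : a ≤ Y) (h3 : R ≤ Y) :
    |mo a R m| ≤ (S : ℝ) ^ 4 := by
  have s0 : (0 : ℝ) ≤ S := Nat.cast_nonneg S
  have a1 : ∑ q ∈ SQ a R, ((q / q.gcd m : ℕ) : ℝ)⁻¹ ≤ (S : ℝ) * S := by
    have inj : Set.InjOn (fun q : ℕ => (q.gcd m, q / q.gcd m)) (SQ a R) := fun q _ q' _ e => by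
      have e1 : q.gcd m = q'.gcd m := congrArg Prod.fst e
      have e2 : q / q.gcd m = q' / q'.gcd m := congrArg Prod.snd e
      rw [← Nat.mul_div_cancel' (Nat.gcd_dvd_left q m), e2, e1,
        Nat.mul_div_cancel' (Nat.gcd_dvd_left q' m)]
    calc _ = ∑ x ∈ (SQ a R).image (fun q : ℕ => (q.gcd m, q / q.gcd m)), ((x.2 : ℕ) : ℝ)⁻¹ :=
          (sum_image (f := fun x : ℕ × ℕ => ((x.2 : ℕ) : ℝ)⁻¹) inj).symm
      _ ≤ ∑ x ∈ m.divisors ×ˢ Ioc 0 R, ((x.2 : ℕ) : ℝ)⁻¹ := by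
          refine sum_le_sum_of_subset_of_nonneg (fun x hx => ?_) fun _ _ _ => by positivity
          obtain ⟨q, hq, rfl⟩ := mem_image.1 hx
          obtain ⟨⟨b1, b2⟩, -⟩ := mem_SQ.1 hq
          exact mem_product.2 ⟨Nat.mem_divisors.2 ⟨Nat.gcd_dvd_right _ _, by omega⟩,
            mem_Ioc.2 ⟨Nat.div_pos (Nat.gcd_le_left _ b1) (Nat.gcd_pos_of_pos_left _ b1),
              (Nat.div_le_self _ _).trans b2⟩⟩
      _ = m.divisors.card * ∑ n ∈ Ioc 0 R, (n : ℝ)⁻¹ := by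
          rw [sum_product]
          simp only [sum_const, nsmul_eq_mul]
      _ ≤ _ := mul_le_mul (h.tau h1) ((sum_inv_le_log R).trans (h.log h3))
          (sum_nonneg fun _ _ => by positivity) s0
  have a2 : |∑ q ∈ SQ a R, rn q m| ≤ S * (S * S) := by
    refine (abs_sum_le_sum_abs _ _).trans ((sum_le_sum fun q hq =>
      rn_le h m (mem_SQ.1 hq).2.1 ((mem_SQ.1 hq).1.2.trans h3)).trans ?_)
    rw [← mul_sum]
    exact mul_le_mul_of_nonneg_left a1 s0
  rw [mo, abs_mul, abs_of_nonneg (by positivity)]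
  calc _ ≤ (S : ℝ) * (S * (S * S)) := mul_le_mul (h.tot h2) a2 (abs_nonneg _) s0
    _ = _ := by ring

end CrP

theorem yCr : T_Cr := ⟨CrP.one, CrP.two, CrP.three⟩

end Pool.Agent.P.MP_746f10_nt.HL
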