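import Pool.Agent.P.MP_746f10_nt.AZ.Base
import Pool.Agent.P.MP_746f10_nt.AP.TIa

/-! Interface of the asymptotic formula for prime values of forms with fixed large moduli. -/

namespace Pool.Agent.P.MP_746f10_nt.HL

open Finset ComplexConjugate
open Pool.Agent.P.MP_746f10_nt.AP Pool.Agent.P.MP_746f10_nt.AZ
open Pool.Agent.P.MP_746f10_nt.AP.TIaP (cq)
open Pool.Agent.P.MP_0ad054_nt (e)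
open Pool.Agent.P.MP_a14ce1_nt.Ch (nit)
open scoped ArithmeticFunction.vonMangoldt ArithmeticFunction.Moebius

/-! ### Definitions -/

/-- the primes with weight `log` -/
noncomputable def th (m : ℕ) : ℝ := pr1 m * Real.log m

/-- the local factor of the model -/
noncomputable def lf (p m : ℕ) : ℝ := (1 - p * dd m p) / (p - 1)

/-- a normalised Ramanujan sum -/
noncomputable def rn (q m : ℕ) : ℝ := ∏ p ∈ q.primeFactors, lf p m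

/-- squarefree numbers up to `R` coprime to `a` -/
def SQ (a R : ℕ) : Finset ℕ := (Icc 1 R).filter fun q => Squarefree q ∧ q.Coprime a

/-- the model of level `R` -/
noncomputable def mo (a R m : ℕ) : ℝ := a / a.totient * ∑ q ∈ SQ a R, rn q m

/-- the model for one modulus -/
noncomputable def mq (M m : ℕ) : ℝ := M / M.totient * cp M m

/-- divisor numbers and logarithms up to `Y` are at most `S` -/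
def Ok (S Y : ℕ) : Prop :=
  2 ≤ S ∧ (∀ m, m ≤ Y → m.divisors.card ≤ S) ∧ 1 + Real.log Y ≤ S

/-- the range of the modulus -/
def Reg (S j a N : ℕ) : Prop := N * S ^ j ≤ a ∧ a ^ 2 * S ^ j ≤ N ^ 3

/-- the ratio of a pair -/
def rt (a : ℕ) (p : ℕ × ℕ) : ZMod a := (p.1 : ZMod a) * (p.2 : ZMod a)⁻¹

/-- triples with the same ratio and a common frequency -/
def Tr (a : ℕ) (P : Finset (ℕ × ℕ)) (h : ℤ) : Finset ((ℕ × ℕ) × (ℕ × ℕ) × (ℕ × ℕ)) :=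
  (P ×ˢ P ×ˢ P).filter fun t => rt a t.2.1 = rt a t.1 ∧ rt a t.2.2 = rt a t.1 ∧
    t.2.1.2 ≠ t.1.2 ∧
    (a : ℤ) ∣ h * ((t.2.1.2 : ℤ) - t.1.2) * ((t.2.2.2 : ℤ) - t.1.2) * ((t.2.2.2 : ℤ) + t.2.1.2)

/-- the major functions with a given denominator -/
def FamQ (a ρ q : ℕ) : Set (ZMod a → ℂ) := {φ | ∃ (q1 q2 : ℕ) (r ξ : ℤ)
  (χ : DirichletCharacter ℂ (a * q2)), 1 ≤ q1 ∧ 1 ≤ q2 ∧ q1 * q2 = q ∧ |r| ≤ ρ ∧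
    ((a * q2 : ℕ) : ℤ) ∣ q1 * ξ - r ∧ ∀ y, φ y = fm a q2 χ ξ y.val}

/-- the tail of the Moebius function -/
noncomputable def muG (V d : ℕ) : ℝ := if V < d then (μ d : ℝ) else 0

/-- sum of the von Mangoldt function over the large divisors -/
noncomputable def laG (U l : ℕ) : ℝ := ∑ d ∈ l.divisors.filter (fun d => U < d), Λ d

/-- the coefficients of the linear term -/
noncomputable def vg (U V d : ℕ) : ℝ := (if d ≤ V then (μ d : ℝ) * Real.log d else 0) +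
  ∑ x ∈ d.divisorsAntidiagonal.filter (fun x => x.1 ≤ V ∧ x.2 ≤ U), (μ x.1 : ℝ) * Λ x.2

section forms
variable {k : ℕ} (a b : Fin k → ℕ)

/-- the number of roots modulo `p` -/
def rho (p : ℕ) : ℕ := ((range p).filter fun n => ∃ i, p ∣ a i * n + b i).card

/-- the local density -/
noncomputable def sp (p : ℕ) : ℝ := (1 - (rho a b p : ℝ) / p) / (1 - 1 / (p : ℝ)) ^ k

/-- the singular series -/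
noncomputable def SS : ℝ := ∏' p : Nat.Primes, sp a b p

/-- no two forms are proportional -/
def Nd : Prop := ∀ i j, i ≠ j → a i * b j ≠ a j * b i

/-- the discriminant -/
def Dl : ℕ := (∏ i, a i) *
  ∏ i, ∏ j ∈ univ.erase i, ((a i : ℤ) * b j - (a j : ℤ) * b i).natAbs

/-- the local factor of one form -/
noncomputable def lfi (i : Fin k) (p n : ℕ) : ℝ := if p ∣ a i then 0 else lf p (a i * n + b i)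

/-- the mean of a product of local factors -/
noncomputable def mI (p : ℕ) (I : Finset (Fin k)) : ℝ :=
  1 / (p : ℝ) * ∑ n ∈ range p, ∏ i ∈ I, lfi a b i p n

/-- the size of the local correlations -/
noncomputable def nI (p : ℕ) : ℝ := ∑ I ∈ (univ : Finset (Finset (Fin k))).erase ∅, |mI a b p I|

end forms

/-! ### Bilinear sums at the centre -/

def T_CV : Prop := ∀ (a : ℕ) [NeZero a] (B q : ℕ), 1 ≤ q →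
  ((((univ : Finset (ZMod a)) ×ˢ Icc (-(B : ℤ)) B ×ˢ Icc (-(B : ℤ)) B).filter fun t =>
    t.2.2 ≠ 0 ∧ (q : ℤ) ∣ t.2.2 ∧ (t.2.1 : ZMod a) = t.1 * (t.2.2 : ZMod a)).card : ℝ) ≤
    6 * (B : ℝ) ^ 2 / q

def T_Cnt : Prop := ∀ (a : ℕ) [NeZero a] (K D : ℕ) (Sx : ℝ) (h : ℤ) (P : Finset (ℕ × ℕ)),
  P ⊆ Pc a K → K < a → (∀ x, ((P.filter fun p => rt a p = x).card : ℝ) ≤ Sx) → 8 * a ≤ D ^ 6 →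
  ((Tr a P h).card : ℝ) ≤ Int.gcd h a *
    (25 * (a.divisors.card : ℝ) ^ 2 * (K : ℝ) ^ 2 * Sx * (1 + K * D / a))

def T_Psi : Prop := ∀ (a : ℕ) [NeZero a] (f : ZMod a → ℂ) (F Nt : ℝ) (K : ℕ) (h : ℤ)
  (P : Finset (ℕ × ℕ)) (z z' : ZMod a), (∀ y, ¬ IsUnit y → f y = 0) → ∑ y, ‖f y‖ ^ 2 ≤ a →
  (∀ y, ‖f y‖ ≤ F) → P ⊆ Pc a K → K < a → ((Tr a P h).card : ℝ) ≤ Nt →
  ‖∑ p ∈ P, ∑ y : ZMod a, ZMod.stdAddChar ((h : ZMod a) * y) *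
      (ww f p.1 p.2 (y + z) * conj (ww f p.1 p.2 (y + z')))‖ ≤
    a * F ^ 2 * √(a * K * (K + √(6 * Nt)))

def T_Win2 : Prop := ∀ (a : ℕ) [NeZero a] (f : ZMod a → ℂ) (S : Set (ZMod a → ℂ))
  (τ F G1 : ℝ) (ω : ZMod a → ℝ) (fe : ℤ → ℂ) (K R L g0 D : ℕ), Mq f S τ F → Ker R ω fe →
  4 * R ≤ a → 1 ≤ g0 → K < a → 1 ≤ L → 6 * L ≤ a → 8 * a ≤ D ^ 6 →
  ∑ p ∈ Pc a K, ∑ r ∈ Icc (-(R : ℤ)) R, G3 f p.1 p.2 r ≤ G1 →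
  ∑ k ∈ Icc 1 K, ∑ k' ∈ Icc 1 K, ∑ y ∈ range L, ‖∑ z, (ω z : ℂ) * ww f k k' (y + z)‖ ≤
    F ^ 2 * L * ((K : ℝ) ^ 2 / g0) + K * √(L * (96 * L * G1 + 8 * a.divisors.card *
      (a * F ^ 2 * √(a * K * (K + √(150 * (a.divisors.card : ℝ) ^ 2 * (K : ℝ) ^ 2 *
        (g0 + 16 * (K : ℝ) ^ 2 / a) * (1 + K * D / a)))))))

def T_MinY : Prop := ∃ C : ℝ, 0 < C ∧ ∀ (a : ℕ) [NeZero a] (N K K2 T F D : ℕ) (α β u : ℕ → ℂ)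
  (f : ZMod a → ℂ), 1 ≤ N → 13 * N ≤ K → K ≤ K2 → 2 ≤ T → 1 ≤ F → 4 * K2 * T ^ 23 ≤ a →
  F ^ 4 * T ^ 73 * a ≤ K2 ^ 2 → T ^ 6 * a.divisors.card * a ≤ N * K2 → 8 * a ≤ D ^ 6 →
  a.divisors.card ^ 6 * F ^ 8 * T ^ 16 * K2 ^ 2 * (a + K2 * D) ≤ N ^ 4 →
  1 + Real.log (2 * a) ≤ T →
  (∀ k, ‖α k‖ ≤ 1) → (∀ l, ‖β l‖ ≤ 1) → (∀ n, ‖u n‖ ≤ 1) → (∀ k, α k ≠ 0 → K < k ∧ k ≤ K2) →
  Mq f (Fam a (T ^ 17)) (1 / (T : ℝ) ^ 28) F →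
  ‖Bf a N (cv α β) u (fun b => f b)‖ ^ 2 ≤
    (3 * a * N / K : ℝ) ^ 2 * (C * ((K2 : ℝ) ^ 2 / (T : ℝ) ^ 2))

/-! ### The minor part -/

def T_II2 : Prop := ∃ C : ℝ, 0 < C ∧ ∀ (a : ℕ) [NeZero a] (N T D0 : ℕ) (α β u : ℕ → ℂ)
  (f : ZMod a → ℂ), 1 ≤ N → 2 ≤ T → a.divisors.card ≤ T → 1 + Real.log (2 * a) ≤ T →
  Reg T 600 a N → T ^ 303 * a ≤ D0 ^ 2 → (∀ k, ‖α k‖ ≤ 1) → (∀ l, ‖β l‖ ≤ 1) →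
  (∀ n, ‖u n‖ ≤ 1) → (∀ k, α k ≠ 0 → D0 < k) → (∀ l, β l ≠ 0 → D0 < l) →
  Mq f (Fam a (T ^ 17)) (1 / (T : ℝ) ^ 28) ((T : ℝ) ^ 57) →
  ‖Bf a N (cv α β) u (fun b => f b)‖ ≤ C * (1 + Real.log N) * (a * N / T)

def T_NF : Prop := ∀ (a : ℕ) [NeZero a] (g : ZMod a → ℂ) (θ τ : ℝ) (Y : ℕ), 1 ≤ Y → 0 ≤ τ →
  ∑ y, ‖g y‖ ^ 2 ≤ a →
  (∀ l : ℤ, |l + θ * a| ≤ Y + 1 →
    ‖∑ y, g y * ZMod.stdAddChar (-((l : ZMod a) * y))‖ ≤ τ * a) →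
  ‖∑ b ∈ range a, g b * e (θ * b)‖ ≤ a * (τ * (2 * Y + 3) + 2 / √Y)

def T_TIb2 : Prop := ∃ C : ℝ, 0 < C ∧ ∀ (a N w D : ℕ) (γ u v : ℕ → ℂ), 1 ≤ a → 1 ≤ w → 1 ≤ N →
  (∀ q, ‖γ q‖ ≤ 1 / q) → (∀ q, γ q ≠ 0 → q.Coprime a) → (∀ n, ‖u n‖ ≤ 1) →
  ∑ b ∈ Ico 1 a, ‖v b‖ ^ 2 ≤ a →
  ‖Bf a N (fun m => ∑ q ∈ Ioc w D, γ q * cq q m) u v‖ ≤
    C * (1 + Real.log D) ^ 2 * (1 / w + 1 / √N + 1 / √a + D / √(a * N)) * a * N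

def T_TI2 : Prop := ∃ C : ℝ, 0 < C ∧ ∀ (a : ℕ) [NeZero a] (N T D : ℕ) (u : ℕ → ℂ)
  (f : ZMod a → ℂ) (F : ℝ), 1 ≤ N → 2 ≤ T → (∀ n, ‖u n‖ ≤ 1) →
  Mq f (Fam a (T ^ 17)) (1 / (T : ℝ) ^ 28) F →
  (∀ γ : ℕ → ℂ, (∀ q, ‖γ q‖ ≤ 1 / q) → (∀ q, γ q ≠ 0 → q.Coprime a) →
    ‖Bf a N (fun m => ∑ q ∈ Icc 1 D, γ q * cq q m) u (fun b => f b)‖ ≤
      C * (1 + Real.log D) ^ 2 * (1 / (T : ℝ) ^ 2 + 1 / √N + 1 / √a + D / √(a * N)) * a * N) ∧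
  ∀ lam : ℕ → ℝ, (∀ d, |lam d| ≤ 1) →
    ‖Bf a N (fun m => ((∑ d ∈ Icc 1 D, lam d * dd m d : ℝ) : ℂ)) u (fun b => f b)‖ ≤
      C * (1 + Real.log D) ^ 3 * (1 / (T : ℝ) ^ 2 + 1 / √N + 1 / √a + D / √(a * N)) * a * N

def T_Cr : Prop :=
  (∀ q m : ℕ, Squarefree q → (rn q m : ℂ) = (μ q : ℂ) / q.totient * cq q m) ∧
  (∀ a q R m : ℕ, 1 ≤ a → 1 ≤ q → q ≤ R → m.Coprime a →
    a / a.totient * ∑ q' ∈ (SQ a R).filter (fun q' => q' ∣ q), rn q' m = mq (a * q) m) ∧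
  ∀ S Y a R m : ℕ, Ok S Y → 1 ≤ m → m ≤ Y → a ≤ Y → R ≤ Y → |mo a R m| ≤ (S : ℝ) ^ 4

def T_Vau : Prop :=
  (∀ U V m : ℕ, 1 ≤ U → U < m → Λ m = Real.log m * ∑ d ∈ Icc 1 V, (μ d : ℝ) * dd m d -
    ∑ d ∈ Icc 1 (U * V), vg U V d * dd m d + cv (muG V) (laG U) m) ∧
  (∀ U V d : ℕ, |vg U V d| ≤ 2 * Real.log d) ∧
  (∀ U l : ℕ, 0 ≤ laG U l ∧ laG U l ≤ Real.log l ∧ (laG U l ≠ 0 → U < l)) ∧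
  ∀ Y : ℕ, ∑ m ∈ range (Y + 1), (Λ m - th m) ≤ 2 * √Y * Real.log Y

def T_MinL : Prop := ∃ j : ℕ, ∀ n : ℕ, ∃ S0 : ℕ, ∀ (S a : ℕ) [NeZero a] (N R : ℕ) (u : ℕ → ℂ)
  (f : ZMod a → ℂ), S0 ≤ S → 1 ≤ N → N ≤ S ^ n → Reg S j a N → R ≤ N → (∀ n, ‖u n‖ ≤ 1) →
  Mq f (Fam a ((S ^ 5) ^ 17)) (1 / ((S : ℝ) ^ 5) ^ 28) (((S : ℝ) ^ 5) ^ 57) →
  ‖Bf a N (fun m => ((th m - mo a R m : ℝ) : ℂ)) u (fun b => f b)‖ ≤ a * N / S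

/-! ### Sums of the Moebius function -/

def T_LD : Prop := ∀ ρ C0 ε : ℝ, 0 < ρ → ρ ≤ 1 / 4 → 1 ≤ C0 → 0 < ε → ∃ C : ℝ,
  ∀ (h : ℂ → ℂ) (c : ℂ) (M : ℝ), Differentiable ℂ h →
    (∀ z ∈ Metric.ball c (1 + 2 * ρ), h z ≠ 0) → 0 < M →
    (∀ z ∈ Metric.ball c (1 + 2 * ρ), ‖h z‖ ≤ ‖h c‖ * Real.exp M) →
    (∀ z ∈ Metric.closedBall c (1 / 2), ‖deriv h z / h z‖ ≤ C0) →
    ∀ z ∈ Metric.closedBall c (1 + ρ / 2), ‖h c‖ ≤ ‖h z‖ * Real.exp (ε * M + C)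

def T_Inv : Prop := ∃ ρ : ℝ, 0 < ρ ∧ ρ ≤ 1 / 2 ∧ ∀ ε : ℝ, 0 < ε → ∃ C : ℝ, 1 ≤ C ∧
  ∀ (q : ℕ) [NeZero q] (χ : DirichletCharacter ℂ q), ∃ F : ℂ → ℂ,
    (∀ s : ℂ, 1 < s.re → F s * DirichletCharacter.LFunction χ s = 1) ∧
    ∀ s : ℂ, 1 - ρ ≤ s.re → s.re ≤ 2 →
      DifferentiableAt ℂ F s ∧ ‖F s‖ ≤ C * (q * (|s.im| + 3)) ^ ε

def T_Mu : Prop := ∃ i : ℕ, ∀ n : ℕ, ∃ S0 : ℕ, ∀ (S q : ℕ) [NeZero q]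
  (χ : DirichletCharacter ℂ q) (t : ℝ) (X X' W : ℕ), S0 ≤ S → q ≤ S ^ n → |t| ≤ (S : ℝ) ^ n →
  X ≤ X' → 1 ≤ W → W ^ i ≤ X' → ‖∑ m ∈ Icc 1 X, (μ m : ℂ) * χ m * nit t m‖ ≤ S * X' / W

def T_PN2 : Prop := ∃ j : ℕ, ∀ n : ℕ, ∃ S0 : ℕ, ∀ S X y z : ℕ, S0 ≤ S → X ≤ S ^ n → S ^ j ≤ X →
  y ≤ z → z ≤ 3 * X → |∑ m ∈ Ico y z, th m - (z - y)| ≤ X / S

/-! ### The major part -/

def T_Row2 : Prop := ∃ C : ℝ, 0 < C ∧ ∀ (a : ℕ) [NeZero a] (N ρ q R : ℕ) (c u : ℕ → ℂ)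
  (B0 Z : ℝ) (φ : ZMod a → ℂ), φ ∈ FamQ a ρ q → q ≤ ρ → 2 ≤ a → 1 ≤ N → 1 ≤ R → R ≤ a →
  (∀ n, ‖u n‖ ≤ 1) → (∀ m, m ≤ 8 * (a * N) → ‖c m‖ ≤ B0) → (∀ m, c m ≠ 0 → m.Coprime q) →
  (∀ κ : DirichletCharacter ℂ (a * q), ∑ x ∈ Ico (a * N) (2 * (a * N)),
      ‖∑ j ∈ range R, c (x + j) * κ ((x + j : ℕ) : ZMod (a * q))‖ ≤ Z) →
  ‖Bf a N c u (fun b => φ b)‖ ≤ ρ * Z / R + C * B0 * ρ * R * N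

def T_Gs : Prop := ∀ (M : ℕ) [NeZero M] (χ : DirichletCharacter ℂ M) (ν : ZMod M),
  ‖∑ y, χ y * ZMod.stdAddChar (ν * y)‖ ^ 2 ≤ Nat.gcd ν.val M * M

def T_Gau : Prop := ∀ (a : ℕ) [NeZero a] (ρ q q' r Y : ℕ) (φ : ZMod a → ℂ), φ ∈ FamQ a ρ q →
  q ≤ ρ → 1 ≤ q' → q'.Coprime a → r.Coprime q' → ¬ q' ∣ q → 1 ≤ Y →
  ‖∑ b ∈ range a, φ b * e ((r : ℝ) * b / q')‖ ≤
    a * (√(q' * ρ * (Y + 2) / a) * (2 * Y + 3) + 2 / √Y)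

def T_MS : Prop := ∀ (M : ℕ) [NeZero M] (κ : DirichletCharacter ℂ M) (H : ℕ), κ ≠ 1 →
  ∑ y : ZMod M, ‖∑ j ∈ range H, κ (y + j)‖ ^ 2 ≤ M.divisors.card * (M * H)

def T_P1a : Prop := ∀ (M D x R : ℕ) (γ : ℕ → ℝ), 1 ≤ M → (∀ d, |γ d| ≤ 1) →
  |∑ j ∈ range R, cp M (x + j) * ∑ d ∈ Icc 1 D, γ d * dd (x + j) d -
    R * (M.totient / M * ∑ d ∈ Icc 1 D, γ d * cp M d / d)| ≤ D * M.divisors.card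

def T_P1b : Prop := ∀ (M : ℕ) [NeZero M] (κ : DirichletCharacter ℂ M) (D X R : ℕ) (γ : ℕ → ℝ),
  κ ≠ 1 → D ≤ R → R ≤ X → (∀ d, |γ d| ≤ 1) →
  ∑ x ∈ Ico X (2 * X), ‖∑ j ∈ range R, ((∑ d ∈ Icc 1 D, γ d * dd (x + j) d : ℝ) : ℂ) *
      κ ((x + j : ℕ) : ZMod M)‖ ≤
    M.divisors.card * (7 * X * √(R * D) + 2 * D * √(X * M * R))

def T_Var2 : Prop := ∃ C : ℝ, 0 < C ∧ ∀ (X P R : ℕ) (h ε B0 : ℝ) (pp yy : ℕ → ℂ),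
  2 ≤ X → 1 ≤ P → (P : ℝ) ≤ h → h ≤ X → R ≤ X → 0 ≤ ε → 1 ≤ B0 →
  (∀ p, pp p ≠ 0 → p ∈ Ioc P (2 * P)) → (∀ p, ‖pp p‖ ≤ 1) →
  (∀ n, n ≤ 8 * X → ‖yy n‖ ≤ B0 ∧ ‖cv pp yy n‖ ≤ B0) →
  (∀ t : ℝ, |t| ≤ 2 * X → ‖∑ p ∈ Ioc P (2 * P), pp p / p * nit t p‖ ≤ ε) →
  ∑ x ∈ Ico X (2 * X), ‖∑ j ∈ range R, cv pp yy (x + j)‖ ≤
    C * B0 * (R * X * √(ε ^ 2 + 1 / h) + h * X + (R : ℝ) ^ 2)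

def T_S2 : Prop := ∃ p : ℕ, ∀ n : ℕ, ∃ S0 : ℕ, ∀ (S X M : ℕ) [NeZero M] (R U V : ℕ)
  (κ : DirichletCharacter ℂ M), S0 ≤ S → X ≤ S ^ n → M ≤ X → S ^ p ≤ V → X * S ^ p ≤ U * R →
  R * S ^ p ≤ X → S ^ p ≤ R →
  ∑ x ∈ Ico X (2 * X), ‖∑ j ∈ range R, ((cv (muG V) (laG U) (x + j) : ℝ) : ℂ) *
    κ ((x + j : ℕ) : ZMod M)‖ ≤ R * X / S

def T_SIn : Prop := ∃ j : ℕ, ∀ n : ℕ, ∃ S0 : ℕ, ∀ (S X M : ℕ) [NeZero M] (R : ℕ)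
  (κ : DirichletCharacter ℂ M), S0 ≤ S → X ≤ S ^ n → M < X → X * S ^ j ≤ R ^ 2 →
  X * M * S ^ j ≤ R ^ 3 → R * S ^ j ≤ X → κ ≠ 1 →
  ∑ x ∈ Ico X (2 * X), ‖∑ i ∈ range R, ((th (x + i) - mq M (x + i) : ℝ) : ℂ) *
    κ ((x + i : ℕ) : ZMod M)‖ ≤ R * X / S

def T_Pin : Prop := ∀ (X : ℕ) (A B δ : ℝ), 4 ≤ X →
  (∀ y, y = X ∨ y = X + X / 2 → |∑ x ∈ Ico y (y + X / 2), (A * Real.log x - B)| ≤ δ * X) →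
  ∀ x ∈ Ico X (2 * X), |A * Real.log x - B| ≤ 30 * δ

def T_SIp : Prop := ∃ j : ℕ, ∀ n : ℕ, ∃ S0 : ℕ, ∀ S X M R : ℕ, S0 ≤ S → X ≤ S ^ n → 1 ≤ M →
  M < X → X * S ^ j ≤ R ^ 2 → R * S ^ j ≤ X →
  ∑ x ∈ Ico X (2 * X), |∑ i ∈ range R, (th (x + i) - mq M (x + i))| ≤ R * X / S

def T_Maj2 : Prop := ∃ j : ℕ, ∀ n : ℕ, ∃ S0 : ℕ, ∀ (S a : ℕ) [NeZero a] (N R ρ : ℕ) (u : ℕ → ℂ)
  (φ : ZMod a → ℂ), S0 ≤ S → 1 ≤ N → N ≤ S ^ n → Reg S j a N → ρ ≤ S → ρ ≤ R →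
  R ^ 9 * S ^ j ≤ N → (∀ n, ‖u n‖ ≤ 1) → φ ∈ Fam a ρ →
  ‖Bf a N (fun m => ((th m - mo a R m : ℝ) : ℂ)) u (fun b => φ b)‖ ≤ a * N / S

def T_CN : Prop := ∃ j r : ℕ, ∀ n : ℕ, ∃ S0 : ℕ, ∀ S a N R : ℕ, S0 ≤ S → N ≤ S ^ n →
  Reg S j a N → S ^ r ≤ R → R ^ 9 * S ^ j ≤ N → SmallC a N (fun m => th m - mo a R m) (1 / S)

/-! ### A small modulus -/

def T_Bil3 : Prop := ∀ (X q P L : ℕ) (K : ℝ) (α β : ℕ → ℝ), 1 ≤ q → 1 ≤ P → 1 ≤ L → 0 ≤ K →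
  (∀ k, |α k| ≤ 1) → (∀ l, |β l| ≤ 1) → (∀ k, α k ≠ 0 → k ∈ Ioc P (2 * P)) →
  (∀ χ : DirichletCharacter ℂ q, ∀ x y, P ≤ x → x ≤ y → y ≤ 2 * P →
    ‖∑ k ∈ Ioc x y, (α k : ℂ) * χ k‖ ≤ K) →
  ∑ c ∈ RR q, |cl X q (cv α β) c| ≤ (2 * X / (P * L) + 1) * K * (L + q) + 8 * P * L

def T_B2 : Prop := ∃ i p : ℕ, ∀ n : ℕ, ∃ S0 : ℕ, ∀ S X q U V W : ℕ, S0 ≤ S → X ≤ S ^ n → 1 ≤ q →
  1 ≤ W → S ^ p ≤ V → S ^ p ≤ U → W ^ i * q * S ^ p ≤ X → q * S ^ p ≤ U * W →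
  ∑ c ∈ RR q, |cl X q (cv (muG V) (laG U)) c| ≤ X / S

def T_BDL : Prop := ∃ i j : ℕ, ∀ n : ℕ, ∃ S0 : ℕ, ∀ S X q W : ℕ, S0 ≤ S → X ≤ S ^ n → 1 ≤ q →
  1 ≤ W → W ^ i * q * S ^ j ≤ X → q ^ 2 * S ^ j ≤ X * W →
  ∑ c ∈ RR q, |cl X q th c - X / q.totient| ≤ X / S

def T_GAP : Prop := ∀ a N d R c : ℕ, 1 ≤ a → 1 ≤ d → d ≤ R → c.Coprime a → c < a * d →
  |cl (a * N) (a * d) (mo a R) c - N / d * mq (a * d) c| ≤ a / a.totient * ((R : ℝ) ^ 2 + R)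

def T_BD : Prop := ∃ i j : ℕ, ∀ n : ℕ, ∃ S0 : ℕ, ∀ (S a N d E R W : ℕ) (φ : ℕ → ℝ), S0 ≤ S →
  N ≤ S ^ n → a ≤ N ^ 2 → 1 ≤ d → d ≤ E → E ≤ R → 1 ≤ W → W ^ i * E * S ^ j ≤ N →
  a * E ^ 2 * S ^ j ≤ N * W → R ^ 3 * S ^ j ≤ N → (∀ x y, x ≡ y [MOD d] → φ x = φ y) →
  (∀ x, |φ x| ≤ 1) →
  ∑ b ∈ RU a, |∑ x ∈ Ico N (2 * N), (th (a * x + b) - mo a R (a * x + b)) * φ x| ≤ a * N / S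

/-! ### The singular series -/

def T_Loc : Prop := ∀ k : ℕ, ∃ C : ℝ, 1 ≤ C ∧ ∀ (a b : Fin k → ℕ) (p : ℕ), p.Prime →
  (∀ i, (b i).Coprime (a i)) → nI a b p ≤ C / p ∧ (¬ p ∣ Dl a b → nI a b p ≤ C / (p : ℝ) ^ 2) ∧
    (∑ I, mI a b p I) * ∏ i, (if p ∣ a i then (p : ℝ) / (p - 1) else 1) = sp a b p ∧
    (¬ p ∣ Dl a b → |sp a b p - 1| ≤ C / (p : ℝ) ^ 2)

def T_CRT : Prop := ∀ (A : Finset ℕ) (g : ℕ → ℕ → ℝ) (N : ℕ), (∀ p ∈ A, p.Prime) →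
  (∀ p ∈ A, ∀ x y, x ≡ y [MOD p] → g p x = g p y) → (∀ p ∈ A, ∀ x, |g p x| ≤ 1) →
  |∑ x ∈ Ico N (2 * N), ∏ p ∈ A, g p x - N * ∏ p ∈ A, (1 / (p : ℝ) * ∑ x ∈ range p, g p x)| ≤
    2 * ∏ p ∈ A, (p : ℝ)

def T_SS1 : Prop := ∀ (k : ℕ) (a b Rs : Fin k → ℕ) (N Z : ℕ), (∀ i, Rs i ≤ Z) →
  |∑ x ∈ Ico N (2 * N), ∏ i, ∑ q ∈ SQ (a i) (Rs i), rn q (a i * x + b i) -
    N * ∑ q ∈ Fintype.piFinset (fun i => SQ (a i) (Rs i)),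
      ∏ p ∈ PP 0 Z, mI a b p (univ.filter fun i => p ∣ q i)| ≤ 2 * (∏ i, (Rs i : ℝ)) ^ 2

def T_SS2 : Prop := ∀ (k : ℕ) (a b Rs : Fin k → ℕ) (R Z : ℕ), 1 ≤ R → (∀ i, R ≤ Rs i ∧ Rs i ≤ Z) →
  |∑ q ∈ Fintype.piFinset (fun i => SQ (a i) (Rs i)),
      ∏ p ∈ PP 0 Z, mI a b p (univ.filter fun i => p ∣ q i) - ∏ p ∈ PP 0 Z, ∑ I, mI a b p I| ≤
    1 / √R * ∏ p ∈ PP 0 Z, (1 + √p * nI a b p)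

def T_Mul : Prop := ∀ (k : ℕ) (a b : Fin k → ℕ), (∀ i, 1 ≤ a i ∧ (b i).Coprime (a i)) → Nd a b →
  Filter.Tendsto (fun Z => ∏ p ∈ PP 0 Z, sp a b p) Filter.atTop (nhds (SS a b))

def T_SS : Prop := ∀ k : ℕ, ∃ A : ℕ, ∀ n : ℕ, ∃ S0 : ℕ, ∀ (S N R : ℕ) (a b Rs : Fin k → ℕ),
  S0 ≤ S → 1 ≤ R → (∀ i, a i ≤ S ^ n ∧ b i ∈ RU (a i) ∧ R ≤ Rs i) → Nd a b →
  |∑ x ∈ Ico N (2 * N), ∏ i, mo (a i) (Rs i) (a i * x + b i) - N * SS a b| ≤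
    (S : ℝ) ^ A * ((∏ i, (Rs i : ℝ)) ^ 2 + N / √R)

def T_SL : Prop := ∀ k : ℕ, ∃ c : ℝ, 0 < c ∧ ∀ a b : Fin k → ℕ,
  ((∀ i, 1 ≤ a i) → Adm a b → Nd a b → c ≤ SS a b) ∧
    ∀ i, ¬ (b i).Coprime (a i) → SS a b = 0

/-! ### Assembly -/

def T_Tel : Prop := ∀ (k N : ℕ) (a : Fin k → ℕ) (G G' : Fin k → ℕ → ℝ) (B δ : ℝ), 1 ≤ B → 0 ≤ δ →
  (∀ i, ∀ x ∈ Ico N (2 * N), ∀ b ∈ Ico 1 (a i), |G i (a i * x + b)| ≤ B ∧ |G' i (a i * x + b)| ≤ B) →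
  (∀ i, SmallC (a i) N (fun m => G i m - G' i m) δ) →
  ∑ b ∈ Fintype.piFinset (fun i => RU (a i)), |∑ x ∈ Ico N (2 * N), ∏ i, G i (a i * x + b i) -
    ∑ x ∈ Ico N (2 * N), ∏ i, G' i (a i * x + b i)| ≤ k * B ^ k * δ * (N * ∏ i, (a i : ℝ))

def T_Zer : Prop := ∀ (k N R : ℕ) (a : Fin (k + 1) → ℕ) (H : ℕ → ℝ) (B δ : ℝ), 0 ≤ δ →
  (∀ i, (a i : ℝ) / (a i).totient ≤ B) →
  (∀ (d : ℕ) (φ : ℕ → ℝ), 1 ≤ d → d ≤ R ^ k → (∀ x y, x ≡ y [MOD d] → φ x = φ y) →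
    (∀ x, |φ x| ≤ 1) →
    ∑ b ∈ RU (a 0), |∑ x ∈ Ico N (2 * N), H (a 0 * x + b) * φ x| ≤ δ * (a 0 * N)) →
  ∑ b ∈ Fintype.piFinset (fun i => RU (a i)), |∑ x ∈ Ico N (2 * N), H (a 0 * x + b 0) *
    ∏ i : Fin k, mo (a i.succ) R (a i.succ * x + b i.succ)| ≤
    (R * B) ^ k * δ * (N * ∏ i, (a i : ℝ))

open Classical in
def T_Avg : Prop := ∀ k : ℕ, ∃ j : ℕ, ∀ n : ℕ, ∃ S0 : ℕ, ∀ (S N : ℕ) (a : Fin (k + 1) → ℕ),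
  S0 ≤ S → N ≤ S ^ n → S ^ j ≤ N → (∀ i : Fin k, N * S ^ j ≤ a i.succ) →
  (∀ i, a i ^ 2 * S ^ j ≤ N ^ 3) →
  ∑ b ∈ (Fintype.piFinset fun i => RU (a i)).filter (fun b => Nd a b),
    |∑ x ∈ Ico N (2 * N), ∏ i, th (a i * x + b i) - N * SS a b| ≤ N * (∏ i, (a i : ℝ)) / S

def T_Main : Prop := ∀ k : ℕ, ∃ c : ℝ, 0 < c ∧ ∀ η : ℝ, 0 < η → ∃ δ : ℝ, 0 < δ ∧ ∃ Q0 : ℕ,
  ∀ (Q : ℕ) (a : Fin (k + 1) → ℕ), Q0 ≤ Q → (∀ i, (a i : ℝ) ≤ (Q : ℝ) ^ (3 / 2 - η)) →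
    (∀ i, i ≠ 0 → (Q : ℝ) ^ (1 + η) ≤ a i) →
    ∃ E : Finset (Fin (k + 1) → ℕ), (E.card : ℝ) ≤ (Q : ℝ) ^ (-δ) * ∏ i, (a i : ℝ) ∧
      ∀ b : Fin (k + 1) → ℕ, (∀ i, 1 ≤ b i ∧ b i < a i) → b ∉ E →
        |∑ n ∈ (Ico Q (2 * Q)).filter (fun n => ∀ i, (a i * n + b i).Prime),
          ∏ i, Real.log (a i * n + b i) - SS a b * Q| ≤ (Q : ℝ) ^ (1 - δ) ∧
        (Adm a b → c ≤ SS a b ∧ ∃ n ∈ Ico Q (2 * Q), ∀ i, (a i * n + b i).Prime)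

end Pool.Agent.P.MP_746f10_nt.HL
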