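import Pool.Agent.P.MP_746f10_nt.HL.Base
import Pool.Agent.P.MP_746f10_nt.AP.Row

/-! A major function is almost orthogonal to the fractions with a foreign denominator. -/

namespace Pool.Agent.P.MP_746f10_nt.HL

open Finset
open Pool.Agent.P.MP_746f10_nt.AP Pool.Agent.P.MP_746f10_nt.AZ
open Pool.Agent.P.MP_0ad054_nt (e e_add e_add_int)

namespace GauP

theorem sum_val {M : ℕ} [NeZero M] (F : ℕ → ℂ) :
    ∑ r : ZMod M, F r.val = ∑ i ∈ range M, F i :=
  sum_nbij' ZMod.val (fun i => (i : ZMod M)) (fun r _ => mem_range.2 (ZMod.val_lt r))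
    (fun _ _ => mem_univ _) (fun r _ => ZMod.natCast_zmod_val r)
    (fun _ hi => ZMod.val_cast_of_lt (mem_range.1 hi)) (fun _ _ => rfl)

theorem sum_mul_range (F : ℕ → ℂ) (a q : ℕ) :
    ∑ i ∈ range q, ∑ b ∈ range a, F (b + a * i) = ∑ m ∈ range (a * q), F m := by
  induction q with
  | zero => simp
  | succ q ih =>
    rw [sum_range_succ, ih, Nat.mul_succ, sum_range_add]
    simp only [add_comm (a * q)]

theorem std_val {M : ℕ} [NeZero M] (l : ℤ) (y : ZMod M) :
    ZMod.stdAddChar ((l : ZMod M) * y) = e (l * y.val / M) := by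
  rw [show (l : ZMod M) * y = ((l * y.val : ℤ) : ZMod M) by simp, RowP.std_eq]
  push_cast
  rfl

/-- the Fourier coefficient of a major function is a Gauss sum -/
theorem coef {a q : ℕ} [NeZero a] [NeZero (a * q)] (χ : DirichletCharacter ℂ (a * q))
    (ξ l : ℤ) : ∑ y : ZMod a, fm a q χ ξ y.val * ZMod.stdAddChar (-((l : ZMod a) * y)) =
      1 / (q : ℂ) * ∑ z : ZMod (a * q),
        χ z * ZMod.stdAddChar (((ξ - l * q : ℤ) : ZMod (a * q)) * z) := by
  have a0 : (a : ℝ) ≠ 0 := Nat.cast_ne_zero.2 (NeZero.ne a)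
  have q0 : (q : ℝ) ≠ 0 := Nat.cast_ne_zero.2 (right_ne_zero_of_mul (NeZero.ne (a * q)))
  let F : ℕ → ℂ := fun m => χ m * e ((ξ - l * q : ℤ) * m / (a * q : ℕ))
  have h1 : ∀ z : ZMod (a * q),
      χ z * ZMod.stdAddChar (((ξ - l * q : ℤ) : ZMod (a * q)) * z) = F z.val := fun z => by
    simp only [F, std_val, ZMod.natCast_zmod_val]
  have h2 : ∀ y : ZMod a, fm a q χ ξ y.val * ZMod.stdAddChar (-((l : ZMod a) * y)) =
      1 / (q : ℂ) * ∑ i ∈ range q, F (y.val + a * i) := fun y => by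
    rw [← neg_mul, ← Int.cast_neg, std_val, fm, mul_assoc, sum_mul]
    congr 1
    refine sum_congr rfl fun i _ => ?_
    simp only [F]
    rw [mul_assoc, ← e_add, ← e_add_int _ (-(l * i))]
    congr 2
    push_cast
    field_simp
    ring
  simp only [h1, h2]
  rw [← mul_sum, sum_val F, sum_val fun b => ∑ i ∈ range q, F (b + a * i), sum_comm,
    sum_mul_range]

end GauP

theorem yGau (h1 : T_NF) (h2 : T_Gs) : T_Gau := by
  intro a _ ρ q q' r Y φ hφ hq hq' ha hr hd hY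
  have a0 : (0 : ℝ) < a := Nat.cast_pos.2 (NeZero.pos a)
  have p0 : (0 : ℝ) < q' := by exact_mod_cast hq'
  have hb := Fam_bd φ (fam_of_famQ hφ hq)
  obtain ⟨q1, q2, r0, ξ, χ, k1, k2, rfl, hr0, ⟨t, ht⟩, hφ⟩ := hφ
  have : NeZero (a * q2) := ⟨Nat.mul_ne_zero (NeZero.ne a) (by omega)⟩
  have q1' : (1 : ℝ) ≤ q2 := by exact_mod_cast k2
  simp only [mul_div_right_comm (r : ℝ)]
  refine h1 a φ (r / q') _ Y hY (Real.sqrt_nonneg _) ?_ fun l hl => ?_
  · refine (sum_le_card_nsmul _ _ 1 fun y _ => pow_le_one₀ (norm_nonneg _) (hb y).1).trans ?_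
    simp
  have hs : |(q' : ℤ) * l + r * a| ≤ q' * (Y + 1) := by
    have := mul_le_mul_of_nonneg_left hl p0.le
    rw [← abs_of_pos p0, ← abs_mul, abs_of_pos p0,
      show (q' : ℝ) * (l + r / q' * a) = q' * l + r * a by field_simp] at this
    exact_mod_cast this
  set E : ℤ := q' * r0 - (q1 * q2 : ℕ) * (q' * l + r * a) with hE
  have E0 : E ≠ 0 := fun h => by
    have d1 : (q' : ℤ) ∣ ((q1 * q2 * r * a : ℕ) : ℤ) :=
      ⟨r0 - q1 * q2 * l, by push_cast at hE ⊢; linear_combination hE - h⟩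
    exact hd (hr.symm.dvd_of_dvd_mul_right (ha.dvd_of_dvd_mul_right (Int.natCast_dvd_natCast.1 d1)))
  have E1 : |E| ≤ q' * ρ * (Y + 2) := by
    have b1 : |(q' : ℤ) * r0| ≤ q' * ρ := by
      rw [abs_mul, Nat.abs_cast]
      exact mul_le_mul_of_nonneg_left hr0 (Nat.cast_nonneg _)
    have b2 : |((q1 * q2 : ℕ) : ℤ) * (q' * l + r * a)| ≤ ρ * (q' * (Y + 1)) := by
      rw [abs_mul, Nat.abs_cast]
      exact mul_le_mul (by exact_mod_cast hq) hs (abs_nonneg _) (Nat.cast_nonneg _)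
    refine (abs_sub _ _).trans ?_
    linarith
  have g1 : ((Nat.gcd (((ξ - l * q2 : ℤ) : ZMod (a * q2))).val (a * q2) : ℕ) : ℤ) ∣ E := by
    have d1 := Int.natCast_dvd_natCast.2
      (Nat.gcd_dvd_left (((ξ - l * q2 : ℤ) : ZMod (a * q2))).val (a * q2))
    have d2 := Int.natCast_dvd_natCast.2
      (Nat.gcd_dvd_right (((ξ - l * q2 : ℤ) : ZMod (a * q2))).val (a * q2))
    rw [ZMod.val_intCast, Int.emod_def, dvd_sub_left (d2.mul_right _)] at d1
    have : E = q1 * q' * (ξ - l * q2) - (a * q2 : ℕ) * (q' * t + q1 * r) := by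
      push_cast at hE ht ⊢
      linear_combination hE - q' * ht
    rw [this]
    exact dvd_sub (d1.mul_left _) (d2.mul_right _)
  have g2 : ((Nat.gcd (((ξ - l * q2 : ℤ) : ZMod (a * q2))).val (a * q2) : ℕ) : ℝ) ≤
      q' * ρ * (Y + 2) := by
    exact_mod_cast (Int.le_of_dvd (abs_pos.2 E0) ((dvd_abs _ _).2 g1)).trans E1
  have g3 := (h2 (a * q2) χ _).trans (mul_le_mul_of_nonneg_right g2 (Nat.cast_nonneg _))
  simp only [hφ]
  rw [GauP.coef, ← sq_le_sq₀ (norm_nonneg _) (by positivity), norm_mul, mul_pow, mul_pow,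
    Real.sq_sqrt (by positivity), norm_div, norm_one, Complex.norm_natCast]
  refine (mul_le_mul_of_nonneg_left g3 (by positivity)).trans ?_
  have B0 : (0 : ℝ) ≤ q' * ρ * (Y + 2) := by positivity
  generalize (q' : ℝ) * ρ * (Y + 2) = B at *
  calc _ = B * a / q2 := by
        push_cast
        field_simp
    _ ≤ B * a := div_le_self (by positivity) q1'
    _ = _ := by field_simp

end Pool.Agent.P.MP_746f10_nt.HL
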