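import Pool.Agent.P.MP_746f10_nt.HL.Defs
import Pool.Agent.P.MP_746f10_nt.AP.QPV
import Pool.Agent.P.MP_746f10_nt.AZ.RV
import Pool.Agent.P.MP_746f10_nt.AP.Row

/-! Gauss sums and the mean square of short character sums. -/

namespace Pool.Agent.P.MP_746f10_nt.HL

open Finset ComplexConjugate
open Pool.Agent.P.MP_746f10_nt.AP Pool.Agent.P.MP_746f10_nt.AZ
open Pool.Agent.P.MP_0ad054_nt (e)

namespace GsP

variable {M : ℕ} [NeZero M]

lemma pars (W : ZMod M → ℂ) :
    ∑ ν : ZMod M, ‖∑ y, W y * ZMod.stdAddChar (ν * y)‖ ^ 2 = M * ∑ y, ‖W y‖ ^ 2 := by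
  have hM : (0 : ℝ) < M := by exact_mod_cast NeZero.pos M
  have h := QPVP.parseval W
  rw [← Equiv.sum_comp (Equiv.neg (ZMod M)) (fun r => ‖QPVP.co W r‖ ^ 2)] at h
  have h2 : ∀ ν : ZMod M, ‖∑ y, W y * ZMod.stdAddChar (ν * y)‖ ^ 2 =
      (M : ℝ) ^ 2 * ‖QPVP.co W (Equiv.neg (ZMod M) ν)‖ ^ 2 := fun ν => by
    simp only [QPVP.co, Equiv.neg_apply, neg_mul, neg_neg, norm_mul, norm_div, norm_one,
      Complex.norm_natCast]
    field_simp
  rw [sum_congr rfl fun ν _ => h2 ν, ← mul_sum, ← h]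
  field_simp

lemma unit (χ : DirichletCharacter ℂ M) (ν : ZMod M) (u : (ZMod M)ˣ) :
    ‖∑ y, χ y * ZMod.stdAddChar (ν * (u : ZMod M) * y)‖ = ‖∑ y, χ y * ZMod.stdAddChar (ν * y)‖ := by
  have h : ∑ y, χ y * ZMod.stdAddChar (ν * y) =
      χ u * ∑ y, χ y * ZMod.stdAddChar (ν * (u : ZMod M) * y) := by
    rw [← Equiv.sum_comp (Units.mulLeft u) (fun y => χ y * ZMod.stdAddChar (ν * y)), mul_sum]
    refine sum_congr rfl fun y _ => ?_
    simp only [Units.mulLeft_apply, map_mul, mul_assoc]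
  rw [h, norm_mul, DirichletCharacter.unit_norm_eq_one, one_mul]

end GsP

open GsP in
theorem yGs : T_Gs := by
  classical
  intro M _ χ ν
  set G : ZMod M → ℝ := fun s => ‖∑ y, χ y * ZMod.stdAddChar (s * y)‖ ^ 2 with hG
  set U : Finset (ZMod M) := univ.filter IsUnit with hU
  have hU0 : (0 : ℝ) < U.card := by
    exact_mod_cast card_pos.2 ⟨1, mem_filter.2 ⟨mem_univ _, isUnit_one⟩⟩
  have h1 : ∑ u ∈ U, G (ν * u) = U.card * G ν := by
    rw [sum_congr rfl fun u hu => ?_, sum_const, nsmul_eq_mul]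
    obtain ⟨v, rfl⟩ := (mem_filter.1 hu).2
    simp only [hG]
    rw [unit]
  have h2 : ∑ u ∈ U, G (ν * u) ≤ Nat.gcd ν.val M * ∑ s, G s := by
    rw [← sum_fiberwise_of_maps_to (s := U) (t := univ) (g := fun l => ν * l)
      fun _ _ => mem_univ _, mul_sum]
    refine sum_le_sum fun s _ => ?_
    rw [sum_congr rfl fun l hl => by rw [(mem_filter.1 hl).2], sum_const, nsmul_eq_mul]
    refine mul_le_mul_of_nonneg_right ?_ (sq_nonneg _)
    exact_mod_cast (card_le_card (filter_subset_filter _ (subset_univ U))).trans (QPVP.fibre ν s)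
  have h3 : ∑ y, ‖χ y‖ ^ 2 = U.card := by
    rw [hU, card_filter]
    push_cast
    refine sum_congr rfl fun y _ => ?_
    split_ifs with h
    · obtain ⟨v, rfl⟩ := h
      rw [DirichletCharacter.unit_norm_eq_one, one_pow]
    · rw [MulChar.map_nonunit _ h]
      simp
  have h4 : ∑ s, G s = M * U.card := by rw [← h3]; exact pars _
  rw [h1, h4] at h2
  refine le_of_mul_le_mul_left (h2.trans (le_of_eq ?_)) hU0
  ring

open GsP in
theorem yMS (h : T_Gs) : T_MS := by
  intro M _ κ H hκ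
  have hM0 : 0 < M := NeZero.pos M
  have hM : (0 : ℝ) < M := by exact_mod_cast hM0
  have h1 := pars (fun y : ZMod M => ∑ j ∈ range H, κ (y + j))
  have h2 : ∀ ν : ZMod M, ‖∑ y, (∑ j ∈ range H, κ (y + j)) * ZMod.stdAddChar (ν * y)‖ =
      ‖∑ y, κ y * ZMod.stdAddChar (ν * y)‖ * ‖RVP.KK H M ν.val‖ := fun ν => by
    rw [← Complex.norm_conj (RVP.KK H M ν.val), ← norm_mul, RVP.KK, map_sum, mul_sum]
    simp only [sum_mul]
    rw [sum_comm]
    refine congrArg _ (sum_congr rfl fun j _ => ?_)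
    rw [← Equiv.sum_comp (Equiv.addRight (j : ZMod M)) (fun y => κ y * ZMod.stdAddChar (ν * y) *
      conj (e ((ν.val : ℝ) * j / M)))]
    refine sum_congr rfl fun y _ => ?_
    have e1 := RowP.std_eq M ((ν.val : ℤ) * j)
    rw [Int.cast_mul, Int.cast_mul, Int.cast_natCast, Int.cast_natCast, Int.cast_natCast,
      Int.cast_natCast, ZMod.natCast_zmod_val] at e1
    rw [Equiv.coe_addRight, ← e1, ← AddChar.map_neg_eq_conj, mul_assoc, ← AddChar.map_add_eq_mul]
    congr 2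
    ring
  have h3 : ∀ ν : ZMod M, ‖∑ y, (∑ j ∈ range H, κ (y + j)) * ZMod.stdAddChar (ν * y)‖ ^ 2 ≤
      M * if ν.val = 0 then 0 else (M.gcd ν.val : ℝ) * ‖RVP.KK H M ν.val‖ ^ 2 := fun ν => by
    rw [h2, mul_pow]
    split_ifs with h0
    · rw [(ZMod.val_eq_zero ν).1 h0]
      simp only [zero_mul, AddChar.map_zero_eq_one, mul_one, MulChar.sum_eq_zero_of_ne_one hκ]
      simp
    · rw [← mul_assoc, mul_comm (M : ℝ), Nat.gcd_comm]
      exact mul_le_mul_of_nonneg_right (h M κ ν) (sq_nonneg _)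
  have h4 : ∑ ν : ZMod M, (if ν.val = 0 then 0 else (M.gcd ν.val : ℝ) * ‖RVP.KK H M ν.val‖ ^ 2) =
      ∑ r ∈ range M, if r = 0 then 0 else (M.gcd r : ℝ) * ‖RVP.KK H M r‖ ^ 2 := by
    refine sum_bij (fun ν _ => ν.val) (fun ν _ => mem_range.2 (ZMod.val_lt ν))
      (fun _ _ _ _ h => ZMod.val_injective M h) (fun r hr => ?_) fun _ _ => rfl
    exact ⟨r, mem_univ _, ZMod.val_cast_of_lt (mem_range.1 hr)⟩
  have h5 : ∑ r ∈ range M, (if r = 0 then 0 else (M.gcd r : ℝ) * ‖RVP.KK H M r‖ ^ 2) ≤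
      M.divisors.card * (M * H) := by
    rw [← sum_fiberwise_of_maps_to (s := range M) (t := M.divisors) (g := fun r => M.gcd r)
      fun r _ => Nat.mem_divisors.2 ⟨Nat.gcd_dvd_left _ _, by omega⟩, ← nsmul_eq_mul]
    refine sum_le_card_nsmul _ _ _ fun t ht => ?_
    obtain ⟨q, hq⟩ := (Nat.mem_divisors.1 ht).1
    have ht0 : 0 < t := Nat.pos_of_mem_divisors ht
    have hq0 : 0 < q := Nat.pos_of_ne_zero (by rintro rfl; omega)
    have e1 : ∑ r ∈ (range q).filter (fun r => r.Coprime q),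
        (if t * r = 0 then 0 else (t : ℝ) * ‖RVP.KK H q r‖ ^ 2) =
        ∑ r ∈ (range M).filter (fun r => M.gcd r = t),
          if r = 0 then 0 else (M.gcd r : ℝ) * ‖RVP.KK H M r‖ ^ 2 := by
      subst hq
      refine sum_bij (fun r _ => t * r) (fun r hr => ?_) (fun r _ r' _ h => ?_) (fun r hr => ?_)
        fun r hr => ?_
      · rw [mem_filter, mem_range] at hr ⊢
        refine ⟨Nat.mul_lt_mul_of_pos_left hr.1 ht0, ?_⟩
        rw [Nat.gcd_mul_left, Nat.Coprime.gcd_eq_one hr.2.symm, mul_one]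
      · exact Nat.eq_of_mul_eq_mul_left ht0 h
      · rw [mem_filter, mem_range] at hr
        obtain ⟨s, rfl⟩ : t ∣ r := hr.2 ▸ Nat.gcd_dvd_right _ _
        refine ⟨s, mem_filter.2 ⟨mem_range.2 (Nat.lt_of_mul_lt_mul_left hr.1), ?_⟩, rfl⟩
        have h2 := hr.2
        rw [Nat.gcd_mul_left] at h2
        exact Nat.Coprime.symm (Nat.eq_of_mul_eq_mul_left ht0 (h2.trans (mul_one t).symm))
      · rw [Nat.gcd_mul_left, Nat.Coprime.gcd_eq_one (mem_filter.1 hr).2.symm, mul_one]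
        have : (t : ℝ) ≠ 0 := by positivity
        have e2 : RVP.KK H (t * q) (t * r) = RVP.KK H q r := by
          unfold RVP.KK
          refine sum_congr rfl fun j _ => ?_
          congr 1
          push_cast
          rw [mul_assoc, mul_div_mul_left _ _ this]
        rw [e2]
    rw [← e1]
    rcases Nat.lt_or_ge q 2 with h2 | h2
    · obtain rfl : q = 1 := by omega
      refine (sum_eq_zero fun r hr => ?_).trans_le (by positivity)
      have := mem_range.1 (mem_filter.1 hr).1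
      rw [if_pos (by rw [show r = 0 by omega, mul_zero])]
    · calc _ ≤ ∑ r ∈ (range q).filter (fun r => r.Coprime q), (t : ℝ) * ‖RVP.KK H q r‖ ^ 2 :=
            sum_le_sum fun r _ => by
              split_ifs
              · positivity
              · exact le_rfl
        _ ≤ t * (q * H) := by
            rw [← mul_sum]
            exact mul_le_mul_of_nonneg_left (RVP.KK_sq h2 H) (Nat.cast_nonneg _)
        _ = M * H := by rw [hq]; push_cast; ring
  have h6 := sum_le_sum fun ν (_ : ν ∈ univ) => h3 ν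
  rw [h1, ← mul_sum, h4] at h6
  exact (le_of_mul_le_mul_left h6 hM).trans h5

end Pool.Agent.P.MP_746f10_nt.HL
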