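import Pool.Agent.P.MP_746f10_nt.HL.Base

/-! Bilinear sums with both factors large. -/

namespace Pool.Agent.P.MP_746f10_nt.HL

open Finset ComplexConjugate
open Pool.Agent.P.MP_746f10_nt.AP Pool.Agent.P.MP_746f10_nt.AZ

namespace II2P

variable {a N T K D0 : ℕ}

lemma entry {n b : ℕ} (hn : n ∈ Ico N (2 * N)) (hb : b ∈ Ico 1 a) : a * n + b < 2 * a * N := by
  have h6 : a * (n + 1) ≤ a * (2 * N) := Nat.mul_le_mul_left _ (mem_Ico.1 hn).2
  have := (mem_Ico.1 hb).2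
  nlinarith

lemma Bf_sum {ι : Type*} (s : Finset ι) {c : ℕ → ℂ} (c' : ι → ℕ → ℂ) (u v : ℕ → ℂ)
    (h : ∀ m, m < 2 * a * N → c m = ∑ i ∈ s, c' i m) :
    Bf a N c u v = ∑ i ∈ s, Bf a N (c' i) u v := by
  unfold Bf
  rw [sum_comm (s := s)]
  refine sum_congr rfl fun n hn => ?_
  rw [sum_comm (s := s)]
  exact sum_congr rfl fun b hb => by rw [h _ (entry hn hb), sum_mul, sum_mul]

lemma exists_D (ha : 1 ≤ a) : ∃ D : ℕ, 8 * a ≤ D ^ 6 ∧ D ^ 6 ≤ 512 * a := by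
  have hex : ∃ D : ℕ, 8 * a ≤ D ^ 6 := ⟨8 * a, Nat.le_self_pow (by norm_num) _⟩
  have h1 := Nat.find_spec hex
  refine ⟨_, h1, ?_⟩
  obtain ⟨e, he⟩ : ∃ e, Nat.find hex = e + 2 := by
    refine Nat.exists_eq_add_of_le' (not_lt.1 fun h => ?_)
    have : Nat.find hex ^ 6 ≤ 1 ^ 6 := Nat.pow_le_pow_left (by omega) 6
    omega
  have h2 := Nat.find_min hex (m := e + 1) (by omega)
  have h3 : (e + 2) ^ 6 ≤ (2 * (e + 1)) ^ 6 := Nat.pow_le_pow_left (by omega) 6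
  rw [mul_pow] at h3
  rw [he]
  omega

lemma cst (hT : 2 ≤ T) {c : ℕ} (i : ℕ) (h : c ≤ 2 ^ i) : c ≤ T ^ i :=
  h.trans (Nat.pow_le_pow_left hT i)

lemma of_sq {x y : ℕ} (h : x ^ 2 ≤ y ^ 2) : x ≤ y := (Nat.pow_le_pow_iff_left two_ne_zero).1 h

lemma last {D τ : ℕ} (hT : 2 ≤ T) (hτ : τ ≤ T) (hR : a ^ 2 * T ^ 600 ≤ N ^ 3)
    (hK : K ^ 2 ≤ 2 * a * N) (hD : D ^ 6 ≤ 512 * a) :
    τ ^ 6 * (T ^ 57) ^ 8 * T ^ 16 * (2 * K) ^ 2 * (a + 2 * K * D) ≤ N ^ 4 := by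
  have T1 : 1 ≤ T := by omega
  have h0 : (2 * K) ^ 2 ≤ 8 * a * N := by nlinarith
  have h1 : 16 * T ^ 478 * (a * N) * a ≤ N ^ 4 :=
    calc _ ≤ T ^ 4 * T ^ 478 * (a * N) * a := by gcongr; exact cst hT 4 (by norm_num)
      _ = a ^ 2 * T ^ 482 * N := by ring
      _ ≤ a ^ 2 * T ^ 600 * N := by gcongr; norm_num
      _ ≤ N ^ 3 * N := by gcongr
      _ = _ := by ring
  have h2 : 16 * T ^ 478 * (a * N) * (2 * K * D) ≤ N ^ 4 := by
    refine (Nat.pow_le_pow_iff_left (n := 6) (by norm_num)).1 ?_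
    calc _ = 16 ^ 6 * T ^ 2868 * (a * N) ^ 6 * (((2 * K) ^ 2) ^ 3 * D ^ 6) := by ring
      _ ≤ 16 ^ 6 * T ^ 2868 * (a * N) ^ 6 * ((8 * a * N) ^ 3 * (512 * a)) := by gcongr
      _ = 2 ^ 42 * T ^ 2868 * a ^ 10 * N ^ 9 := by ring
      _ ≤ T ^ 132 * T ^ 2868 * a ^ 10 * N ^ 9 := by
          have : 2 ^ 42 ≤ T ^ 132 :=
            (Nat.pow_le_pow_left hT 42).trans (Nat.pow_le_pow_right T1 (by norm_num))
          gcongr
      _ = (a ^ 2 * T ^ 600) ^ 5 * N ^ 9 := by ring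
      _ ≤ (N ^ 3) ^ 5 * N ^ 9 := by gcongr
      _ = _ := by ring
  refine le_of_mul_le_mul_left ?_ two_pos
  calc _ ≤ 2 * (T ^ 6 * (T ^ 57) ^ 8 * T ^ 16 * (8 * a * N) * (a + 2 * K * D)) := by gcongr
    _ = 16 * T ^ 478 * (a * N) * a + 16 * T ^ 478 * (a * N) * (2 * K * D) := by ring
    _ ≤ _ := by omega

lemma root {x C a N T K : ℝ} (hC : 0 ≤ C) (ha : 0 ≤ a) (hN : 0 ≤ N) (hT : 0 < T) (hK : 0 < K)
    (h : x ^ 2 ≤ (3 * a * N / K) ^ 2 * (C * ((2 * K) ^ 2 / T ^ 2))) :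
    x ≤ 6 * (1 + C) * (a * N / T) := by
  refine (abs_le_of_sq_le_sq' (h.trans ?_) (by positivity)).2
  calc _ = C * (6 * (a * N / T)) ^ 2 := by field_simp; ring
    _ ≤ (1 + C) ^ 2 * (6 * (a * N / T)) ^ 2 := by gcongr; nlinarith
    _ = _ := by ring

lemma count (hN : 1 ≤ N) (ha : 1 ≤ a) (h : a ≤ N ^ 2) (V : ℕ) :
    ((DI V (Nat.sqrt (2 * a * N))).card : ℝ) ≤ 6 * (1 + Real.log N) := by
  have N0 : (0 : ℝ) < N := by exact_mod_cast hN
  have z1 : 1 ≤ Nat.sqrt (2 * a * N) := Nat.sqrt_pos.2 (by positivity)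
  have z2 : Nat.sqrt (2 * a * N) ≤ 2 * N ^ 3 :=
    (Nat.sqrt_le_self _).trans (by nlinarith)
  have h1 := lg_le_log z1
  have h2 : Real.log (Nat.sqrt (2 * a * N) : ℕ) ≤ Real.log (2 * (N : ℝ) ^ 3) :=
    Real.log_le_log (by exact_mod_cast z1) (by exact_mod_cast z2)
  rw [Real.log_mul (by norm_num) (by positivity), Real.log_pow] at h2
  have h3 := Real.log_two_lt_d9
  have h4 : ((DI V (Nat.sqrt (2 * a * N))).card : ℝ) ≤ lg (Nat.sqrt (2 * a * N)) + 1 := by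
    exact_mod_cast card_DI_le _ _
  push_cast at h2
  linarith

end II2P

open II2P

theorem yII2 (h1 : T_MinX) (h2 : T_MinY) : T_II2 := by
  obtain ⟨C1, hC1, h1⟩ := h1
  obtain ⟨C2, hC2, h2⟩ := h2
  refine ⟨72 * (1 + C1 + C2), by positivity,
    fun a _ N T D0 α β u f hN hT hτ hl hR hD hα hβ hu sα sβ hf => ?_⟩
  have T1 : 1 ≤ T := by omega
  have ha : 1 ≤ a := NeZero.pos a
  have T0 : (0 : ℝ) < T := by exact_mod_cast T1
  have aT : T ^ 600 ≤ a := (Nat.le_mul_of_pos_left _ hN).trans hR.1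
  have hf' : Mq f (Fam a (T ^ 17)) (1 / (T : ℝ) ^ 28) ((T ^ 57 : ℕ) : ℝ) := by
    rwa [Nat.cast_pow]
  have d1 : T ^ 195 ≤ D0 := of_sq <|
    calc (T ^ 195) ^ 2 = T ^ 303 * T ^ 87 := by ring
      _ ≤ T ^ 303 * a := by gcongr; exact (Nat.pow_le_pow_right T1 (by norm_num)).trans aT
      _ ≤ _ := hD
  have D1 : 1 ≤ D0 := le_trans (Nat.one_le_pow _ _ T1) d1
  obtain ⟨D, hD1, hD2⟩ := exists_D ha
  have piece : ∀ (K : ℕ) (α β : ℕ → ℂ), D0 ≤ K → K ^ 2 ≤ 2 * a * N → (∀ k, ‖α k‖ ≤ 1) →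
      (∀ k, ‖β k‖ ≤ 1) → (∀ k, α k ≠ 0 → K < k ∧ k ≤ 2 * K) →
      ‖Bf a N (cv α β) u (fun b => f b)‖ ≤ 6 * (1 + C1 + C2) * (a * N / T) := by
    intro K α β k1 k2 hα hβ sα
    have K0 : (0 : ℝ) < K := by exact_mod_cast D1.trans k1
    have k3 : 4 * (T ^ 303 * a) ≤ (2 * K) ^ 2 :=
      calc _ ≤ 4 * K ^ 2 := by gcongr; exact hD.trans (by gcongr)
        _ = _ := by ring
    by_cases hK : K ≤ 14 * N
    · have := h1 a N K (2 * K) T (T ^ 57) 7 α β u f (D1.trans k1) hN (by omega) hT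
        (Nat.one_le_pow _ _ T1) (by norm_num) (by omega) ?_ ?_ ?_ hl hα hβ hu sα hf'
      · rw [Nat.cast_mul, Nat.cast_ofNat] at this
        refine (root hC1.le (by positivity) (by positivity) T0 K0 this).trans ?_
        exact mul_le_mul_of_nonneg_right (by linarith) (by positivity)
      · calc _ ≤ 4 * 7 * (2 * (14 * N)) * T ^ 23 := by gcongr
          _ = N * (784 * T ^ 23) := by ring
          _ ≤ N * (T ^ 10 * T ^ 23) := by gcongr; exact cst hT 10 (by norm_num)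
          _ ≤ N * T ^ 600 := by rw [← pow_add]; gcongr; norm_num
          _ ≤ _ := hR.1
      · refine le_trans ?_ k3
        calc _ ≤ (4 * T) * (T ^ 57) ^ 4 * T ^ 73 * T * a := by gcongr; omega
          _ = _ := by ring
      · calc _ ≤ (T ^ 57) ^ 2 * T ^ 66 * T ^ 15 := Nat.mul_le_mul_left _ (cst hT 15 (by norm_num))
          _ = T ^ 195 := by ring
          _ ≤ _ := by omega
    · have := h2 a N K (2 * K) T (T ^ 57) D α β u f hN (by omega) (by omega) hT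
        (Nat.one_le_pow _ _ T1) (of_sq ?_) ?_ ?_ hD1 (last hT hτ hR.2 k2 hD2) hl hα hβ hu sα hf'
      · rw [Nat.cast_mul, Nat.cast_ofNat] at this
        refine (root hC2.le (by positivity) (by positivity) T0 K0 this).trans ?_
        exact mul_le_mul_of_nonneg_right (by linarith) (by positivity)
      · calc _ = 64 * T ^ 46 * K ^ 2 := by ring
          _ ≤ 64 * T ^ 46 * (2 * a * N) := by gcongr
          _ = a * (N * (128 * T ^ 46)) := by ring
          _ ≤ a * (N * (T ^ 7 * T ^ 46)) := by gcongr; exact cst hT 7 (by norm_num)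
          _ ≤ a * (N * T ^ 600) := by rw [← pow_add]; gcongr; norm_num
          _ ≤ a * a := by gcongr; exact hR.1
          _ = _ := by ring
      · refine le_trans ?_ k3
        calc _ = 1 * (T ^ 301 * a) := by ring
          _ ≤ _ := by gcongr <;> norm_num
      · have b1 : T ^ 7 * a ≤ N ^ 2 := of_sq <|
          calc _ = a ^ 2 * T ^ 14 := by ring
            _ ≤ a ^ 2 * T ^ 600 := by gcongr; norm_num
            _ ≤ N ^ 3 := hR.2
            _ ≤ _ := by rw [← pow_mul]; exact Nat.pow_le_pow_right hN (by norm_num)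
        calc _ ≤ T ^ 6 * T * a := by gcongr
          _ ≤ N * N := by rw [← pow_succ, ← sq]; exact b1
          _ ≤ _ := by gcongr; omega
  set Z := Nat.sqrt (2 * a * N) with hZ
  have half : ∀ α β : ℕ → ℂ, (∀ k, ‖α k‖ ≤ 1) → (∀ k, ‖β k‖ ≤ 1) → (∀ k, α k ≠ 0 → D0 < k) →
      (∀ k l, k * l < 2 * a * N → α k ≠ 0 → β l ≠ 0 → k ≤ Z) →
      ‖Bf a N (cv α β) u (fun b => f b)‖ ≤
        6 * (1 + Real.log N) * (6 * (1 + C1 + C2) * (a * N / T)) := by
    intro α β hα hβ sα s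
    rw [Bf_sum (DI D0 Z) (fun i => cv (dy α (D0 * 2 ^ i)) β) u _ fun m hm =>
      cv_dy D1 sα fun k l e => s k l (e ▸ hm)]
    refine (norm_sum_le_of_le _ fun i hi => piece _ _ β (Nat.le_mul_of_pos_right _ (by positivity))
      (((Nat.pow_le_pow_left (lt_of_mem_DI hi).le 2)).trans (Nat.sqrt_le' _)) (fun k => ?_) hβ
      fun k hk => mem_Ioc.1 (mem_of_dy hk)).trans ?_
    · unfold dy
      split_ifs
      exacts [hα k, by simp]
    · rw [sum_const, nsmul_eq_mul]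
      gcongr
      exact count hN ha (hR.a_le T1) D0
  have e : Bf a N (cv α β) u (fun b => f b) =
      Bf a N (cv (fun k => if k ≤ Z then α k else 0) β) u (fun b => f b) +
        Bf a N (cv β (fun k => if k ≤ Z then 0 else α k)) u (fun b => f b) := by
    rw [← Bf_add]
    congr 1
    funext m
    rw [cv_comm α, cv_comm _ β, ← cv_add]
    exact cv_congr (fun _ _ => rfl) (fun l _ => by split_ifs <;> simp) m
  rw [e]
  refine (norm_add_le_of_le (half _ β (fun k => ?_) hβ (fun k h => sα k fun h' => h ?_)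
    fun k l _ h _ => ?_) (half β _ hβ (fun k => ?_) sβ fun k l h3 _ h => ?_)).trans (le_of_eq ?_)
  · split_ifs
    exacts [hα k, by simp]
  · simp [h']
  · by_contra h'
    exact h (if_neg h')
  · split_ifs
    exacts [by simp, hα k]
  · by_contra h'
    have h4 : Z < l := by
      by_contra h''
      exact h (if_pos (not_lt.1 h''))
    have h5 := Nat.lt_succ_sqrt (2 * a * N)
    have h6 : (Z + 1) * (Z + 1) ≤ k * l := Nat.mul_le_mul (by omega) h4
    exact absurd (h6.trans_lt h3) (not_lt.2 h5.le)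
  · ring

end Pool.Agent.P.MP_746f10_nt.HL
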