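import Pool.Agent.P.MP_746f10_nt.HL.Base
import Pool.Agent.P.MP_26a8c3_nt.QE.Psi

/-! A bound for the inverse of a Dirichlet L-function in a zero free half plane. -/

namespace Pool.Agent.P.MP_746f10_nt.HL

open Finset Complex DirichletCharacter Metric
open Pool.Agent.P.MP_0ad054_nt Pool.Agent.P.MP_0ad054_nt.An Pool.Agent.P.MP_26a8c3_nt
open scoped ArithmeticFunction.vonMangoldt

namespace InvP

/-- the general lower bound -/
lemma gen (hLD : T_LD) {ρ C0 K ε : ℝ} (r0 : 0 < ρ) (r1 : ρ ≤ 1 / 4) (hC0 : 1 ≤ C0) (hK : 1 ≤ K)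
    (hε : 0 < ε) : ∃ C : ℝ, 1 ≤ C ∧ ∀ (h : ℂ → ℂ) (Q : ℝ), 1 ≤ Q → Differentiable ℂ h →
      (∀ z : ℂ, 1 - 2 * ρ < z.re → h z ≠ 0) → (∀ t : ℝ, 1 / 2 ≤ ‖h (2 + I * t)‖) →
      (∀ z : ℂ, 1 / 2 ≤ z.re → z.re ≤ 4 → ‖h z‖ ≤ K * Q * (|z.im| + 3) ^ 2) →
      (∀ z : ℂ, 3 / 2 ≤ z.re → ‖deriv h z / h z‖ ≤ C0) →
      ∀ s : ℂ, 1 - ρ / 2 ≤ s.re → s.re ≤ 2 →
        ‖h (2 + I * s.im)‖ ≤ ‖h s‖ * (C * (Q * (|s.im| + 3)) ^ ε) := by
  obtain ⟨C, H⟩ := hLD ρ C0 (ε / 2) r0 r1 hC0 (by positivity)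
  refine ⟨max 1 (Real.exp (ε / 2 * Real.log (8 * K) + C)), le_max_left _ _, ?_⟩
  intro h Q hQ hd h0 hl hu hg s h1 h2
  obtain ⟨t, ht⟩ : ∃ t, t = s.im := ⟨_, rfl⟩
  rw [← ht]
  have t0 := abs_nonneg t
  have hball : ∀ (r : ℝ) (z : ℂ), ‖z - (2 + I * t)‖ ≤ r →
      2 - r ≤ z.re ∧ z.re ≤ 2 + r ∧ |z.im| ≤ |t| + r := fun r z hz => by
    have a1 := (abs_re_le_norm _).trans hz
    have a2 := (abs_im_le_norm _).trans hz
    simp only [sub_re, add_re, re_ofNat, mul_re, I_re, ofReal_re, zero_mul, I_im, ofReal_im,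
      mul_zero, sub_self, add_zero, sub_im, add_im, im_ofNat, mul_im, one_mul, zero_add] at a1 a2
    rw [abs_le] at a1
    have a3 := abs_sub_abs_le_abs_sub z.im t
    exact ⟨by linarith [a1.1], by linarith [a1.2], by linarith⟩
  obtain ⟨x, hx⟩ : ∃ x, x = Q * (|t| + 3) := ⟨_, rfl⟩
  rw [← hx]
  have x3 : |t| + 3 ≤ x := by rw [hx]; nlinarith
  have x0 : 0 < x := by linarith
  have hpos : 1 < 8 * K * x ^ 2 := by
    have := mul_le_mul hK (show 1 ≤ x ^ 2 by nlinarith) zero_le_one (by linarith)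
    linarith
  have h3 := H h (2 + I * t) (Real.log (8 * K * x ^ 2)) hd (fun z hz => by
      rw [mem_ball, dist_eq_norm] at hz
      have a1 := (abs_re_le_norm _).trans_lt hz
      simp only [sub_re, add_re, re_ofNat, mul_re, I_re, ofReal_re, zero_mul, I_im, ofReal_im,
        mul_zero, sub_self, add_zero] at a1
      rw [abs_lt] at a1
      exact h0 z (by linarith [a1.1])) (Real.log_pos hpos) (fun z hz => by
      rw [mem_ball, dist_eq_norm] at hz
      obtain ⟨a1, a2, a3⟩ := hball _ z hz.le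
      rw [Real.exp_log (by linarith)]
      refine (hu z (by linarith) (by linarith)).trans ?_
      have a4 : |z.im| + 3 ≤ 2 * (|t| + 3) := by linarith
      have a5 : Q * (|t| + 3) ^ 2 ≤ x ^ 2 := by
        rw [hx, mul_pow]
        have : Q ≤ Q ^ 2 := by nlinarith
        gcongr
      calc K * Q * (|z.im| + 3) ^ 2 ≤ K * Q * (2 * (|t| + 3)) ^ 2 := by gcongr
        _ = 4 * K * (Q * (|t| + 3) ^ 2) := by ring
        _ ≤ 4 * K * x ^ 2 := by gcongr
        _ = 1 / 2 * (8 * K * x ^ 2) := by ring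
        _ ≤ _ := by gcongr; exact hl t) (fun z hz => by
      rw [mem_closedBall, dist_eq_norm] at hz
      exact hg z (by linarith [(hball _ z hz).1])) s (by
      rw [mem_closedBall, dist_eq_norm, show s - (2 + I * t) = ((s.re - 2 : ℝ) : ℂ) by
        apply Complex.ext <;> simp [ht], norm_real, Real.norm_eq_abs, abs_le]
      constructor <;> linarith)
  refine h3.trans (mul_le_mul_of_nonneg_left ?_ (norm_nonneg _))
  have e1 : ε / 2 * Real.log (8 * K * x ^ 2) + C =
      (ε / 2 * Real.log (8 * K) + C) + Real.log x * ε := by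
    rw [Real.log_mul (by positivity) (by positivity), Real.log_pow]
    push_cast
    ring
  rw [e1, Real.exp_add, ← Real.rpow_def_of_pos x0]
  exact mul_le_mul_of_nonneg_right (le_max_right _ _) (by positivity)

/-- the logarithmic derivative to the right -/
lemma ld : ∃ B : ℝ, 0 ≤ B ∧ ∀ (q : ℕ) [NeZero q] (χ : DirichletCharacter ℂ q) (z : ℂ),
    3 / 2 ≤ z.re → ‖deriv (LFunction χ) z / LFunction χ z‖ ≤ B := by
  have hs : LSeriesSummable (fun n => (Λ n : ℂ)) (3 / 2 : ℂ) :=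
    ArithmeticFunction.LSeriesSummable_vonMangoldt (by norm_num)
  have hs' : Summable fun n => ‖LSeries.term (fun n => (Λ n : ℂ)) (3 / 2 : ℂ) n‖ :=
    summable_norm_iff.2 hs
  refine ⟨∑' n, ‖LSeries.term (fun n => (Λ n : ℂ)) (3 / 2 : ℂ) n‖,
    tsum_nonneg fun _ => norm_nonneg _, fun q _ χ z hz => ?_⟩
  have hz1 : 1 < z.re := by linarith
  rw [deriv_LFunction_eq_deriv_LSeries χ hz1, LFunction_eq_LSeries χ hz1, ← norm_neg, ← neg_div,
    ← LSeries_twist_vonMangoldt_eq χ hz1]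
  refine tsum_of_norm_bounded hs'.hasSum fun n => ?_
  refine le_trans (LSeries.norm_term_le (g := fun n => (Λ n : ℂ)) z ?_)
    (LSeries.norm_term_le_of_re_le_re _ (by norm_num; linarith) n)
  rw [Pi.mul_apply, norm_mul]
  exact mul_le_of_le_one_left (norm_nonneg _) (χ.norm_le_one _)

lemma triv_eq (q : ℕ) [NeZero q] (z : ℂ) :
    LFunctionTrivChar₁ q z = (∏ p ∈ q.primeFactors, (1 - (p : ℂ) ^ (-z))) * Zf z := by
  rcases eq_or_ne z 1 with rfl | hz
  · rw [LupP.Zf_one, LFunctionTrivChar₁, Function.update_self, mul_one]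
    exact prod_congr rfl fun p _ => by rw [cpow_neg_one]
  · rw [LupP.Zf_eq hz, LFunctionTrivChar₁, Function.update_of_ne hz,
      LFunctionTrivChar_eq_mul_riemannZeta hz]
    ring

lemma prod_le (q : ℕ) [NeZero q] (z : ℂ) (hz : 0 ≤ z.re) :
    ‖∏ p ∈ q.primeFactors, (1 - (p : ℂ) ^ (-z))‖ ≤ q := by
  rw [norm_prod]
  have h1 : ∏ p ∈ q.primeFactors, ‖1 - (p : ℂ) ^ (-z)‖ ≤ ∏ p ∈ q.primeFactors, (p : ℝ) := by
    refine prod_le_prod (fun _ _ => norm_nonneg _) fun p hp => ?_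
    have hp2 := (Nat.prime_of_mem_primeFactors hp).two_le
    have hp2' : (2 : ℝ) ≤ p := by exact_mod_cast hp2
    refine (norm_sub_le _ _).trans ?_
    rw [norm_one, norm_natCast_cpow_of_pos (by omega), neg_re]
    have := Real.rpow_le_one_of_one_le_of_nonpos (show (1 : ℝ) ≤ p by linarith)
      (show -z.re ≤ 0 by linarith)
    linarith
  refine h1.trans ?_
  rw [← Nat.cast_prod]
  exact_mod_cast Nat.le_of_dvd (NeZero.pos q) (Nat.prod_primeFactors_dvd q)

lemma Zf_le {C1 : ℝ} (hC1 : 0 < C1) (hL' : ∀ s : ℂ, s ≠ 1 → 1 - 1 / 2 ≤ s.re →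
    ‖riemannZeta s - 1 / (s - 1)‖ ≤ C1 * An.cond 1 s ^ (1 / 2 : ℝ)) (z : ℂ) (a1 : 1 / 2 ≤ z.re)
    (a2 : z.re ≤ 4) : ‖Zf z‖ ≤ (2 * C1 + 1) * (|z.im| + 3) ^ 2 := by
  have a3 := abs_nonneg z.im
  rcases eq_or_ne z 1 with rfl | hz1
  · rw [LupP.Zf_one]
    simp
    nlinarith
  · have a4 := hL' z hz1 (by linarith)
    have a5 := QE.cond_le le_rfl z
    have a6 : ‖z - 1‖ ≤ |z.im| + 3 := by
      refine (norm_le_abs_re_add_abs_im _).trans ?_
      simp only [sub_re, one_re, sub_im, one_im, sub_zero]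
      linarith [abs_le.2 (⟨by linarith, by linarith⟩ : -3 ≤ z.re - 1 ∧ z.re - 1 ≤ 3)]
    have := sub_ne_zero.2 hz1
    rw [LupP.Zf_eq hz1, show (z - 1) * riemannZeta z =
      1 + (z - 1) * (riemannZeta z - 1 / (z - 1)) by field_simp; ring]
    refine (norm_add_le _ _).trans ?_
    rw [norm_one, norm_mul]
    rw [Nat.cast_one, one_mul] at a5
    calc _ ≤ 1 + (|z.im| + 3) * (C1 * (|z.im| + 3)) := by
          gcongr; exact a4.trans (by gcongr)
      _ ≤ _ := by nlinarith [mul_nonneg hC1.le (sq_nonneg (|z.im| + 3))]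

end InvP

theorem yInv {θ : ℝ} (hθ : θ < 1) (hZ : Pool.Agent.P.MP_26a8c3_nt.QE.ZF θ) (h : T_LD) :
    T_Inv := by
  obtain ⟨ρ, hρ⟩ : ∃ ρ, ρ = min ((1 - θ) / 2) (1 / 4) := ⟨_, rfl⟩
  have r0 : 0 < ρ := by rw [hρ]; exact lt_min (by linarith) (by norm_num)
  have r1 : ρ ≤ 1 / 4 := by rw [hρ]; exact min_le_right _ _
  have r2 : θ ≤ 1 - 2 * ρ := by rw [hρ]; linarith [min_le_left ((1 - θ) / 2) (1 / 4)]
  obtain ⟨C1, hC1, hL, hL'⟩ := lup (1 / 2) (by norm_num) le_rfl
  obtain ⟨B, hB, hld⟩ := InvP.ld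
  refine ⟨ρ / 2, by positivity, by linarith, fun ε hε => ?_⟩
  obtain ⟨C, hC, H⟩ := InvP.gen h r0 r1 (C0 := B + 2) (K := 2 * C1 + 1) (by linarith)
    (by linarith) hε
  refine ⟨2 * C, by linarith, fun q _ χ => ?_⟩
  have q1 : 1 ≤ q := Nat.pos_of_ne_zero (NeZero.ne q)
  have q1' : (1 : ℝ) ≤ q := by exact_mod_cast q1
  by_cases hχ : χ = 1
  · subst hχ
    have hd := differentiable_LFunctionTrivChar₁ q
    have hv : ∀ z : ℂ, z ≠ 1 → LFunctionTrivChar₁ q z =
        (z - 1) * LFunction (1 : DirichletCharacter ℂ q) z := fun z hz => by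
      rw [LFunctionTrivChar₁, Function.update_of_ne hz]
    have hne : ∀ z : ℂ, 1 - 2 * ρ < z.re → LFunctionTrivChar₁ q z ≠ 0 := fun z hz => by
      rcases eq_or_ne z 1 with rfl | hz1
      · exact LFunctionTrivChar₁_apply_one_ne_zero q
      · rw [hv z hz1]
        exact mul_ne_zero (sub_ne_zero.2 hz1) (hZ q 1 z (by linarith) hz1)
    have c1 : ∀ t : ℝ, (2 + I * t : ℂ) ≠ 1 := fun t e => by simpa using congrArg re e
    have c2 : ∀ t : ℝ, 1 ≤ ‖(2 + I * t - 1 : ℂ)‖ := fun t => by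
      have a2 := re_le_norm (2 + I * t - 1 : ℂ)
      simp only [sub_re, add_re, re_ofNat, mul_re, I_re, ofReal_re, zero_mul, I_im, ofReal_im,
        mul_zero, sub_self, add_zero, one_re] at a2
      linarith
    have H1 := H (LFunctionTrivChar₁ q) q q1' hd hne (fun t => by
        rw [hv _ (c1 t), norm_mul]
        nlinarith [QE.half_le (1 : DirichletCharacter ℂ q) t, c2 t]) (fun z a1 a2 => by
        rw [InvP.triv_eq, norm_mul]
        calc _ ≤ (q : ℝ) * ((2 * C1 + 1) * (|z.im| + 3) ^ 2) :=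
              mul_le_mul (InvP.prod_le q z (by linarith)) (InvP.Zf_le hC1 hL' z a1 a2)
                (norm_nonneg _) (by linarith)
          _ = _ := by ring) (fun z hz => by
        have hz1 : z ≠ 1 := fun e => by rw [e] at hz; norm_num at hz
        have hz2 := sub_ne_zero.2 hz1
        have hz3 : LFunction (1 : DirichletCharacter ℂ q) z ≠ 0 := hZ q 1 z (by linarith) hz1
        rw [deriv_LFunctionTrivChar₁_apply_of_ne_one q hz1, hv z hz1]
        have e : ((z - 1) * deriv (LFunctionTrivChar q) z + LFunctionTrivChar q z) /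
            ((z - 1) * LFunction (1 : DirichletCharacter ℂ q) z) =
            deriv (LFunction (1 : DirichletCharacter ℂ q)) z /
              LFunction (1 : DirichletCharacter ℂ q) z + 1 / (z - 1) := by
          field_simp
        rw [e]
        refine (norm_add_le _ _).trans (add_le_add (hld q 1 z hz) ?_)
        have a2 := re_le_norm (z - 1)
        rw [sub_re, one_re] at a2
        rw [norm_div, norm_one, div_le_iff₀ (by linarith)]
        linarith)
    refine ⟨fun s => (s - 1) / LFunctionTrivChar₁ q s, fun s hs => ?_, fun s h1 h2 => ?_⟩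
    · have hz1 : s ≠ 1 := fun e => by rw [e] at hs; norm_num at hs
      have hz2 := sub_ne_zero.2 hz1
      have hz3 : LFunction (1 : DirichletCharacter ℂ q) s ≠ 0 := hZ q 1 s (by linarith) hz1
      simp only [hv s hz1]
      field_simp
    · have hs0 := hne s (by linarith)
      refine ⟨(differentiableAt_id.sub_const 1).div (hd s) hs0, ?_⟩
      have a1 := H1 s h1 h2
      rw [hv _ (c1 _), norm_mul] at a1
      have a2 := QE.half_le (1 : DirichletCharacter ℂ q) s.im
      have a3 : ‖s - 1‖ ≤ ‖(2 + I * s.im - 1 : ℂ)‖ := by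
        refine le_of_sq_le_sq ?_ (norm_nonneg _)
        rw [Complex.sq_norm, Complex.sq_norm, normSq_apply, normSq_apply]
        simp only [sub_re, add_re, re_ofNat, mul_re, I_re, ofReal_re, zero_mul, I_im, ofReal_im,
          mul_zero, sub_self, add_zero, one_re, sub_im, add_im, im_ofNat, mul_im, one_mul,
          zero_add, one_im, sub_zero]
        nlinarith
      simp only [norm_div]
      rw [div_le_iff₀ (norm_pos_iff.2 hs0)]
      nlinarith [c2 s.im]
  · have hd := differentiable_LFunction hχ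
    have hne : ∀ z : ℂ, 1 - 2 * ρ < z.re → LFunction χ z ≠ 0 := fun z hz => by
      rcases eq_or_ne z 1 with rfl | hz1
      · exact LFunction_apply_one_ne_zero hχ
      · exact hZ q χ z (by linarith) hz1
    have H1 := H (LFunction χ) q q1' hd hne (QE.half_le χ) (fun z a1 _ => by
        refine (hL q χ hχ z (by linarith)).trans ?_
        have a2 := QE.cond_le q1 z
        have a3 := abs_nonneg z.im
        calc _ ≤ C1 * (q * (|z.im| + 3)) := by gcongr
          _ = C1 * q * (|z.im| + 3) ^ 1 := by ring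
          _ ≤ _ := by gcongr <;> [linarith; linarith; norm_num])
      (fun z hz => (hld q χ z hz).trans (by linarith))
    refine ⟨fun s => 1 / LFunction χ s, fun s hs => ?_, fun s h1 h2 => ?_⟩
    · have := hne s (by linarith)
      field_simp
    · have hs0 := hne s (by linarith)
      refine ⟨(differentiableAt_const _).div (hd s) hs0, ?_⟩
      have a1 := H1 s h1 h2
      have a2 := QE.half_le χ s.im
      simp only [norm_div, norm_one]
      rw [div_le_iff₀ (norm_pos_iff.2 hs0)]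
      nlinarith

end Pool.Agent.P.MP_746f10_nt.HL
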