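import Pool.Agent.P.MP_746f10_nt.HL.Base
import Pool.Agent.P.MP_323ce2_nt.Tools

/-! A lower bound for a function without zeros, by the three circles theorem. -/

namespace Pool.Agent.P.MP_746f10_nt.HL

open Complex Metric
open Pool.Agent.P.MP_323ce2_nt

namespace LDP

lemma young {t δ : ℝ} (ht : t < 1) (hδ : 0 < δ) :
    ∃ K : ℝ, ∀ x : ℝ, 1 ≤ x → x ^ t ≤ δ * x + K := by
  have h1 : t - 1 ≠ 0 := by linarith
  have hK : 0 < δ ^ (1 / (t - 1)) := Real.rpow_pos_of_pos hδ _
  refine ⟨δ ^ (1 / (t - 1)), fun x hx => ?_⟩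
  have h0 : 0 < x := by linarith
  rcases le_total x (δ ^ (1 / (t - 1))) with h | h
  · have := Real.rpow_le_rpow_of_exponent_le hx ht.le
    rw [Real.rpow_one] at this
    nlinarith [mul_pos hδ h0]
  · have h2 := Real.rpow_le_rpow_of_nonpos hK h (by linarith : t - 1 ≤ 0)
    rw [← Real.rpow_mul hδ.le, one_div_mul_cancel h1, Real.rpow_one, Real.rpow_sub_one h0.ne',
      div_le_iff₀ h0] at h2
    linarith

end LDP

theorem yLD : T_LD := by
  intro ρ C0 ε r0 r1 hC hε
  set t := (Real.log (1 + ρ / 2) - Real.log (1 / 2)) / (Real.log (1 + ρ) - Real.log (1 / 2))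
    with ht
  have l1 : Real.log (1 / 2) < Real.log (1 + ρ / 2) := Real.log_lt_log (by norm_num) (by linarith)
  have l2 : Real.log (1 + ρ / 2) < Real.log (1 + ρ) := Real.log_lt_log (by linarith) (by linarith)
  have t0 : 0 ≤ t := div_nonneg (by linarith) (by linarith)
  have t1 : t < 1 := (div_lt_one (by linarith)).2 (by linarith)
  obtain ⟨K, hK⟩ := LDP.young t1 (δ := ε * ρ / (3 * C0)) (by positivity)
  refine ⟨C0 * (ε * ρ / (3 * C0) + K), fun h c M hd h0 hM hb hs z hz => ?_⟩
  obtain ⟨φ, hφ, φ0, hφ'⟩ := exists_log (by linarith : 0 < 1 + 2 * ρ) hd.differentiableOn h0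
  have hc := norm_pos_iff.2 (h0 c (mem_ball_self (by linarith)))
  have hre : ∀ w ∈ ball c (1 + 2 * ρ), (φ w).re ≤ M := fun w hw => by
    have h1 := hb w hw
    rw [hφ' w hw, norm_mul, norm_exp] at h1
    exact Real.exp_le_exp.1 (le_of_mul_le_mul_left h1 hc)
  have hsub : closedBall c (1 / 2) ⊆ ball c (1 + 2 * ρ) := closedBall_subset_ball (by linarith)
  have hdf : ∀ w ∈ closedBall c (1 / 2), DifferentiableAt ℂ φ w := fun w hw =>
    hφ.differentiableAt (isOpen_ball.mem_nhds (hsub hw))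
  have hder : ∀ w ∈ closedBall c (1 / 2), ‖deriv φ w‖ ≤ C0 := fun w hw => by
    have e : h =ᶠ[nhds w] fun w => h c * exp (φ w) := by
      filter_upwards [isOpen_ball.mem_nhds (hsub hw)] with w hw using hφ' w hw
    have e2 := ((hdf w hw).hasDerivAt.cexp).const_mul (h c)
    have h1 := hs w hw
    rwa [e.deriv_eq, e2.deriv, ← mul_assoc, ← hφ' w (hsub hw),
      mul_div_cancel_left₀ _ (h0 w (hsub hw))] at h1
  have ha : ∀ w ∈ closedBall c (1 / 2), ‖φ w‖ ≤ C0 := fun w hw => by
    have h1 := (convex_closedBall c (1 / 2)).norm_image_sub_le_of_norm_deriv_le hdf hder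
      (mem_closedBall_self (by norm_num)) hw
    rw [φ0, sub_zero] at h1
    rw [mem_closedBall, dist_eq_norm] at hw
    nlinarith
  have hM' : 0 < 3 * M / ρ := by positivity
  have hb' : ∀ w ∈ closedBall c (1 + ρ), ‖φ w‖ ≤ C0 * (1 + 3 * M / ρ) := fun w hw => by
    have h1 := bc hM (by linarith) (by linarith) hφ φ0 hre hw
    rw [show 1 + 2 * ρ - (1 + ρ) = ρ by ring] at h1
    have h2 : 2 * M * (1 + ρ) / ρ ≤ 3 * M / ρ := by gcongr ?_ / _; nlinarith
    nlinarith
  have h3 := three_circles (by norm_num) (by linarith) (by linarith) (by linarith) (by linarith)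
    hφ ha hb' (by linarith) (by nlinarith) hz
  rw [mul_div_cancel_left₀ _ (by linarith : C0 ≠ 0), ← ht] at h3
  have h4 := h3.trans (mul_le_mul_of_nonneg_left (hK _ (by linarith)) (by linarith))
  have h5 : C0 * (ε * ρ / (3 * C0) * (1 + 3 * M / ρ) + K) =
      ε * M + C0 * (ε * ρ / (3 * C0) + K) := by field_simp; ring
  rw [hφ' z (closedBall_subset_ball (by linarith) hz), norm_mul, norm_exp, mul_assoc,
    ← Real.exp_add]
  refine le_mul_of_one_le_right hc.le (Real.one_le_exp ?_)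
  linarith [(abs_le.1 (abs_re_le_norm (φ z))).1]

end Pool.Agent.P.MP_746f10_nt.HL
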