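import Pool.Agent.P.MP_746f10_nt.HL.Base

/-! The local factors of the singular series. -/

namespace Pool.Agent.P.MP_746f10_nt.HL

open Finset
open Pool.Agent.P.MP_746f10_nt.AP Pool.Agent.P.MP_746f10_nt.AZ

namespace LocP

variable {k : ℕ} {a b : Fin k → ℕ} {p : ℕ}

lemma dd_nonneg (m d : ℕ) : 0 ≤ dd m d := by unfold dd; split_ifs <;> norm_num

lemma root (hp : p.Prime) {a : ℕ} (ha : ¬ p ∣ a) (b : ℕ) :
    ∑ n ∈ range p, dd (a * n + b) p = 1 := by
  have : Fact p.Prime := ⟨hp⟩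
  have h0 : (a : ZMod p) ≠ 0 := fun h => ha ((ZMod.natCast_eq_zero_iff a p).1 h)
  have key : ∀ n : ℕ, p ∣ a * n + b ↔ (n : ZMod p) = -(b : ZMod p) / a := fun n => by
    rw [← ZMod.natCast_eq_zero_iff, eq_div_iff h0]
    push_cast
    constructor <;> intro h <;> linear_combination h
  rw [sum_eq_single (-(b : ZMod p) / a).val]
  · rw [dd, if_pos ((key _).2 (ZMod.natCast_zmod_val _))]
  · intro n hn h
    rw [dd, if_neg fun e => h ?_]
    rw [← (key n).1 e, ZMod.val_cast_of_lt (mem_range.1 hn)]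
  · exact fun h => absurd (mem_range.2 (ZMod.val_lt _)) h

lemma abs_le (hp : p.Prime) (m : ℕ) : |lf p m| ≤ dd m p + 2 / p := by
  have h2 : (2 : ℝ) ≤ p := by exact_mod_cast hp.two_le
  by_cases h : p ∣ m
  · rw [lf_of_dvd hp.two_le h, dd, if_pos h, abs_neg, abs_one]
    exact le_add_of_nonneg_right (by positivity)
  · rw [lf_of_not h, dd, if_neg h, zero_add, abs_of_nonneg (div_nonneg one_pos.le (by linarith)),
      div_le_div_iff₀ (by linarith) (by linarith)]
    linarith

lemma prod_le (hp : p.Prime) (n : ℕ) {I I' : Finset (Fin k)} (h : I' ⊆ I) :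
    |∏ i ∈ I, lfi a b i p n| ≤ ∏ i ∈ I', |lfi a b i p n| := by
  rw [abs_prod]
  exact prod_le_prod_of_subset_of_le_one h (fun _ _ => abs_nonneg _)
    fun i _ _ => abs_lfi_le a b i hp.two_le n

lemma mI_le (hp : p.Prime) {I I' : Finset (Fin k)} (h : I' ⊆ I) {c : ℝ}
    (hc : ∑ n ∈ range p, ∏ i ∈ I', |lfi a b i p n| ≤ c) : |mI a b p I| ≤ c / p := by
  have h0 : (0 : ℝ) < p := by exact_mod_cast hp.pos
  rw [mI, abs_mul, abs_of_pos (by positivity : (0 : ℝ) < 1 / p), one_div_mul_eq_div]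
  exact div_le_div_of_nonneg_right
    ((abs_sum_le_sum_abs _ _).trans ((sum_le_sum fun n _ => prod_le hp n h).trans hc)) h0.le

lemma one (hp : p.Prime) {I : Finset (Fin k)} (hI : I ≠ ∅) : |mI a b p I| ≤ 8 / p := by
  have h0 : (0 : ℝ) < p := by exact_mod_cast hp.pos
  obtain ⟨i, hi⟩ := nonempty_iff_ne_empty.2 hI
  refine mI_le hp (singleton_subset_iff.2 hi) ?_
  simp only [prod_singleton, lfi]
  split_ifs with h
  · simp
  · refine (sum_le_sum fun n _ => abs_le hp _).trans ?_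
    rw [sum_add_distrib, root hp h, sum_const, card_range, nsmul_eq_mul, mul_div_cancel₀ _ h0.ne']
    norm_num

lemma not_dvd (h : ¬ p ∣ Dl a b) (i : Fin k) : ¬ p ∣ a i := fun e =>
  h ((e.trans (dvd_prod_of_mem a (mem_univ i))).mul_right _)

lemma cross (h : ¬ p ∣ Dl a b) {i j : Fin k} (hij : j ≠ i) (n : ℕ) :
    dd (a i * n + b i) p * dd (a j * n + b j) p = 0 := by
  unfold dd
  split_ifs with h1 h2
  · refine absurd (Dvd.dvd.mul_left ?_ _) h
    refine Dvd.dvd.trans ?_ (dvd_prod_of_mem _ (mem_univ i))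
    refine Dvd.dvd.trans ?_ (dvd_prod_of_mem _ (mem_erase.2 ⟨hij, mem_univ j⟩))
    rw [← Int.natCast_dvd]
    have e1 := (Int.natCast_dvd_natCast.2 h1).mul_left (a j : ℤ)
    have e2 := (Int.natCast_dvd_natCast.2 h2).mul_left (a i : ℤ)
    have e3 := dvd_sub e2 e1
    push_cast at e3
    rwa [show (a i : ℤ) * (a j * n + b j) - a j * (a i * n + b i) = a i * b j - a j * b i by ring]
      at e3
  all_goals simp

lemma two (hp : p.Prime) (h : ¬ p ∣ Dl a b) {I : Finset (Fin k)} (hI : I ≠ ∅) :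
    |mI a b p I| ≤ 8 / (p : ℝ) ^ 2 := by
  have h0 : (0 : ℝ) < p := by exact_mod_cast hp.pos
  obtain ⟨i, hi⟩ := nonempty_iff_ne_empty.2 hI
  by_cases h1 : I = {i}
  · have e : ∑ n ∈ range p, lf p (a i * n + b i) = 0 := by
      simp only [lf]
      rw [← sum_div, sum_sub_distrib, ← mul_sum, root hp (not_dvd h i)]
      simp
    simp only [h1, mI, prod_singleton, lfi, if_neg (not_dvd h i), e, mul_zero, abs_zero]
    positivity
  obtain ⟨j, hj, hji⟩ : ∃ j ∈ I, j ≠ i := by
    by_contra! h2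
    exact h1 (eq_singleton_iff_unique_mem.2 ⟨hi, h2⟩)
  rw [sq, ← div_div]
  refine mI_le hp (I' := {i, j}) (insert_subset hi (singleton_subset_iff.2 hj)) ?_
  simp only [prod_pair hji.symm, lfi, if_neg (not_dvd h i), if_neg (not_dvd h j)]
  calc _ ≤ ∑ n ∈ range p, (2 / p * dd (a i * n + b i) p + 2 / p * dd (a j * n + b j) p +
        (2 / p : ℝ) ^ 2) := sum_le_sum fun n _ => by
          refine (mul_le_mul (abs_le hp _) (abs_le hp _) (abs_nonneg _)
            (add_nonneg (dd_nonneg _ _) (by positivity))).trans (le_of_eq ?_)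
          linear_combination cross h hji n
    _ = 8 / (p : ℝ) := by
      rw [sum_add_distrib, sum_add_distrib, ← mul_sum, ← mul_sum, root hp (not_dvd h i),
        root hp (not_dvd h j), sum_const, card_range, nsmul_eq_mul]
      field_simp
      norm_num

lemma nI_le {c : ℝ} (hc : 0 ≤ c) (h : ∀ I, I ≠ ∅ → |mI a b p I| ≤ c) : nI a b p ≤ 2 ^ k * c := by
  refine (sum_le_card_nsmul _ _ c fun I hI => h I (mem_erase.1 hI).1).trans ?_
  rw [nsmul_eq_mul]
  refine mul_le_mul_of_nonneg_right ?_ hc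
  have : ((univ : Finset (Finset (Fin k))).erase ∅).card ≤ 2 ^ k :=
    card_erase_le.trans (by simp)
  exact_mod_cast this

lemma three (hp : p.Prime) (hb : ∀ i, (b i).Coprime (a i)) :
    (∑ I, mI a b p I) * ∏ i, (if p ∣ a i then (p : ℝ) / (p - 1) else 1) = sp a b p := by
  have h2 : (2 : ℝ) ≤ p := by exact_mod_cast hp.two_le
  have h1 : (p : ℝ) - 1 ≠ 0 := by linarith
  have h0 : (p : ℝ) ≠ 0 := by linarith
  have e1 : ∀ n i, (1 + lfi a b i p n) * (if p ∣ a i then (p : ℝ) / (p - 1) else 1) =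
      p / (p - 1) * (1 - dd (a i * n + b i) p) := fun n i => by
    unfold lfi
    split_ifs with h
    · rw [dd, if_neg fun e => hp.one_lt.ne' (Nat.eq_one_of_dvd_coprimes (hb i)
        ((Nat.dvd_add_right (h.mul_right n)).1 e) h)]
      ring
    · unfold lf
      field_simp
      ring
  have e2 : ∀ n, ∏ i, (1 - dd (a i * n + b i) p) =
      1 - if ∃ i, p ∣ a i * n + b i then 1 else 0 := fun n => by
    split_ifs with h
    · obtain ⟨i, hi⟩ := h
      rw [prod_eq_zero (mem_univ i) (by rw [dd, if_pos hi, sub_self]), sub_self]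
    · rw [sub_zero]
      exact prod_eq_one fun i _ => by rw [dd, if_neg fun e => h ⟨i, e⟩, sub_zero]
  have e3 : ∀ n, ∑ I : Finset (Fin k), ∏ i ∈ I, lfi a b i p n = ∏ i, (1 + lfi a b i p n) :=
    fun n => by rw [prod_one_add, powerset_univ]
  simp only [mI]
  rw [← mul_sum, sum_comm, mul_assoc, sum_mul]
  simp only [e3, ← prod_mul_distrib, e1]
  simp only [prod_mul_distrib, e2, prod_const, card_univ, Fintype.card_fin]
  rw [← mul_sum, sum_sub_distrib, sum_boole, sum_const, card_range, nsmul_eq_mul, mul_one, sp, rho,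
    show (1 - 1 / (p : ℝ)) = ((p : ℝ) / (p - 1))⁻¹ by field_simp, inv_pow, div_inv_eq_mul]
  field_simp

end LocP

open LocP in
theorem yLoc : T_Loc := by
  intro k
  refine ⟨2 ^ k * 8, one_le_mul_of_one_le_of_one_le (one_le_pow₀ one_le_two) (by norm_num),
    fun a b p hp hb => ?_⟩
  have h2 : ¬ p ∣ Dl a b → nI a b p ≤ 2 ^ k * 8 / (p : ℝ) ^ 2 := fun h => by
    rw [mul_div_assoc]
    exact nI_le (by positivity) fun I hI => two hp h hI
  refine ⟨?_, h2, three hp hb, fun h => le_trans ?_ (h2 h)⟩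
  · rw [mul_div_assoc]
    exact nI_le (by positivity) fun I hI => one hp hI
  · rw [← three hp hb, prod_eq_one fun i _ => if_neg (not_dvd h i), mul_one,
      ← add_sum_erase _ _ (mem_univ ∅), mI_empty a b hp.pos, add_sub_cancel_left]
    exact abs_sum_le_sum_abs _ _

end Pool.Agent.P.MP_746f10_nt.HL
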