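import Pool.Agent.P.MP_746f10_nt.HL.Base
import Pool.Agent.P.MP_746f10_nt.AP.QRed

/-! From the mean value to the exceptional set. -/

namespace Pool.Agent.P.MP_746f10_nt.HL

open Finset Filter
open Pool.Agent.P.MP_746f10_nt.AP Pool.Agent.P.MP_746f10_nt.AZ

namespace MainP

/-- tuples with one coordinate determined by the others -/
lemma deg {m : ℕ} (a : Fin (m + 1) → ℕ) {i J : Fin (m + 1)} (hij : i ≠ J) :
    (((Fintype.piFinset fun i => RU (a i)).filter
      fun b => a i * b J = a J * b i).card : ℝ) * a J ≤ ∏ l, (a l : ℝ) := by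
  classical
  have h1 : ((Fintype.piFinset fun i => RU (a i)).filter fun b => a i * b J = a J * b i).card ≤
      (Fintype.piFinset fun l => range (a (J.succAbove l))).card := by
    refine card_le_card_of_injOn (fun b => J.removeNth b) (fun b hb => ?_) fun b hb b' hb' h => ?_
    · exact mem_coe.2 (Fintype.mem_piFinset.2 fun l => mem_range.2 (mem_Ico.1 (mem_RU.1
        (Fintype.mem_piFinset.1 (mem_filter.1 hb).1 _)).1).2)
    · obtain ⟨l, rfl⟩ := Fin.exists_succAbove_eq hij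
      have e1 : ∀ l, b (J.succAbove l) = b' (J.succAbove l) := fun l => congrFun h l
      have e2 := (mem_filter.1 hb).2
      have e3 := (mem_filter.1 hb').2
      have e4 := (mem_Ico.1 (mem_RU.1 (Fintype.mem_piFinset.1 (mem_filter.1 hb).1
        (J.succAbove l))).1)
      rw [e1, ← e3] at e2
      have e5 := Nat.eq_of_mul_eq_mul_left (by omega) e2
      funext x
      rcases eq_or_ne x J with rfl | hx
      · exact e5
      · obtain ⟨y, rfl⟩ := Fin.exists_succAbove_eq hx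
        exact e1 y
  rw [Fintype.card_piFinset] at h1
  simp only [card_range] at h1
  rw [Fin.prod_univ_succAbove _ J, mul_comm]
  gcongr
  exact_mod_cast h1

open Classical in
/-- the degenerate tuples are rare -/
lemma deg_all {m Q : ℕ} (a : Fin (m + 1) → ℕ) (h : ∀ i, i ≠ 0 → Q ≤ a i) :
    (((Fintype.piFinset fun i => RU (a i)).filter fun b => ¬ Nd a b).card : ℝ) * Q ≤
      (m + 1) ^ 2 * ∏ l, (a l : ℝ) := by
  set B := Fintype.piFinset fun i => RU (a i) with hB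
  set I := (univ : Finset (Fin (m + 1) × Fin (m + 1))).filter fun x => x.1 ≠ x.2 ∧ x.2 ≠ 0 with hI
  have h1 : (B.filter fun b => ¬ Nd a b) ⊆
      I.biUnion fun x => B.filter fun b => a x.1 * b x.2 = a x.2 * b x.1 := fun b hb => by
    obtain ⟨b1, b2⟩ := mem_filter.1 hb
    simp only [Nd, not_forall, not_not] at b2
    obtain ⟨i, j, hij, e⟩ := b2
    by_cases h0 : j = 0
    · exact mem_biUnion.2 ⟨(j, i), mem_filter.2 ⟨mem_univ _, hij.symm, h0 ▸ hij⟩,
        mem_filter.2 ⟨b1, e.symm⟩⟩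
    · exact mem_biUnion.2 ⟨(i, j), mem_filter.2 ⟨mem_univ _, hij, h0⟩, mem_filter.2 ⟨b1, e⟩⟩
  have h2 := (card_le_card h1).trans card_biUnion_le
  have h3 : (I.card : ℝ) ≤ (m + 1) ^ 2 := by
    have := card_filter_le (univ : Finset (Fin (m + 1) × Fin (m + 1)))
      fun x => x.1 ≠ x.2 ∧ x.2 ≠ 0
    rw [card_univ, Fintype.card_prod, Fintype.card_fin, ← sq] at this
    exact_mod_cast this
  calc _ ≤ (∑ x ∈ I, ((B.filter fun b => a x.1 * b x.2 = a x.2 * b x.1).card : ℝ)) * Q := by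
        gcongr
        exact_mod_cast h2
    _ ≤ ∑ _x ∈ I, ∏ l, (a l : ℝ) := by
        rw [sum_mul]
        refine sum_le_sum fun x hx => le_trans ?_ (deg a (mem_filter.1 hx).2.1)
        gcongr
        exact h _ (mem_filter.1 hx).2.2
    _ ≤ _ := by
        rw [sum_const, nsmul_eq_mul]
        gcongr

lemma sum_th {k : ℕ} (a b : Fin k → ℕ) (s : Finset ℕ) :
    ∑ x ∈ s, ∏ i, th (a i * x + b i) =
      ∑ n ∈ s.filter (fun n => ∀ i, (a i * n + b i).Prime), ∏ i, Real.log (a i * n + b i) := by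
  rw [sum_filter]
  refine sum_congr rfl fun x _ => ?_
  split_ifs with h
  · exact prod_congr rfl fun i _ => by rw [th_of_prime (h i)]; push_cast; rfl
  · obtain ⟨i, hi⟩ := not_forall.1 h
    exact prod_eq_zero (mem_univ i) (th_of_not hi)

lemma ev_rpow (C : ℝ) {t : ℝ} (ht : 0 < t) : ∀ᶠ Q : ℕ in atTop, C ≤ (Q : ℝ) ^ t :=
  ((tendsto_rpow_atTop ht).comp tendsto_natCast_atTop_atTop).eventually_ge_atTop C

end MainP

open MainP in
theorem yMain (h1 : T_Avg) (h2 : T_SL) : T_Main := by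
  classical
  intro k
  obtain ⟨c, hc, h2⟩ := h2 (k + 1)
  obtain ⟨j, h1⟩ := h1 k
  refine ⟨c, hc, fun η hη => ?_⟩
  obtain ⟨n, n1, n2, n3⟩ : ∃ n : ℕ, j / η ≤ n ∧ j ≤ n ∧ 1 ≤ n :=
    ⟨⌈j / η⌉₊ + j + 1, (Nat.le_ceil _).trans (by exact_mod_cast (by omega)), by omega, by omega⟩
  obtain ⟨S0, h1⟩ := h1 (2 * n)
  have n0 : (1 : ℝ) ≤ n := by exact_mod_cast n3
  set δ : ℝ := 1 / (8 * n) with hδ
  have d0 : 0 < δ := by positivity
  have d1 : δ ≤ 1 / 8 := one_div_le_one_div_of_le (by norm_num) (by linarith)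
  obtain ⟨Q0, hQ0⟩ := eventually_atTop.1 ((ev_rpow 2 d0).and ((ev_rpow (2 / c) d0).and
    ((ev_rpow (2 * (k + 1) ^ 2) (by norm_num : (0 : ℝ) < 1 / 2)).and
      (eventually_ge_atTop ((S0 + 2) ^ n)))))
  refine ⟨δ, d0, Q0, fun Q a hQ ha ha' => ?_⟩
  obtain ⟨v1, v2, v3, v4⟩ := hQ0 Q hQ
  set S := Nat.nthRoot n Q with hS
  have s1 : S ^ n ≤ Q := Nat.pow_nthRoot_le (Or.inl (by omega))
  have s2 : Q < (S + 1) ^ n := Nat.lt_pow_nthRoot_add_one (by omega) Q
  have s3 : S0 + 2 ≤ S := by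
    have := lt_of_pow_lt_pow_left₀ n (Nat.zero_le _) (v4.trans_lt s2)
    omega
  have s4 : Q ≤ S ^ (2 * n) := by
    rw [pow_mul]
    exact s2.le.trans (Nat.pow_le_pow_left (by nlinarith) n)
  have Q1 : 1 ≤ Q := le_trans (Nat.one_le_pow _ _ (by omega)) v4
  have q1 : (1 : ℝ) ≤ Q := by exact_mod_cast Q1
  have q0 : (0 : ℝ) < Q := by linarith
  have S0' : (0 : ℝ) < S := by exact_mod_cast (by omega : 0 < S)
  have s5 : (S : ℝ) ^ j ≤ (Q : ℝ) ^ η := by
    have a1 : (S : ℝ) ^ n ≤ Q := by exact_mod_cast s1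
    have a2 : (1 : ℝ) ≤ S := by exact_mod_cast (by omega : 1 ≤ S)
    calc (S : ℝ) ^ j = (S : ℝ) ^ (j : ℝ) := (Real.rpow_natCast _ _).symm
      _ ≤ (S : ℝ) ^ ((n : ℝ) * η) :=
          Real.rpow_le_rpow_of_exponent_le a2 (by rwa [div_le_iff₀ hη] at n1)
      _ = ((S : ℝ) ^ n) ^ η := by rw [Real.rpow_mul S0'.le, Real.rpow_natCast]
      _ ≤ _ := by gcongr
  have s6 : (Q : ℝ) ^ (4 * δ) ≤ S := by
    have a1 : (Q : ℝ) ≤ (S : ℝ) ^ (2 * n) := by exact_mod_cast s4
    calc (Q : ℝ) ^ (4 * δ) ≤ ((S : ℝ) ^ (2 * n)) ^ (4 * δ) := by gcongr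
      _ = S := by
          rw [← Real.rpow_natCast, ← Real.rpow_mul S0'.le,
            show ((2 * n : ℕ) : ℝ) * (4 * δ) = 1 by rw [hδ]; push_cast; field_simp; norm_num,
            Real.rpow_one]
  have r1 : ∀ i, i ≠ 0 → Q * S ^ j ≤ a i := fun i hi => by
    have := ha' i hi
    rw [Real.rpow_add q0, Real.rpow_one] at this
    exact_mod_cast (mul_le_mul_of_nonneg_left s5 q0.le).trans this
  have r2 : ∀ i, a i ^ 2 * S ^ j ≤ Q ^ 3 := fun i => by
    have a1 : (a i : ℝ) ^ 2 * (S : ℝ) ^ j ≤ ((Q : ℝ) ^ (3 / 2 - η)) ^ 2 * (Q : ℝ) ^ η := by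
      gcongr
      exact ha i
    rw [← Real.rpow_natCast ((Q : ℝ) ^ (3 / 2 - η)), ← Real.rpow_mul q0.le,
      ← Real.rpow_add q0] at a1
    have a2 : (Q : ℝ) ^ ((3 / 2 - η) * (2 : ℕ) + η) ≤ (Q : ℝ) ^ ((3 : ℕ) : ℝ) :=
      Real.rpow_le_rpow_of_exponent_le q1 (by push_cast; linarith)
    rw [Real.rpow_natCast] at a2
    exact_mod_cast a1.trans a2
  have main := h1 S Q a (by omega) s4 ((Nat.pow_le_pow_right (by omega) n2).trans s1)
    (fun i => r1 _ (Fin.succ_ne_zero i)) r2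
  set B := Fintype.piFinset fun i => RU (a i) with hB
  set P := ∏ i, (a i : ℝ) with hP
  have P0 : 0 ≤ P := by positivity
  set D : (Fin (k + 1) → ℕ) → ℝ := fun b =>
    |∑ x ∈ Ico Q (2 * Q), ∏ i, th (a i * x + b i) - Q * SS a b| with hD
  have t0 : 0 < (Q : ℝ) ^ (1 - δ) := by positivity
  have e1 : ((((B.filter fun b => Nd a b).filter fun b => (Q : ℝ) ^ (1 - δ) < D b).card : ℝ)) *
      (Q : ℝ) ^ (1 - δ) ≤ Q * P / S := by
    refine le_trans ?_ ((sum_le_sum_of_subset_of_nonneg (filter_subset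
      (fun b => (Q : ℝ) ^ (1 - δ) < D b) _) fun _ _ _ => abs_nonneg _).trans main)
    rw [← nsmul_eq_mul]
    exact card_nsmul_le_sum _ _ _ fun b hb => (mem_filter.1 hb).2.le
  have e2 := deg_all a fun i hi =>
    (Nat.le_mul_of_pos_right _ (Nat.pow_pos (by omega))).trans (r1 i hi)
  rw [← hB, ← hP] at e2
  have w0 : 0 < (Q : ℝ) ^ δ := by positivity
  have w1 : (Q : ℝ) ^ (1 - δ) = Q / (Q : ℝ) ^ δ := by rw [Real.rpow_sub q0, Real.rpow_one]
  have w2 : (Q : ℝ) ^ (-δ) = 1 / (Q : ℝ) ^ δ := by rw [Real.rpow_neg q0.le, one_div]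
  have w3 : (Q : ℝ) ^ (4 * δ) = ((Q : ℝ) ^ δ) ^ 4 := by
    rw [mul_comm, Real.rpow_mul q0.le]; exact_mod_cast rfl
  have w4 : (Q : ℝ) ^ δ * (2 * (k + 1) ^ 2) ≤ Q := by
    calc _ ≤ (Q : ℝ) ^ (1 / 2 : ℝ) * (Q : ℝ) ^ (1 / 2 : ℝ) :=
          mul_le_mul (Real.rpow_le_rpow_of_exponent_le q1 (by linarith)) v3 (by positivity)
            (by positivity)
      _ = Q := by rw [← Real.rpow_add q0]; norm_num
  rw [w3] at s6
  refine ⟨((B.filter fun b => Nd a b).filter fun b => (Q : ℝ) ^ (1 - δ) < D b) ∪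
    B.filter fun b => ¬ Nd a b, ?_, fun b hb hE => ?_⟩
  · refine le_trans (Nat.cast_le.2 (card_union_le _ _)) ?_
    rw [w1] at e1 ⊢
    rw [w2]
    push_cast
    generalize (Q : ℝ) ^ δ = w at *
    generalize (((B.filter fun b => Nd a b).filter fun b => Q / w < D b).card : ℝ) = x at *
    generalize ((B.filter fun b => ¬ Nd a b).card : ℝ) = y at *
    have a1 : x ≤ 1 / w * P / 2 := by
      rw [← mul_div_assoc, div_le_div_iff₀ w0 S0'] at e1
      have b1 : x * S ≤ P * w := le_of_mul_le_mul_left (by linarith) q0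
      have b0 : 2 ≤ w * w := by nlinarith
      have b2 : 2 * (w * w) ≤ S := by nlinarith [mul_le_mul_of_nonneg_right b0 (mul_pos w0 w0).le]
      rw [show 1 / w * P / 2 = P / (2 * w) by field_simp, le_div_iff₀ (by positivity)]
      refine le_of_mul_le_mul_right ?_ S0'
      calc x * (2 * w) * S = x * S * (2 * w) := by ring
        _ ≤ P * w * (2 * w) := by gcongr
        _ = P * (2 * (w * w)) := by ring
        _ ≤ _ := by gcongr
    have a2 : y ≤ 1 / w * P / 2 := by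
      rw [show 1 / w * P / 2 = P / (2 * w) by field_simp, le_div_iff₀ (by positivity)]
      refine le_of_mul_le_mul_right ?_ q0
      calc y * (2 * w) * Q = y * Q * (2 * w) := by ring
        _ ≤ (k + 1) ^ 2 * P * (2 * w) := by gcongr
        _ = P * (w * (2 * (k + 1) ^ 2)) := by ring
        _ ≤ _ := by gcongr
    linarith
  · rw [mem_union, not_or] at hE
    by_cases hcop : ∀ i, (b i).Coprime (a i)
    · have b1 : b ∈ B := Fintype.mem_piFinset.2 fun i => mem_RU.2 ⟨mem_Ico.2 (hb i), hcop i⟩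
      have b2 : Nd a b := by
        by_contra h
        exact hE.2 (mem_filter.2 ⟨b1, h⟩)
      have b3 : D b ≤ (Q : ℝ) ^ (1 - δ) :=
        not_lt.1 fun h => hE.1 (mem_filter.2 ⟨mem_filter.2 ⟨b1, b2⟩, h⟩)
      simp only [hD, sum_th, mul_comm (Q : ℝ)] at b3
      refine ⟨b3, fun hA => ?_⟩
      have b4 := (h2 a b).1 (fun i => by have := hb i; omega) hA b2
      refine ⟨b4, ?_⟩
      by_contra h
      rw [filter_false_of_mem fun x hx hp => h ⟨x, hx, hp⟩, sum_empty, zero_sub, abs_neg, w1,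
        le_div_iff₀ w0] at b3
      have b5 : c * Q ≤ |SS a b * Q| := le_trans (by gcongr) (le_abs_self _)
      rw [div_le_iff₀ hc] at v2
      nlinarith [mul_le_mul_of_nonneg_right b5 w0.le]
    · obtain ⟨i, hi⟩ := not_forall.1 hcop
      refine ⟨?_, fun hA => absurd (QRedP.adm_cop hA i) hi⟩
      rw [(h2 a b).2 i hi, filter_false_of_mem fun x hx hp => hi ?_, sum_empty, zero_mul, sub_zero,
        abs_zero]
      · exact t0.le
      · have h3 := hb i
        have h4 := (mem_Ico.1 hx).1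
        have h5 : a i * 1 ≤ a i * x := Nat.mul_le_mul_left _ (by omega)
        refine (coprime_row (a i) x (b i)).1 ((Nat.Prime.coprime_iff_not_dvd (hp i)).2 fun h => ?_)
        have := Nat.le_of_dvd (by omega) h
        omega

end Pool.Agent.P.MP_746f10_nt.HL
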