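import Pool.Agent.P.MP_746f10_nt.HL.Base

/-! The major part of the cut norm bound. -/

namespace Pool.Agent.P.MP_746f10_nt.HL

open Finset ComplexConjugate
open Pool.Agent.P.MP_746f10_nt.AP Pool.Agent.P.MP_746f10_nt.AZ
open Pool.Agent.P.MP_746f10_nt.AP.TIaP (cq)
open Pool.Agent.P.MP_0ad054_nt (e e_add norm_e)
open scoped ArithmeticFunction.vonMangoldt ArithmeticFunction.Moebius

namespace Maj2P

variable {a N : ℕ}

/-- a Ramanujan sum against a product test function -/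
lemma Bf_cq {q : ℕ} {u v : ℕ → ℂ} {G : ℝ} (ha : 1 ≤ a) (hu : ∀ n, ‖u n‖ ≤ 1) (hv : v 0 = 0)
    (h : ∀ r : ℕ, r.Coprime q → ‖∑ b ∈ range a, v b * e ((r : ℝ) * b / q)‖ ≤ G) :
    ‖Bf a N (cq q) u v‖ ≤ q.totient * (N * G) := by
  have e1 : Bf a N (cq q) u v = ∑ r ∈ (range q).filter (fun r => r.Coprime q),
      (∑ n ∈ Ico N (2 * N), u n * e ((r : ℝ) * (a * n) / q)) *
        ∑ b ∈ range a, v b * e ((r : ℝ) * b / q) := by
    have hr : ∀ r : ℕ, ∑ b ∈ range a, v b * e ((r : ℝ) * b / q) =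
        ∑ b ∈ Ico 1 a, v b * e ((r : ℝ) * b / q) := fun r => by
      rw [range_eq_Ico, sum_eq_sum_Ico_succ_bot ha, hv, zero_mul, zero_add]
    simp only [hr, sum_mul_sum]
    symm
    rw [sum_comm]
    refine sum_congr rfl fun n _ => ?_
    rw [sum_comm]
    refine sum_congr rfl fun b _ => ?_
    rw [cq, sum_mul, sum_mul]
    refine sum_congr rfl fun r _ => ?_
    rw [show (r : ℝ) * ((a * n + b : ℕ) : ℝ) / q = r * (a * n) / q + r * b / q by push_cast; ring,
      e_add]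
    ring
  have e2 : ((range q).filter (fun r => r.Coprime q)).card = q.totient := by
    rw [Nat.totient_eq_card_coprime]
    simp only [Nat.coprime_comm]
  rw [e1, ← e2, ← nsmul_eq_mul]
  refine (norm_sum_le _ _).trans (sum_le_card_nsmul _ _ _ fun r hr => ?_)
  rw [norm_mul]
  refine mul_le_mul ?_ (h r (mem_filter.1 hr).2) (norm_nonneg _) (Nat.cast_nonneg N)
  refine (norm_sum_le _ _).trans ((sum_le_card_nsmul _ _ 1 fun n _ => ?_).trans ?_)
  · rw [norm_mul, norm_e, mul_one]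
    exact hu n
  · rw [Nat.card_Ico, nsmul_eq_mul, mul_one, show 2 * N - N = N by omega]

lemma Bf_lin {ι : Type*} (s : Finset ι) (k : ι → ℂ) (c : ι → ℕ → ℂ) (u v : ℕ → ℂ) :
    Bf a N (fun m => ∑ i ∈ s, k i * c i m) u v = ∑ i ∈ s, k i * Bf a N (c i) u v := by
  unfold Bf
  simp only [mul_sum, sum_mul]
  symm
  rw [sum_comm]
  refine sum_congr rfl fun n _ => ?_
  rw [sum_comm]
  exact sum_congr rfl fun b _ => sum_congr rfl fun i _ => by ring

lemma gau_num {s R q ρ a : ℝ} (hs : 75 ≤ s) (hR : 1 ≤ R) (q0 : 0 ≤ q) (hq : q ≤ R) (ρ0 : 0 ≤ ρ)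
    (hρ : ρ ≤ s) (ha : R ^ 9 * s ^ 32 ≤ a) :
    √(q * ρ * ((R * s ^ 4) ^ 2 + 2) / a) * (2 * (R * s ^ 4) ^ 2 + 3) + 2 / √((R * s ^ 4) ^ 2) ≤
      2 / (R * s ^ 3) := by
  have s1 : 1 ≤ s := by linarith
  have s0 : 0 < s := by linarith
  have R0 : 0 < R := by linarith
  have a0 : 0 < a := lt_of_lt_of_le (by positivity) ha
  have Y1 : 1 ≤ (R * s ^ 4) ^ 2 := one_le_pow₀ (one_le_mul_of_one_le_of_one_le hR (one_le_pow₀ s1))
  have h1 : √(q * ρ * ((R * s ^ 4) ^ 2 + 2) / a) ≤ 1 / (5 * (R * s ^ 4) ^ 2 * (R * s ^ 3)) := by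
    refine Real.sqrt_le_iff.2 ⟨by positivity, ?_⟩
    rw [div_pow, one_pow, div_le_div_iff₀ a0 (by positivity), one_mul]
    calc _ ≤ R * s * (3 * (R * s ^ 4) ^ 2) * (5 * (R * s ^ 4) ^ 2 * (R * s ^ 3)) ^ 2 := by
          gcongr
          linarith
      _ = R ^ 9 * s ^ 31 * 75 := by ring
      _ ≤ R ^ 9 * s ^ 31 * s := by gcongr
      _ = R ^ 9 * s ^ 32 := by ring
      _ ≤ a := ha
  rw [Real.sqrt_sq (by positivity)]
  calc _ ≤ 1 / (5 * (R * s ^ 4) ^ 2 * (R * s ^ 3)) * (5 * (R * s ^ 4) ^ 2) +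
        2 / (R * (s ^ 3 * 2)) := by
        gcongr
        · linarith
        · rw [pow_succ s 3]
          gcongr
          linarith
    _ = _ := by field_simp; ring

end Maj2P

open Maj2P

theorem yMaj2 (h1 : T_Row2) (h2 : T_SIn) (h3 : T_SIp) (h4 : T_Gau) (h5 : T_Cr) : T_Maj2 := by
  obtain ⟨C, hC0, h1⟩ := h1
  obtain ⟨j2, h2⟩ := h2
  obtain ⟨j3, h3⟩ := h3
  refine ⟨3 * (j2 + j3) + 40, fun n => ?_⟩
  obtain ⟨S2, h2⟩ := h2 n
  obtain ⟨S3, h3⟩ := h3 n
  obtain ⟨S0, hS0⟩ := ev_ok (3 * n + 1) (S2 + S3 + C + 75)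
  refine ⟨S0, fun S a _ N R ρ u φ hS hN hNS hR hρS hρR hR9 hu hφ => ?_⟩
  obtain ⟨ok0, hC⟩ := hS0 S hS
  have n2 : (0 : ℝ) ≤ S2 := Nat.cast_nonneg _
  have n3 : (0 : ℝ) ≤ S3 := Nat.cast_nonneg _
  have s75 : (75 : ℝ) ≤ S := by linarith
  have S75 : 75 ≤ S := by exact_mod_cast s75
  have S1 : 1 ≤ S := by omega
  have s1 : (1 : ℝ) ≤ S := by linarith
  have s0 : (0 : ℝ) < S := by linarith
  have hS2 : S2 ≤ S ^ 3 := le_trans (by exact_mod_cast (by linarith : (S2 : ℝ) ≤ S))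
    (Nat.le_self_pow (by norm_num) S)
  have hS3 : S3 ≤ S ^ 3 := le_trans (by exact_mod_cast (by linarith : (S3 : ℝ) ≤ S))
    (Nat.le_self_pow (by norm_num) S)
  obtain ⟨q, q1, hq, hφq⟩ := famQ_of_fam hφ
  have ha : 1 ≤ a := NeZero.pos a
  have hNa := hR.N_le S1
  have hX : a * N ≤ (S ^ 3) ^ n :=
    calc a * N ≤ (S ^ n) ^ 2 * S ^ n := by
          gcongr
          exact (hR.a_le S1).trans (by gcongr)
      _ = _ := by ring
  have ok : Ok S (8 * (a * N)) := ok0.mono <|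
    calc 8 * (a * N) ≤ S * (S ^ 3) ^ n := by
          gcongr
          omega
      _ = _ := by ring
  have pw : ∀ i, i ≤ 3 * (j2 + j3) + 40 → N * S ^ i ≤ a ∧ S ^ i ≤ N := fun i hi =>
    ⟨(Nat.mul_le_mul_left N (Nat.pow_le_pow_right S1 hi)).trans hR.1,
      (Nat.pow_le_pow_right S1 (by omega)).trans (hR.pow_le hN)⟩
  have SN : S < N := lt_of_lt_of_le (by nlinarith) (pw 2 (by omega)).2
  have a2 : 2 ≤ a := by omega
  have hM : a * q < a * N := Nat.mul_lt_mul_of_pos_left (by omega) ha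
  have M1 : 1 ≤ a * q := Nat.mul_pos ha q1
  have : NeZero (a * q) := ⟨by omega⟩
  obtain ⟨R1, hR1⟩ : ∃ R1, R1 = a / S ^ 6 := ⟨_, rfl⟩
  have r1 : 1 ≤ R1 := by
    rw [hR1]
    exact Nat.div_pos ((pw 6 (by omega)).2.trans hNa) (by positivity)
  have r2 : S ^ 6 * R1 ≤ a := by rw [hR1]; exact Nat.mul_div_le _ _
  have r3 : a ≤ S ^ 7 * R1 := by
    have b1 : a < S ^ 6 * (R1 + 1) := by rw [hR1]; exact Nat.lt_mul_div_succ _ (by positivity)
    calc a ≤ S ^ 6 * (R1 + 1) := b1.le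
      _ ≤ S ^ 6 * (S * R1) := by
          gcongr
          nlinarith
      _ = _ := by ring
  have r4 : R1 ≤ a := (Nat.le_mul_of_pos_left _ (by positivity)).trans r2
  have k1 : ∀ j, j ≤ j2 + j3 → a * N * (S ^ 3) ^ j ≤ R1 ^ 2 := fun j hj => by
    refine le_of_mul_le_mul_left ?_ (show 0 < S ^ 14 by positivity)
    calc _ = a * (N * S ^ (3 * j + 14)) := by ring
      _ ≤ a * a := by
          gcongr
          exact (pw _ (by omega)).1
      _ ≤ (S ^ 7 * R1) * (S ^ 7 * R1) := by gcongr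
      _ = _ := by ring
  have k2 : a * N * (a * q) * (S ^ 3) ^ j2 ≤ R1 ^ 3 := by
    refine le_of_mul_le_mul_left ?_ (show 0 < S ^ 21 by positivity)
    calc _ = a * a * (N * S ^ (3 * j2 + 21) * q) := by ring
      _ ≤ a * a * (N * S ^ (3 * j2 + 21) * S) := by
          gcongr
          omega
      _ = a * a * (N * S ^ (3 * j2 + 22)) := by ring
      _ ≤ a * a * a := by
          gcongr
          exact (pw _ (by omega)).1
      _ ≤ (S ^ 7 * R1) * (S ^ 7 * R1) * (S ^ 7 * R1) := by gcongr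
      _ = _ := by ring
  have k3 : ∀ j, j ≤ j2 + j3 → R1 * (S ^ 3) ^ j ≤ a * N := fun j hj => by
    rw [← pow_mul]
    exact Nat.mul_le_mul r4 (pw _ (by omega)).2
  set c : ℕ → ℝ := fun m => cp (a * q) m * th m - mq (a * q) m with hc
  have c1 : ∀ m, a * N ≤ m → c m = th m - mq (a * q) m := fun m hm => by
    simp only [hc]
    rw [cp_mul_th M1 (by omega)]
  have c2 : ∀ m, ¬ m.Coprime (a * q) → c m = 0 := fun m hm => by
    simp only [hc, mq, cp_of_not hm, zero_mul, mul_zero, sub_zero]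
  have a0 : (0 : ℝ) < a := by exact_mod_cast ha
  have N0 : (0 : ℝ) < N := by exact_mod_cast hN
  have R10 : (0 : ℝ) < R1 := by exact_mod_cast r1
  have t1 : ‖Bf a N (fun m => (c m : ℂ)) u (fun b => φ b)‖ ≤ 2 * (a * N / (S : ℝ) ^ 2) := by
    refine (h1 a N ρ q R1 (fun m => (c m : ℂ)) u (2 * S) (R1 * (a * N : ℕ) / (S ^ 3 : ℕ)) φ hφq hq
      a2 hN r1 r4 hu (fun m hm => ?_) (fun m hm => ?_) fun κ => ?_).trans ?_
    · rw [Complex.norm_real, Real.norm_eq_abs, abs_le]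
      have b1 := mq_nonneg (a * q) m
      have b2 := (mq_le (a * q) m).trans (ok.tot (by omega))
      have b3 := mul_nonneg (cp_bd (a * q) m).1 (th_nonneg m)
      have b4 := (mul_le_of_le_one_left (th_nonneg m) (cp_bd (a * q) m).2).trans (th_le_log m)
      have b5 := ok.log hm
      simp only [hc]
      constructor <;> linarith
    · by_contra h
      exact hm (by rw [c2 m fun h' => h h'.coprime_mul_left_right, Complex.ofReal_zero])
    · by_cases hκ : κ = 1
      · refine le_trans (le_of_eq (sum_congr rfl fun x hx => ?_))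
          (h3 (S ^ 3) (a * N) (a * q) R1 hS3 hX M1 hM (k1 _ (by omega)) (k3 _ (by omega)))
        rw [← Real.norm_eq_abs, ← Complex.norm_real, Complex.ofReal_sum]
        refine congrArg _ (sum_congr rfl fun i _ => ?_)
        rw [← c1 _ (by have := (mem_Ico.1 hx).1; omega), hκ]
        by_cases h : (x + i).Coprime (a * q)
        · rw [MulChar.one_apply ((ZMod.isUnit_iff_coprime _ _).2 h), mul_one]
        · rw [c2 _ h, Complex.ofReal_zero, zero_mul]
      · refine le_trans (le_of_eq (sum_congr rfl fun x hx => ?_))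
          (h2 (S ^ 3) (a * N) (a * q) R1 κ hS2 hX hM (k1 _ (by omega)) k2 (k3 _ (by omega)) hκ)
        refine congrArg _ (sum_congr rfl fun i _ => ?_)
        rw [c1 _ (by have := (mem_Ico.1 hx).1; omega)]
    · have b1 : (ρ : ℝ) ≤ S := by exact_mod_cast hρS
      have b2 : (R1 : ℝ) ≤ a / (S : ℝ) ^ 6 := by
        rw [le_div_iff₀ (by positivity), mul_comm]
        exact_mod_cast r2
      have b3 : (2 : ℝ) ≤ S := by linarith
      have b4 : C ≤ S := by linarith
      push_cast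
      calc _ ≤ S * (R1 * (a * N) / (S : ℝ) ^ 3) / R1 + S * (S * S) * S * (a / (S : ℝ) ^ 6) * N := by
            gcongr
        _ = _ := by field_simp; ring
  have hRS : 1 ≤ R := by omega
  have R0 : (1 : ℝ) ≤ R := by exact_mod_cast hRS
  have φ0 : φ ((0 : ℕ) : ZMod a) = 0 := by
    have : Fact (1 < a) := ⟨a2⟩
    rw [Nat.cast_zero]
    exact (Fam_bd φ hφ 0).2 not_isUnit_zero
  have t2 : ‖Bf a N (fun m => ∑ q' ∈ (SQ a R).filter (fun q' => ¬ q' ∣ q),
      (-((a : ℝ) / a.totient : ℝ) * ((μ q' : ℂ) / q'.totient)) * cq q' m) u (fun b => φ b)‖ ≤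
      2 * (a * N / (S : ℝ) ^ 2) := by
    rw [Bf_lin]
    refine (norm_sum_le _ _).trans ((sum_le_card_nsmul _ _
      (S * (N * (a * (2 / (R * (S : ℝ) ^ 3))))) fun q' hq' => ?_).trans ?_)
    · obtain ⟨b1, b2⟩ := mem_filter.1 hq'
      obtain ⟨⟨b3, b4⟩, -, b5⟩ := mem_SQ.1 b1
      have b6 : (0 : ℝ) < q'.totient := by exact_mod_cast Nat.totient_pos.2 b3
      have b7 := Bf_cq (N := N) (q := q') (G := a * (2 / (R * (S : ℝ) ^ 3))) ha hu
        (v := fun b => φ b) φ0 fun r hr => by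
          refine (h4 a ρ q q' r ((R * S ^ 4) ^ 2) φ hφq hq b3 b5 hr b2 (by
            exact Nat.one_le_iff_ne_zero.2 (by positivity))).trans ?_
          push_cast
          refine mul_le_mul_of_nonneg_left (gau_num s75 R0 (Nat.cast_nonneg _)
            (by exact_mod_cast b4) (Nat.cast_nonneg _) (by exact_mod_cast hρS) ?_) a0.le
          exact_mod_cast ((Nat.mul_le_mul_left _ (Nat.pow_le_pow_right S1 (by omega))).trans
            hR9).trans hNa
      have b8 : ‖(μ q' : ℂ)‖ ≤ 1 := by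
        rw [Complex.norm_intCast]
        exact abs_mu_le q'
      rw [norm_mul, norm_mul, norm_neg, Complex.norm_real, Real.norm_eq_abs, norm_div,
        Complex.norm_natCast, abs_of_nonneg (by positivity)]
      calc _ ≤ S * (1 / q'.totient) * (q'.totient * (N * (a * (2 / (R * (S : ℝ) ^ 3))))) := by
            gcongr
            exact ok.tot (by nlinarith)
        _ = _ := by field_simp
    · have b1 : ((((SQ a R).filter fun q' => ¬ q' ∣ q).card : ℕ) : ℝ) ≤ R := by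
        exact_mod_cast (card_filter_le _ _).trans (card_SQ_le a R)
      rw [nsmul_eq_mul]
      calc _ ≤ R * (S * (N * (a * (2 / (R * (S : ℝ) ^ 3))))) := by gcongr
        _ = _ := by field_simp
  have e0 : Bf a N (fun m => ((th m - mo a R m : ℝ) : ℂ)) u (fun b => φ b) =
      Bf a N (fun m => (c m : ℂ)) u (fun b => φ b) +
      Bf a N (fun m => ∑ q' ∈ (SQ a R).filter (fun q' => ¬ q' ∣ q),
        (-((a : ℝ) / a.totient : ℝ) * ((μ q' : ℂ) / q'.totient)) * cq q' m) u (fun b => φ b) := by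
    rw [← Bf_add]
    refine sum_congr rfl fun x hx => sum_congr rfl fun b _ => ?_
    by_cases hb : b.Coprime a
    · have b1 : a * N ≤ a * x + b :=
        (Nat.mul_le_mul_left a (mem_Ico.1 hx).1).trans (Nat.le_add_right _ _)
      have b2 := h5.2.1 a q R (a * x + b) ha q1 (hq.trans hρR) ((coprime_row a x b).2 hb)
      have b3 : ∑ q' ∈ (SQ a R).filter (fun q' => ¬ q' ∣ q),
          (-((a : ℝ) / a.totient : ℝ) * ((μ q' : ℂ) / q'.totient)) * cq q' (a * x + b) =
          ((-((a : ℝ) / a.totient) * ∑ q' ∈ (SQ a R).filter (fun q' => ¬ q' ∣ q),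
            rn q' (a * x + b) : ℝ) : ℂ) := by
        rw [Complex.ofReal_mul, Complex.ofReal_sum, mul_sum]
        refine sum_congr rfl fun q' hq' => ?_
        rw [h5.1 q' _ (mem_SQ.1 (mem_filter.1 hq').1).2.1, mul_assoc, Complex.ofReal_neg]
      congr 2
      simp only []
      rw [b3, c1 _ b1, ← b2, ← Complex.ofReal_add, mo,
        ← sum_filter_add_sum_filter_not (SQ a R) (fun q' => q' ∣ q)]
      congr 1
      ring
    · have : φ (b : ZMod a) = 0 :=
        (Fam_bd φ hφ _).2 fun h => hb ((ZMod.isUnit_iff_coprime _ _).1 h)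
      simp only [this, mul_zero]
  rw [e0]
  refine (norm_add_le_of_le t1 t2).trans ?_
  calc _ = 4 * (a * N / (S : ℝ) ^ 2) := by ring
    _ ≤ S * (a * N / (S : ℝ) ^ 2) := by
        gcongr
        linarith
    _ = _ := by field_simp

end Pool.Agent.P.MP_746f10_nt.HL
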