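import Pool.Agent.P.MP_746f10_nt.HL.Base

/-! The minor part of the cut norm bound. -/

namespace Pool.Agent.P.MP_746f10_nt.HL

open Finset ComplexConjugate
open Pool.Agent.P.MP_746f10_nt.AP Pool.Agent.P.MP_746f10_nt.AZ
open Pool.Agent.P.MP_746f10_nt.AP.TIaP (cq)
open scoped ArithmeticFunction.vonMangoldt ArithmeticFunction.Moebius

namespace MinLP

variable {a N : ℕ}

lemma Bf_eq {c c' u u' : ℕ → ℂ} (v : ℕ → ℂ) (k : ℂ)
    (h : ∀ n ∈ Ico N (2 * N), ∀ b ∈ Ico 1 a, c (a * n + b) * u n = k * (c' (a * n + b) * u' n)) :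
    Bf a N c u v = k * Bf a N c' u' v := by
  unfold Bf
  rw [mul_sum]
  refine sum_congr rfl fun n hn => ?_
  rw [mul_sum]
  exact sum_congr rfl fun b hb => by rw [h n hn b hb, mul_assoc]

lemma Bf_le {c c' u u' : ℕ → ℂ} (v : ℕ → ℂ) (k : ℝ) {B : ℝ}
    (h : ∀ n ∈ Ico N (2 * N), ∀ b ∈ Ico 1 a, c (a * n + b) * u n = k * (c' (a * n + b) * u' n))
    (hB : ‖Bf a N c' u' v‖ ≤ B) : ‖Bf a N c u v‖ ≤ |k| * B := by
  rw [Bf_eq v k h, norm_mul, Complex.norm_real, Real.norm_eq_abs]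
  exact mul_le_mul_of_nonneg_left hB (abs_nonneg _)

lemma Bf_l1 {c : ℕ → ℝ} {u v : ℕ → ℂ} {F : ℝ} (hu : ∀ n, ‖u n‖ ≤ 1) (hv : ∀ b, ‖v b‖ ≤ F) :
    ‖Bf a N (fun m => (c m : ℂ)) u v‖ ≤
      F * ∑ n ∈ Ico N (2 * N), ∑ b ∈ Ico 1 a, |c (a * n + b)| := by
  rw [Bf, mul_sum]
  refine norm_sum_le_of_le _ fun n _ => ?_
  rw [mul_sum]
  refine norm_sum_le_of_le _ fun b _ => ?_
  rw [norm_mul, norm_mul, Complex.norm_real, Real.norm_eq_abs, mul_comm F]
  exact mul_le_mul (mul_le_of_le_one_right (abs_nonneg _) (hu n)) (hv b) (norm_nonneg _)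
    (abs_nonneg _)

lemma entry {n b : ℕ} (hn : n ∈ Ico N (2 * N)) (hb : b ∈ Ico 1 a) :
    a * N < a * n + b ∧ a * n + b < 2 * a * N := by
  obtain ⟨h1, h2⟩ := mem_Ico.1 hn
  obtain ⟨h3, h4⟩ := mem_Ico.1 hb
  have h5 : a * N ≤ a * n := Nat.mul_le_mul_left _ h1
  have h6 : a * (n + 1) ≤ a * (2 * N) := Nat.mul_le_mul_left _ h2
  constructor <;> nlinarith

lemma abs_sum_mu (D : ℕ) {m : ℕ} (hm : m ≠ 0) :
    |∑ d ∈ Icc 1 D, (μ d : ℝ) * dd m d| ≤ m.divisors.card := by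
  calc _ ≤ ∑ d ∈ Icc 1 D, if d ∣ m then (1 : ℝ) else 0 := by
        refine (abs_sum_le_sum_abs _ _).trans (sum_le_sum fun d _ => ?_)
        rw [abs_mul, abs_of_nonneg (dd_bd m d).1]
        exact mul_le_of_le_one_left (dd_bd m d).1 (abs_mu_le d)
    _ ≤ _ := by
        rw [sum_boole]
        exact_mod_cast card_le_card fun d hd => Nat.mem_divisors.2 ⟨(mem_filter.1 hd).2, hm⟩

/-- large divisors as a convolution -/
lemma sum_eq_cv (g : ℕ → ℝ) {D m : ℕ} (hm : D ^ 3 < m) :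
    ∑ d ∈ Ioc D (D * D), g d * dd m d =
      cv (fun d => if d ∈ Ioc D (D * D) then g d else 0) (fun l => if D < l then 1 else 0) m := by
  have h0 : m ≠ 0 := by omega
  rw [cv_eq_divisors]
  calc _ = ∑ d ∈ (Ioc D (D * D)).filter (· ∣ m), g d := by
        rw [sum_filter]
        exact sum_congr rfl fun d _ => by unfold dd; split_ifs <;> simp
    _ = ∑ d ∈ m.divisors.filter (· ∈ Ioc D (D * D)), g d := by
        congr 1
        ext d
        simp only [mem_filter, Nat.mem_divisors]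
        tauto
    _ = _ := by
        rw [sum_filter]
        refine sum_congr rfl fun d hd => ?_
        by_cases h : d ∈ Ioc D (D * D)
        · rw [if_pos h, if_pos, mul_one]
          by_contra h1
          have h2 := Nat.mul_div_cancel' (Nat.dvd_of_mem_divisors hd)
          have h3 := Nat.mul_le_mul (mem_Ioc.1 h).2 (not_lt.1 h1)
          have h4 : D ^ 3 = D * D * D := by ring
          omega
        · simp [h]

lemma log_row {n b : ℕ} (hN : 1 ≤ N) (hn : n ∈ Ico N (2 * N)) (hb : b ∈ Ico 1 a) :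
    |Real.log ((a * n + b : ℕ) : ℝ) - Real.log ((a * n : ℕ) : ℝ)| ≤ 1 / N := by
  obtain ⟨h1, -⟩ := mem_Ico.1 hn
  obtain ⟨h3, h4⟩ := mem_Ico.1 hb
  have a0 : (0 : ℝ) < a := by exact_mod_cast (by omega : 0 < a)
  have N0 : (0 : ℝ) < N := by exact_mod_cast hN
  have n1 : (N : ℝ) ≤ n := by exact_mod_cast h1
  have n0 : (0 : ℝ) < n := by linarith
  have b1 : (b : ℝ) ≤ a := by exact_mod_cast h4.le
  have b0 : (0 : ℝ) ≤ b := Nat.cast_nonneg b
  push_cast
  rw [← Real.log_div (by positivity) (by positivity), abs_of_nonneg (Real.log_nonneg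
    ((one_le_div (by positivity)).2 (by linarith)))]
  calc _ ≤ ((a : ℝ) * n + b) / (a * n) - 1 := Real.log_le_sub_one_of_pos (by positivity)
    _ = (b : ℝ) / (a * n) := by field_simp; ring
    _ ≤ (a : ℝ) / (a * N) := by gcongr
    _ = _ := by field_simp

/-- the size of the level -/
lemma level {S : ℕ} (hS : 2 ≤ S) (hN : 1 ≤ N) (ha : 1 ≤ a) (h : Reg S 3000 a N) :
    S ^ 2000 * ((S ^ 5) ^ 152 * (Nat.sqrt a + 1)) ≤ N ∧
      ((S ^ 5) ^ 152 * (Nat.sqrt a + 1)) ^ 3 ≤ a * N := by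
  have h1 : (Nat.sqrt a + 1) ^ 2 ≤ S ^ 2 * a := by
    have b1 : 1 ≤ Nat.sqrt a := Nat.sqrt_pos.2 ha
    calc _ ≤ (S * Nat.sqrt a) ^ 2 := by gcongr; nlinarith
      _ ≤ _ := by rw [mul_pow]; gcongr; exact Nat.sqrt_le' a
  have h2 := h.pow_le hN
  have S1 : 1 ≤ S := by omega
  have k1 : S ^ 2000 * ((S ^ 5) ^ 152 * (Nat.sqrt a + 1)) ≤ N := by
    refine (Nat.pow_le_pow_iff_left (n := 4) (by norm_num)).1 ?_
    calc _ = S ^ 11040 * ((Nat.sqrt a + 1) ^ 2) ^ 2 := by ring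
      _ ≤ S ^ 11040 * (S ^ 2 * a) ^ 2 := by gcongr
      _ = S ^ 8044 * (a ^ 2 * S ^ 3000) := by ring
      _ ≤ S ^ (3 * 3000) * N ^ 3 := by gcongr; exacts [by norm_num, h.2]
      _ ≤ N * N ^ 3 := by gcongr
      _ = _ := by ring
  refine ⟨k1, le_trans ?_ (Nat.mul_le_mul_left a k1)⟩
  calc _ = S ^ 1520 * (Nat.sqrt a + 1) ^ 2 * ((S ^ 5) ^ 152 * (Nat.sqrt a + 1)) := by ring
    _ ≤ S ^ 1520 * (S ^ 2 * a) * ((S ^ 5) ^ 152 * (Nat.sqrt a + 1)) := by gcongr
    _ = a * (S ^ 1522 * ((S ^ 5) ^ 152 * (Nat.sqrt a + 1))) := by ring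
    _ ≤ _ := by gcongr; norm_num

lemma four {s N a D : ℝ} (hs : 1 ≤ s) (hN : s ^ 20 ≤ N) (ha : N * s ^ 20 ≤ a) (hD : D ≤ N) :
    1 / (s ^ 5) ^ 2 + 1 / √N + 1 / √a + D / √(a * N) ≤ 4 / s ^ 10 := by
  have s0 : 0 < s := by linarith
  have s1 : 1 ≤ s ^ 20 := one_le_pow₀ hs
  have N0 : 0 < N := by linarith
  have h0 : N ≤ a := (le_mul_of_one_le_right N0.le s1).trans ha
  have h1 : s ^ 10 ≤ √N := Real.le_sqrt_of_sq_le (by rw [← pow_mul]; exact hN)
  have h2 : s ^ 10 ≤ √a := h1.trans (Real.sqrt_le_sqrt h0)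
  have h3 : N * s ^ 10 ≤ √(a * N) := Real.le_sqrt_of_sq_le <|
    calc (N * s ^ 10) ^ 2 = N * s ^ 20 * N := by ring
      _ ≤ _ := by gcongr
  calc _ ≤ 1 / (s ^ 5) ^ 2 + 1 / s ^ 10 + 1 / s ^ 10 + N / (N * s ^ 10) := by gcongr
    _ = _ := by field_simp; ring

end MinLP

open MinLP

theorem yMinL (h1 : T_Vau) (h2 : T_TI2) (h3 : T_II2) (h4 : T_Cr) : T_MinL := by
  obtain ⟨C2, hC2, h2⟩ := h2
  obtain ⟨C3, hC3, h3⟩ := h3
  refine ⟨3000, fun n => ?_⟩
  obtain ⟨S0, hS0⟩ := ev_ok (3 * n + 1) (C2 + C3 + 20)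
  refine ⟨S0, fun S a _ N R u f hS hN hNS hR hRN hu hf => ?_⟩
  obtain ⟨ok0, hC⟩ := hS0 S hS
  have S2 := ok0.two
  have S1 : 1 ≤ S := by omega
  have s20 : (20 : ℝ) ≤ S := by linarith
  have s1 : (1 : ℝ) ≤ S := by linarith
  have s0 : (0 : ℝ) < S := by linarith
  have sC : (S : ℂ) ≠ 0 := by exact_mod_cast s0.ne'
  have ha : 1 ≤ a := NeZero.pos a
  have hNa := hR.N_le S1
  have ok : Ok S (2 * a * N) := ok0.mono <|
    calc 2 * a * N ≤ S * (S ^ n) ^ 2 * S ^ n := by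
          gcongr
          exact (hR.a_le S1).trans (by gcongr)
      _ = _ := by ring
  obtain ⟨l1, l2⟩ := level S2 hN ha hR
  set D := (S ^ 5) ^ 152 * (Nat.sqrt a + 1) with hD
  have D1 : 1 ≤ D := Nat.mul_pos (by positivity) (Nat.succ_pos _)
  have DN : D ≤ N := (Nat.le_mul_of_pos_left _ (by positivity)).trans l1
  have aN : a * N ≤ 2 * a * N := by nlinarith
  have NY : N ≤ 2 * a * N := (Nat.le_mul_of_pos_left _ ha).trans aN
  have aY : 2 * a ≤ 2 * a * N := Nat.le_mul_of_pos_right _ hN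
  have DY : D * D ≤ 2 * a * N := (Nat.mul_le_mul (DN.trans hNa) DN).trans aN
  have n9 : (S : ℝ) ^ 300 ≤ N := by
    have := (Nat.pow_le_pow_right S1 (show 300 ≤ 3 * 3000 by norm_num)).trans (hR.pow_le hN)
    exact_mod_cast this
  have a0 : (0 : ℝ) < a := by exact_mod_cast ha
  have N0 : (0 : ℝ) < N := by exact_mod_cast hN
  have T2 : 2 ≤ S ^ 5 := S2.trans (Nat.le_self_pow (by norm_num) S)
  have sT : (S : ℝ) ≤ ((S ^ 5 : ℕ) : ℝ) := by exact_mod_cast Nat.le_self_pow (by norm_num) S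
  have hf' : Mq f (Fam a ((S ^ 5) ^ 17)) (1 / ((S ^ 5 : ℕ) : ℝ) ^ 28) (((S ^ 5 : ℕ) : ℝ) ^ 57) := by
    rwa [Nat.cast_pow]
  have fo : ∀ E : ℕ, E ≤ N → 1 / ((S ^ 5 : ℕ) : ℝ) ^ 2 + 1 / √N + 1 / √a + E / √(a * N) ≤
      4 / (S : ℝ) ^ 10 ∧ 0 ≤ 1 + Real.log E ∧ 1 + Real.log E ≤ S := fun E hE =>
    ⟨by
      rw [Nat.cast_pow]
      refine four s1 ((pow_le_pow_right₀ s1 (by norm_num)).trans n9) ?_ (by exact_mod_cast hE)
      exact_mod_cast (Nat.mul_le_mul_left N (Nat.pow_le_pow_right S1 (by norm_num))).trans hR.1,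
    by linarith [Real.log_natCast_nonneg E], ok.log (hE.trans NY)⟩
  have tI : ∀ (w : ℕ → ℂ) (lam : ℕ → ℝ), (∀ n, ‖w n‖ ≤ 1) → (∀ d, |lam d| ≤ 1) →
      ‖Bf a N (fun m => ((∑ d ∈ Icc 1 D, lam d * dd m d : ℝ) : ℂ)) w (fun b => f b)‖ ≤
        4 * (a * N) / (S : ℝ) ^ 6 := fun w lam hw hl => by
    obtain ⟨b1, b2, b3⟩ := fo D DN
    refine ((h2 a N _ D w f _ hN T2 hw hf').2 lam hl).trans ?_
    calc _ ≤ S * (S : ℝ) ^ 3 * (4 / (S : ℝ) ^ 10) * a * N := by gcongr; linarith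
      _ = _ := by field_simp
  have tII : ∀ α β : ℕ → ℝ, (∀ k, |α k| ≤ 1) → (∀ k, |β k| ≤ 1) → (∀ k, α k ≠ 0 → D < k) →
      (∀ k, β k ≠ 0 → D < k) →
      ‖Bf a N (fun m => ((cv α β m : ℝ) : ℂ)) u (fun b => f b)‖ ≤ a * N / (S : ℝ) ^ 3 := by
    intro α β b1 b2 b3 b4
    obtain ⟨-, c2, c3⟩ := fo N le_rfl
    simp only [cv_ofReal]
    refine (h3 a N _ D _ _ u f hN T2 ?_ ?_ (hR.mono (by rw [← pow_mul])) ?_
      (fun k => by simpa using b1 k) (fun k => by simpa using b2 k) hu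
      (fun k h => b3 k (by simpa using h)) (fun k h => b4 k (by simpa using h)) hf').trans ?_
    · exact_mod_cast (ok.tau (m := a) (by omega)).trans sT
    · exact_mod_cast (ok.log aY).trans sT
    · rw [hD, mul_pow, ← pow_mul (S ^ 5)]
      exact Nat.mul_le_mul (Nat.pow_le_pow_right (by omega) (by norm_num))
        (Nat.lt_succ_sqrt' a).le
    · push_cast
      calc _ ≤ S * S * (a * N / (S : ℝ) ^ 5) := by gcongr; linarith
        _ = _ := by field_simp
  have vb : ∀ d, d ≤ D * D → |vg D D d / (2 * S)| ≤ 1 := fun d hd => by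
    rw [abs_div, abs_of_pos (by positivity : (0 : ℝ) < 2 * S), div_le_one (by positivity)]
    linarith [h1.2.1 D D d, ok.log (hd.trans DY)]
  set A : ℕ → ℝ := fun m => ∑ d ∈ Icc 1 D, (μ d : ℝ) * dd m d with hA
  set c1 : ℕ → ℝ := fun m =>
    th m - Λ m + (Real.log m - Real.log ((a * (m / a) : ℕ) : ℝ)) * A m with hc1
  set c2 : ℕ → ℝ := fun m => Real.log ((a * (m / a) : ℕ) : ℝ) * A m with hc2
  set c3 : ℕ → ℝ := fun m => -∑ d ∈ Icc 1 D, vg D D d * dd m d with hc3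
  set c4 : ℕ → ℝ := fun m => -∑ d ∈ Ioc D (D * D), vg D D d * dd m d with hc4
  have e0 : Bf a N (fun m => ((th m - mo a R m : ℝ) : ℂ)) u (fun b => f b) =
      Bf a N (fun m => (c1 m : ℂ)) u (fun b => f b) + Bf a N (fun m => (c2 m : ℂ)) u (fun b => f b) +
      Bf a N (fun m => (c3 m : ℂ)) u (fun b => f b) + Bf a N (fun m => (c4 m : ℂ)) u (fun b => f b) +
      Bf a N (fun m => ((cv (muG D) (laG D) m : ℝ) : ℂ)) u (fun b => f b) +
      Bf a N (fun m => ((-mo a R m : ℝ) : ℂ)) u (fun b => f b) := by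
    simp only [← Bf_add, ← Complex.ofReal_add]
    refine (Bf_eq _ 1 fun x hx b hb => ?_).trans (one_mul _)
    have b1 := (entry hx hb).1
    have b2 := h1.1 D D (a * x + b) D1
      (lt_of_le_of_lt (DN.trans (Nat.le_mul_of_pos_left _ ha)) b1)
    rw [show Icc 1 (D * D) = Ioc 0 (D * D) from rfl,
      ← sum_Ioc_consecutive _ (Nat.zero_le D) (Nat.le_mul_self D)] at b2
    rw [one_mul]
    congr 2
    simp only [hc1, hc2, hc3, hc4, hA]
    rw [b2, show Ioc 0 D = Icc 1 D from rfl]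
    ring
  have t1 : ‖Bf a N (fun m => (c1 m : ℂ)) u (fun b => f b)‖ ≤ a * N / (S : ℝ) ^ 2 := by
    refine (Bf_l1 hu fun b => hf.sup b).trans ?_
    have b0 : ∀ m, 0 ≤ Λ m - th m := fun m => sub_nonneg.2 (th_le_vm m)
    have b1 : ∑ x ∈ Ico N (2 * N), ∑ b ∈ Ico 1 a, (Λ (a * x + b) - th (a * x + b)) ≤
        4 * a * S := by
      refine (sum_rows_le a N (2 * N) (by omega) b0).trans ?_
      refine (sum_le_sum_of_subset_of_nonneg (t := range (2 * a * N + 1)) (fun m hm => ?_)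
        fun m _ _ => b0 m).trans ((h1.2.2.2 _).trans ?_)
      · have := (mem_Ico.1 hm).2
        rw [mem_range]
        nlinarith
      · have b2 : √((2 * a * N : ℕ) : ℝ) ≤ 2 * a := by
          have : (N : ℝ) ≤ a := by exact_mod_cast hNa
          refine Real.sqrt_le_iff.2 ⟨by positivity, ?_⟩
          push_cast
          nlinarith
        have b3 := ok.log le_rfl
        have b4 := Real.log_natCast_nonneg (2 * a * N)
        calc _ ≤ 2 * (2 * a) * (S : ℝ) := by gcongr; linarith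
          _ = _ := by ring
    have b2 : ∑ x ∈ Ico N (2 * N), ∑ b ∈ Ico 1 a, |c1 (a * x + b)| ≤ 4 * a * S + a * S :=
      calc _ ≤ ∑ x ∈ Ico N (2 * N), ∑ b ∈ Ico 1 a,
            (Λ (a * x + b) - th (a * x + b) + 1 / N * S) := by
            refine sum_le_sum fun x hx => sum_le_sum fun b hb => (abs_add_le _ _).trans ?_
            obtain ⟨b3, b4⟩ := entry hx hb
            rw [abs_sub_comm, abs_of_nonneg (b0 _), abs_mul, row_div hb]
            gcongr
            exacts [log_row hN hx hb, (abs_sum_mu D (by omega)).trans (ok.tau b4.le)]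
        _ ≤ _ := by
            simp only [sum_add_distrib, sum_const, Nat.card_Ico, nsmul_eq_mul]
            refine add_le_add b1 ?_
            rw [show 2 * N - N = N by omega]
            have : ((a - 1 : ℕ) : ℝ) ≤ a := by exact_mod_cast Nat.sub_le a 1
            calc _ ≤ N * (a * (1 / N * S) : ℝ) := by gcongr
              _ = _ := by field_simp
    rw [le_div_iff₀ (by positivity)]
    calc _ ≤ ((S : ℝ) ^ 5) ^ 57 * (4 * a * S + a * S) * (S : ℝ) ^ 2 := by gcongr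
      _ = a * (5 * (S : ℝ) ^ 288) := by ring
      _ ≤ a * (S * (S : ℝ) ^ 288) := by gcongr; linarith
      _ ≤ _ := by
          rw [← pow_succ']
          gcongr
          exact (pow_le_pow_right₀ s1 (by norm_num)).trans n9
  have t2 := Bf_le (c := fun m => (c2 m : ℂ)) (u := u) (fun b => f b) S (fun x hx b hb => by
      simp only [hc2, hA, row_div hb, if_pos hx]
      push_cast
      field_simp)
    (tI (fun x => if x ∈ Ico N (2 * N) then
      ((Real.log ((a * x : ℕ) : ℝ) / S : ℝ) : ℂ) * u x else 0) (fun d => μ d) (fun x => by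
        split_ifs with hx
        · rw [norm_mul, Complex.norm_real, Real.norm_eq_abs,
            abs_of_nonneg (div_nonneg (Real.log_natCast_nonneg _) s0.le)]
          refine mul_le_one₀ ((div_le_one s0).2 ?_) (norm_nonneg _) (hu x)
          have := (mem_Ico.1 hx).2
          linarith [ok.log (m := a * x) (by nlinarith)]
        · simp) abs_mu_le)
  have t3 := Bf_le (c := fun m => (c3 m : ℂ)) (u := u) (fun b => f b) (-(2 * S))
    (fun x hx b hb => by
      rw [← mul_assoc, ← Complex.ofReal_mul, hc3, mul_sum]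
      simp only [← sum_neg_distrib]
      congr 2
      refine sum_congr rfl fun d hd => ?_
      rw [if_pos ((mem_Icc.1 hd).2.trans (Nat.le_mul_self D))]
      field_simp)
    (tI u (fun d => if d ≤ D * D then vg D D d / (2 * S) else 0) hu fun d => by
      split_ifs with h
      exacts [vb d h, by simp])
  have t4 := Bf_le (c := fun m => (c4 m : ℂ)) (u := u) (fun b => f b) (-(2 * S))
    (fun x hx b hb => by
      rw [← mul_assoc, ← Complex.ofReal_mul,
        ← sum_eq_cv _ (lt_of_le_of_lt l2 (entry hx hb).1), hc4, mul_sum]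
      simp only [← sum_neg_distrib]
      congr 2
      refine sum_congr rfl fun d _ => ?_
      field_simp)
    (tII (fun d => if d ∈ Ioc D (D * D) then vg D D d / (2 * S) else 0)
      (fun l => if D < l then 1 else 0)
      (fun d => by split_ifs with h; exacts [vb d (mem_Ioc.1 h).2, by simp])
      (fun l => by split_ifs <;> simp)
      (fun d h => by by_contra h'; exact h (if_neg fun h'' => h' (mem_Ioc.1 h'').1))
      fun l h => by by_contra h'; exact h (if_neg h'))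
  have t5 := Bf_le (c := fun m => ((cv (muG D) (laG D) m : ℝ) : ℂ)) (u := u) (fun b => f b) S
    (fun x hx b hb => by
      rw [← mul_assoc, ← Complex.ofReal_mul, cv, cv, mul_sum]
      congr 2
      refine sum_congr rfl fun y hy => ?_
      rw [if_pos ((Nat.divisor_le (Nat.snd_mem_divisors_of_mem_antidiagonal hy)).trans
        (entry hx hb).2.le)]
      field_simp)
    (tII (muG D) (fun l => if l ≤ 2 * a * N then laG D l / S else 0) (abs_muG_le D)
      (fun l => by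
        split_ifs with h
        · rw [abs_of_nonneg (div_nonneg (h1.2.2.1 D l).1 s0.le), div_le_one s0]
          linarith [(h1.2.2.1 D l).2.1, ok.log h]
        · simp) (fun _ => lt_of_muG)
      fun l h => (h1.2.2.1 D l).2.2 fun h' => h (by simp [h']))
  have t6 : ‖Bf a N (fun m => ((-mo a R m : ℝ) : ℂ)) u (fun b => f b)‖ ≤
      |-(S : ℝ) ^ 2| * (4 * (a * N) / (S : ℝ) ^ 7) := by
    obtain ⟨b1, b2, b3⟩ := fo R hRN
    refine Bf_le (c' := fun m => ∑ q ∈ Icc 1 R, (if (Squarefree q ∧ q.Coprime a) ∧ q ≤ R then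
      ((a / a.totient * (μ q / q.totient) / (S : ℝ) ^ 2 : ℝ) : ℂ) else 0) * cq q m) _ _
      (fun x _ b _ => ?_) (((h2 a N _ R u f _ hN T2 hu hf').1 _ (fun q => ?_)
        fun q h => ?_).trans ?_)
    · rw [← mul_assoc, mo, SQ, sum_filter, mul_sum, mul_sum]
      push_cast
      rw [← sum_neg_distrib]
      congr 1
      refine sum_congr rfl fun q hq => ?_
      simp only [(mem_Icc.1 hq).2, and_true]
      split_ifs with h
      · rw [h4.1 q _ h.1]
        field_simp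
      · simp
    · split_ifs with h
      · have q0 : (0 : ℝ) < q := by exact_mod_cast Nat.pos_of_ne_zero h.1.1.ne_zero
        have q1 : (0 : ℝ) < q.totient := by
          exact_mod_cast Nat.totient_pos.2 (Nat.pos_of_ne_zero h.1.1.ne_zero)
        have q2 := ok.tot (h.2.trans (hRN.trans NY))
        have q3 := ok.tot (a := a) (by omega)
        rw [Complex.norm_real, Real.norm_eq_abs, abs_div, abs_mul, abs_div (μ q : ℝ),
          abs_of_pos q1, abs_of_nonneg (by positivity : (0 : ℝ) ≤ a / a.totient),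
          abs_of_pos (by positivity : (0 : ℝ) < (S : ℝ) ^ 2)]
        calc _ ≤ S * (1 / q.totient) / (S : ℝ) ^ 2 := by
              gcongr
              exact abs_mu_le q
          _ = q / q.totient / S * (1 / q) := by field_simp
          _ ≤ S / S * (1 / q) := by gcongr
          _ = _ := by rw [div_self s0.ne', one_mul]
      · simp
    · by_contra h'
      exact h (if_neg fun h'' => h' h''.1.2)
    · calc _ ≤ S * (S : ℝ) ^ 2 * (4 / (S : ℝ) ^ 10) * a * N := by gcongr; linarith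
        _ = _ := by field_simp
  rw [abs_neg, abs_of_pos (by positivity)] at t3 t4 t6
  rw [abs_of_pos s0] at t2 t5
  have k : ∀ i : ℕ, 2 ≤ i → (a * N : ℝ) / (S : ℝ) ^ i ≤ a * N / (S : ℝ) ^ 2 := fun i hi => by
    gcongr
  have k2 : (S : ℝ) * (4 * (a * N) / (S : ℝ) ^ 6) = 4 * (a * N / (S : ℝ) ^ 5) := by field_simp
  have k3 : 2 * (S : ℝ) * (4 * (a * N) / (S : ℝ) ^ 6) = 8 * (a * N / (S : ℝ) ^ 5) := by
    field_simp
    norm_num
  have k4 : 2 * (S : ℝ) * (a * N / (S : ℝ) ^ 3) = 2 * (a * N / (S : ℝ) ^ 2) := by field_simp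
  have k5 : (S : ℝ) * (a * N / (S : ℝ) ^ 3) = a * N / (S : ℝ) ^ 2 := by field_simp
  have k6 : (S : ℝ) ^ 2 * (4 * (a * N) / (S : ℝ) ^ 7) = 4 * (a * N / (S : ℝ) ^ 5) := by field_simp
  have k7 : 20 * (a * N / (S : ℝ) ^ 2) ≤ a * N / S :=
    calc _ ≤ S * (a * N / (S : ℝ) ^ 2) := by gcongr
      _ = _ := by field_simp
  rw [e0]
  refine (norm_add_le_of_le (norm_add_le_of_le (norm_add_le_of_le (norm_add_le_of_le
    (norm_add_le_of_le t1 t2) t3) t4) t5) t6).trans ?_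
  linarith [k 5 (by norm_num)]

end Pool.Agent.P.MP_746f10_nt.HL
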