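import Pool.Agent.P.MP_746f10_nt.HL.Base
import Pool.Agent.P.MP_746f10_nt.AP.QMinX

/-! The bound for the minor part at the centre of the bilinear range. -/

namespace Pool.Agent.P.MP_746f10_nt.HL

open Finset
open Pool.Agent.P.MP_746f10_nt.AP Pool.Agent.P.MP_746f10_nt.AZ QMinXP

namespace MinYP

theorem win_num {x T a F L N t D C : ℝ} (hx : 1 ≤ x) (hT : 1 ≤ T) (hF : 1 ≤ F) (hL : 1 ≤ L)
    (a0 : 0 < a) (ht : 1 ≤ t) (hD : 0 ≤ D) (N0 : 0 < N) (hC : 0 ≤ C)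
    (h1 : F ^ 4 * T ^ 73 * a ≤ x ^ 2) (h2 : t ^ 6 * F ^ 8 * T ^ 16 * x ^ 2 * (a + x * D) ≤ N ^ 4)
    (h3 : 2 * a * N ≤ L * x) :
    F ^ 2 * L * (x ^ 2 / (F ^ 4 * T ^ 56)) + x * √(L * (96 * L * (C * (8 * (x ^ 2 / T ^ 5))) +
      8 * t * (a * F ^ 2 * √(a * x * (x + √(150 * t ^ 2 * x ^ 2 *
        (F ^ 4 * T ^ 56 + 16 * x ^ 2 / a) * (1 + x * D / a))))))) ≤
      (1 + √(768 * C + 32)) * (L * (x ^ 2 / T ^ 2)) := by
  have T0 : 0 < T := by linarith
  have x0 : 0 < x := by linarith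
  have F0 : 0 < F := by linarith
  have L0 : 0 < L := by linarith
  have t0 : 0 < t := by linarith
  have e1 : F ^ 2 * (x ^ 2 / (F ^ 4 * T ^ 56)) ≤ x ^ 2 / T ^ 2 := by
    calc _ = x ^ 2 / (F ^ 2 * T ^ 56) := by field_simp
      _ ≤ x ^ 2 / (1 * T ^ 2) := by
        gcongr
        · exact one_le_pow₀ hF
        · norm_num
      _ = _ := by rw [one_mul]
  have b1 : F ^ 4 * T ^ 56 ≤ x ^ 2 / a := by
    rw [le_div_iff₀ a0]
    refine le_trans ?_ h1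
    gcongr
    norm_num
  have b2 : a ≤ x ^ 2 := le_trans (le_mul_of_one_le_left a0.le
    (one_le_mul_of_one_le_of_one_le (one_le_pow₀ hF) (one_le_pow₀ hT))) h1
  set y := N ^ 2 * x / (t ^ 2 * F ^ 4 * T ^ 8 * a) with hy
  have b3 : √(150 * t ^ 2 * x ^ 2 * (F ^ 4 * T ^ 56 + 16 * x ^ 2 / a) * (1 + x * D / a)) ≤
      51 * y := by
    refine Real.sqrt_le_iff.2 ⟨by positivity, ?_⟩
    calc _ ≤ 150 * t ^ 2 * x ^ 2 * (x ^ 2 / a + 16 * x ^ 2 / a) * (1 + x * D / a) := by gcongr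
      _ = 2550 * (t ^ 6 * F ^ 8 * T ^ 16 * x ^ 2 * (a + x * D)) *
          (x / (t ^ 2 * F ^ 4 * T ^ 8 * a)) ^ 2 := by field_simp; ring
      _ ≤ 2601 * N ^ 4 * (x / (t ^ 2 * F ^ 4 * T ^ 8 * a)) ^ 2 := by gcongr; norm_num
      _ = _ := by rw [hy]; ring
  have b4 : x ≤ y := by
    rw [hy, le_div_iff₀ (by positivity), mul_comm]
    refine mul_le_mul_of_nonneg_right (abs_le_of_sq_le_sq' ?_ (by positivity)).2 x0.le
    calc _ = t ^ 4 * F ^ 8 * T ^ 16 * a * (a + 0) := by ring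
      _ ≤ t ^ 6 * F ^ 8 * T ^ 16 * x ^ 2 * (a + x * D) := by
        gcongr
        · norm_num
        · positivity
      _ ≤ _ := h2.trans_eq (by ring)
  have b5 : √(a * x * (x + √(150 * t ^ 2 * x ^ 2 * (F ^ 4 * T ^ 56 + 16 * x ^ 2 / a) *
      (1 + x * D / a)))) ≤ 8 * (N * x / (t * F ^ 2 * T ^ 4)) := by
    refine Real.sqrt_le_iff.2 ⟨by positivity, ?_⟩
    have y0 : 0 ≤ y := by positivity
    calc _ ≤ a * x * (64 * y) := by gcongr; linarith
      _ = _ := by rw [hy]; field_simp; ring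
  have b6 : √(L * (96 * L * (C * (8 * (x ^ 2 / T ^ 5))) + 8 * t * (a * F ^ 2 *
      √(a * x * (x + √(150 * t ^ 2 * x ^ 2 * (F ^ 4 * T ^ 56 + 16 * x ^ 2 / a) *
        (1 + x * D / a))))))) ≤ √(768 * C + 32) * (L * x / T ^ 2) := by
    refine sq_bd (by positivity) ?_
    calc _ ≤ L * (96 * L * (C * (8 * (x ^ 2 / T ^ 4))) + 8 * t * (a * F ^ 2 *
          (8 * (N * x / (t * F ^ 2 * T ^ 4))))) := by
          gcongr
          norm_num
      _ = L * (768 * C * L * x ^ 2 + 32 * x * (2 * a * N)) / T ^ 4 := by field_simp; ring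
      _ ≤ L * (768 * C * L * x ^ 2 + 32 * x * (L * x)) / T ^ 4 := by gcongr
      _ = _ := by field_simp
  have f1 := mul_le_mul_of_nonneg_left e1 L0.le
  have f4 := mul_le_mul_of_nonneg_left b6 x0.le
  have g : x * (L * x / T ^ 2) = L * (x ^ 2 / T ^ 2) := by ring
  rw [mul_left_comm x (√(768 * C + 32)), g] at f4
  linarith

end MinYP

theorem yMinY (h1 : T_CSW) (h2 : T_Fej) (h3 : T_HP) (h4 : T_Win2) (h5 : T_Gam) : T_MinY := by
  obtain ⟨Cp, hCp, h3⟩ := h3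
  obtain ⟨Cg, hCg, h5⟩ := h5
  refine ⟨(1 + √(768 * Cg + 32)) + 20 * (1 + 2 * √(2 * Cp) + 2 * Cp), by positivity, ?_⟩
  intro a _ N K x T F D α β u f hN H0 hKx hT hF H1 H2 H3 HD H5 H4 hα hβ hu hs hf
  have hK : 1 ≤ K := by omega
  have t1 : 1 ≤ T := by omega
  have hx : 1 ≤ x := by omega
  have H1n : 4 * (x * T ^ 23) ≤ a := le_trans (le_of_eq (by ring)) H1
  have q1 : x * T ^ 4 ≤ x * T ^ 23 := by gcongr; omega
  have q1' : x * T ^ 6 ≤ x * T ^ 23 := by gcongr; omega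
  have q2 : x ≤ x * T ^ 4 := Nat.le_mul_of_pos_right _ (by positivity)
  have q3 : x * 2 ^ 4 ≤ x * T ^ 4 := by gcongr
  obtain ⟨J, hJ⟩ : ∃ J, J = a / (x * T ^ 4) := ⟨_, rfl⟩
  have j1 : 1 ≤ J := hJ ▸ (Nat.le_div_iff_mul_le (by positivity)).2 (by omega)
  have j2 : x * T ^ 4 * J ≤ a := hJ ▸ Nat.mul_div_le a _
  have j3 : a < x * T ^ 4 * (J + 1) := hJ ▸ Nat.lt_mul_div_succ a (by positivity)
  have j4 : a ≤ x * T ^ 4 * (2 * J) := j3.le.trans (by gcongr; omega)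
  have j5 : x * J ≤ a := (Nat.mul_le_mul_right J q2).trans j2
  have g1 : 1 ≤ F ^ 4 * T ^ 56 := Nat.one_le_iff_ne_zero.2 (by positivity)
  have r1 : x ≤ x * T ^ 6 := Nat.le_mul_of_pos_right _ (by positivity)
  obtain ⟨L, hL⟩ : ∃ L, L = 2 * a * N / K + 1 := ⟨_, rfl⟩
  have l0 : 1 ≤ L := hL ▸ Nat.le_add_left 1 _
  have l1 : 2 * a * N < K * L := hL ▸ Nat.lt_mul_div_succ _ hK
  have b1 : 2 * a * N / K * K ≤ 2 * a * N := Nat.div_mul_le_self _ _
  have l2 : 6 * L ≤ a := by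
    have b2 : 2 * a * N / K * 13 * N ≤ 2 * a * N :=
      le_trans (by rw [mul_assoc]; exact Nat.mul_le_mul_left _ H0) b1
    have b3 := Nat.le_of_mul_le_mul_right b2 hN
    omega
  have l3 : L * K ≤ 3 * a * N := by
    have b2 : a ≤ a * N := Nat.le_mul_of_pos_right _ hN
    have b3 : L * K = 2 * a * N / K * K + K := by rw [hL]; ring
    have b4 : 3 * a * N = 2 * a * N + a * N := by ring
    omega
  have l4 : 2 * a * N ≤ L * x := l1.le.trans (by rw [mul_comm]; gcongr)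
  have x1 : (1 : ℝ) ≤ x := by exact_mod_cast hx
  have T1 : (1 : ℝ) ≤ T := by exact_mod_cast t1
  have F1 : (1 : ℝ) ≤ F := by exact_mod_cast hF
  have L1 : (1 : ℝ) ≤ L := by exact_mod_cast l0
  have K0 : (0 : ℝ) < K := by exact_mod_cast hK
  have N0 : (0 : ℝ) < N := by exact_mod_cast hN
  have an : 0 < a := by omega
  have a1 : (1 : ℝ) ≤ a := by exact_mod_cast an
  have J0 : (0 : ℝ) < J := by exact_mod_cast j1
  have d1 : (1 : ℝ) ≤ a.divisors.card := by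
    exact_mod_cast card_pos.2 ⟨1, Nat.one_mem_divisors.2 an.ne'⟩
  obtain ⟨ω, fe, hker, htail⟩ := h2 a (x * T ^ 6) J (by omega) (by omega) j1
  have bG := h5 a f _ _ (T ^ 17) x (x * T ^ 6) (F ^ 4 * T ^ 56) hf
    (hT.trans (Nat.le_self_pow (by norm_num) T)) g1 hx r1 (by
      have : 3 * T ^ 17 * (x * T ^ 6) = 3 * (x * T ^ 23) := by ring
      omega)
  simp only [Nat.cast_mul, Nat.cast_pow] at bG
  replace bG := bG.trans (mul_le_mul_of_nonneg_left (gam_num x1 T1 F1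
    (by exact_mod_cast (by omega : x * T ^ 23 ≤ a)) (by exact_mod_cast H2)) hCg.le)
  have bW := h4 a f _ _ _ _ ω fe x (x * T ^ 6) L (F ^ 4 * T ^ 56) D hf hker
    (by omega) g1 (by omega) l0 l2 HD bG
  simp only [Nat.cast_mul, Nat.cast_pow] at bW
  have l4' : 2 * (a : ℝ) * N ≤ L * x := by exact_mod_cast l4
  replace bW := bW.trans (MinYP.win_num x1 T1 F1 L1 (by linarith) d1 (Nat.cast_nonneg D) N0 hCg.le
    (by exact_mod_cast H2) (by exact_mod_cast H5) l4')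
  have hZ : Cp * (L + a) * a * a.divisors.card * (1 + Real.log a) ^ 2 ≤
      2 * Cp * L * (x : ℝ) ^ 2 / (T : ℝ) ^ 4 := by
    have b0 := Real.log_nonneg a1
    have b4 : Real.log a ≤ Real.log (2 * a) := Real.log_le_log (by linarith) (by linarith)
    have b1 : 1 + Real.log a ≤ T := by linarith
    have b2 : (L : ℝ) + a ≤ 2 * a := by exact_mod_cast (by omega : L + a ≤ 2 * a)
    have b3 : (T : ℝ) ^ 6 * a.divisors.card * a ≤ N * x := by exact_mod_cast H3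
    rw [le_div_iff₀ (by positivity)]
    calc _ ≤ Cp * (2 * a) * a * a.divisors.card * (T : ℝ) ^ 2 * (T : ℝ) ^ 4 := by gcongr
      _ = Cp * (2 * a) * ((T : ℝ) ^ 6 * a.divisors.card * a) := by ring
      _ ≤ Cp * (2 * a) * (N * x) := by gcongr
      _ = Cp * (2 * a * N) * x * 1 := by ring
      _ ≤ Cp * (L * x) * x * 2 := by gcongr; norm_num
      _ = _ := by ring
  have bP := fun s => h3 a f x L (x * J) s _ hf.zero hf.l2 j5 hZ
  have bC := h1 a N K x J L α β u f ω _ _ _ hK hN j5 hL hα hβ hu hs (hf.zero' (by omega))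
    hker.nn hker.one htail (fun s => (bP s).1) (fun s => (bP s).2)
  have bN := hp_num (s := ((x * J : ℕ) : ℝ) / a) (t := 4 * a / (((x * T ^ 6 : ℕ) : ℝ) * J))
    x1 T1 L1 hCp.le (by
      have : (x : ℝ) * (T : ℝ) ^ 4 * J ≤ a := by exact_mod_cast j2
      rw [one_mul, div_pow, one_pow, div_le_div_iff₀ (by linarith) (by positivity)]
      push_cast
      linarith) (by
      have : (a : ℝ) ≤ x * (T : ℝ) ^ 4 * (2 * J) := by exact_mod_cast j4
      push_cast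
      rw [div_le_div_iff₀ (by positivity) (by positivity)]
      calc _ ≤ 4 * ((x : ℝ) * (T : ℝ) ^ 4 * (2 * J)) * (T : ℝ) ^ 2 := by gcongr
        _ = _ := by ring)
  have l3' : (L : ℝ) ≤ 3 * a * N / K := by
    rw [le_div_iff₀ K0]
    exact_mod_cast l3
  refine bC.trans ?_
  set D1 := 1 + √(768 * Cg + 32) with hD1
  set D2 := 20 * (1 + 2 * √(2 * Cp) + 2 * Cp) with hD2
  have D0 : 0 ≤ D1 + D2 := by positivity
  calc _ ≤ (L : ℝ) * ((D1 + D2) * (L * ((x : ℝ) ^ 2 / (T : ℝ) ^ 2))) :=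
        mul_le_mul_of_nonneg_left (by linarith) (by linarith)
    _ = (L : ℝ) ^ 2 * ((D1 + D2) * ((x : ℝ) ^ 2 / (T : ℝ) ^ 2)) := by ring
    _ ≤ _ := by gcongr

end Pool.Agent.P.MP_746f10_nt.HL
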