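import Pool.Agent.P.MP_746f10_nt.HL.Base
import Pool.Agent.P.MP_746f10_nt.AZ.Tw

/-! Twisted sums of the Moebius function from a bound for the inverse of the L-function. -/

namespace Pool.Agent.P.MP_746f10_nt.HL

open Finset Complex DirichletCharacter
open Pool.Agent.P.MP_746f10_nt.AP Pool.Agent.P.MP_746f10_nt.AZ
open Pool.Agent.P.MP_a14ce1_nt.Ch (nit)
open scoped ArithmeticFunction.vonMangoldt ArithmeticFunction.Moebius

namespace MuP

lemma cond {S q t y : ℝ} {n : ℕ} (hS : 2 ≤ S) (hq0 : 0 ≤ q) (hq : q ≤ S ^ n) (ht : |t| ≤ S ^ n) :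
    (q * (|y + t| + 3)) ^ (1 / (4 * n + 2) : ℝ) ≤ √S * √(|y| + 4) := by
  have hS0 : 0 < S := by linarith
  have h1 : 1 ≤ S ^ n := one_le_pow₀ (by linarith)
  have hy := abs_nonneg y
  have h2 : q * (|y + t| + 3) ≤ S ^ (2 * n + 1) * (|y| + 4) := by
    have a1 : |y + t| + 3 ≤ 2 * S ^ n * (|y| + 4) := by nlinarith [abs_add_le y t]
    calc q * (|y + t| + 3) ≤ S ^ n * (2 * S ^ n * (|y| + 4)) := by gcongr
      _ ≤ S ^ n * (S * S ^ n * (|y| + 4)) := by gcongr
      _ = _ := by ring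
  have hn : (0 : ℝ) ≤ n := Nat.cast_nonneg n
  calc _ ≤ (S ^ (2 * n + 1) * (|y| + 4)) ^ (1 / (4 * n + 2) : ℝ) := by gcongr
    _ = √S * (|y| + 4) ^ (1 / (4 * n + 2) : ℝ) := by
        rw [Real.mul_rpow (by positivity) (by positivity), ← Real.rpow_natCast,
          ← Real.rpow_mul hS0.le, Real.sqrt_eq_rpow]
        congr 2
        push_cast
        field_simp
        ring
    _ ≤ √S * (|y| + 4) ^ (1 / 2 : ℝ) := by
        gcongr
        · linarith
        · linarith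
    _ = _ := by rw [Real.sqrt_eq_rpow (|y| + 4)]

lemma save {ρ Y W : ℝ} {i : ℕ} (r0 : 0 < ρ) (hi : 8 / ρ ≤ i) (hW : 1 ≤ W) (h : W ^ i ≤ Y) :
    Y ^ (1 - ρ / 8) ≤ Y / W := by
  have hY : 0 < Y := lt_of_lt_of_le (by positivity) h
  have h1 : W ≤ Y ^ (ρ / 8) := by
    calc W = W ^ (1 : ℝ) := (Real.rpow_one W).symm
      _ ≤ W ^ (i * (ρ / 8)) := by
          refine Real.rpow_le_rpow_of_exponent_le hW ?_
          rw [div_le_iff₀ r0] at hi
          linarith
      _ = (W ^ i) ^ (ρ / 8) := by rw [Real.rpow_mul (by linarith), Real.rpow_natCast]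
      _ ≤ Y ^ (ρ / 8) := by gcongr
  rw [Real.rpow_sub hY, Real.rpow_one]
  gcongr

end MuP

theorem yMu (h : T_Inv) : T_Mu := by
  obtain ⟨ρ, r0, r1, h⟩ := h
  obtain ⟨Ck, hCk, hk⟩ := Pool.Agent.P.MP_26a8c3_nt.QE.key r0 r1
  refine ⟨⌈8 / ρ⌉₊, fun n => ?_⟩
  obtain ⟨C, hC, h⟩ := h (1 / (4 * n + 2)) (by positivity)
  refine ⟨max 2 ⌈(Ck * C) ^ 2⌉₊, fun S q _ χ t X X' W hS hq ht hX hW hWi => ?_⟩
  have S2 : (2 : ℝ) ≤ S := by exact_mod_cast (le_max_left _ _).trans hS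
  have S3 : Ck * C ≤ √S := Real.le_sqrt_of_sq_le (Nat.ceil_le.1 ((le_max_right _ _).trans hS))
  have S1 : 1 ≤ √(S : ℝ) := Real.one_le_sqrt.2 (by linarith)
  have hW1 : (1 : ℝ) ≤ W := by exact_mod_cast hW
  have hWi' : (W : ℝ) ^ ⌈8 / ρ⌉₊ ≤ X' := by exact_mod_cast hWi
  obtain ⟨F, F1, F2⟩ := h q χ
  have hre : ∀ z : ℂ, (z + I * t).re = z.re := fun z => by simp
  have h1 := hk (fun m => (μ m : ℂ) * χ m * nit t m) (fun s => F (s + I * t)) (C * √S) X X'
    (one_le_mul_of_one_le_of_one_le hC S1) ((one_le_pow₀ hW1).trans hWi')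
    (by exact_mod_cast hX) (fun m hm => ?_) (fun s hs => ?_) fun s h1 h2 => ?_
  · calc _ ≤ Ck * (C * √S) * (X' : ℝ) ^ (1 - ρ / 8) := h1
      _ = Ck * C * √S * (X' : ℝ) ^ (1 - ρ / 8) := by ring
      _ ≤ √S * √S * (X' / W) := by
          gcongr
          exact MuP.save r0 (Nat.le_ceil _) hW1 hWi'
      _ = _ := by rw [Real.mul_self_sqrt (by linarith), mul_div_assoc]
  · rw [norm_mul, TwP.norm_nit t (by omega), mul_one, norm_mul]
    have a1 := χ.norm_le_one (m : ZMod q)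
    have a2 : ‖(μ m : ℂ)‖ ≤ 1 := by
      rw [norm_intCast]
      exact abs_mu_le m
    have a3 := Real.log_natCast_nonneg m
    have a4 := mul_le_mul a2 a1 (norm_nonneg _) zero_le_one
    linarith
  · have hs' : 1 < (s + I * t).re := by rwa [hre]
    have a1 := F1 _ hs'
    rw [LFunction_eq_LSeries χ hs'] at a1
    have a2 := DirichletCharacter.LSeries.mul_mu_eq_one χ hs'
    have a3 := congrArg (fun z => F (s + I * t) * z) a2
    simp only [← mul_assoc, a1, one_mul, mul_one] at a3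
    rw [← a3, TwP.shift]
    congr 1
    funext m
    simp [mul_comm]
  · obtain ⟨a1, a2⟩ := F2 (s + I * t) (by rwa [hre]) (by rwa [hre])
    refine ⟨a1.comp s (differentiableAt_id.add_const _), a2.trans ?_⟩
    have e : (s + I * t).im = s.im + t := by simp
    rw [e, mul_assoc]
    exact mul_le_mul_of_nonneg_left
      (MuP.cond S2 (Nat.cast_nonneg q) (by exact_mod_cast hq) ht) (by linarith)

end Pool.Agent.P.MP_746f10_nt.HL
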