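import Pool.Agent.P.MP_746f10_nt.HL.Base
import Pool.Agent.P.MP_746f10_nt.AP.QPV
import Pool.Agent.P.MP_746f10_nt.AP.Row

/-! Fourier leakage: a real frequency is controlled by the nearby integral frequencies. -/

namespace Pool.Agent.P.MP_746f10_nt.HL

open Finset
open Pool.Agent.P.MP_746f10_nt.AP Pool.Agent.P.MP_746f10_nt.AZ
open Pool.Agent.P.MP_0ad054_nt (e dn geom_range four_dn_le norm_e e_add)

namespace NFP

lemma half (F : Finset ℤ) (c : ℝ) {Y : ℕ} (hY : 1 ≤ Y) (h : ∀ l ∈ F, (Y : ℝ) + 1 ≤ l + c) :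
    ∑ l ∈ F, 1 / ((l : ℝ) + c) ^ 2 ≤ 1 / (Y : ℝ) := by
  have h1 : ∀ l ∈ F, (Y : ℤ) + 1 ≤ l + ⌊c⌋ := by
    intro l hl
    have : (Y : ℤ) + 1 - l ≤ ⌊c⌋ := Int.le_floor.2 (by push_cast; linarith [h l hl])
    omega
  set φ : ℤ → ℕ := fun l => (l + ⌊c⌋).toNat with hφ
  have h2 : ∀ l ∈ F, (φ l : ℤ) = l + ⌊c⌋ := fun l hl =>
    Int.toNat_of_nonneg (by have := h1 l hl; omega)
  calc _ ≤ ∑ l ∈ F, 1 / ((φ l : ℕ) : ℝ) ^ 2 := by
        refine sum_le_sum fun l hl => ?_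
        have h3 : ((φ l : ℕ) : ℝ) = l + ⌊c⌋ := by exact_mod_cast h2 l hl
        have h4 : (Y : ℝ) + 1 ≤ l + ⌊c⌋ := by exact_mod_cast h1 l hl
        have h5 : (0 : ℝ) ≤ Y := Nat.cast_nonneg Y
        have h6 := Int.floor_le c
        have h7 : (0 : ℝ) < l + ⌊c⌋ := by linarith
        rw [h3]
        gcongr
    _ = ∑ n ∈ F.image φ, 1 / (n : ℝ) ^ 2 := by
        rw [sum_image (f := fun n : ℕ => 1 / (n : ℝ) ^ 2)]
        intro l hl l' hl' e1
        have := h2 l hl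
        have := h2 l' hl'
        omega
    _ ≤ ∑ n ∈ Ioc Y (F.sup φ), 1 / (n : ℝ) ^ 2 := by
        refine sum_le_sum_of_subset_of_nonneg (fun n hn => ?_) fun _ _ _ => by positivity
        obtain ⟨l, hl, rfl⟩ := mem_image.1 hn
        refine mem_Ioc.2 ⟨?_, le_sup hl⟩
        have := h1 l hl
        have := h2 l hl
        omega
    _ ≤ _ := sum_inv_sq_le _ _ hY

lemma both (F : Finset ℤ) (c : ℝ) {Y : ℕ} (hY : 1 ≤ Y) (h : ∀ l ∈ F, (Y : ℝ) + 1 ≤ |l + c|) :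
    ∑ l ∈ F, (1 / |(l : ℝ) + c|) ^ 2 ≤ 2 / (Y : ℝ) := by
  simp only [div_pow, one_pow, sq_abs]
  rw [← sum_filter_add_sum_filter_not F (fun l : ℤ => 0 ≤ (l : ℝ) + c)]
  have h1 := half (F.filter fun l : ℤ => 0 ≤ (l : ℝ) + c) c hY fun l hl => by
    have := h l (mem_filter.1 hl).1
    rwa [abs_of_nonneg (mem_filter.1 hl).2] at this
  have h2 := half ((F.filter fun l : ℤ => ¬ 0 ≤ (l : ℝ) + c).image fun l => -l) (-c) hY
    fun l hl => by
      obtain ⟨l', hl', rfl⟩ := mem_image.1 hl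
      have := h l' (mem_filter.1 hl').1
      rw [abs_of_neg (not_le.1 (mem_filter.1 hl').2)] at this
      push_cast
      linarith
  rw [sum_image (fun l _ l' _ e1 => neg_injective e1)] at h2
  have h3 : ∀ l : ℤ, (((-l : ℤ) : ℝ) + -c) ^ 2 = ((l : ℝ) + c) ^ 2 := fun l => by
    push_cast; ring
  simp only [h3] at h2
  rw [show 2 / (Y : ℝ) = 1 / Y + 1 / Y by ring]
  exact add_le_add h1 h2

lemma geo {x : ℝ} (hx : |x| ≤ 1 / 2) (n : ℕ) : ‖∑ b ∈ range n, e (x * b)‖ * |x| ≤ 1 / 2 := by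
  have h3 : ‖∑ i ∈ range n, e (x * i)‖ * ‖e x - 1‖ ≤ 2 := by
    rw [← norm_mul, geom_range]
    refine (norm_sub_le _ _).trans ?_
    rw [norm_e, norm_one]
    norm_num
  have h4 := four_dn_le x
  have h5 : |x| ≤ dn x := by
    unfold dn
    by_cases h0 : round x = 0
    · rw [h0]; simp
    · have h6 : (1 : ℝ) ≤ |((round x : ℤ) : ℝ)| := by exact_mod_cast Int.one_le_abs h0
      have h7 := abs_sub_abs_le_abs_sub ((round x : ℤ) : ℝ) x
      rw [abs_sub_comm] at h7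
      linarith
  have hn := norm_nonneg (∑ i ∈ range n, e (x * i))
  nlinarith [mul_le_mul_of_nonneg_left h4 hn, mul_le_mul_of_nonneg_left h5 hn]

lemma sum_sys {a : ℕ} [NeZero a] {M : Type} [AddCommMonoid M] (l0 : ℤ) (G : ZMod a → M) :
    ∑ r : ZMod a, G r = ∑ l ∈ Ico l0 (l0 + a), G (l : ZMod a) := by
  have hinj : Set.InjOn (fun l : ℤ => (l : ZMod a)) (Ico l0 (l0 + a) : Finset ℤ) := by
    intro l hl l' hl' e1
    have h1 := mem_Ico.1 (mem_coe.1 hl)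
    have h2 := mem_Ico.1 (mem_coe.1 hl')
    have h3 : (a : ℤ) ∣ l' - l := (ZMod.intCast_eq_intCast_iff_dvd_sub l l' a).1 e1
    have h4 := Int.eq_zero_of_abs_lt_dvd h3 (abs_lt.2 ⟨by omega, by omega⟩)
    omega
  rw [← sum_image hinj]
  congr 1
  refine (eq_univ_of_card _ ?_).symm
  rw [card_image_of_injOn hinj, ZMod.card]
  simp

lemma near (F : Finset ℤ) (c : ℝ) (Y : ℕ) (h : ∀ l ∈ F, |l + c| ≤ (Y : ℝ) + 1) :
    F.card ≤ 2 * Y + 3 := by
  have h1 : F ⊆ Ico ⌈-c - (Y + 1)⌉ (⌈-c - (Y + 1)⌉ + (2 * Y + 3 : ℕ)) := by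
    intro l hl
    obtain ⟨h2, h3⟩ := abs_le.1 (h l hl)
    refine mem_Ico.2 ⟨Int.ceil_le.2 (by linarith), ?_⟩
    have h4 := Int.le_ceil (-c - (Y + 1))
    have h5 : (l : ℝ) < ⌈-c - (Y + 1)⌉ + (2 * Y + 3 : ℕ) := by push_cast; linarith
    exact_mod_cast h5
  refine (card_le_card h1).trans (le_of_eq ?_)
  rw [Int.card_Ico, add_sub_cancel_left, Int.toNat_natCast]

end NFP

theorem yNF : T_NF := by
  intro a _ g θ τ Y hY hτ hg h
  have ha : (0 : ℝ) < a := by exact_mod_cast Nat.pos_of_ne_zero (NeZero.ne a)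
  have hY' : (0 : ℝ) < Y := by exact_mod_cast hY
  set l0 : ℤ := ⌈-(θ * a) - a / 2⌉ with hl0
  set L := Ico l0 (l0 + a) with hL
  set E : ℤ → ℂ := fun l => ∑ b ∈ range a, e ((l + θ * a) / a * b) with hE
  have h1 : ∑ b ∈ range a, g b * e (θ * b) = ∑ l ∈ L, QPVP.co g l * E l := by
    simp only [hE, mul_sum]
    rw [sum_comm]
    refine sum_congr rfl fun b _ => ?_
    rw [QPVP.inversion g b, NFP.sum_sys l0, sum_mul]
    refine sum_congr rfl fun l _ => ?_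
    have h2 : (l : ZMod a) * (b : ZMod a) = ((l * b : ℤ) : ZMod a) := by push_cast; rfl
    rw [h2, RowP.std_eq, mul_assoc, ← e_add]
    congr 2
    push_cast
    field_simp
  have h2 : ∑ l ∈ L, ‖QPVP.co g l‖ ^ 2 ≤ 1 := by
    rw [← NFP.sum_sys l0 (fun r => ‖QPVP.co g r‖ ^ 2), ← QPVP.parseval, one_div,
      inv_mul_le_iff₀ ha, mul_one]
    exact hg
  have h3 : ∀ l ∈ L, |l + θ * a| ≤ a / 2 := by
    intro l hl
    obtain ⟨h4, h5⟩ := mem_Ico.1 hl
    have h6 := Int.le_ceil (-(θ * a) - a / 2)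
    have h7 := Int.ceil_lt_add_one (-(θ * a) - a / 2)
    rw [← hl0] at h6 h7
    have h8 : (l0 : ℝ) ≤ l := by exact_mod_cast h4
    have h9 : (l : ℝ) + 1 ≤ l0 + a := by exact_mod_cast h5
    exact abs_le.2 ⟨by linarith, by linarith⟩
  have h4 : ∀ l, ‖E l‖ ≤ a := fun l => (norm_sum_le _ _).trans (by simp [norm_e])
  have h5 : ∀ l ∈ L, ‖E l‖ * |l + θ * a| ≤ a := by
    intro l hl
    have h6 := NFP.geo (x := (l + θ * a) / a) (by
      rw [abs_div, abs_of_pos ha, div_le_iff₀ ha]; linarith [h3 l hl]) a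
    rw [abs_div, abs_of_pos ha, ← mul_div_assoc, div_le_iff₀ ha] at h6
    linarith
  rw [h1, ← sum_filter_add_sum_filter_not L (fun l : ℤ => |l + θ * a| ≤ (Y : ℝ) + 1), mul_add]
  refine (norm_add_le _ _).trans (add_le_add ?_ ?_)
  · refine (norm_sum_le _ _).trans ?_
    refine (sum_le_card_nsmul _ _ (τ * a) fun l hl => ?_).trans ?_
    · rw [norm_mul]
      refine mul_le_mul ?_ (h4 l) (norm_nonneg _) hτ
      rw [QPVP.co, norm_mul, norm_div, norm_one, Complex.norm_natCast, one_div,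
        inv_mul_le_iff₀ ha, mul_comm]
      exact h l (mem_filter.1 hl).2
    · have h6 : (((L.filter fun l : ℤ => |l + θ * a| ≤ (Y : ℝ) + 1).card : ℕ) : ℝ) ≤ 2 * Y + 3 := by
        exact_mod_cast NFP.near _ (θ * a) Y fun l hl => (mem_filter.1 hl).2
      rw [nsmul_eq_mul]
      calc _ ≤ (2 * (Y : ℝ) + 3) * (τ * a) := by gcongr
        _ = _ := by ring
  · set F := L.filter fun l : ℤ => ¬ |l + θ * a| ≤ (Y : ℝ) + 1 with hF
    have h6 : ∀ l ∈ F, (Y : ℝ) + 1 ≤ |l + θ * a| := fun l hl => (not_le.1 (mem_filter.1 hl).2).le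
    have h7 : ∑ l ∈ F, ‖QPVP.co g l‖ * (1 / |l + θ * a|) ≤ 2 / √Y := by
      refine (abs_le_of_sq_le_sq' ?_ (by positivity)).2
      refine (sum_mul_sq_le_sq_mul_sq _ _ _).trans ?_
      have h8 : ∑ l ∈ F, ‖QPVP.co g l‖ ^ 2 ≤ 1 :=
        (sum_le_sum_of_subset_of_nonneg (filter_subset _ _) fun _ _ _ => by positivity).trans h2
      have h9 := NFP.both F (θ * a) hY h6
      rw [div_pow, Real.sq_sqrt hY'.le]
      calc _ ≤ 1 * (2 / (Y : ℝ)) := by gcongr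
        _ ≤ _ := by rw [one_mul]; gcongr; norm_num
    refine (norm_sum_le _ _).trans (le_trans ?_ (mul_le_mul_of_nonneg_left h7 ha.le))
    rw [mul_sum]
    refine sum_le_sum fun l hl => ?_
    have h8 : 0 < |l + θ * a| := by linarith [h6 l hl]
    rw [norm_mul, mul_left_comm]
    refine mul_le_mul_of_nonneg_left ?_ (norm_nonneg _)
    rw [mul_one_div, le_div_iff₀ h8]
    exact h5 l (mem_filter.1 hl).1

end Pool.Agent.P.MP_746f10_nt.HL
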