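import Pool.Agent.P.MP_746f10_nt.HL.Base

/-! Linear terms in short intervals. -/

namespace Pool.Agent.P.MP_746f10_nt.HL

open Finset
open Pool.Agent.P.MP_746f10_nt.AP Pool.Agent.P.MP_746f10_nt.AZ
open scoped ArithmeticFunction.Moebius

namespace P1P

/-- multiples of `t + 1` in an interval -/
lemma mult_sum {E : Type} [AddCommMonoid E] (t x R : ℕ) (f : ℕ → E) :
    ∑ j ∈ range R, (if t + 1 ∣ x + j then f (x + j) else 0) =
      ∑ l ∈ Ico ((x + t) / (t + 1)) ((x + R + t) / (t + 1)), f ((t + 1) * l) := by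
  induction R with
  | zero => simp
  | succ R ih =>
    have hle : (x + t) / (t + 1) ≤ (x + R + t) / (t + 1) := Nat.div_le_div_right (by omega)
    have h1 : t + 1 ∣ x + R + t + 1 ↔ t + 1 ∣ x + R := by
      rw [add_assoc (x + R)]; exact (Nat.dvd_add_iff_left dvd_rfl).symm
    rw [sum_range_succ, ih, show x + (R + 1) + t = x + R + t + 1 by ring, Nat.succ_div]
    by_cases h : t + 1 ∣ x + R
    · rw [if_pos h, if_pos (h1.2 h), sum_Ico_succ_top hle]
      obtain ⟨c, hc⟩ := h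
      have h2 : (x + R + t) / (t + 1) = c := by
        rw [hc, add_comm _ t, Nat.add_mul_div_left _ _ (Nat.succ_pos t),
          Nat.div_eq_of_lt (Nat.lt_succ_self t), zero_add]
      rw [h2, hc]
    · rw [if_neg h, if_neg (fun h' => h (h1.1 h')), add_zero, add_zero]

lemma cnt (t x R : ℕ) (ht : 1 ≤ t) : |∑ j ∈ range R, dd (x + j) t - (R : ℝ) / t| ≤ 1 := by
  obtain ⟨t, rfl⟩ : ∃ s, t = s + 1 := ⟨t - 1, by omega⟩
  have h := mult_sum t x R (fun _ => (1 : ℝ))
  have hle : (x + t) / (t + 1) ≤ (x + R + t) / (t + 1) := Nat.div_le_div_right (by omega)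
  simp only [sum_const, Nat.card_Ico, nsmul_eq_mul, mul_one, Nat.cast_sub hle] at h
  unfold dd
  rw [h]
  have h1 := Nat.div_add_mod (x + t) (t + 1)
  have h2 := Nat.div_add_mod (x + R + t) (t + 1)
  have h3 := Nat.mod_lt (x + t) (Nat.succ_pos t)
  have h4 := Nat.mod_lt (x + R + t) (Nat.succ_pos t)
  generalize (x + t) / (t + 1) = a at *
  generalize (x + R + t) / (t + 1) = b at *
  generalize (x + t) % (t + 1) = r at *
  generalize (x + R + t) % (t + 1) = r' at *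
  have e1 : ((t : ℝ) + 1) * a + r = x + t := by exact_mod_cast h1
  have e2 : ((t : ℝ) + 1) * b + r' = x + R + t := by exact_mod_cast h2
  have e3 : (r : ℝ) ≤ t + 1 := by exact_mod_cast h3.le
  have e4 : (r' : ℝ) ≤ t + 1 := by exact_mod_cast h4.le
  have e5 : (0 : ℝ) ≤ r := Nat.cast_nonneg r
  have e6 : (0 : ℝ) ≤ r' := Nat.cast_nonneg r'
  have hp : (0 : ℝ) < t + 1 := by positivity
  have e7 : (b : ℝ) - a - R / ((t + 1 : ℕ) : ℝ) = (r - r') / (t + 1) := by
    push_cast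
    field_simp
    linarith
  rw [e7, abs_div, abs_of_pos hp, div_le_one hp, abs_le]
  constructor <;> linarith

lemma cp_eq (M m : ℕ) (hM : 1 ≤ M) : cp M m = ∑ e ∈ M.divisors, (μ e : ℝ) * dd m e := by
  have h := congrArg (fun f : ArithmeticFunction ℝ => f (Nat.gcd m M))
    (ArithmeticFunction.coe_moebius_mul_coe_zeta (R := ℝ))
  simp only [ArithmeticFunction.coe_mul_zeta_apply, ArithmeticFunction.intCoe_apply,
    ArithmeticFunction.one_apply] at h
  have h2 : (Nat.gcd m M).divisors = M.divisors.filter fun e => e ∣ m := by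
    ext e
    have : Nat.gcd m M ≠ 0 := (Nat.gcd_pos_of_pos_right m hM).ne'
    simp only [Nat.mem_divisors, Nat.dvd_gcd_iff, mem_filter]
    constructor
    · rintro ⟨⟨h1, h2⟩, -⟩; exact ⟨⟨h2, by omega⟩, h1⟩
    · rintro ⟨⟨h1, -⟩, h2⟩; exact ⟨⟨h2, h1⟩, this⟩
  rw [h2, sum_filter] at h
  unfold cp dd
  simp only [mul_ite, mul_one, mul_zero]
  rw [h]

lemma mu_div (M : ℕ) (hM : 1 ≤ M) : ∑ e ∈ M.divisors, (μ e : ℝ) / e = M.totient / M := by
  have h := (ArithmeticFunction.sum_eq_iff_sum_mul_moebius_eq (R := ℝ)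
    (f := fun n => (n.totient : ℝ)) (g := fun n => (n : ℝ))).1
    (fun n _ => by exact_mod_cast Nat.sum_totient n) M hM
  rw [Nat.sum_divisorsAntidiagonal (fun i j => (μ i : ℝ) * (j : ℝ))] at h
  have hM' : (M : ℝ) ≠ 0 := by positivity
  rw [← h, sum_div]
  refine sum_congr rfl fun e he => ?_
  have he0 : (e : ℝ) ≠ 0 := by exact_mod_cast (Nat.pos_of_mem_divisors he).ne'
  rw [Nat.cast_div (Nat.dvd_of_mem_divisors he) he0]
  field_simp

lemma one_d (M d x R : ℕ) (hM : 1 ≤ M) (hd : 1 ≤ d) :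
    |∑ j ∈ range R, cp M (x + j) * dd (x + j) d - R * (M.totient / M * (cp M d / d))| ≤
      M.divisors.card := by
  by_cases h : d.Coprime M
  · have h1 : ∀ m, cp M m * dd m d = ∑ e ∈ M.divisors, (μ e : ℝ) * dd m (e * d) := by
      intro m
      rw [cp_eq M m hM, sum_mul]
      refine sum_congr rfl fun e he => ?_
      have hc : e.Coprime d := (h.symm.coprime_dvd_left (Nat.dvd_of_mem_divisors he))
      rw [mul_assoc]
      congr 1
      unfold dd
      by_cases h2 : e * d ∣ m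
      · rw [if_pos h2, if_pos (dvd_of_mul_right_dvd h2), if_pos (dvd_of_mul_left_dvd h2), one_mul]
      · rw [if_neg h2]
        split_ifs with h3 h4
        · exact absurd (hc.mul_dvd_of_dvd_of_dvd h3 h4) h2
        all_goals simp
    simp only [h1]
    rw [sum_comm, cp_of h, ← mu_div M hM, sum_mul, mul_sum, ← sum_sub_distrib]
    refine (abs_sum_le_sum_abs _ _).trans ?_
    rw [card_eq_sum_ones, Nat.cast_sum]
    refine sum_le_sum fun e he => ?_
    have h2 := cnt (e * d) x R (Nat.mul_pos (Nat.pos_of_mem_divisors he) hd)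
    have h3 : ∑ j ∈ range R, (μ e : ℝ) * dd (x + j) (e * d) - R * ((μ e : ℝ) / e * (1 / d)) =
        (μ e : ℝ) * (∑ j ∈ range R, dd (x + j) (e * d) - (R : ℝ) / (e * d : ℕ)) := by
      rw [← mul_sum]; push_cast; ring
    rw [h3, abs_mul, Nat.cast_one]
    exact mul_le_one₀ (abs_mu_le e) (abs_nonneg _) h2
  · have h1 : ∀ m, cp M m * dd m d = 0 := by
      intro m
      unfold dd
      split_ifs with h2
      · rw [cp_of_not fun h3 => h (h3.coprime_dvd_left h2), zero_mul]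
      · rw [mul_zero]
    simp [h1, cp_of_not h]

lemma sum_div (d Y : ℕ) (hd : 0 < d) (g : ℕ → ℝ) :
    ∑ n ∈ range (d * Y), g (n / d) = d * ∑ y ∈ range Y, g y := by
  induction Y with
  | zero => simp
  | succ Y ih =>
    rw [mul_add, mul_one, sum_range_add, ih, sum_range_succ, mul_add]
    congr 1
    rw [sum_congr rfl (g := fun _ => g Y), sum_const, card_range, nsmul_eq_mul]
    intro i hi
    rw [add_comm, Nat.add_mul_div_left _ _ hd, Nat.div_eq_of_lt (mem_range.1 hi), zero_add]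

lemma sum_per (M : ℕ) [NeZero M] (K : ℕ) (g : ZMod M → ℝ) :
    ∑ y ∈ range (M * K), g y = K * ∑ z, g z := by
  induction K with
  | zero => simp
  | succ K ih =>
    rw [mul_add, mul_one, sum_range_add, ih, Nat.cast_succ, add_mul, one_mul]
    congr 1
    refine sum_nbij' (fun i => (i : ZMod M)) ZMod.val (by simp) (by simp [ZMod.val_lt]) ?_
      (by simp) (by simp)
    intro i hi
    exact ZMod.val_cast_of_lt (mem_range.1 hi)

lemma sum_inv_sqrt (D : ℕ) : ∑ d ∈ Icc 1 D, 1 / √(d : ℝ) ≤ 2 * √D := by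
  induction D with
  | zero => simp
  | succ D ih =>
    rw [sum_Icc_succ_top (by omega)]
    have h1 : √(D : ℝ) ^ 2 = D := Real.sq_sqrt (Nat.cast_nonneg D)
    have h2 : √((D + 1 : ℕ) : ℝ) ^ 2 = D + 1 := by
      rw [Real.sq_sqrt (Nat.cast_nonneg _)]; push_cast; ring
    have h3 : 0 < √((D + 1 : ℕ) : ℝ) := Real.sqrt_pos.2 (by positivity)
    have h4 : 1 / √((D + 1 : ℕ) : ℝ) ≤ 2 * (√((D + 1 : ℕ) : ℝ) - √(D : ℝ)) := by
      rw [div_le_iff₀ h3]
      nlinarith [sq_nonneg (√((D + 1 : ℕ) : ℝ) - √(D : ℝ))]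
    linarith

lemma pt {M : ℕ} [NeZero M] (κ : DirichletCharacter ℂ M) (t x R : ℕ) :
    ‖∑ j ∈ range R, (dd (x + j) (t + 1) : ℂ) * κ ((x + j : ℕ) : ZMod M)‖ ≤
      ‖∑ i ∈ range (R / (t + 1)), κ ((((x + t) / (t + 1) : ℕ) : ZMod M) + i)‖ + 1 := by
  have h := mult_sum t x R (fun m => κ ((m : ℕ) : ZMod M))
  have h0 : ∀ j, (dd (x + j) (t + 1) : ℂ) * κ ((x + j : ℕ) : ZMod M) =
      if t + 1 ∣ x + j then κ ((x + j : ℕ) : ZMod M) else 0 := by
    intro j; unfold dd; split_ifs <;> simp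
  simp only [h0]
  rw [h]
  have h1 : (x + R + t) / (t + 1) = (x + t) / (t + 1) + R / (t + 1) ∨
      (x + R + t) / (t + 1) = (x + t) / (t + 1) + (R / (t + 1) + 1) := by
    rw [show x + R + t = x + t + R by ring, Nat.add_div (Nat.succ_pos t)]
    split_ifs
    · right; ring
    · left; ring
  generalize (x + t) / (t + 1) = y at *
  generalize R / (t + 1) = H at *
  simp only [Nat.cast_mul, map_mul]
  rw [← mul_sum, norm_mul, sum_Ico_eq_sum_range]
  refine (mul_le_of_le_one_left (norm_nonneg _) (κ.norm_le_one _)).trans ?_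
  simp only [Nat.cast_add]
  rcases h1 with h1 | h1
  · rw [h1, Nat.add_sub_cancel_left]; linarith
  · rw [h1, Nat.add_sub_cancel_left, sum_range_succ]
    exact (norm_add_le _ _).trans (by gcongr; exact κ.norm_le_one _)

lemma mean (h : T_MS) {M : ℕ} [NeZero M] (κ : DirichletCharacter ℂ M) (hκ : κ ≠ 1) (t X R : ℕ)
    (ht : t + 1 ≤ X) :
    ∑ x ∈ Ico X (2 * X), ‖∑ i ∈ range (R / (t + 1)), κ ((((x + t) / (t + 1) : ℕ) : ZMod M) + i)‖ ≤
      M.divisors.card * (2 * X * √R * (1 / √((t + 1 : ℕ) : ℝ)) + √(X * M * R)) := by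
  obtain ⟨g, hg⟩ : ∃ g : ZMod M → ℝ, g = fun z => ‖∑ i ∈ range (R / (t + 1)), κ (z + i)‖ :=
    ⟨_, rfl⟩
  have hMS : ∑ z, g z ^ 2 ≤ M.divisors.card * (M * (R / (t + 1) : ℕ)) := by
    rw [hg]; exact h M κ _ hκ
  have hM : 0 < M := NeZero.pos M
  obtain ⟨Y, hY⟩ : ∃ Y, Y = 2 * X / (t + 1) + 2 := ⟨_, rfl⟩
  obtain ⟨K, hK⟩ : ∃ K, K = Y / M + 1 := ⟨_, rfl⟩
  have y1 : (t + 1) * (2 * X / (t + 1)) ≤ 2 * X := Nat.mul_div_le _ _
  have y2 : 2 * X < (t + 1) * (2 * X / (t + 1) + 1) := Nat.lt_mul_div_succ _ (Nat.succ_pos t)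
  have y3 : (t + 1) * Y ≤ 4 * X := by rw [hY, mul_add]; omega
  have y4 : 2 * X + t ≤ (t + 1) * Y := by rw [hY, mul_add]; rw [mul_add] at y2; omega
  have k1 : M * K ≤ Y + M := by
    have := Nat.mul_div_le Y M
    rw [hK, mul_add]; omega
  have k2 : Y ≤ M * K := by rw [hK]; exact (Nat.lt_mul_div_succ _ hM).le
  have s1 : ∑ x ∈ Ico X (2 * X), g (((x + t) / (t + 1) : ℕ) : ZMod M) ^ 2 ≤
      ∑ n ∈ range ((t + 1) * Y), g ((n / (t + 1) : ℕ) : ZMod M) ^ 2 := by
    rw [sum_Ico_add' (fun n => g ((n / (t + 1) : ℕ) : ZMod M) ^ 2)]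
    refine sum_le_sum_of_subset_of_nonneg (fun n hn => ?_) fun _ _ _ => sq_nonneg _
    rw [mem_Ico] at hn
    rw [mem_range]; omega
  rw [sum_div (t + 1) Y (Nat.succ_pos t) (fun y => g (y : ZMod M) ^ 2)] at s1
  have s2 : ∑ y ∈ range Y, g (y : ZMod M) ^ 2 ≤ K * ∑ z, g z ^ 2 := by
    rw [← sum_per M K (fun z => g z ^ 2)]
    exact sum_le_sum_of_subset_of_nonneg (range_subset_range.2 k2) fun _ _ _ => sq_nonneg _
  have s3 := sq_sum_le_card_mul_sum_sq (s := Ico X (2 * X))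
    (f := fun x => g (((x + t) / (t + 1) : ℕ) : ZMod M))
  rw [Nat.card_Ico, show 2 * X - X = X by omega] at s3
  have hτ : (1 : ℝ) ≤ M.divisors.card := by
    exact_mod_cast card_pos.2 ⟨1, Nat.one_mem_divisors.2 hM.ne'⟩
  have hH : ((t + 1 : ℕ) : ℝ) * (R / (t + 1) : ℕ) ≤ R := by exact_mod_cast Nat.mul_div_le R (t + 1)
  have k1' : (M : ℝ) * K ≤ Y + M := by exact_mod_cast k1
  have y3' : ((t + 1 : ℕ) : ℝ) * Y ≤ 4 * X := by exact_mod_cast y3
  have hd : (0 : ℝ) < (t + 1 : ℕ) := by positivity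
  have e : ∀ x : ℕ, ‖∑ i ∈ range (R / (t + 1)), κ ((((x + t) / (t + 1) : ℕ) : ZMod M) + i)‖ =
      g (((x + t) / (t + 1) : ℕ) : ZMod M) := fun x => by rw [hg]
  simp only [e]
  generalize ∑ x ∈ Ico X (2 * X), g (((x + t) / (t + 1) : ℕ) : ZMod M) = A at *
  generalize ∑ x ∈ Ico X (2 * X), g (((x + t) / (t + 1) : ℕ) : ZMod M) ^ 2 = B at *
  generalize ((R / (t + 1) : ℕ) : ℝ) = H at *
  generalize ((t + 1 : ℕ) : ℝ) = d at *
  generalize (M.divisors.card : ℝ) = τ at *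
  have hY' : (Y : ℝ) ≤ 4 * X / d := by rw [le_div_iff₀ hd]; linarith
  have b1 : B ≤ τ * (R * (4 * X / d + M)) := by
    calc B ≤ d * (K * (τ * (M * H))) := by
          refine s1.trans (mul_le_mul_of_nonneg_left (s2.trans ?_) hd.le)
          exact mul_le_mul_of_nonneg_left hMS (Nat.cast_nonneg K)
      _ = τ * (d * H * (M * K)) := by ring
      _ ≤ τ * (R * (4 * X / d + M)) := by
          refine mul_le_mul_of_nonneg_left ?_ (by linarith)
          exact mul_le_mul hH (by linarith) (by positivity) (Nat.cast_nonneg R)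
  have u1 : (2 * X * √R * (1 / √d)) ^ 2 = X * (R * (4 * X / d)) := by
    rw [mul_pow, mul_pow, div_pow, Real.sq_sqrt (Nat.cast_nonneg R), Real.sq_sqrt hd.le]; ring
  have u2 : √((X : ℝ) * M * R) ^ 2 = X * (R * M) := by
    rw [Real.sq_sqrt (by positivity)]; ring
  have u3 : 0 ≤ 2 * X * √R * (1 / √d) := by positivity
  have u4 : 0 ≤ √((X : ℝ) * M * R) := Real.sqrt_nonneg _
  generalize 2 * X * √R * (1 / √d) = u at *
  generalize √((X : ℝ) * M * R) = v at *
  refine (le_abs_self A).trans (abs_le_of_sq_le_sq ?_ (by positivity))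
  calc A ^ 2 ≤ X * (τ * (R * (4 * X / d + M))) :=
        s3.trans (mul_le_mul_of_nonneg_left b1 (Nat.cast_nonneg X))
    _ = τ * (u ^ 2 + v ^ 2) := by rw [u1, u2]; ring
    _ ≤ τ ^ 2 * (u + v) ^ 2 := by
        refine mul_le_mul (by nlinarith) (by nlinarith [mul_nonneg u3 u4]) (by positivity)
          (by positivity)
    _ = (τ * (u + v)) ^ 2 := by ring

end P1P

open P1P

theorem yP1a : T_P1a := by
  intro M D x R γ hM hγ
  have h1 : ∑ j ∈ range R, cp M (x + j) * ∑ d ∈ Icc 1 D, γ d * dd (x + j) d -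
      R * (M.totient / M * ∑ d ∈ Icc 1 D, γ d * cp M d / d) = ∑ d ∈ Icc 1 D, γ d *
        (∑ j ∈ range R, cp M (x + j) * dd (x + j) d - R * (M.totient / M * (cp M d / d))) := by
    simp only [mul_sum, mul_sub, sum_sub_distrib]
    rw [sum_comm]
    congr 1
    · exact sum_congr rfl fun d _ => sum_congr rfl fun j _ => by ring
    · exact sum_congr rfl fun d _ => by ring
  rw [h1]
  refine (abs_sum_le_sum_abs _ _).trans ((sum_le_card_nsmul _ _ (M.divisors.card : ℝ) ?_).trans ?_)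
  · intro d hd
    rw [abs_mul]
    exact (mul_le_of_le_one_left (abs_nonneg _) (hγ d)).trans
      (one_d M d x R hM (mem_Icc.1 hd).1)
  · simp

theorem yP1b (h : T_MS) : T_P1b := by
  intro M _ κ D X R γ hκ hD hR hγ
  have h1 : ∀ x, ‖∑ j ∈ range R, ((∑ d ∈ Icc 1 D, γ d * dd (x + j) d : ℝ) : ℂ) *
      κ ((x + j : ℕ) : ZMod M)‖ ≤
      ∑ d ∈ Icc 1 D, ‖∑ j ∈ range R, (dd (x + j) d : ℂ) * κ ((x + j : ℕ) : ZMod M)‖ := by
    intro x
    simp only [Complex.ofReal_sum, Complex.ofReal_mul, sum_mul, mul_assoc]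
    rw [sum_comm]
    refine (norm_sum_le _ _).trans (sum_le_sum fun d _ => ?_)
    rw [← mul_sum, norm_mul, Complex.norm_real]
    exact mul_le_of_le_one_left (norm_nonneg _) (hγ d)
  have hτ : (1 : ℝ) ≤ M.divisors.card := by
    exact_mod_cast card_pos.2 ⟨1, Nat.one_mem_divisors.2 (NeZero.ne M)⟩
  have h2 : ∀ d ∈ Icc 1 D, ∑ x ∈ Ico X (2 * X),
      ‖∑ j ∈ range R, (dd (x + j) d : ℂ) * κ ((x + j : ℕ) : ZMod M)‖ ≤
      M.divisors.card * (2 * X * √R * (1 / √(d : ℝ)) + √(X * M * R)) + X := by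
    intro d hd
    rw [mem_Icc] at hd
    obtain ⟨t, rfl⟩ : ∃ s, d = s + 1 := ⟨d - 1, by omega⟩
    refine (sum_le_sum fun x _ => pt κ t x R).trans ?_
    rw [sum_add_distrib, sum_const, Nat.card_Ico, show 2 * X - X = X by omega, nsmul_eq_mul,
      mul_one]
    exact add_le_add (mean h κ hκ t X R (by omega)) le_rfl
  refine (sum_le_sum fun x _ => h1 x).trans ?_
  rw [sum_comm]
  refine (sum_le_sum h2).trans ?_
  rw [sum_add_distrib, ← mul_sum, sum_add_distrib, ← mul_sum, sum_const, sum_const, Nat.card_Icc,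
    Nat.add_sub_cancel, nsmul_eq_mul, nsmul_eq_mul]
  have h3 := sum_inv_sqrt D
  have h4 : (D : ℝ) ≤ √((R : ℝ) * D) := by
    refine Real.le_sqrt_of_sq_le ?_
    rw [sq]
    exact mul_le_mul_of_nonneg_right (by exact_mod_cast hD) (Nat.cast_nonneg D)
  have h5 : 2 * X * √R * ∑ d ∈ Icc 1 D, 1 / √(d : ℝ) ≤ 4 * (X * √((R : ℝ) * D)) := by
    rw [Real.sqrt_mul (Nat.cast_nonneg R)]
    refine (mul_le_mul_of_nonneg_left h3 (by positivity)).trans (le_of_eq (by ring))
  have h6 : (D : ℝ) * X ≤ M.divisors.card * (X * √((R : ℝ) * D)) := by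
    rw [mul_comm]
    exact (mul_le_mul_of_nonneg_left h4 (Nat.cast_nonneg X)).trans
      (le_mul_of_one_le_left (by positivity) hτ)
  have h7 : 0 ≤ (X : ℝ) * √((R : ℝ) * D) := by positivity
  have h8 : 0 ≤ (D : ℝ) * √((X : ℝ) * M * R) := by positivity
  calc _ ≤ (M.divisors.card : ℝ) * (4 * (X * √((R : ℝ) * D)) + D * √((X : ℝ) * M * R)) +
        M.divisors.card * (X * √((R : ℝ) * D)) := by gcongr
    _ = (M.divisors.card : ℝ) * (5 * (X * √((R : ℝ) * D)) + D * √((X : ℝ) * M * R)) := by ring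
    _ ≤ _ := mul_le_mul_of_nonneg_left (by linarith) (by positivity)

theorem yPin : T_Pin := by
  intro X A B δ hX h x hx
  have h1 := h X (Or.inl rfl)
  have h2 := h _ (Or.inr rfl)
  obtain ⟨l, hl⟩ : ∃ l, l = X / 2 := ⟨_, rfl⟩
  rw [← hl, sum_Ico_eq_sum_range, Nat.add_sub_cancel_left] at h1 h2
  have l1 : (2 : ℝ) ≤ l := by exact_mod_cast (show 2 ≤ l by omega)
  have l2 : (X : ℝ) ≤ 2 * l + 1 := by exact_mod_cast (show X ≤ 2 * l + 1 by omega)
  have l3 : 2 * (l : ℝ) ≤ X := by exact_mod_cast (show 2 * l ≤ X by omega)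
  have hδ : 0 ≤ δ := nonneg_of_mul_nonneg_left ((abs_nonneg _).trans h1) (by linarith)
  have hδX : δ * X ≤ 5 / 2 * δ * l := by nlinarith
  have g1 : (l : ℝ) * (2 / 9) ≤
      ∑ i ∈ range l, (Real.log ((X + l + i : ℕ) : ℝ) - Real.log ((X + i : ℕ) : ℝ)) := by
    have := card_nsmul_le_sum (range l)
      (fun i => Real.log ((X + l + i : ℕ) : ℝ) - Real.log ((X + i : ℕ) : ℝ)) (2 / 9) ?_
    · rwa [card_range, nsmul_eq_mul] at this
    intro i hi
    have i1 : (i : ℝ) ≤ l := by exact_mod_cast (mem_range.1 hi).le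
    have i0 : (0 : ℝ) ≤ i := Nat.cast_nonneg i
    push_cast
    have p1 : (0 : ℝ) < X + i := by linarith
    have p2 : (0 : ℝ) < X + l + i := by linarith
    have p3 := Real.log_le_sub_one_of_pos (div_pos p1 p2)
    rw [Real.log_div p1.ne' p2.ne'] at p3
    have p4 : ((X : ℝ) + i) / (X + l + i) ≤ 7 / 9 := by rw [div_le_iff₀ p2]; linarith
    linarith
  have g2 : |A| * ∑ i ∈ range l, (Real.log ((X + l + i : ℕ) : ℝ) - Real.log ((X + i : ℕ) : ℝ)) ≤
      2 * (δ * X) := by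
    rw [← abs_of_nonneg (le_trans (by positivity) g1), ← abs_mul]
    have e : A * ∑ i ∈ range l, (Real.log ((X + l + i : ℕ) : ℝ) - Real.log ((X + i : ℕ) : ℝ)) =
        ∑ i ∈ range l, (A * Real.log ((X + l + i : ℕ) : ℝ) - B) -
          ∑ i ∈ range l, (A * Real.log ((X + i : ℕ) : ℝ) - B) := by
      rw [mul_sum, ← sum_sub_distrib]
      exact sum_congr rfl fun i _ => by ring
    rw [e]
    exact (abs_sub _ _).trans (by linarith)
  have g3 : |A| * l ≤ 45 / 2 * δ * l := by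
    have := mul_le_mul_of_nonneg_left g1 (abs_nonneg A)
    linarith
  have g4 : ∀ u v : ℕ, X ≤ u → v ≤ 2 * X → X ≤ v → Real.log v - Real.log u ≤ 1 := by
    intro u v hu hv hv'
    have u0 : (X : ℝ) ≤ u := by exact_mod_cast hu
    have v0 : (X : ℝ) ≤ v := by exact_mod_cast hv'
    have v1 : (v : ℝ) ≤ 2 * X := by exact_mod_cast hv
    have p1 : (0 : ℝ) < u := by linarith
    have p2 : (0 : ℝ) < v := by linarith
    have p3 := Real.log_le_sub_one_of_pos (div_pos p2 p1)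
    rw [Real.log_div p2.ne' p1.ne'] at p3
    have p4 : (v : ℝ) / u ≤ 2 := by rw [div_le_iff₀ p1]; linarith
    linarith
  rw [mem_Ico] at hx
  have g5 : |∑ i ∈ range l, A * (Real.log x - Real.log ((X + i : ℕ) : ℝ))| ≤ |A| * l := by
    refine (abs_sum_le_sum_abs _ _).trans ((sum_le_card_nsmul _ _ |A| fun i hi => ?_).trans ?_)
    · rw [abs_mul]
      have hi' := mem_range.1 hi
      refine mul_le_of_le_one_right (abs_nonneg A) (abs_le.2 ⟨?_, ?_⟩)
      · have := g4 x (X + i) hx.1 (by omega) (by omega)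
        linarith
      · exact g4 (X + i) x (by omega) hx.2.le hx.1
    · rw [card_range, nsmul_eq_mul, mul_comm]
  have g6 : (A * Real.log x - B) * l = ∑ i ∈ range l, (A * Real.log ((X + i : ℕ) : ℝ) - B) +
      ∑ i ∈ range l, A * (Real.log x - Real.log ((X + i : ℕ) : ℝ)) := by
    rw [← sum_add_distrib, sum_congr rfl (g := fun _ => A * Real.log x - B) fun i _ => by ring,
      sum_const, card_range, nsmul_eq_mul, mul_comm]
  have g7 : |A * Real.log x - B| * l ≤ 30 * δ * l := by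
    rw [← abs_of_nonneg (Nat.cast_nonneg (α := ℝ) l), ← abs_mul, g6, Nat.abs_cast]
    have := mul_nonneg hδ (Nat.cast_nonneg (α := ℝ) l)
    exact (abs_add_le _ _).trans (by linarith)
  exact le_of_mul_le_mul_right g7 (by linarith)

end Pool.Agent.P.MP_746f10_nt.HL
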