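import Pool.Agent.P.MP_746f10_nt.HL.Cnt
import Pool.Agent.P.MP_746f10_nt.AP.QPair

/-! The Fourier coefficients of the averaged products of four dilates. -/

namespace Pool.Agent.P.MP_746f10_nt.HL

open Finset ComplexConjugate
open Pool.Agent.P.MP_746f10_nt.AP Pool.Agent.P.MP_746f10_nt.AZ

namespace PsiP

lemma cs_fib {ι β : Type*} [DecidableEq β] {O : Finset ι} {Y : Finset β} {κ : ι → β}
    (hκ : ∀ q ∈ O, κ q ∈ Y) (φ : β → ℝ) : (∑ q ∈ O, φ (κ q)) ^ 2 ≤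
      ((O ×ˢ O).filter fun x => κ x.1 = κ x.2).card * ∑ y ∈ Y, φ y ^ 2 := by
  have e1 : ∑ q ∈ O, φ (κ q) = ∑ y ∈ Y, ((O.filter fun q => κ q = y).card : ℝ) * φ y := by
    rw [← sum_fiberwise_of_maps_to hκ]
    refine sum_congr rfl fun y _ => ?_
    rw [sum_congr rfl fun q hq => congrArg φ (mem_filter.1 hq).2, sum_const, nsmul_eq_mul]
  have e2 : (((O ×ˢ O).filter fun x => κ x.1 = κ x.2).card : ℝ) =
      ∑ y ∈ Y, ((O.filter fun q => κ q = y).card : ℝ) ^ 2 := by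
    rw [card_eq_sum_card_fiberwise (f := fun x => κ x.1) (t := Y) fun x hx =>
      hκ _ (mem_product.1 (mem_filter.1 hx).1).1]
    push_cast
    refine sum_congr rfl fun y _ => ?_
    rw [sq, ← Nat.cast_mul, ← card_product]
    congr 2
    ext x
    simp only [mem_filter, mem_product]
    constructor
    · rintro ⟨⟨⟨h1, h2⟩, h3⟩, h4⟩
      exact ⟨⟨h1, h4⟩, h2, h3 ▸ h4⟩
    · rintro ⟨⟨h1, h2⟩, h3, h4⟩
      exact ⟨⟨⟨h1, h3⟩, h2.trans h4.symm⟩, h2⟩
  rw [e1, e2]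
  exact sum_mul_sq_le_sq_mul_sq _ _ _

lemma cs {ι : Type*} (s : Finset ι) (A B : ι → ℂ) :
    ‖∑ i ∈ s, A i * B i‖ ^ 2 ≤ (∑ i ∈ s, ‖A i‖ ^ 2) * ∑ i ∈ s, ‖B i‖ ^ 2 := by
  refine le_trans (pow_le_pow_left₀ (norm_nonneg _) ((norm_sum_le _ _).trans
    (le_of_eq (sum_congr rfl fun i _ => norm_mul _ _))) 2) (sum_mul_sq_le_sq_mul_sq _ _ _)

lemma expand {ι β : Type*} (S : Finset ι) (V : Finset β) (t : ι → β → ℂ) :
    ∑ v ∈ V, ‖∑ p ∈ S, t p v‖ ^ 2 ≤ ∑ p ∈ S, ∑ q ∈ S, ‖∑ v ∈ V, t p v * conj (t q v)‖ := by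
  have e : ((∑ v ∈ V, ‖∑ p ∈ S, t p v‖ ^ 2 : ℝ) : ℂ) =
      ∑ p ∈ S, ∑ q ∈ S, ∑ v ∈ V, t p v * conj (t q v) := by
    push_cast
    simp only [← Complex.mul_conj', map_sum, sum_mul_sum]
    exact sum_comm.trans (sum_congr rfl fun _ _ => sum_comm)
  refine (le_abs_self _).trans ?_
  rw [← Real.norm_eq_abs, ← Complex.norm_real, e]
  exact (norm_sum_le _ _).trans (sum_le_sum fun p _ => norm_sum_le _ _)

variable {a : ℕ} [NeZero a]

lemma norm_psi (x : ZMod a) : ‖ZMod.stdAddChar x‖ = 1 := AddChar.norm_apply _ _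

/-- product of two dilates -/
noncomputable def gg (f : ZMod a → ℂ) (x w : ZMod a) : ℂ := conj (f (x * w)) * f w

/-- product of two shifts -/
noncomputable def GG (f : ZMod a → ℂ) (x s w : ZMod a) : ℂ := gg f x w * conj (gg f x (w + s))

omit [NeZero a] in
lemma gg_le {f : ZMod a → ℂ} {F : ℝ} (hf : ∀ y, ‖f y‖ ≤ F) (x w : ZMod a) : ‖gg f x w‖ ≤ F ^ 2 := by
  rw [gg, norm_mul, Complex.norm_conj, sq]
  exact mul_le_mul (hf _) (hf _) (norm_nonneg _) ((norm_nonneg _).trans (hf 0))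

lemma GG_le {f : ZMod a → ℂ} {F : ℝ} (hf : ∀ y, ‖f y‖ ≤ F) (x s : ZMod a) :
    ∑ r, ‖QPVP.co (GG f x s) (-r)‖ ^ 2 ≤ (F ^ 4) ^ 2 := by
  have a0 : (0 : ℝ) < a := by exact_mod_cast NeZero.pos a
  refine (Equiv.sum_comp (Equiv.neg (ZMod a)) fun r => ‖QPVP.co (GG f x s) r‖ ^ 2).trans_le ?_
  rw [← QPVP.parseval, one_div, inv_mul_le_iff₀ a0]
  refine (sum_le_card_nsmul _ _ ((F ^ 4) ^ 2) fun w _ => ?_).trans
    (by rw [card_univ, ZMod.card, nsmul_eq_mul])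
  refine pow_le_pow_left₀ (norm_nonneg _) ?_ 2
  rw [GG, norm_mul, Complex.norm_conj, show F ^ 4 = F ^ 2 * F ^ 2 by ring]
  exact mul_le_mul (gg_le hf _ _) (gg_le hf _ _) (norm_nonneg _) (sq_nonneg F)

/-- the inner term -/
noncomputable def tt (f : ZMod a → ℂ) (h z d : ZMod a) (p : ℕ × ℕ) (v : ZMod a) : ℂ :=
  ZMod.stdAddChar (h * ((p.2 : ZMod a)⁻¹ * v - z)) * gg f (rt a p) (v + p.2 * d)

lemma inv {K : ℕ} {p : ℕ × ℕ} (h : p ∈ Pc a K) : (p.2 : ZMod a) * (p.2 : ZMod a)⁻¹ = 1 :=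
  ZMod.coe_mul_inv_eq_one _ (mem_filter.1 h).2.2

lemma subst (f : ZMod a → ℂ) (h z z' : ZMod a) {K : ℕ} {p : ℕ × ℕ} (hp : p ∈ Pc a K) :
    ∑ y : ZMod a, ZMod.stdAddChar (h * y) *
      (ww f p.1 p.2 (y + z) * conj (ww f p.1 p.2 (y + z'))) =
    ∑ v, f (rt a p * v) * conj (f v) * tt f h z (z' - z) p v := by
  have h1 := inv hp
  have h2 := CntP.rt_mul hp
  symm
  refine Fintype.sum_bijective (fun v => (p.2 : ZMod a)⁻¹ * v - z)
    (Finite.injective_iff_bijective.1 fun v v' e => ?_) _ _ fun v => ?_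
  · have e1 : (p.2 : ZMod a)⁻¹ * v = (p.2 : ZMod a)⁻¹ * v' := sub_left_injective e
    linear_combination (p.2 : ZMod a) * e1 - (v - v') * h1
  · have e1 : (p.1 : ZMod a) * ((p.2 : ZMod a)⁻¹ * v - z + z) = rt a p * v := by
      rw [h2]; linear_combination rt a p * v * h1
    have e2 : (p.2 : ZMod a) * ((p.2 : ZMod a)⁻¹ * v - z + z) = v := by
      linear_combination v * h1
    have e3 : (p.1 : ZMod a) * ((p.2 : ZMod a)⁻¹ * v - z + z') =
        rt a p * (v + p.2 * (z' - z)) := by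
      rw [h2]; linear_combination rt a p * v * h1
    have e4 : (p.2 : ZMod a) * ((p.2 : ZMod a)⁻¹ * v - z + z') = v + p.2 * (z' - z) := by
      linear_combination v * h1
    simp only [ww, tt, gg, e1, e2, e3, e4, map_mul, Complex.conj_conj]
    ring

lemma off (f : ZMod a → ℂ) (h z d : ZMod a) {p q : ℕ × ℕ} (e : rt a q = rt a p) :
    ‖∑ v, tt f h z d p v * conj (tt f h z d q v)‖ = a * ‖QPVP.co
      (GG f (rt a p) ((((q.2 : ℤ) - p.2 : ℤ) : ZMod a) * d))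
      (-(h * ((p.2 : ZMod a)⁻¹ - (q.2 : ZMod a)⁻¹)))‖ := by
  have a0 : (0 : ℝ) < a := by exact_mod_cast NeZero.pos a
  set l := h * ((p.2 : ZMod a)⁻¹ - (q.2 : ZMod a)⁻¹) with hl
  rw [QPVP.co, norm_mul, norm_div, norm_one, Complex.norm_natCast, ← mul_assoc,
    mul_one_div_cancel a0.ne', one_mul, ← mul_one ‖∑ v, tt f h z d p v * _‖,
    ← norm_psi (l * ((p.2 : ZMod a) * d)), ← norm_mul, sum_mul, eq_comm,
    ← Equiv.sum_comp (Equiv.addRight ((p.2 : ZMod a) * d)), eq_comm]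
  congr 1
  refine sum_congr rfl fun v _ => ?_
  have e1 : v + p.2 * d + (((q.2 : ℤ) - p.2 : ℤ) : ZMod a) * d = v + q.2 * d := by
    push_cast; ring
  have e2 : ZMod.stdAddChar (- (-l * (v + (p.2 : ZMod a) * d))) =
      ZMod.stdAddChar (h * ((p.2 : ZMod a)⁻¹ * v - z)) *
        ZMod.stdAddChar (-(h * ((q.2 : ZMod a)⁻¹ * v - z))) *
        ZMod.stdAddChar (l * ((p.2 : ZMod a) * d)) := by
    rw [← AddChar.map_add_eq_mul, ← AddChar.map_add_eq_mul]
    congr 1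
    rw [hl]; ring
  simp only [Equiv.coe_addRight, tt, GG, e, e1, e2, map_mul, ← AddChar.map_neg_eq_conj]
  ring

end PsiP

open PsiP in
theorem yPsi (H : T_CV) : T_Psi := by
  classical
  intro a _ f F Nt K h P z z' h0 h2 hF hP hK hN
  have a0 : (0 : ℝ) < a := by exact_mod_cast NeZero.pos a
  have F0 : 0 ≤ F := (norm_nonneg _).trans (hF 0)
  have N0 : 0 ≤ Nt := (Nat.cast_nonneg _).trans hN
  set t := tt f h z (z' - z) with ht
  set U := (univ : Finset (ZMod a)).filter IsUnit with hU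
  have hm : ∀ p ∈ P, rt a p ∈ U := fun p hp =>
    mem_filter.2 ⟨mem_univ _, QPairP.unit_ratio (hP hp)⟩
  have e1 : ∑ p ∈ P, ∑ y : ZMod a, ZMod.stdAddChar ((h : ZMod a) * y) *
      (ww f p.1 p.2 (y + z) * conj (ww f p.1 p.2 (y + z'))) = ∑ x ∈ U ×ˢ univ,
      f (x.1 * x.2) * conj (f x.2) * ∑ p ∈ P.filter (fun p => rt a p = x.1), t p x.2 := by
    rw [sum_congr rfl fun p hp => subst f h z z' (hP hp), sum_product,
      ← sum_fiberwise_of_maps_to hm]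
    refine sum_congr rfl fun x _ => ?_
    simp only [mul_sum]
    rw [sum_comm]
    exact sum_congr rfl fun v _ => sum_congr rfl fun p hp => by rw [(mem_filter.1 hp).2]
  have e2 : ∑ x ∈ U ×ˢ univ, ‖f (x.1 * x.2) * conj (f x.2)‖ ^ 2 ≤ (a : ℝ) ^ 2 := by
    rw [sum_product, sum_comm]
    calc _ ≤ ∑ v, a * ‖f v‖ ^ 2 := sum_le_sum fun v _ => by
          simp only [norm_mul, Complex.norm_conj, mul_pow, ← sum_mul]
          by_cases hv : IsUnit v
          · refine mul_le_mul_of_nonneg_right ((sum_le_sum_of_subset_of_nonneg (subset_univ _)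
              fun _ _ _ => sq_nonneg _).trans ?_) (sq_nonneg _)
            rwa [← Equiv.sum_comp (Units.mulRight hv.unit)] at h2
          · simp [h0 v hv]
      _ ≤ _ := by rw [← mul_sum, sq]; gcongr
  set O := (P ×ˢ P).filter fun q => rt a q.2 = rt a q.1 with hO
  set φ : (ℕ × ℕ) × ℕ × ℕ → ℝ := fun q => ‖∑ v, t q.1 v * conj (t q.2 v)‖ with hφ
  have e3 : ∑ x ∈ U ×ˢ univ, ‖∑ p ∈ P.filter (fun p => rt a p = x.1), t p x.2‖ ^ 2 ≤
      ∑ q ∈ O, φ q := by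
    rw [sum_product, ← sum_fiberwise_of_maps_to (s := O) (g := fun q => rt a q.1) (t := U)
      fun q hq => hm _ (mem_product.1 (mem_filter.1 hq).1).1]
    refine sum_le_sum fun x _ => (expand (P.filter fun p => rt a p = x) univ t).trans (le_of_eq ?_)
    rw [← sum_product']
    refine sum_congr ?_ fun _ _ => rfl
    ext q
    simp only [hO, mem_filter, mem_product]
    constructor
    · rintro ⟨⟨h1, h2⟩, h3, h4⟩
      exact ⟨⟨⟨h1, h3⟩, h4.trans h2.symm⟩, h2⟩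
    · rintro ⟨⟨⟨h1, h2⟩, h3⟩, h4⟩
      exact ⟨⟨h1, h4⟩, h2, h3.trans h4⟩
  have mO : ∀ q ∈ O, q.1 ∈ P ∧ q.2 ∈ P ∧ rt a q.2 = rt a q.1 := fun q hq => by
    simpa only [hO, mem_filter, mem_product, and_assoc] using hq
  have e4 : ∑ q ∈ O.filter (fun q => q.2.2 = q.1.2), φ q ≤ (K : ℝ) ^ 2 * (a * F ^ 4) := by
    refine (sum_le_card_nsmul _ _ (a * F ^ 4) fun q _ => ?_).trans ?_
    · refine (norm_sum_le _ _).trans ((sum_le_card_nsmul _ _ (F ^ 4) fun v _ => ?_).trans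
        (by rw [card_univ, ZMod.card, nsmul_eq_mul]))
      simp only [ht, tt, norm_mul, Complex.norm_conj, norm_psi, one_mul]
      rw [show F ^ 4 = F ^ 2 * F ^ 2 by ring]
      exact mul_le_mul (gg_le hF _ _) (gg_le hF _ _) (norm_nonneg _) (sq_nonneg F)
    · have b1 := card_le_card_of_injOn (s := O.filter fun q => q.2.2 = q.1.2)
        (t := Icc 1 K ×ˢ Icc 1 K) (fun q => q.1)
        (fun q hq => filter_subset _ _ (hP (mO q (mem_filter.1 hq).1).1)) fun q hq q' hq' e => by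
          have k : ∀ q ∈ O.filter fun q => q.2.2 = q.1.2, q.2 = q.1 := fun q hq => by
            have := mO q (mem_filter.1 hq).1
            exact CntP.eq_of hK (hP this.2.1) (hP this.1) this.2.2 (mem_filter.1 hq).2
          exact Prod.ext e (by rw [k q hq, k q' hq']; exact e)
      rw [card_product, Nat.card_Icc, Nat.add_sub_cancel, ← sq] at b1
      rw [nsmul_eq_mul]
      gcongr
      exact_mod_cast b1
  set O' := O.filter fun q => ¬ q.2.2 = q.1.2 with hO'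
  set CV := ((univ : Finset (ZMod a)) ×ˢ Icc (-(K : ℤ)) K ×ˢ Icc (-(K : ℤ)) K).filter fun t =>
    t.2.2 ≠ 0 ∧ ((1 : ℕ) : ℤ) ∣ t.2.2 ∧ (t.2.1 : ZMod a) = t.1 * (t.2.2 : ZMod a) with hCV
  let κ : (ℕ × ℕ) × ℕ × ℕ → (ZMod a × ℤ × ℤ) × ZMod a := fun q =>
    ((rt a q.1, (q.2.1 : ℤ) - q.1.1, (q.2.2 : ℤ) - q.1.2),
      h * ((q.1.2 : ZMod a)⁻¹ - (q.2.2 : ZMod a)⁻¹))
  have e5 := cs_fib (O := O') (Y := CV ×ˢ univ) (κ := κ) (fun q hq => by
    obtain ⟨b1, b2⟩ := mem_filter.1 hq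
    obtain ⟨b3, b4, b5⟩ := mO q b1
    have b6 := CntP.bd (hP b3)
    have b7 := CntP.bd (hP b4)
    refine mem_product.2 ⟨mem_filter.2 ⟨mem_product.2 ⟨mem_univ _, mem_product.2
      ⟨mem_Icc.2 ?_, mem_Icc.2 ?_⟩⟩, ?_, one_dvd _, ?_⟩, mem_univ _⟩
    · simp only [κ]; omega
    · simp only [κ]; omega
    · simp only [κ]; omega
    · simp only [κ]
      push_cast
      rw [CntP.rt_mul (hP b3), CntP.rt_mul (hP b4), b5]
      ring) fun y => ‖QPVP.co (GG f y.1.1 ((y.1.2.2 : ZMod a) * (z' - z))) (-y.2)‖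
  have e6 : (((O' ×ˢ O').filter fun x => κ x.1 = κ x.2).card : ℝ) ≤ Nt := by
    refine le_trans (Nat.cast_le.2 (card_le_card_of_injOn (fun x => (x.1.1, x.1.2, x.2.1))
      (fun x hx => ?_) fun x hx x' hx' e => ?_)) hN
    · obtain ⟨b1, b2⟩ := mem_filter.1 hx
      obtain ⟨b3, b4⟩ := mem_product.1 b1
      obtain ⟨c1, c2, c3⟩ := mO _ (mem_filter.1 b3).1
      obtain ⟨c4, c5, -⟩ := mO _ (mem_filter.1 b4).1
      simp only [κ, Prod.mk.injEq] at b2
      obtain ⟨⟨d1, -, d3⟩, d4⟩ := b2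
      refine mem_filter.2 ⟨mem_product.2 ⟨c1, mem_product.2 ⟨c2, c4⟩⟩, c3, d1.symm,
        (mem_filter.1 b3).2, ?_⟩
      rw [← ZMod.intCast_zmod_eq_zero_iff_dvd]
      have d5 : (x.2.2.2 : ZMod a) = x.2.1.2 + (x.1.2.2 - x.1.1.2) := by
        have := congrArg (Int.cast : ℤ → ZMod a) d3
        push_cast at this
        linear_combination -this
      have i1 := inv (hP c1)
      have i2 := inv (hP c2)
      have i3 := inv (hP c4)
      have i4 := inv (hP c5)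
      push_cast
      generalize (x.1.1.2 : ZMod a)⁻¹ = j1 at *
      generalize (x.1.2.2 : ZMod a)⁻¹ = j2 at *
      generalize (x.2.1.2 : ZMod a)⁻¹ = j3 at *
      generalize (x.2.2.2 : ZMod a)⁻¹ = j4 at *
      rw [d5] at i4
      generalize (x.1.1.2 : ZMod a) = k1 at *
      generalize (x.1.2.2 : ZMod a) = k2 at *
      generalize (x.2.1.2 : ZMod a) = k3 at *
      linear_combination k1 * k2 * k3 * (k3 + (k2 - k1)) * d4 -
        h * k2 * k3 * (k3 + (k2 - k1)) * i1 + h * k1 * k3 * (k3 + (k2 - k1)) * i2 +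
        h * k1 * k2 * (k3 + (k2 - k1)) * i3 - h * k1 * k2 * k3 * i4
    · have b1 := (mem_filter.1 hx).2
      have b2 := (mem_filter.1 hx').2
      simp only [κ, Prod.mk.injEq] at b1 b2 e
      obtain ⟨c1, c2, c3⟩ := e
      rw [c1, c2, c3] at b1
      exact Prod.ext (Prod.ext c1 c2) (Prod.ext c3 (Prod.ext (by omega) (by omega)))
  have e7 : ∑ y ∈ CV ×ˢ univ,
      ‖QPVP.co (GG f y.1.1 ((y.1.2.2 : ZMod a) * (z' - z))) (-y.2)‖ ^ 2 ≤
      6 * (K : ℝ) ^ 2 * (F ^ 4) ^ 2 := by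
    rw [sum_product]
    refine (sum_le_card_nsmul CV _ ((F ^ 4) ^ 2) fun c _ =>
      GG_le hF c.1 ((c.2.2 : ZMod a) * (z' - z))).trans ?_
    have := H a K 1 le_rfl
    rw [Nat.cast_one (R := ℝ), div_one] at this
    rw [nsmul_eq_mul]
    gcongr
  have e8 : ∑ q ∈ O', φ q ≤ a * (F ^ 4 * K * √(6 * Nt)) := by
    rw [sum_congr rfl fun q hq => off f h z (z' - z) (mO q (mem_filter.1 hq).1).2.2, ← mul_sum]
    refine mul_le_mul_of_nonneg_left (abs_le_of_sq_le_sq' (e5.trans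
      ((mul_le_mul e6 e7 (by positivity) N0).trans (le_of_eq ?_))) (by positivity)).2 a0.le
    rw [mul_pow, Real.sq_sqrt (by positivity)]
    ring
  rw [← sum_filter_add_sum_filter_not O fun q => q.2.2 = q.1.2] at e3
  rw [e1]
  refine (abs_le_of_sq_le_sq' ((cs _ _ _).trans ((mul_le_mul e2 (e3.trans (add_le_add e4 e8))
    (by positivity) (by positivity)).trans (le_of_eq ?_))) (by positivity)).2
  rw [mul_pow, Real.sq_sqrt (by positivity)]
  ring

end Pool.Agent.P.MP_746f10_nt.HL
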