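import Pool.Agent.P.MP_746f10_nt.HL.Base
import Pool.Agent.P.MP_746f10_nt.AP.QRow
import Pool.Agent.P.MP_746f10_nt.AP.Var

/-! Reduction to short sums for a fixed level, and short sums of a convolution whose first factor
has a small Dirichlet polynomial. -/

namespace Pool.Agent.P.MP_746f10_nt.HL

open Finset MeasureTheory
open Pool.Agent.P.MP_746f10_nt.AP Pool.Agent.P.MP_746f10_nt.AZ
open Pool.Agent.P.MP_0ad054_nt (e e_add e_add_int norm_e)
open Pool.Agent.P.MP_a14ce1_nt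
open Pool.Agent.P.MP_a14ce1_nt.Ch (nit sm cw psi Fx)

namespace Row2P

lemma sum_Ioc {P : ℕ} (hP : 1 ≤ P) {pp : ℕ → ℂ} (h : ∀ p, ‖pp p‖ ≤ 1) :
    0 ≤ ∑ p ∈ Ioc P (2 * P), ‖pp p / p‖ ∧ ∑ p ∈ Ioc P (2 * P), ‖pp p / p‖ ≤ 1 := by
  have hP' : (0 : ℝ) < P := by exact_mod_cast hP
  refine ⟨by positivity, ?_⟩
  calc _ ≤ ∑ _p ∈ Ioc P (2 * P), 1 / (P : ℝ) := sum_le_sum fun p hp =>
        (VarP.norm_div_le (h p)).trans (one_div_le_one_div_of_le hP'
          (by exact_mod_cast (mem_Ioc.1 hp).1.le))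
    _ = 1 := by
        rw [sum_const, Nat.card_Ioc, show 2 * P - P = P by omega, nsmul_eq_mul]
        field_simp

lemma sm_Ioc (h4 : Ch.S_SmReg) {P : ℕ} (hP : 1 ≤ P) {pp : ℕ → ℂ} (h : ∀ p, ‖pp p‖ ≤ 1) (t : ℝ) :
    sm (Ioc P (2 * P)) (fun p => pp p / p) t ≤ 4 := by
  obtain ⟨h2, h1⟩ := sum_Ioc hP h
  refine ((h4 _ _).2 t).2.trans ?_
  have := Real.pi_le_four
  calc _ ≤ 4 * (1 : ℝ) ^ 2 := by gcongr
    _ = 4 := by norm_num

end Row2P

open QRowP in
theorem yRow2 : T_Row2 := by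
  refine ⟨10, by norm_num, fun a _ N ρ q R c u B0 Z φ hφ hq ha hN hR hRa hu hc hr hZ => ?_⟩
  obtain ⟨q1, q2, r, ξ, χ, h1, h2, rfl, hr1, ⟨s, hs⟩, hφ⟩ := hφ
  have h12 : 1 ≤ q1 * q2 := Nat.mul_pos h1 h2
  have : NeZero (q1 * q2) := ⟨by omega⟩
  have hq1 : (1 : ℝ) ≤ (q1 * q2 : ℕ) := by exact_mod_cast h12
  have hρ : ((q1 * q2 : ℕ) : ℝ) ≤ ρ := by exact_mod_cast hq
  have ha0 : (0 : ℝ) < a := by exact_mod_cast (by omega : 0 < a)
  have h10 : (0 : ℝ) < q1 := by exact_mod_cast h1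
  have h20 : (0 : ℝ) < q2 := by exact_mod_cast h2
  let θ : ℝ := r / ((q1 * q2 : ℕ) * a)
  have hθ : |θ| * a ≤ ρ := by
    have h3 : |(r : ℝ)| ≤ ρ := by exact_mod_cast hr1
    rw [abs_div, abs_of_pos (show (0 : ℝ) < (q1 * q2 : ℕ) * a by positivity), div_mul_eq_mul_div,
      mul_div_mul_right _ _ ha0.ne']
    exact (div_le_self (abs_nonneg _) hq1).trans h3
  choose κ hκ using lift (M := a * q2) (q := q1 * q2) (L := a * (q1 * q2))
    (Nat.mul_dvd_mul_left a (Dvd.intro_left q1 rfl)) (Dvd.intro_left a rfl)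
    (fun m x y => Nat.Coprime.mul_right x.coprime_mul_right_right y) χ
  let G : ℕ → ℕ → ℂ := fun i m => e (θ * (a * i : ℕ)) * (c m *
    (χ ((m + a * i : ℕ) : ZMod (a * q2)) * e ((s : ℝ) * (m + a * i : ℕ) / q1)))
  have hZ0 : 0 ≤ Z := (sum_nonneg fun _ _ => norm_nonneg _).trans (hZ 1)
  have key : ∀ i ∈ range q2,
      ‖∑ n ∈ Ico N (2 * N), u n * ∑ b ∈ range a, G i (a * n + b) * e (θ * (a * n + b : ℕ))‖ ≤
        ρ * Z / R + 10 * B0 * ρ * R * N := fun i _ => by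
    refine rows hN hR hRa hu (fun m hm => ?_) hθ (hq1.trans hρ) ?_
    · simp only [G, norm_mul, norm_e, one_mul, mul_one]
      exact (mul_le_of_le_one_right (norm_nonneg _) (χ.norm_le_one _)).trans (hc m hm)
    obtain ⟨th, t1, t2⟩ := twist χ s i (q1 := q1)
    obtain ⟨co, c1, c2⟩ := RowP.expand (q1 * q2) th t1
    have hG : ∀ m, G i m = ∑ ψ, e (θ * (a * i : ℕ)) * co ψ * (c m * κ ψ m) := fun m => by
      by_cases h0 : c m = 0
      · simp [G, h0]
      have hm : m.Coprime (q1 * q2) := hr m h0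
      simp only [G, t2 m hm, c2 m ((ZMod.isUnit_iff_coprime m _).2 hm), mul_sum, hκ]
      exact sum_congr rfl fun ψ _ => by ring
    have h4 := sum_le_card_nsmul univ _ Z fun (ψ : DirichletCharacter ℂ (q1 * q2)) _ =>
      hZ (κ ψ)
    rw [card_univ, ← Nat.card_eq_fintype_card,
      DirichletCharacter.card_eq_totient_of_hasEnoughRootsOfUnity, nsmul_eq_mul, sum_comm] at h4
    have h5 : ((q1 * q2).totient : ℝ) ≤ ρ := by exact_mod_cast (Nat.totient_le _).trans hq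
    refine le_trans (sum_le_sum fun x _ => ?_) (h4.trans (mul_le_mul_of_nonneg_right h5 hZ0))
    simp only [hG]
    rw [sum_comm]
    refine (norm_sum_le _ _).trans (sum_le_sum fun ψ _ => ?_)
    rw [← mul_sum, norm_mul, norm_mul, norm_e, one_mul]
    exact mul_le_of_le_one_left (norm_nonneg _) (c1 ψ)
  have e1 : ∀ z : ℕ, e ((ξ : ℝ) * z / (a * q2 : ℕ)) = e ((s : ℝ) * z / q1) * e (θ * z) := fun z => by
    rw [← e_add]
    congr 1
    have h3 : (q1 : ℝ) * ξ - r = a * q2 * s := by exact_mod_cast hs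
    simp only [θ]
    push_cast
    field_simp
    linear_combination z * h3
  have e2 : Bf a N c u (fun b => φ b) = 1 / (q2 : ℂ) * ∑ i ∈ range q2, ∑ n ∈ Ico N (2 * N),
      u n * ∑ b ∈ range a, G i (a * n + b) * e (θ * (a * n + b : ℕ)) := by
    unfold Bf
    rw [sum_comm (s := range q2), mul_sum]
    refine sum_congr rfl fun n _ => ?_
    have e3 : ∑ b ∈ Ico 1 a, c (a * n + b) * u n * φ b =
        ∑ b ∈ range a, c (a * n + b) * u n * fm a q2 χ ξ (a * n + b) := by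
      rw [range_eq_Ico, sum_eq_sum_Ico_succ_bot (a := 0) (by omega), fm_row h2,
        fm_eq_zero χ ξ (m := 0) (by rw [Nat.coprime_zero_left]; omega), mul_zero, zero_add]
      exact sum_congr rfl fun b hb => by
        rw [hφ, ZMod.val_cast_of_lt (mem_Ico.1 hb).2, fm_row h2]
    rw [e3, ← mul_sum, sum_comm, mul_sum, mul_sum]
    refine sum_congr rfl fun b _ => ?_
    unfold fm
    simp only [mul_sum]
    refine sum_congr rfl fun i _ => ?_
    simp only [G, e1]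
    rw [Nat.cast_add (R := ℝ) (a * n + b) (a * i), mul_add θ, e_add]
    ring
  rw [e2, norm_mul, norm_div, norm_one, Complex.norm_natCast, one_div, inv_mul_le_iff₀ h20]
  have h3 := sum_le_card_nsmul _ _ _ key
  rw [card_range, nsmul_eq_mul] at h3
  exact (norm_sum_le _ _).trans h3

theorem yVar2 (h1 : Ch.S_Reduce) (h2 : Ch.S_Separate) (h3 : Ch.S_Moment) (h4 : Ch.S_SmReg) :
    T_Var2 := by
  obtain ⟨C1, hC1, h1⟩ := h1
  obtain ⟨C2, hC2, h2⟩ := h2
  refine ⟨C1 * (1 + √(C2 * 10 ^ 6)), by positivity, ?_⟩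
  intro X P R h ε B0 pp yy hX hP hPh hhX hR hε hB pS p1 hb s1
  obtain ⟨f, hf⟩ : ∃ f, f = cv pp yy := ⟨_, rfl⟩
  have f1 : ∀ n, f n = cv pp yy n := fun n => by rw [hf]
  rw [← hf] at hb ⊢
  have hX1 : 1 ≤ X := by omega
  have hX' : (0 : ℝ) < X := by exact_mod_cast hX1
  have hP' : (1 : ℝ) ≤ P := by exact_mod_cast hP
  have hh : 1 ≤ h := hP'.trans hPh
  have hB0 : 0 < B0 := by linarith
  have hBc : (B0 : ℂ) ≠ 0 := by exact_mod_cast hB0.ne'
  have nd : ∀ z : ℂ, ‖z / B0‖ = ‖z‖ / B0 := fun z => by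
    rw [norm_div, Complex.norm_real, Real.norm_of_nonneg hB0.le]
  set ft : ℕ → ℂ := fun n => if n ≤ 8 * X then f n / B0 else 0 with hft
  have e0 : ∀ t, Fx ft X t = Fx (fun n => f n / B0) X t := fun t =>
    sum_congr rfl fun n hn => by rw [hft]; simp only [if_pos (mem_Icc.1 hn).2]
  have red := h1 ft X R h (fun n => by
    rw [hft]; dsimp only; split_ifs with hn
    · rw [nd, div_le_one hB0]; exact (hb n hn).2
    · simp) hh hhX hR hX
  have lhs : ∑ x ∈ Ico X (2 * X), ‖∑ j ∈ range R, f (x + j)‖ =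
      B0 * ∑ x ∈ Ico X (2 * X), ‖∑ j ∈ range R, ft (x + j)‖ := by
    rw [mul_sum]
    refine sum_congr rfl fun x hx => ?_
    have : ∑ j ∈ range R, ft (x + j) = (∑ j ∈ range R, f (x + j)) / B0 := by
      rw [sum_div]
      refine sum_congr rfl fun j hj => if_pos ?_
      have := mem_Ico.1 hx; have := mem_range.1 hj; omega
    rw [this, nd]; field_simp
  have dv : ∀ {α β : ℕ → ℂ}, (∀ n, f n = cv α β n) → ∀ n,
      f n / B0 = cv α (fun l => β l / B0) n := fun {α β} e n => by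
    rw [e, cv, cv, sum_div]
    exact sum_congr rfl fun x _ => mul_div_assoc _ _ _
  have hbM : ∀ m ∈ VarP.MM X P, ‖yy m / B0 / m‖ ≤ 1 / (m : ℝ) := fun m hm =>
    VarP.norm_div_le (α := fun m => yy m / B0) (by
      rw [nd, div_le_one hB0]
      exact (hb m ((mem_Icc.1 (mem_filter.1 hm).1).2.trans (Nat.div_le_self _ _))).1)
  have g1 : ∀ t, ‖Fx ft X t‖ ^ 2 ≤ C2 * (sm (Ioc P (2 * P)) (fun p => pp p / p) t *
      sm (VarP.MM X P) (fun m => yy m / B0 / m) t) := fun t => by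
    have q1 : ∀ p ∈ Ioc P (2 * P), 1 ≤ p := fun p hp => by have := (mem_Ioc.1 hp).1; omega
    have q2 : ∀ m ∈ VarP.MM X P, 1 ≤ m := fun m hm => (mem_Icc.1 (mem_filter.1 hm).1).1
    rw [e0, VarP.Fx_cv hX1 (dv f1) q1 q2 fun k l _ hl hk u1 u2 => ⟨pS k hk, ?_⟩]
    · exact h2 _ _ _ _ _ t q1 q2
    obtain ⟨k1, k2⟩ := mem_Ioc.1 (pS k hk)
    refine mem_filter.2 ⟨mem_Icc.2 ⟨hl, ?_⟩, ?_⟩
    · rw [Nat.le_div_iff_mul_le hP]
      exact le_trans (by rw [mul_comm]; exact Nat.mul_le_mul_right _ k1.le) u2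
    · rw [div_le_iff₀ (by positivity)]
      have k3 : (k : ℝ) ≤ 2 * P := by exact_mod_cast k2
      have k4 : (0 : ℝ) ≤ l := Nat.cast_nonneg l
      nlinarith
  have s2 : ∀ t : ℝ, |t| ≤ X →
      sm (Ioc P (2 * P)) (fun p => pp p / p) t ≤ 4 * (ε ^ 2 + 1 / h) := fun t ht => by
    have a1 := pSmLe (Ioc P (2 * P)) (fun p => pp p / p) t X ε hX' fun t' ht' => s1 t' (by
      have := abs_sub_abs_le_abs_sub t' t
      linarith)
    obtain ⟨a2, a3⟩ := Row2P.sum_Ioc hP p1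
    have a4 : (∑ p ∈ Ioc P (2 * P), ‖pp p / p‖) ^ 2 ≤ 1 := pow_le_one₀ a2 a3
    have a5 : 2 / (X : ℝ) ≤ 2 * (1 / h) := by
      rw [mul_one_div]; gcongr
    have a6 := mul_le_mul a5 a4 (sq_nonneg _) (by positivity)
    have a7 := mul_le_mul_of_nonneg_right Real.pi_le_four (sq_nonneg ε)
    have a8 : 0 ≤ 1 / h := by positivity
    linarith
  have m0 := fun t => ((h4 (VarP.MM X P) fun m => yy m / B0 / m).2 t).1
  have key := VarP.three (G := fun t => ‖Fx ft X t‖ ^ 2) (c1 := C2 * (4 * (ε ^ 2 + 1 / h)))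
    (c2 := 0) (c3 := C2 * 4) hX' hh le_rfl
    (Ch.Scales.bc_sm h4 _ _) m0 (fun _ => sq_nonneg _) (by positivity) le_rfl
    (by positivity) (fun t _ u2 => (g1 t).trans (by
      rw [mul_assoc]; have := m0 t; gcongr; exact s2 t u2))
    (fun t ht => absurd ht (not_lt.2 (abs_nonneg t)))
    (fun t => (g1 t).trans (by
      rw [mul_assoc]; have := m0 t; gcongr; exact Row2P.sm_Ioc h4 hP p1 t))
    (VarP.mom h3 hX1 hP hbM (s := 1) (by positivity) le_rfl (by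
      rw [div_mul_eq_mul_div, div_le_iff₀ (by positivity), one_mul]; gcongr))
    (VarP.mom h3 hX1 hP hbM (s := h) hX' hh (by rw [mul_comm]; gcongr))
  set E := ε ^ 2 + 1 / h with hE
  have k1 : ∫ t, cw (X / h) t * ‖Fx ft X t‖ ^ 2 ≤ C2 * 10 ^ 6 * E := by
    refine key.trans ?_
    have e : C2 * 4 * (2 / h ^ 2) * (80000 * h) = C2 * (640000 * (1 / h)) := by field_simp; norm_num
    have u2 : 0 ≤ 1 / h := by positivity
    rw [e, hE]
    nlinarith [mul_nonneg hC2.le u2, mul_nonneg hC2.le (sq_nonneg ε)]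
  have k2 : √(∫ t, cw (X / h) t * ‖Fx ft X t‖ ^ 2) ≤ √(C2 * 10 ^ 6) * √E := by
    rw [← Real.sqrt_mul (by positivity)]
    exact Real.sqrt_le_sqrt k1
  rw [lhs]
  have k3 : 0 ≤ √(C2 * 10 ^ 6) := Real.sqrt_nonneg _
  have k4 : 0 ≤ (R : ℝ) * X * √E := by positivity
  have k5 : 0 ≤ h * X + (R : ℝ) ^ 2 := by positivity
  calc _ ≤ B0 * (C1 * (R * X * (√(C2 * 10 ^ 6) * √E) + h * X + (R : ℝ) ^ 2)) := by
        refine mul_le_mul_of_nonneg_left (red.trans ?_) hB0.le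
        gcongr
    _ ≤ B0 * (C1 * ((1 + √(C2 * 10 ^ 6)) * (R * X * √E + h * X + (R : ℝ) ^ 2))) := by
        gcongr
        nlinarith [mul_nonneg k3 k5]
    _ = _ := by ring

end Pool.Agent.P.MP_746f10_nt.HL
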