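import Pool.Agent.P.MP_746f10_nt.HL.Base

/-! The bilinear term of the identity of Vaughan in short intervals. -/

namespace Pool.Agent.P.MP_746f10_nt.HL

open Finset
open Pool.Agent.P.MP_746f10_nt.AP Pool.Agent.P.MP_746f10_nt.AZ
open Pool.Agent.P.MP_a14ce1_nt.Ch (nit)
open scoped ArithmeticFunction.Moebius

namespace S2P

lemma ico (P x : ℕ) : Ico (P + 1) (x + 1) = Ioc P x := by
  ext; simp only [mem_Ico, mem_Ioc]; omega

/-- partial summation with the weight `1 / d` -/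
lemma inv (f : ℕ → ℂ) {P : ℕ} {K : ℝ} (hP : 1 ≤ P)
    (h : ∀ y, y ≤ 2 * P → ‖∑ d ∈ Icc 1 y, f d‖ ≤ K * P) :
    ‖∑ d ∈ Ioc P (2 * P), (1 / (d : ℝ)) • f d‖ ≤ 2 * K := by
  have hP' : (1 : ℝ) ≤ P := by exact_mod_cast hP
  have hK : 0 ≤ K :=
    nonneg_of_mul_nonneg_left ((norm_nonneg _).trans (h 0 (by omega))) (by linarith)
  have h1 := abel_le f (fun n => 1 / (n : ℝ)) (P + 1) (2 * P + 1) (2 * K * P)
    (fun n _ => by positivity) (fun n hn => ?_) (fun z h1 h2 => ?_) (by omega)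
  · rw [ico] at h1
    refine h1.trans ?_
    rw [mul_one_div, div_le_iff₀ (by positivity)]
    push_cast
    gcongr
    linarith
  · have : (1 : ℝ) ≤ n := by exact_mod_cast (by omega : 1 ≤ n)
    push_cast
    exact one_div_le_one_div_of_le (by linarith) (by linarith)
  · obtain ⟨z, rfl⟩ : ∃ y, z = y + 1 := ⟨z - 1, by omega⟩
    have e : ∀ y : ℕ, Icc 1 y = Ioc 0 y := fun y => by ext; simp only [mem_Icc, mem_Ioc]; omega
    have a1 := h z (by omega)
    have a2 := h P (by omega)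
    rw [e] at a1 a2
    rw [ico, eq_sub_of_add_eq' (sum_Ioc_consecutive f (Nat.zero_le P) (by omega : P ≤ z))]
    linarith [norm_sub_le (∑ d ∈ Ioc 0 z, f d) (∑ d ∈ Ioc 0 P, f d)]

lemma num {C S R X : ℝ} (hC : 0 < C) (h2 : 2 ≤ S) (hS : 14 * C ≤ S) (hR : S ^ 21 ≤ R)
    (hX : R * S ^ 7 ≤ X) : 2 * S * (C * S ^ 2 * (R * X * √((2 * (2 / S ^ 7)) ^ 2 + 1 / (R / S ^ 7)) +
      R / S ^ 7 * X + R ^ 2)) ≤ R * X / S := by
  have s0 : 0 < S := by linarith
  have r0 : 0 < R := lt_of_lt_of_le (by positivity) hR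
  have x0 : 0 < X := lt_of_lt_of_le (by positivity) hX
  have a1 : √((2 * (2 / S ^ 7)) ^ 2 + 1 / (R / S ^ 7)) ≤ 5 / S ^ 7 := by
    refine Real.sqrt_le_iff.2 ⟨by positivity, ?_⟩
    have b1 : 1 / (R / S ^ 7) ≤ 1 / (S ^ 21 / S ^ 7) := by gcongr
    have b2 : 1 / (S ^ 21 / S ^ 7) = (1 / S ^ 7) ^ 2 := by field_simp
    have b3 : 0 ≤ (1 / S ^ 7) ^ 2 := by positivity
    rw [div_eq_mul_one_div 2, div_eq_mul_one_div 5]
    nlinarith
  have a2 : R ^ 2 ≤ R * X / S ^ 7 := by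
    rw [le_div_iff₀ (by positivity), sq, mul_assoc]
    gcongr
  calc _ ≤ 2 * S * (C * S ^ 2 * (R * X * (5 / S ^ 7) + R / S ^ 7 * X + R * X / S ^ 7)) := by gcongr
    _ = 14 * C * (R * X / S ^ 4) := by field_simp; ring
    _ ≤ S ^ 3 * (R * X / S ^ 4) := by
        gcongr
        exact hS.trans (le_self_pow₀ (by linarith) (by norm_num))
    _ = _ := by field_simp

end S2P

open S2P in
theorem yS2 (h1 : T_Mu) (h2 : T_Var2) (h3 : T_Vau) : T_S2 := by
  obtain ⟨i, h1⟩ := h1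
  obtain ⟨C, hC, h2⟩ := h2
  refine ⟨8 * i + 21, fun n => ?_⟩
  obtain ⟨S1, h1⟩ := h1 (n + 1)
  obtain ⟨S2, h4⟩ := ev_ok (n + 3) (14 * C)
  refine ⟨max S1 S2, fun S X M _ R U V κ hS hX hM hV hU hR hR' => ?_⟩
  obtain ⟨ok, hC'⟩ := h4 S (le_of_max_le_right hS)
  have s2 := ok.two
  have s2' := ok.two'
  have pw : ∀ k ≤ 8 * i + 21, S ^ k ≤ S ^ (8 * i + 21) := fun k hk =>
    Nat.pow_le_pow_right (by omega) hk
  have p1 : S ≤ S ^ (8 * i + 21) := by simpa using pw 1 (by omega)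
  have r1 : R * S ^ 7 ≤ X := (Nat.mul_le_mul_left _ (pw 7 (by omega))).trans hR
  have r2 : R ≤ X := (Nat.le_mul_of_pos_right _ (by positivity)).trans r1
  have x8 : 8 * X ≤ S ^ (n + 3) := by
    rw [pow_add, mul_comm]
    exact Nat.mul_le_mul hX (Nat.pow_le_pow_left s2 3)
  have x2 : 2 * X ≤ S ^ (n + 1) := by
    rw [pow_succ, mul_comm]
    exact Nat.mul_le_mul hX s2
  have u0 : 0 < U :=
    Nat.pos_of_mul_pos_right (lt_of_lt_of_le (Nat.mul_pos (by omega) (by omega)) hU)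
  obtain ⟨α, hα⟩ : ∃ α : ℕ → ℂ, α = fun k => (muG V k : ℂ) * κ (k : ZMod M) := ⟨_, rfl⟩
  obtain ⟨β, hβ⟩ : ∃ β : ℕ → ℂ, β = fun k => (laG U k : ℂ) * κ (k : ZMod M) := ⟨_, rfl⟩
  have α1 : ∀ P k, ‖dy α P k‖ ≤ 1 := fun P k => by
    unfold dy
    split_ifs
    · rw [hα, norm_mul, Complex.norm_real]
      exact mul_le_one₀ (abs_muG_le V k) (norm_nonneg _) (κ.norm_le_one _)
    · simp
  have β1 : ∀ k ≤ 8 * X, ‖β k‖ ≤ S := fun k hk => by
    obtain ⟨a1, a2, -⟩ := h3.2.2.1 U k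
    have a3 := ok.log (hk.trans x8)
    rw [hβ, norm_mul, Complex.norm_real, Real.norm_of_nonneg a1]
    refine (mul_le_of_le_one_right a1 (κ.norm_le_one _)).trans (by linarith)
  have dec : ∀ m ≤ 3 * X, ((cv (muG V) (laG U) m : ℝ) : ℂ) * κ (m : ZMod M) =
      ∑ e ∈ DI V (R / S ^ 7), cv (dy α (V * 2 ^ e)) β m := fun m hm => by
    rw [cv_ofReal, cv_twist _ _ (fun m : ℕ => κ (m : ZMod M)) (fun k l => by simp), ← hα, ← hβ]
    refine cv_dy (by omega) (fun k hk => lt_of_muG fun e => hk (by simp [hα, e]))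
      fun k l e _ hl => ?_
    have a1 : U < l := (h3.2.2.1 U l).2.2 fun e => hl (by simp [hβ, e])
    have a2 : S ^ 7 * 4 ≤ S ^ (8 * i + 21) := by
      refine le_trans ?_ (pw (7 + 2) (by omega))
      rw [pow_add]
      exact Nat.mul_le_mul_left _ (Nat.pow_le_pow_left s2 2)
    have a3 : U * (k * S ^ (8 * i + 21)) ≤ U * (3 * R) := by
      calc _ = k * U * S ^ (8 * i + 21) := by ring
        _ ≤ 3 * X * S ^ (8 * i + 21) :=
            Nat.mul_le_mul_right _ ((Nat.mul_le_mul_left k a1.le).trans (e ▸ hm))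
        _ ≤ 3 * (U * R) := by rw [mul_assoc]; gcongr
        _ = _ := by ring
    have a4 := (Nat.mul_le_mul_left k a2).trans (Nat.le_of_mul_le_mul_left a3 u0)
    rw [Nat.le_div_iff_mul_le (by positivity)]
    rw [← mul_assoc] at a4
    omega
  have one : ∀ e ∈ DI V (R / S ^ 7), ∑ x ∈ Ico X (2 * X),
      ‖∑ j ∈ range R, cv (dy α (V * 2 ^ e)) β (x + j)‖ ≤ C * (S : ℝ) ^ 2 *
        (R * X * √((2 * (2 / (S : ℝ) ^ 7)) ^ 2 + 1 / (R / (S : ℝ) ^ 7)) + R / (S : ℝ) ^ 7 * X +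
          (R : ℝ) ^ 2) := by
    intro e he
    have a1 := lt_of_mem_DI he
    have a2 : V ≤ V * 2 ^ e := Nat.le_mul_of_pos_right _ (by positivity)
    generalize V * 2 ^ e = P at a1 a2
    have ss : (S : ℝ) ≤ S ^ 2 := le_self_pow₀ (by linarith) (by norm_num)
    refine h2 X P R _ _ _ _ _ (by omega) (by omega) ?_ ?_ r2 (by positivity) (by linarith)
      (fun p => mem_of_dy) (α1 P) (fun m hm => ⟨(β1 m hm).trans ss, ?_⟩) fun t ht => ?_
    · have : (P : ℝ) ≤ (R / S ^ 7 : ℕ) := by exact_mod_cast a1.le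
      exact this.trans (Nat.cast_div_le.trans (by push_cast; rfl))
    · exact (div_le_self (by positivity) (one_le_pow₀ (by linarith))).trans (by exact_mod_cast r2)
    · rw [cv_eq_divisors]
      refine (norm_sum_le_of_le _ (n := fun _ => (S : ℝ)) fun k _ => ?_).trans ?_
      · rw [norm_mul]
        exact (mul_le_of_le_one_left (norm_nonneg _) (α1 P k)).trans
          (β1 _ ((Nat.div_le_self _ _).trans hm))
      · rw [sum_const, nsmul_eq_mul, sq]
        exact mul_le_mul_of_nonneg_right (ok.tau (hm.trans x8)) (by positivity)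
    · refine le_trans (le_of_eq (congrArg _ (sum_congr rfl fun d hd => ?_)))
        (inv (fun m => (μ m : ℂ) * κ m * nit t m) (by omega) fun y hy => ?_)
      · rw [dy, if_pos hd, hα]
        beta_reduce
        rw [muG, if_pos (by have := (mem_Ioc.1 hd).1; omega), Complex.real_smul]
        push_cast
        ring
      · refine (h1 S M κ t y (2 * P) (S ^ 8) (le_of_max_le_left hS) (by omega)
          (ht.trans (by exact_mod_cast x2)) hy (Nat.one_le_pow _ _ (by omega)) ?_).trans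
          (le_of_eq ?_)
        · have := pw (8 * i) (by omega)
          rw [← pow_mul]
          omega
        · push_cast
          field_simp
  have fin := sum_le_card_nsmul _ _ _ one
  rw [sum_comm, nsmul_eq_mul] at fin
  refine le_trans (sum_le_sum fun x hx => ?_) (fin.trans (le_trans ?_ (num hC s2' hC'
    (by exact_mod_cast (pw 21 (by omega)).trans hR') (by exact_mod_cast r1))))
  · rw [sum_congr rfl fun j hj => dec (x + j) (by
      have := (mem_Ico.1 hx).2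
      have := mem_range.1 hj
      omega), sum_comm]
    exact norm_sum_le _ _
  · refine mul_le_mul_of_nonneg_right ?_ (by positivity)
    have : R / S ^ 7 ≤ R := Nat.div_le_self _ _
    exact_mod_cast (card_DI_le _ _).trans (ok.lg (by omega))

end Pool.Agent.P.MP_746f10_nt.HL
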