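import Pool.Agent.P.MP_746f10_nt.HL.Base

/-! Short sums of the primes against a non-principal character. -/

namespace Pool.Agent.P.MP_746f10_nt.HL

open Finset
open Pool.Agent.P.MP_746f10_nt.AP Pool.Agent.P.MP_746f10_nt.AZ
open scoped ArithmeticFunction.vonMangoldt ArithmeticFunction.Moebius

namespace SInP

lemma num {X R D M T w : ℝ} (hX : 0 ≤ X) (hR : 0 < R) (hD : 0 ≤ D) (hT : 0 < T) (hw : 0 < w)
    (h1 : D * R ≤ 2 * X * T) (h2 : X * T * w ^ 2 ≤ R ^ 2) (h3 : X * M * T ^ 2 * w ^ 2 ≤ R ^ 3) :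
    7 * X * √(R * D) + 2 * D * √(X * M * R) ≤ 18 * (R * X / w) := by
  have a1 : √(R * D) ≤ 2 * R / w := by
    refine Real.sqrt_le_iff.2 ⟨by positivity, ?_⟩
    rw [div_pow, le_div_iff₀ (by positivity)]
    nlinarith [mul_le_mul_of_nonneg_right h1 (sq_nonneg w), sq_nonneg R]
  have a2 : √(X * M * R) ≤ R ^ 2 / (T * w) := by
    refine Real.sqrt_le_iff.2 ⟨by positivity, ?_⟩
    rw [div_pow, le_div_iff₀ (by positivity)]
    nlinarith [mul_le_mul_of_nonneg_right h3 hR.le]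
  have a3 : D * (R ^ 2 / (T * w)) ≤ 2 * (R * X / w) := by
    calc D * (R ^ 2 / (T * w)) = D * R * (R / (T * w)) := by ring
      _ ≤ 2 * X * T * (R / (T * w)) := by gcongr
      _ = _ := by field_simp
  have a4 := mul_le_mul_of_nonneg_left a1 hX
  have a5 := mul_le_mul_of_nonneg_left a2 hD
  have a6 : X * (2 * R / w) = 2 * (R * X / w) := by ring
  nlinarith

lemma abs_lin_le {m : ℕ} (hm : m ≠ 0) (V : ℕ) :
    |∑ d ∈ Icc 1 V, (μ d : ℝ) * dd m d| ≤ m.divisors.card := by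
  refine (abs_sum_le_sum_abs _ _).trans ?_
  calc _ ≤ ∑ d ∈ Icc 1 V, dd m d := sum_le_sum fun d _ => by
        rw [abs_mul, abs_of_nonneg (dd_bd m d).1]
        exact mul_le_of_le_one_left (dd_bd m d).1 (abs_mu_le d)
    _ = ((Icc 1 V).filter fun d => d ∣ m).card := by simp [dd]
    _ ≤ _ := by
        exact_mod_cast card_le_card fun d hd => Nat.mem_divisors.2 ⟨(mem_filter.1 hd).2, hm⟩

lemma shift {g : ℕ → ℝ} (hg : ∀ m, 0 ≤ g m) {X R : ℕ} (hR : R ≤ X) :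
    ∑ x ∈ Ico X (2 * X), ∑ i ∈ range R, g (x + i) ≤ R * ∑ m ∈ range (3 * X + 1), g m := by
  rw [sum_comm]
  refine (sum_le_card_nsmul _ _ _ fun i hi => ?_).trans (le_of_eq (by rw [card_range, nsmul_eq_mul]))
  rw [sum_Ico_add' g X (2 * X) i]
  refine sum_le_sum_of_subset_of_nonneg (fun m hm => ?_) fun m _ _ => hg m
  have := mem_range.1 hi
  have := mem_Ico.1 hm
  exact mem_range.2 (by omega)

lemma log_diff {X x i R : ℕ} (hX : 1 ≤ X) (hx : X ≤ x) (hi : i ≤ R) :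
    |Real.log ((x + i : ℕ) : ℝ) - Real.log x| ≤ R / X := by
  have h0 : (0 : ℝ) < X := by exact_mod_cast hX
  have h1 : (X : ℝ) ≤ x := by exact_mod_cast hx
  have h2 : (i : ℝ) ≤ R := by exact_mod_cast hi
  have h3 : (0 : ℝ) ≤ i := Nat.cast_nonneg i
  have h4 : (0 : ℝ) < x := by linarith
  push_cast
  rw [abs_of_nonneg (sub_nonneg.2 (Real.log_le_log h4 (by linarith))),
    ← Real.log_div (by positivity) h4.ne']
  refine (Real.log_le_sub_one_of_pos (by positivity)).trans ?_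
  rw [add_div, div_self h4.ne', add_sub_cancel_left]
  gcongr

lemma mq_mul {M : ℕ} (κ : DirichletCharacter ℂ M) (m : ℕ) :
    ((mq M m : ℝ) : ℂ) * κ m = ((M / M.totient : ℝ) : ℂ) * κ m := by
  by_cases h : m.Coprime M
  · rw [mq, cp_of h, mul_one]
  · rw [κ.map_nonunit (fun h0 => h ((ZMod.isUnit_iff_coprime _ _).1 h0)), mul_zero, mul_zero]

lemma row {M : ℕ} (κ : DirichletCharacter ℂ M) (x R : ℕ) (F E A B C O : ℕ → ℝ) {a b c s : ℝ}
    (ha : |a| ≤ s) (hb : |b| ≤ 2 * s) (hc : |c| ≤ s)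
    (h : ∀ i ∈ range R, (F (x + i) : ℂ) * κ (x + i : ℕ) =
      ((E (x + i) + a * A (x + i) + b * B (x + i) + C (x + i) + c * O (x + i) : ℝ) : ℂ) *
        κ (x + i : ℕ)) :
    ‖∑ i ∈ range R, (F (x + i) : ℂ) * κ (x + i : ℕ)‖ ≤ ∑ i ∈ range R, |E (x + i)| +
      s * ‖∑ i ∈ range R, (A (x + i) : ℂ) * κ (x + i : ℕ)‖ +
      2 * s * ‖∑ i ∈ range R, (B (x + i) : ℂ) * κ (x + i : ℕ)‖ +
      ‖∑ i ∈ range R, (C (x + i) : ℂ) * κ (x + i : ℕ)‖ +
      s * ‖∑ i ∈ range R, (O (x + i) : ℂ) * κ (x + i : ℕ)‖ := by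
  rw [sum_congr rfl h]
  simp only [Complex.ofReal_add, Complex.ofReal_mul, add_mul, sum_add_distrib, mul_assoc,
    ← mul_sum]
  have k : ∀ (t u : ℝ) (z : ℂ), |t| ≤ u → ‖(t : ℂ) * z‖ ≤ u * ‖z‖ := fun t u z ht => by
    rw [norm_mul, Complex.norm_real]
    exact mul_le_mul_of_nonneg_right ht (norm_nonneg _)
  refine (norm_add_le _ _).trans (add_le_add ?_ (k _ _ _ hc))
  refine (norm_add_le _ _).trans (add_le_add ?_ le_rfl)
  refine (norm_add_le _ _).trans (add_le_add ?_ ((k _ _ _ hb).trans_eq (mul_assoc _ _ _)))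
  refine (norm_add_le _ _).trans (add_le_add ?_ (k _ _ _ ha))
  refine (norm_sum_le _ _).trans (sum_le_sum fun i _ => ?_)
  rw [norm_mul, Complex.norm_real]
  exact mul_le_of_le_one_right (abs_nonneg _) (κ.norm_le_one _)

lemma fin {s Z : ℝ} (hs : 6 ≤ s) (hZ : 0 ≤ Z) :
    Z / s ^ 2 + Z / s ^ 2 + s * (s * (18 * (Z / s ^ 8))) + 2 * s * (s * (18 * (Z / s ^ 8))) +
      Z / s ^ 2 + s * (s * (18 * (Z / s ^ 8))) ≤ Z / s := by
  have h0 : 0 < s := by linarith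
  have h1 : s * (s * (18 * (Z / s ^ 8))) ≤ Z / s ^ 2 / 4 := by
    have h2 : (6 : ℝ) ^ 4 ≤ s ^ 4 := by gcongr
    have h3 : s * (s * (18 * (Z / s ^ 8))) = Z / s ^ 2 * (18 / s ^ 4) := by field_simp
    rw [h3, div_eq_mul_one_div (Z / s ^ 2) 4]
    refine mul_le_mul_of_nonneg_left ?_ (by positivity)
    rw [div_le_div_iff₀ (by positivity) (by norm_num)]
    linarith
  have h4 : Z / s = s * (Z / s ^ 2) := by field_simp
  have h5 : 0 ≤ Z / s ^ 2 := by positivity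
  rw [h4]
  nlinarith

end SInP

open SInP in
theorem ySIn (h1 : T_Vau) (h2 : T_P1b) (h3 : T_S2) : T_SIn := by
  obtain ⟨p, h3⟩ := h3
  refine ⟨8 * p + 16, fun n => ?_⟩
  obtain ⟨S1, h3⟩ := h3 n
  obtain ⟨S2, hok⟩ := ev_ok (n + 2) 6
  refine ⟨max S1 S2, fun S X M _ R κ hS hX hM hR1 hR2 hR3 hκ => ?_⟩
  obtain ⟨ok, s6⟩ := hok S (le_of_max_le_right hS)
  have S6 : 6 ≤ S := by exact_mod_cast s6
  have M1 : 1 ≤ M := NeZero.one_le
  have X1 : 1 ≤ X := by omega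
  have s0 : (0 : ℝ) < S := by linarith
  have X3 : 3 * X ≤ S ^ (n + 2) := by
    rw [pow_add, mul_comm]
    exact Nat.mul_le_mul hX (by nlinarith)
  set V := S ^ (2 * p) with hV
  have V1 : 1 ≤ V := Nat.one_le_pow _ _ (by omega)
  have eJ : S ^ (8 * p + 16) = V ^ 4 * (S ^ 8) ^ 2 := by rw [hV]; ring
  have S8 : 2 ≤ S ^ 8 := le_trans (by omega) (Nat.le_self_pow (by norm_num) S)
  rw [eJ] at hR1 hR2 hR3
  set w := S ^ 8 with hw
  have R1 : 1 ≤ R := by
    rcases Nat.eq_zero_or_pos R with rfl | h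
    · have : 0 < X * (V ^ 4 * w ^ 2) := by positivity
      omega
    · exact h
  have J1 : V * w ≤ V ^ 4 * w ^ 2 := by gcongr <;> exact Nat.le_self_pow (by norm_num) _
  have J2 : 2 * V ≤ V ^ 4 * w ^ 2 := le_trans (by nlinarith) J1
  have RX : R ≤ X := le_trans (Nat.le_mul_of_pos_right _ (by positivity)) hR3
  have JX : V ^ 4 * w ^ 2 ≤ X := le_trans (Nat.le_mul_of_pos_left _ R1) hR3
  have JR : V ^ 4 * w ^ 2 ≤ R := by
    refine Nat.le_of_mul_le_mul_left ?_ R1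
    calc R * (V ^ 4 * w ^ 2) ≤ X * (V ^ 4 * w ^ 2) := by gcongr
      _ ≤ R ^ 2 := hR1
      _ = _ := sq R
  set U := X * V / R + 1 with hU
  have U1 : X * V ≤ U * R := by
    have := Nat.lt_div_mul_add (a := X * V) R1
    rw [hU]; nlinarith
  have U2 : U * R ≤ 2 * X * V := by
    have := Nat.div_mul_le_self (X * V) R
    have : X ≤ X * V := Nat.le_mul_of_pos_right _ V1
    rw [hU]; nlinarith
  have V2 : V ^ 2 ≤ V ^ 4 := Nat.pow_le_pow_right V1 (by norm_num)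
  have D1 : U * V * R ≤ 2 * X * V ^ 2 := by nlinarith
  have D2 : X * V ^ 2 * w ^ 2 ≤ R ^ 2 := le_trans (by rw [mul_assoc]; gcongr) hR1
  have D3 : U * V ≤ R := by
    refine Nat.le_of_mul_le_mul_right (D1.trans ?_) R1
    have : X * V ^ 2 * 2 ≤ X * V ^ 2 * w ^ 2 := Nat.mul_le_mul_left _ (by nlinarith)
    nlinarith
  have U0 : 1 ≤ U := Nat.le_add_left _ _
  have UX : U < X := by
    have a1 : U ≤ U * V := Nat.le_mul_of_pos_right _ V1
    have a2 : R * 2 ≤ R * (V ^ 4 * w ^ 2) := Nat.mul_le_mul_left _ (by omega)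
    omega
  have P1 : ∀ (D : ℕ) (γ : ℕ → ℝ), D ≤ U * V → (∀ d, |γ d| ≤ 1) →
      ∑ x ∈ Ico X (2 * X), ‖∑ j ∈ range R, ((∑ d ∈ Icc 1 D, γ d * dd (x + j) d : ℝ) : ℂ) *
        κ ((x + j : ℕ) : ZMod M)‖ ≤ S * (18 * (R * X / (S : ℝ) ^ 8)) := by
    intro D γ hD hγ
    refine (h2 M κ D X R γ hκ (hD.trans D3) RX hγ).trans ?_
    refine mul_le_mul (ok.tau (by omega)) ?_ (by positivity) s0.le
    refine num (T := (V : ℝ) ^ 2) (Nat.cast_nonneg _) (by exact_mod_cast R1) (Nat.cast_nonneg _)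
      (by positivity) (by positivity) ?_ ?_ ?_
    · exact_mod_cast (Nat.mul_le_mul_right R hD).trans D1
    · exact_mod_cast D2
    · have : X * M * (V ^ 2) ^ 2 * w ^ 2 ≤ R ^ 3 := le_trans (le_of_eq (by ring)) hR2
      exact_mod_cast this
  have eV : (S ^ 2) ^ p = V := by rw [hV, pow_mul]
  have P2 := h3 (S ^ 2) X M R U V κ ((le_of_max_le_left hS).trans (Nat.le_self_pow two_ne_zero S))
    (hX.trans (Nat.pow_le_pow_left (Nat.le_self_pow two_ne_zero S) n)) hM.le eV.le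
    (by rw [eV]; exact U1) (by rw [eV]; exact le_trans (Nat.mul_le_mul_left _ (by omega)) hR3)
    (by rw [eV]; omega)
  set γ : ℕ → ℝ := fun d => if d ≤ U * V then vg U V d / (2 * S) else 0 with hγ
  have g1 : ∀ d, |γ d| ≤ 1 := fun d => by
    simp only [hγ]
    split_ifs with hd
    · rw [abs_div, abs_of_pos (by positivity : (0 : ℝ) < 2 * S), div_le_one (by positivity)]
      have := ok.log (m := d) (by omega)
      linarith [h1.2.1 U V d]
    · simp
  have g2 : ∀ m, ∑ d ∈ Icc 1 (U * V), vg U V d * dd m d =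
      2 * S * ∑ d ∈ Icc 1 (U * V), γ d * dd m d := fun m => by
    rw [mul_sum]
    refine sum_congr rfl fun d hd => ?_
    simp only [hγ, if_pos (mem_Icc.1 hd).2]
    field_simp
  have E1 : ∑ x ∈ Ico X (2 * X), ∑ i ∈ range R, (Λ (x + i) - th (x + i)) ≤
      R * X / (S : ℝ) ^ 2 := by
    refine (shift (g := fun m => Λ m - th m) (fun m => sub_nonneg.2 (th_le_vm m)) RX).trans ?_
    rw [mul_div_assoc]
    refine mul_le_mul_of_nonneg_left ((h1.2.2.2 (3 * X)).trans ?_) (Nat.cast_nonneg _)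
    have a1 := ok.log X3
    have a2 : √((3 * X : ℕ) : ℝ) ≤ 2 * X / (S : ℝ) ^ 4 := by
      refine Real.sqrt_le_iff.2 ⟨by positivity, ?_⟩
      have a3 : w ≤ X := le_trans (le_trans (Nat.le_mul_of_pos_left _ V1) J1) JX
      have a4 : (S : ℝ) ^ 8 ≤ X := by exact_mod_cast a3
      rw [div_pow, le_div_iff₀ (by positivity), ← pow_mul]
      push_cast
      have a5 : (0 : ℝ) ≤ X := Nat.cast_nonneg _
      nlinarith [mul_le_mul_of_nonneg_left a4 a5]
    calc 2 * √((3 * X : ℕ) : ℝ) * Real.log ((3 * X : ℕ) : ℝ) ≤ 2 * (2 * X / (S : ℝ) ^ 4) * S := by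
          gcongr
          linarith
      _ = X / (S : ℝ) ^ 2 * (4 / S) := by field_simp; norm_num
      _ ≤ _ := mul_le_of_le_one_right (by positivity) ((div_le_one s0).2 (by linarith))
  have E2 : (X : ℝ) * (R * (R / X * S)) ≤ R * X / (S : ℝ) ^ 2 := by
    have a0 : (0 : ℝ) < X := by exact_mod_cast X1
    have a1 : R * S ^ 3 ≤ X := le_trans (Nat.mul_le_mul_left _ (le_trans (le_trans
      (Nat.pow_le_pow_right (by omega) (by norm_num)) (Nat.le_mul_of_pos_left _ V1)) J1)) hR3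
    have a2 : (R : ℝ) * S ^ 3 ≤ X := by exact_mod_cast a1
    rw [le_div_iff₀ (by positivity)]
    calc _ = R * ((R : ℝ) * S ^ 3) := by field_simp
      _ ≤ _ := by gcongr
  have pt : ∀ x ∈ Ico X (2 * X), ‖∑ i ∈ range R, ((th (x + i) - mq M (x + i) : ℝ) : ℂ) *
      κ ((x + i : ℕ) : ZMod M)‖ ≤ (∑ i ∈ range R, (Λ (x + i) - th (x + i)) + R * (R / X * S)) +
      S * ‖∑ i ∈ range R, ((∑ d ∈ Icc 1 V, (μ d : ℝ) * dd (x + i) d : ℝ) : ℂ) * κ (x + i : ℕ)‖ +
      2 * S * ‖∑ i ∈ range R, ((∑ d ∈ Icc 1 (U * V), γ d * dd (x + i) d : ℝ) : ℂ) *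
        κ (x + i : ℕ)‖ +
      ‖∑ i ∈ range R, ((cv (muG V) (laG U) (x + i) : ℝ) : ℂ) * κ (x + i : ℕ)‖ +
      S * ‖∑ i ∈ range R, ((∑ d ∈ Icc 1 1, (1 : ℝ) * dd (x + i) d : ℝ) : ℂ) * κ (x + i : ℕ)‖ := by
    intro x hx
    obtain ⟨x1, x2⟩ := mem_Ico.1 hx
    refine (row κ x R (fun m => th m - mq M m)
      (fun m => th m - Λ m + (Real.log m - Real.log x) * ∑ d ∈ Icc 1 V, (μ d : ℝ) * dd m d)
      (fun m => ∑ d ∈ Icc 1 V, (μ d : ℝ) * dd m d) (fun m => ∑ d ∈ Icc 1 (U * V), γ d * dd m d)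
      (cv (muG V) (laG U)) (fun m => ∑ d ∈ Icc 1 1, (1 : ℝ) * dd m d)
      (a := Real.log x) (b := -(2 * S)) (c := -(M / M.totient)) (s := S) ?_ ?_ ?_
      fun i _ => ?_).trans ?_
    · rw [abs_of_nonneg (Real.log_natCast_nonneg _)]
      linarith [ok.log (m := x) (by omega)]
    · rw [abs_neg, abs_of_pos (by positivity)]
    · rw [abs_neg, abs_of_nonneg (by positivity)]
      exact ok.tot (by omega)
    · have a1 := h1.1 U V (x + i) U0 (by omega)
      rw [g2] at a1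
      have a2 : ∑ d ∈ Icc 1 1, (1 : ℝ) * dd (x + i) d = 1 := by
        rw [Icc_self, sum_singleton, dd, if_pos (one_dvd _), mul_one]
      rw [Complex.ofReal_sub, sub_mul, mq_mul, ← sub_mul, ← Complex.ofReal_sub, a2]
      congr 2
      linarith
    · gcongr
      calc _ ≤ ∑ i ∈ range R, (Λ (x + i) - th (x + i) + R / X * S) := by
            refine sum_le_sum fun i hi => (abs_add_le _ _).trans (add_le_add ?_ ?_)
            · rw [abs_sub_comm, abs_of_nonneg (sub_nonneg.2 (th_le_vm _))]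
            · have := mem_range.1 hi
              rw [abs_mul]
              exact mul_le_mul (log_diff X1 x1 this.le)
                ((abs_lin_le (by omega) V).trans (ok.tau (by omega))) (abs_nonneg _) (by positivity)
        _ = _ := by rw [sum_add_distrib, sum_const, card_range, nsmul_eq_mul]
  refine (sum_le_sum pt).trans ?_
  rw [sum_add_distrib, sum_add_distrib, sum_add_distrib, sum_add_distrib, sum_add_distrib,
    sum_const, Nat.card_Ico, show 2 * X - X = X by omega, nsmul_eq_mul, ← mul_sum, ← mul_sum,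
    ← mul_sum]
  have Q1 := mul_le_mul_of_nonneg_left
    (P1 V _ (Nat.le_mul_of_pos_left _ U0) abs_mu_le) s0.le
  have Q2 := mul_le_mul_of_nonneg_left (P1 (U * V) γ le_rfl g1) (show (0 : ℝ) ≤ 2 * S by positivity)
  have Q3 := mul_le_mul_of_nonneg_left
    (P1 1 (fun _ => 1) (Nat.mul_pos U0 V1) fun _ => by simp) s0.le
  have Q4 := fin (Z := R * X) s6 (by positivity)
  rw [Nat.cast_pow] at P2
  linarith

end Pool.Agent.P.MP_746f10_nt.HL
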