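import Pool.Agent.P.MP_746f10_nt.HL.Base

/-! Short sums of primes against the model for one modulus, principal character. -/

namespace Pool.Agent.P.MP_746f10_nt.HL

open Finset
open Pool.Agent.P.MP_746f10_nt.AP Pool.Agent.P.MP_746f10_nt.AZ
open scoped ArithmeticFunction.vonMangoldt ArithmeticFunction.Moebius

namespace SIpP

lemma scale (h2 : T_P1a) {M D : ℕ} (x R : ℕ) (γ : ℕ → ℝ) {c : ℝ} (hM : 1 ≤ M) (hc : 0 < c)
    (hγ : ∀ d ∈ Icc 1 D, |γ d| ≤ c) :
    |∑ j ∈ range R, cp M (x + j) * ∑ d ∈ Icc 1 D, γ d * dd (x + j) d -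
      R * (M.totient / M * ∑ d ∈ Icc 1 D, γ d * cp M d / d)| ≤ c * (D * M.divisors.card) := by
  have h := h2 M D x R (fun d => if d ∈ Icc 1 D then γ d / c else 0) hM fun d => by
    split_ifs with hd
    · rw [abs_div, abs_of_pos hc]; exact (div_le_one hc).2 (hγ d hd)
    · simp
  have e1 : ∀ f : ℕ → ℝ, ∑ d ∈ Icc 1 D, (if d ∈ Icc 1 D then γ d / c else 0) * f d =
      c⁻¹ * ∑ d ∈ Icc 1 D, γ d * f d := fun f => by
    rw [mul_sum]
    exact sum_congr rfl fun d hd => by rw [if_pos hd]; ring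
  simp only [mul_div_assoc, e1] at h
  simp only [mul_div_assoc]
  simp only [mul_left_comm _ c⁻¹] at h
  rwa [← mul_sum, ← mul_sub, abs_mul, abs_of_pos (inv_pos.2 hc), inv_mul_le_iff₀ hc] at h

lemma one_eq (M : ℕ) [NeZero M] (m : ℕ) :
    (1 : DirichletCharacter ℂ M) (m : ZMod M) = (cp M m : ℝ) := by
  by_cases h : m.Coprime M
  · rw [cp_of h, MulChar.one_apply ((ZMod.isUnit_iff_coprime m M).2 h)]; simp
  · rw [cp_of_not h, MulChar.map_nonunit _ (mt (ZMod.isUnit_iff_coprime m M).1 h)]; simp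

/-- the coefficient of the logarithm -/
noncomputable def cA (M V : ℕ) : ℝ := M.totient / M * ∑ d ∈ Icc 1 V, (μ d : ℝ) * cp M d / d

/-- the constant term -/
noncomputable def cB (M U V : ℕ) : ℝ :=
  M.totient / M * ∑ d ∈ Icc 1 (U * V), vg U V d * cp M d / d

lemma log_diff {X x i R : ℕ} (hX : 1 ≤ X) (hx : X ≤ x) (hi : i ≤ R) :
    |Real.log ((x + i : ℕ) : ℝ) - Real.log x| ≤ R / X := by
  have a1 : (0 : ℝ) < X := by exact_mod_cast hX
  have a2 : (X : ℝ) ≤ x := by exact_mod_cast hx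
  have a3 : (i : ℝ) ≤ R := by exact_mod_cast hi
  have a4 : (0 : ℝ) ≤ i := Nat.cast_nonneg i
  have a5 : (0 : ℝ) < x := by linarith
  push_cast
  rw [abs_of_nonneg (sub_nonneg.2 (Real.log_le_log a5 (by linarith))),
    ← Real.log_div (by linarith) a5.ne']
  refine (Real.log_le_sub_one_of_pos (by positivity)).trans ?_
  rw [add_div, div_self a5.ne', add_sub_cancel_left]
  gcongr

lemma pt (h1 : T_Vau) (h2 : T_P1a) {S X M R U V x : ℕ} (ok : Ok S (3 * X)) (hM : 1 ≤ M)
    (hMX : M < X) (hR : R ≤ X) (hU : 1 ≤ U) (hUX : U < X) (hD : U * V ≤ X)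
    (hx : x ∈ Ico X (2 * X)) :
    |∑ i ∈ range R, th (x + i) - R * (cA M V * Real.log x - cB M U V)| ≤
      |∑ i ∈ range R, cp M (x + i) * cv (muG V) (laG U) (x + i)| +
        (S * (V * S) + R * (R / X * V) + 2 * S * (U * V * S) + 2 * √(3 * X) * S) := by
  obtain ⟨x1, x2⟩ := mem_Ico.1 hx
  have S2 := ok.two'
  have tM := ok.tau (m := M) (by omega)
  have b1 := scale h2 (D := V) x R (fun d => (μ d : ℝ)) hM one_pos fun d _ => abs_mu_le d
  have b2 := scale h2 (D := U * V) x R (vg U V) (c := 2 * S) hM (by linarith) fun d hd => by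
    have := h1.2.1 U V d
    have := ok.log (m := d) (by have := (mem_Icc.1 hd).2; omega)
    linarith
  have b3 : |∑ i ∈ range R, (Real.log ((x + i : ℕ) : ℝ) - Real.log x) *
      (cp M (x + i) * ∑ d ∈ Icc 1 V, (μ d : ℝ) * dd (x + i) d)| ≤ R * (R / X * V) := by
    refine (abs_sum_le_sum_abs _ _).trans ((sum_le_card_nsmul _ _ (R / X * V : ℝ)
      fun i hi => ?_).trans (by simp))
    rw [abs_mul, abs_mul, abs_of_nonneg (cp_bd _ _).1]
    refine mul_le_mul (log_diff (by omega) x1 (mem_range.1 hi).le) ?_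
      (mul_nonneg (cp_bd _ _).1 (abs_nonneg _)) (by positivity)
    refine (mul_le_of_le_one_left (abs_nonneg _) (cp_bd _ _).2).trans
      ((abs_sum_le_sum_abs _ _).trans ((sum_le_card_nsmul _ _ 1 fun d _ => ?_).trans (by simp)))
    rw [abs_mul, abs_of_nonneg (dd_bd _ _).1]
    exact mul_le_one₀ (abs_mu_le d) (dd_bd _ _).1 (dd_bd _ _).2
  have b4 : |∑ i ∈ range R, cp M (x + i) * (Λ (x + i) - th (x + i))| ≤ 2 * √(3 * X) * S := by
    have c0 : ∀ m, 0 ≤ Λ m - th m := fun m => sub_nonneg.2 (th_le_vm m)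
    rw [abs_of_nonneg (sum_nonneg fun i _ => mul_nonneg (cp_bd _ _).1 (c0 _))]
    refine (sum_le_sum fun i _ => mul_le_of_le_one_left (c0 _) (cp_bd _ _).2).trans ?_
    have c1 := sum_Ico_eq_sum_range (fun m => Λ m - th m) x (x + R)
    rw [add_tsub_cancel_left] at c1
    rw [← c1]
    refine (sum_le_sum_of_subset_of_nonneg (t := range (3 * X + 1)) (fun m hm => by
      have := (mem_Ico.1 hm).2
      exact mem_range.2 (by omega)) fun m _ _ => c0 m).trans ((h1.2.2.2 _).trans ?_)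
    have := ok.log le_rfl
    push_cast at this ⊢
    gcongr
    linarith
  have e : ∑ i ∈ range R, th (x + i) = ∑ i ∈ range R,
      (Real.log x * (cp M (x + i) * ∑ d ∈ Icc 1 V, (μ d : ℝ) * dd (x + i) d) +
      (Real.log ((x + i : ℕ) : ℝ) - Real.log x) *
        (cp M (x + i) * ∑ d ∈ Icc 1 V, (μ d : ℝ) * dd (x + i) d) -
      cp M (x + i) * ∑ d ∈ Icc 1 (U * V), vg U V d * dd (x + i) d +
      cp M (x + i) * cv (muG V) (laG U) (x + i) - cp M (x + i) * (Λ (x + i) - th (x + i))) :=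
    sum_congr rfl fun i _ => by
      linear_combination cp M (x + i) * h1.1 U V (x + i) hU (by omega) -
        cp_mul_th (m := x + i) hM (by omega)
  rw [sum_sub_distrib, sum_add_distrib, sum_sub_distrib, sum_add_distrib, ← mul_sum] at e
  have l0 : 0 ≤ Real.log x := Real.log_natCast_nonneg x
  have l1 := ok.log (m := x) (by omega)
  have b5 : |Real.log x * (∑ i ∈ range R, cp M (x + i) * ∑ d ∈ Icc 1 V, (μ d : ℝ) * dd (x + i) d -
      R * cA M V)| ≤ S * (V * S) := by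
    rw [abs_mul, abs_of_nonneg l0]
    refine mul_le_mul (by linarith) (b1.trans ?_) (abs_nonneg _) (by linarith)
    rw [one_mul]
    gcongr
  have b6 : 2 * (S : ℝ) * ((U * V : ℕ) * M.divisors.card) ≤ 2 * S * (U * V * S) := by
    push_cast
    gcongr
  have b7 := le_abs_self (∑ i ∈ range R, cp M (x + i) * cv (muG V) (laG U) (x + i))
  have b8 := neg_abs_le (∑ i ∈ range R, cp M (x + i) * cv (muG V) (laG U) (x + i))
  replace b2 := abs_le.1 (b2.trans b6)
  rw [abs_le] at b3 b4 b5 ⊢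
  rw [e]
  unfold cB
  constructor <;> linarith [b2.1, b2.2, b3.1, b3.2, b4.1, b4.2, b5.1, b5.2]

lemma model (h2 : T_P1a) {S M : ℕ} (ok : Ok S M) (hM : 1 ≤ M) (x R : ℕ) :
    |∑ i ∈ range R, mq M (x + i) - R| ≤ (S : ℝ) ^ 2 := by
  have h := h2 M 1 x R (fun _ => 1) hM fun _ => by simp
  have a1 : (0 : ℝ) < M := by exact_mod_cast hM
  have a2 : (0 : ℝ) < M.totient := by exact_mod_cast Nat.totient_pos.2 hM
  simp only [Icc_self, sum_singleton, dd, one_dvd, if_true, mul_one, cp_of (Nat.coprime_one_left M),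
    Nat.cast_one, div_one, one_mul] at h
  have e : ∑ i ∈ range R, mq M (x + i) - R =
      M / M.totient * (∑ i ∈ range R, cp M (x + i) - R * (M.totient / M)) := by
    unfold mq
    rw [← mul_sum]
    field_simp
  rw [e, abs_mul, abs_of_nonneg (by positivity), sq]
  exact mul_le_mul (ok.tot le_rfl) (h.trans (ok.tau le_rfl)) (abs_nonneg _) (by positivity)

/-- the two constants are pinned by the prime number theorem -/
lemma fin (h5 : T_Pin) {X R : ℕ} {A B δ : ℝ} (hX : 4 ≤ X) (hR : 1 ≤ R) (hRX : R ≤ X)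
    (h1 : ∑ x ∈ Ico X (2 * X), |∑ i ∈ range R, th (x + i) - R * (A * Real.log x - B)| ≤
      5 * δ * (R * X))
    (h2 : ∀ y z, y ≤ z → z ≤ 3 * X → |∑ m ∈ Ico y z, th m - (z - y)| ≤ δ * X) :
    ∀ x ∈ Ico X (2 * X), |A * Real.log x - (B + 1)| ≤ 30 * (6 * δ) := by
  refine h5 X A (B + 1) (6 * δ) hX fun y hy => ?_
  have R0 : (0 : ℝ) < R := by exact_mod_cast hR
  have a1 : |∑ x ∈ Ico y (y + X / 2), (∑ i ∈ range R, th (x + i) - R * (A * Real.log x - B))| ≤
      5 * δ * (R * X) :=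
    (abs_sum_le_sum_abs _ _).trans ((sum_le_sum_of_subset_of_nonneg
      (Ico_subset_Ico (by omega) (by omega)) fun _ _ _ => abs_nonneg _).trans h1)
  have a2 : |∑ i ∈ range R, (∑ x ∈ Ico y (y + X / 2), th (x + i) - (X / 2 : ℕ))| ≤
      R * (δ * X) := by
    refine (abs_sum_le_sum_abs _ _).trans ((sum_le_card_nsmul _ _ (δ * X)
      fun i hi => ?_).trans (by simp))
    have := mem_range.1 hi
    have h := h2 (y + i) (y + X / 2 + i) (by omega) (by omega)
    rwa [sum_Ico_add', show ((X / 2 : ℕ) : ℝ) = (y + X / 2 + i : ℕ) - (y + i : ℕ) by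
      simp only [Nat.cast_add]; ring]
  rw [sum_sub_distrib, sum_comm, sum_const, card_range, nsmul_eq_mul] at a2
  rw [sum_sub_distrib, ← mul_sum] at a1
  have e : ∑ x ∈ Ico y (y + X / 2), (A * Real.log x - (B + 1)) =
      ∑ x ∈ Ico y (y + X / 2), (A * Real.log x - B) - (X / 2 : ℕ) := by
    simp only [← sub_sub]
    rw [sum_sub_distrib, sum_const, Nat.card_Ico, add_tsub_cancel_left, nsmul_eq_mul, mul_one]
  refine le_of_mul_le_mul_left ?_ R0
  rw [← abs_of_pos R0, ← abs_mul, abs_of_pos R0, e]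
  rw [abs_le] at a1 a2 ⊢
  constructor <;> linarith [a1.1, a1.2, a2.1, a2.2]

lemma le_div_of {a b c : ℕ} (hc : 1 ≤ c) (h : a * c ^ 2 ≤ b) : (a : ℝ) ≤ 1 / (c : ℝ) ^ 2 * b := by
  have : (0 : ℝ) < c := by exact_mod_cast hc
  rw [one_div, ← div_eq_inv_mul, le_div_iff₀ (by positivity)]
  exact_mod_cast h

end SIpP

open SIpP in
theorem ySIp (h1 : T_Vau) (h2 : T_P1a) (h3 : T_S2) (h4 : T_PN2) (h5 : T_Pin) : T_SIp := by
  obtain ⟨p, h3⟩ := h3
  obtain ⟨k, h4⟩ := h4
  refine ⟨4 * p + 2 * k + 10, fun n => ?_⟩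
  obtain ⟨S1, h3⟩ := h3 n
  obtain ⟨S2, h4⟩ := h4 n
  obtain ⟨S3, h6⟩ := ev_ok (n + 2) 186
  refine ⟨max S1 (max S2 S3), fun S X M R hS hX hM hMX a1 a2 => ?_⟩
  simp only [max_le_iff] at hS
  obtain ⟨ok, s1⟩ := h6 S hS.2.2
  have s2 := ok.two
  have : NeZero M := ⟨by omega⟩
  have pw : ∀ {i j : ℕ}, i ≤ j → S ^ i ≤ S ^ j := fun h => Nat.pow_le_pow_right (by omega) h
  have s4 : 4 ≤ S ^ 2 := by nlinarith
  replace ok : Ok S (3 * X) := ok.mono (by rw [pow_add]; nlinarith)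
  have s3 : S ≤ S ^ 2 := by nlinarith
  have hX' : X ≤ (S ^ 2) ^ n := hX.trans (Nat.pow_le_pow_left s3 n)
  set W := S ^ (4 * p + 2 * k + 10) with hW
  have W0 : 0 < W := by positivity
  have R0 : 1 ≤ R := Nat.pos_of_ne_zero fun h => by
    have : 0 < X * W := Nat.mul_pos (by omega) W0
    rw [h] at a1
    omega
  have RX : R ≤ X := (Nat.le_mul_of_pos_right _ W0).trans a2
  have WR : W ≤ R := le_of_mul_le_mul_left (by nlinarith) (show 0 < R from R0)
  set V := (S ^ 2) ^ p with hV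
  have V0 : 0 < V := by positivity
  have v1 : V * V * S ^ 10 ≤ W := by
    rw [hV, ← pow_mul, ← pow_add, ← pow_add]; exact pw (by omega)
  have v2 : V * S ^ 10 ≤ W := (Nat.mul_le_mul_right _ (Nat.le_mul_self V)).trans v1
  have v3 : V * S ^ 2 ≤ W := (Nat.mul_le_mul_left _ (pw (by norm_num))).trans v2
  have v4 : V ≤ W := by nlinarith
  have X4 : 4 ≤ X := by nlinarith
  set U := X * V / R + 1 with hU
  have u1 : X * V ≤ U * R := by
    rw [mul_comm U]; exact (Nat.lt_mul_div_succ _ R0).le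
  have u2 : U * R ≤ X * V + R := by
    have := Nat.div_mul_le_self (X * V) R
    rw [hU, add_mul]; omega
  have u3 : U * R ≤ 2 * (X * V) := by nlinarith
  have u4 : U < X := lt_of_mul_lt_mul_right (a := R) (by nlinarith) (Nat.zero_le _)
  have u5 : U * V * S ^ 10 ≤ 2 * R := le_of_mul_le_mul_left (a := R) (by
    calc R * (U * V * S ^ 10) = U * R * (V * S ^ 10) := by ring
      _ ≤ 2 * (X * V) * (V * S ^ 10) := by gcongr
      _ = 2 * (X * (V * V * S ^ 10)) := by ring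
      _ ≤ 2 * (X * W) := by gcongr
      _ ≤ 2 * R ^ 2 := by gcongr
      _ = _ := by ring) R0
  have u6 : 2 * S * (U * V * S) * S ^ 2 ≤ R := by
    have : 2 * (2 * S * (U * V * S) * S ^ 2) ≤ U * V * S ^ 10 :=
      calc 2 * (2 * S * (U * V * S) * S ^ 2) = U * V * (4 * S ^ 4) := by ring
        _ ≤ U * V * (S ^ 2 * S ^ 8) :=
          Nat.mul_le_mul_left _ (Nat.mul_le_mul s4 (pw (by norm_num)))
        _ = _ := by ring
    omega
  have u7 : U * V ≤ X := by
    have : U * V * 2 ≤ U * V * S ^ 10 :=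
      Nat.mul_le_mul_left _ (by have := pw (show 2 ≤ 10 by norm_num); omega)
    omega
  have b := h3 (S ^ 2) X M R U V 1 (hS.1.trans s3) hX' hMX.le le_rfl u1
    ((Nat.mul_le_mul_left _ v4).trans a2) (v4.trans WR)
  simp only [one_eq, ← Complex.ofReal_mul, ← Complex.ofReal_sum, Complex.norm_real,
    Real.norm_eq_abs, mul_comm (cv _ _ _)] at b
  set δ : ℝ := 1 / (S : ℝ) ^ 2 with hδ
  have S0 : (0 : ℝ) < S := by linarith
  have X0 : (0 : ℝ) < X := by exact_mod_cast (by omega : 0 < X)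
  have c1 : (S : ℝ) * (V * S) ≤ δ * R := by
    rw [hδ]
    exact_mod_cast le_div_of (a := S * (V * S)) (c := S) (by omega) (le_trans (by
      rw [show S * (V * S) * S ^ 2 = V * S ^ 4 by ring]
      exact Nat.mul_le_mul_left _ (pw (by norm_num))) (v2.trans WR))
  have c2 : (R : ℝ) * (R / X * V) ≤ δ * R := by
    rw [mul_comm δ]
    refine mul_le_mul_of_nonneg_left ?_ (Nat.cast_nonneg R)
    rw [div_mul_eq_mul_div, div_le_iff₀ X0]
    rw [hδ]
    exact_mod_cast le_div_of (a := R * V) (c := S) (by omega)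
      (le_trans (by rw [mul_assoc]; exact Nat.mul_le_mul_left _ v3) a2)
  have c3 : 2 * (S : ℝ) * (U * V * S) ≤ δ * R := by
    rw [hδ]
    exact_mod_cast le_div_of (c := S) (by omega) u6
  have c4 : 2 * √(3 * X) * (S : ℝ) ≤ δ * R := by
    have d1 : 12 * X * S ^ 6 ≤ R ^ 2 := by
      refine le_trans ?_ a1
      calc 12 * X * S ^ 6 = X * (12 * S ^ 6) := by ring
        _ ≤ X * (S ^ 2 * S ^ 2 * S ^ 6) := by gcongr; nlinarith
        _ = X * S ^ 10 := by ring
        _ ≤ X * W := Nat.mul_le_mul_left _ (pw (by omega))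
    have d2 : (12 : ℝ) * X * S ^ 6 ≤ R ^ 2 := by exact_mod_cast d1
    have d3 := Real.sq_sqrt (show (0 : ℝ) ≤ 3 * X by positivity)
    rw [hδ, one_div, ← div_eq_inv_mul, le_div_iff₀ (by positivity)]
    refine (abs_le_of_sq_le_sq' ?_ (Nat.cast_nonneg R)).2
    calc (2 * √(3 * X) * (S : ℝ) * S ^ 2) ^ 2 = 4 * √(3 * X) ^ 2 * S ^ 6 := by ring
      _ ≤ _ := by rw [d3]; linarith
  have cd : (Ico X (2 * X)).card = X := by rw [Nat.card_Ico]; omega
  have f1 : ∑ x ∈ Ico X (2 * X), |∑ i ∈ range R, th (x + i) -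
      R * (cA M V * Real.log x - cB M U V)| ≤ 5 * δ * (R * X) := by
    refine (sum_le_sum fun x hx => pt h1 h2 ok hM hMX RX (Nat.le_add_left _ _) u4 u7 hx).trans ?_
    rw [sum_add_distrib, sum_const, cd, nsmul_eq_mul]
    have : (R : ℝ) * X / (S ^ 2 : ℕ) = δ * (R * X) := by rw [hδ]; push_cast; ring
    nlinarith
  have f2 := fin h5 X4 R0 RX f1 fun y z hy hz => (h4 (S ^ 2) X y z (hS.2.1.trans s3) hX' (by
    rw [← pow_mul]
    exact (pw (by omega)).trans (WR.trans RX)) hy hz).trans (by rw [hδ]; push_cast; ring_nf; rfl)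
  have c5 : (S : ℝ) ^ 2 ≤ δ * R := by
    rw [hδ]
    exact_mod_cast le_div_of (a := S ^ 2) (c := S) (by omega)
      (le_trans (by rw [← pow_add]; exact pw (by omega)) WR)
  have f3 : ∀ x ∈ Ico X (2 * X), |∑ i ∈ range R, (th (x + i) - mq M (x + i))| ≤
      |∑ i ∈ range R, th (x + i) - R * (cA M V * Real.log x - cB M U V)| + 181 * δ * R := by
    intro x hx
    have g1 := abs_le.1 ((model h2 (ok.mono (by omega)) hM x R).trans c5)
    have g2 := mul_le_mul_of_nonneg_left (f2 x hx) (Nat.cast_nonneg (α := ℝ) R)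
    rw [← abs_of_nonneg (Nat.cast_nonneg (α := ℝ) R), ← abs_mul, Nat.abs_cast, abs_le] at g2
    have g3 := le_abs_self (∑ i ∈ range R, th (x + i) - R * (cA M V * Real.log x - cB M U V))
    have g4 := neg_abs_le (∑ i ∈ range R, th (x + i) - R * (cA M V * Real.log x - cB M U V))
    rw [sum_sub_distrib, abs_le]
    constructor <;> linarith [g1.1, g1.2, g2.1, g2.2]
  refine (sum_le_sum f3).trans ?_
  rw [sum_add_distrib, sum_const, cd, nsmul_eq_mul]
  have g5 : 186 * δ ≤ 1 / S := by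
    rw [hδ, mul_one_div, div_le_div_iff₀ (by positivity) S0]
    nlinarith
  have g6 := mul_le_mul_of_nonneg_right g5 (show (0 : ℝ) ≤ R * X by positivity)
  rw [one_div, ← div_eq_inv_mul] at g6
  linarith

end Pool.Agent.P.MP_746f10_nt.HL
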