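import Pool.Agent.P.MP_746f10_nt.HL.Base
import Pool.Agent.P.MP_746f10_nt.AP.QRed

/-! Convergence of the singular series and its lower bound. -/

namespace Pool.Agent.P.MP_746f10_nt.HL

open Finset Filter
open Pool.Agent.P.MP_746f10_nt.AP Pool.Agent.P.MP_746f10_nt.AZ

namespace SLP

variable {k : ℕ} {a b : Fin k → ℕ}

lemma Dl_ne (h : ∀ i, 1 ≤ a i) (hN : Nd a b) : Dl a b ≠ 0 := by
  refine mul_ne_zero (prod_ne_zero_iff.2 fun i _ => by have := h i; omega)
    (prod_ne_zero_iff.2 fun i _ => prod_ne_zero_iff.2 fun j hj => ?_)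
  rw [Ne, Int.natAbs_eq_zero, sub_eq_zero]
  exact_mod_cast hN i j (ne_of_mem_erase hj).symm

lemma tot {a Z : ℕ} (h : 1 ≤ a) (hZ : a ≤ Z) :
    ∏ p ∈ PP 0 Z, (if p ∣ a then (p : ℝ) / (p - 1) else 1) = a / a.totient := by
  have t0 : (0 : ℝ) < a.totient := by exact_mod_cast Nat.totient_pos.2 h
  have e : (PP 0 Z).filter (· ∣ a) = a.primeFactors := by
    ext p
    simp only [mem_filter, mem_PP, Nat.mem_primeFactors]
    exact ⟨fun h1 => ⟨h1.1.2.2, h1.2, by omega⟩,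
      fun h1 => ⟨⟨h1.1.pos, (Nat.le_of_dvd h h1.2.1).trans hZ, h1.1⟩, h1.2.1⟩⟩
  have h1 := congrArg (Rat.cast : ℚ → ℝ) (Nat.totient_eq_mul_prod_factors a)
  push_cast at h1
  rw [← prod_filter, e, eq_div_iff t0.ne', h1, mul_left_comm, ← prod_mul_distrib, prod_eq_one,
    mul_one]
  intro p hp
  have : (2 : ℝ) ≤ p := by exact_mod_cast (Nat.prime_of_mem_primeFactors hp).two_le
  have : (p : ℝ) - 1 ≠ 0 := by linarith
  field_simp

lemma rho_le {p : ℕ} (hp : p.Prime) (h : ∀ i, (b i).Coprime (a i)) :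
    rho a b p ≤ (univ.filter fun i => ¬ p ∣ a i).card := by
  have h1 : ((range p).filter fun n => ∃ i, p ∣ a i * n + b i) ⊆ (univ.filter fun i =>
      ¬ p ∣ a i).biUnion fun i => (range p).filter fun n => p ∣ a i * n + b i := fun n hn => by
    obtain ⟨h2, i, hi⟩ := mem_filter.1 hn
    refine mem_biUnion.2 ⟨i, mem_filter.2 ⟨mem_univ _, fun h3 => ?_⟩, mem_filter.2 ⟨h2, hi⟩⟩
    exact hp.one_lt.ne' (Nat.eq_one_of_dvd_coprimes (h i)
      ((Nat.dvd_add_right (h3.mul_right n)).1 hi) h3)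
  refine (card_le_card h1).trans ((card_biUnion_le_card_mul _ _ 1 fun i hi => ?_).trans
    (mul_one _).le)
  refine card_le_one.2 fun x hx y hy => ?_
  obtain ⟨x1, x2⟩ := mem_filter.1 hx
  obtain ⟨y1, y2⟩ := mem_filter.1 hy
  have h2 : a i * x + b i ≡ a i * y + b i [MOD p] :=
    ((Nat.modEq_zero_iff_dvd).2 x2).trans ((Nat.modEq_zero_iff_dvd).2 y2).symm
  exact Nat.ModEq.eq_of_lt_of_lt (Nat.ModEq.cancel_left_of_coprime
    ((Nat.Prime.coprime_iff_not_dvd hp).2 (mem_filter.1 hi).2) (Nat.ModEq.add_right_cancel' _ h2))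
    (mem_range.1 x1) (mem_range.1 y1)

lemma rho_lt {p : ℕ} (hp : p.Prime) (h : Adm a b) : rho a b p < p := by
  obtain ⟨n, hn⟩ := h p hp
  conv_rhs => rw [← card_range p]
  refine card_lt_card (filter_ssubset.2 ⟨n % p, mem_range.2 (Nat.mod_lt _ hp.pos), ?_⟩)
  rintro ⟨i, hi⟩
  exact hn i (((((Nat.mod_modEq n p).mul_left (a i)).add_right (b i)).dvd_iff dvd_rfl).1 hi)

/-- the lower bound for one prime -/
noncomputable def wt (k p : ℕ) : ℝ := if p ≤ 2 * k ^ 2 + 1 then 1 / p else 1 - (k : ℝ) ^ 2 / p ^ 2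

lemma loc {p : ℕ} (hp : p.Prime) (h : Adm a b) :
    wt k p * ∏ i, (if p ∣ a i then (p : ℝ) / (p - 1) else 1) ≤ sp a b p := by
  have p2 : (2 : ℝ) ≤ p := by exact_mod_cast hp.two_le
  have h1 := rho_le hp (QRedP.adm_cop h)
  have h2 := rho_lt hp h
  have h3 := card_filter_add_card_filter_not (s := (univ : Finset (Fin k))) fun i => p ∣ a i
  rw [card_univ, Fintype.card_fin] at h3
  rw [← prod_filter, prod_const, sp]
  generalize (univ.filter fun i => ¬ p ∣ a i).card = r at *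
  generalize (univ.filter fun i => p ∣ a i).card = m at *
  generalize rho a b p = ρ at *
  have x0 := one_sub_inv_pos p2
  have x1 : (0 : ℝ) < 1 / p := by positivity
  have e : ((p : ℝ) / (p - 1)) ^ m * (1 - 1 / (p : ℝ)) ^ m = 1 := by
    have : (p : ℝ) - 1 ≠ 0 := by linarith
    rw [← mul_pow, show (p : ℝ) / (p - 1) * (1 - 1 / p) = 1 by field_simp, one_pow]
  rw [le_div_iff₀ (by positivity), mul_assoc]
  conv_lhs => rw [← h3, pow_add, ← mul_assoc (_ ^ m), e, one_mul, h3]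
  unfold wt
  split_ifs with h4
  · have h5 : (ρ : ℝ) + 1 ≤ p := by exact_mod_cast h2
    have h6 : 1 / (p : ℝ) ≤ 1 - ρ / p := by
      rw [le_sub_iff_add_le, ← add_div, div_le_one (by linarith)]; linarith
    exact (mul_le_of_le_one_right x1.le (pow_le_one₀ x0.le (by linarith))).trans h6
  · have h5 : (ρ : ℝ) ≤ r := by exact_mod_cast h1
    have h6 : (r : ℝ) ≤ k := by exact_mod_cast (by omega : r ≤ k)
    have h7 : (k : ℝ) ≤ p := by exact_mod_cast (by nlinarith : k ≤ p)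
    have r0 : (0 : ℝ) ≤ r := Nat.cast_nonneg r
    set x := 1 / (p : ℝ) with hx
    have h8 : r * x ≤ 1 := by rw [hx, mul_one_div, div_le_one (by linarith)]; linarith
    have h9 : (1 + r * x) * (1 - x) ^ r ≤ 1 := by
      calc _ ≤ (1 + x) ^ r * (1 - x) ^ r := by
            gcongr; exact one_add_mul_le_pow (by linarith) r
        _ ≤ 1 := by
            rw [← mul_pow]
            exact pow_le_one₀ (by positivity) (by nlinarith)
    have y0 : 0 ≤ (1 - x) ^ r := by positivity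
    calc _ ≤ (1 - r * x) * (1 + r * x) * (1 - x) ^ r := by
          gcongr
          rw [show (k : ℝ) ^ 2 / p ^ 2 = (k * x) ^ 2 by rw [hx]; ring]
          nlinarith [mul_le_mul_of_nonneg_right h6 x1.le, mul_nonneg r0 x1.le]
      _ ≤ (1 - r * x) * 1 := by rw [mul_assoc]; gcongr
      _ ≤ _ := by
          rw [mul_one, div_eq_mul_one_div (ρ : ℝ)]
          gcongr

lemma weier {ι : Type*} (s : Finset ι) {x : ι → ℝ} (h : ∀ i ∈ s, 0 ≤ x i ∧ x i ≤ 1) :
    1 - ∑ i ∈ s, x i ≤ ∏ i ∈ s, (1 - x i) := by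
  classical
  induction s using Finset.induction_on with
  | empty => simp
  | insert j s hj ih =>
    rw [sum_insert hj, prod_insert hj]
    have h1 := h j (mem_insert_self _ _)
    have h2 := ih fun i hi => h i (mem_insert_of_mem hi)
    have h3 : 0 ≤ ∑ i ∈ s, x i := sum_nonneg fun i hi => (h i (mem_insert_of_mem hi)).1
    nlinarith [mul_le_mul_of_nonneg_left h2 (sub_nonneg.2 h1.2), mul_nonneg h1.1 h3]

lemma sq_le {k p : ℕ} (h : 2 * k ^ 2 + 1 < p) : (k : ℝ) ^ 2 / p ^ 2 ≤ 1 := by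
  have h7 : (k : ℝ) ≤ p := by exact_mod_cast (by nlinarith : k ≤ p)
  exact div_le_one_of_le₀ (by gcongr) (by positivity)

lemma wt_nonneg (k p : ℕ) : 0 ≤ wt k p := by
  unfold wt
  split_ifs with h
  · positivity
  · linarith [sq_le (not_le.1 h)]

lemma wt_prod {Z : ℕ} (hZ : 2 * k ^ 2 + 1 ≤ Z) :
    (∏ p ∈ PP 0 (2 * k ^ 2 + 1), 1 / (p : ℝ)) * (1 / 2) ≤ ∏ p ∈ PP 0 Z, wt k p := by
  rw [prod_PP_split (Nat.zero_le _) hZ]
  refine mul_le_mul (le_of_eq (prod_congr rfl fun p hp => (if_pos (mem_PP.1 hp).2.1).symm)) ?_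
    (by norm_num) (prod_nonneg fun p _ => wt_nonneg k p)
  refine le_trans ?_ ((weier (x := fun p : ℕ => (k : ℝ) ^ 2 / (p : ℝ) ^ 2) _ fun p hp =>
    ⟨by positivity, sq_le (mem_PP.1 hp).1⟩).trans
    (le_of_eq (prod_congr rfl fun p hp => (if_neg (not_le.2 (mem_PP.1 hp).1)).symm)))
  have h1 := sum_PP_inv_sq_le (2 * k ^ 2 + 1) Z (by omega)
  simp only [div_eq_mul_one_div ((k : ℝ) ^ 2), ← mul_sum]
  have h2 : (k : ℝ) ^ 2 * (1 / ((2 * k ^ 2 + 1 : ℕ) : ℝ)) ≤ 1 / 2 := by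
    rw [mul_one_div, div_le_iff₀ (by positivity)]
    push_cast
    linarith
  linarith [mul_le_mul_of_nonneg_left h1 (sq_nonneg (k : ℝ))]

end SLP

open SLP

theorem yMul (h : T_Loc) : T_Mul := by
  intro k a b hab hN
  obtain ⟨C, -, h⟩ := h k
  have h0 := Dl_ne (fun i => (hab i).1) hN
  have h1 : Summable fun p : Nat.Primes => sp a b p - 1 := by
    refine Summable.of_norm_bounded_eventually (g := fun p : Nat.Primes => C * ((p : ℝ) ^ 2)⁻¹)
      (((Real.summable_nat_pow_inv.2 one_lt_two).comp_injective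
        Nat.Primes.coe_nat_injective).mul_left C) ?_
    refine ((Set.finite_le_nat (Dl a b)).preimage
      Nat.Primes.coe_nat_injective.injOn).subset fun p hp => ?_
    by_contra h2
    exact hp ((h a b p p.2 fun i => (hab i).2).2.2.2 fun h3 =>
      h2 (Nat.le_of_dvd (Nat.pos_of_ne_zero h0) h3))
  have h2 := (Real.multipliable_one_add_of_summable h1).hasProd
  simp only [add_sub_cancel] at h2
  have h3 : Tendsto (fun Z => (PP 0 Z).subtype Nat.Prime) atTop atTop :=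
    tendsto_atTop_finset_of_monotone (fun x y hxy => subtype_mono fun p hp => by
      rw [mem_PP] at hp ⊢
      exact ⟨hp.1, hp.2.1.trans hxy, hp.2.2⟩)
      fun p => ⟨p, mem_subtype.2 (mem_PP.2 ⟨p.2.pos, le_rfl, p.2⟩)⟩
  refine (Filter.Tendsto.comp h2 h3).congr fun Z => ?_
  exact prod_subtype_of_mem (sp a b) fun p hp => PP_prime hp

/-- the lower bound with the factor of the moduli -/
theorem ySL2 (h : T_Mul) (k : ℕ) : ∃ c : ℝ, 0 < c ∧ ∀ a b : Fin k → ℕ, (∀ i, 1 ≤ a i) → Adm a b →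
    Nd a b → c * ∏ i, ((a i : ℝ) / (a i).totient) ≤ SS a b := by
  refine ⟨(∏ p ∈ PP 0 (2 * k ^ 2 + 1), 1 / (p : ℝ)) * (1 / 2), mul_pos (prod_pos fun p hp =>
    one_div_pos.2 (by linarith [PP_two hp])) (by norm_num), fun a b ha hA hN => ?_⟩
  refine ge_of_tendsto (h k a b (fun i => ⟨ha i, QRedP.adm_cop hA i⟩) hN) ?_
  filter_upwards [eventually_ge_atTop (2 * k ^ 2 + 1), eventually_ge_atTop (∑ i, a i)] with Z h1 h2
  refine le_trans (mul_le_mul_of_nonneg_right (wt_prod h1) (by positivity)) ?_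
  rw [← prod_congr rfl fun i _ => tot (ha i) ((single_le_sum (f := a) (fun _ _ => Nat.zero_le _)
    (mem_univ i)).trans h2), Finset.prod_comm, ← prod_mul_distrib]
  refine prod_le_prod (fun p hp => mul_nonneg (wt_nonneg k p) (prod_nonneg fun i _ => ?_))
    fun p hp => loc (PP_prime hp) hA
  have := PP_two hp
  split_ifs
  · exact div_nonneg (by linarith) (by linarith)
  · norm_num

theorem ySL (h : T_Mul) : T_SL := by
  intro k
  obtain ⟨c, hc, h1⟩ := ySL2 h k
  refine ⟨c, hc, fun a b => ⟨fun ha hA hN => le_trans (le_mul_of_one_le_right hc.le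
    (one_le_prod_real fun i _ => one_le_div_totient (ha i))) (h1 a b ha hA hN), fun i hi => ?_⟩⟩
  obtain ⟨p, hp, h2, h3⟩ := Nat.Prime.not_coprime_iff_dvd.1 hi
  refine tprod_of_exists_eq_zero ⟨⟨p, hp⟩, ?_⟩
  have : (p : ℝ) ≠ 0 := by exact_mod_cast hp.ne_zero
  change sp a b p = 0
  rw [sp, rho, filter_true_of_mem fun n _ => ⟨i, dvd_add (h3.mul_right n) h2⟩, card_range,
    div_self this, sub_self, zero_div]

end Pool.Agent.P.MP_746f10_nt.HL
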