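import Pool.Agent.P.MP_746f10_nt.HL.Base

/-! The mean of the product of the models is the singular series. -/

namespace Pool.Agent.P.MP_746f10_nt.HL

open Finset Filter
open Pool.Agent.P.MP_746f10_nt.AP Pool.Agent.P.MP_746f10_nt.AZ

namespace SSP

lemma filt {m Z : ℕ} (h0 : m ≠ 0) : (PP 0 Z).filter (· ∣ m) ⊆ m.primeFactors := fun p h => by
  obtain ⟨h1, h2⟩ := mem_filter.1 h
  exact Nat.mem_primeFactors.2 ⟨(mem_PP.1 h1).2.2, h2, h0⟩

lemma tot {m Z : ℕ} (h0 : 1 ≤ m) (hZ : m ≤ Z) :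
    ∏ p ∈ PP 0 Z, (if p ∣ m then (p : ℝ) / (p - 1) else 1) = m / m.totient := by
  have e : (PP 0 Z).filter (· ∣ m) = m.primeFactors := by
    refine (filt (by omega)).antisymm fun p h => ?_
    obtain ⟨h1, h2, -⟩ := Nat.mem_primeFactors.1 h
    exact mem_filter.2 ⟨mem_PP.2 ⟨h1.pos, (Nat.le_of_dvd h0 h2).trans hZ, h1⟩, h2⟩
  have h := congrArg (Nat.cast : ℕ → ℝ) (Nat.totient_mul_prod_primeFactors m)
  have h1 : ∀ p ∈ m.primeFactors, (((p - 1 : ℕ) : ℝ)) = p - 1 := fun p h => by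
    rw [Nat.cast_sub (Nat.prime_of_mem_primeFactors h).one_le, Nat.cast_one]
  rw [Nat.cast_mul, Nat.cast_mul, Nat.cast_prod, Nat.cast_prod, prod_congr rfl h1] at h
  have h2 : (0 : ℝ) < m.totient := by exact_mod_cast Nat.totient_pos.2 h0
  have h3 : 0 < ∏ p ∈ m.primeFactors, ((p : ℝ) - 1) := prod_pos fun p h => by
    have : (2 : ℝ) ≤ p := by exact_mod_cast (Nat.prime_of_mem_primeFactors h).two_le
    linarith
  rw [← prod_filter, e, prod_div_distrib, div_eq_div_iff h3.ne' h2.ne', ← h, mul_comm]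

lemma two_pow {m : ℕ} (h0 : m ≠ 0) : 2 ^ m.primeFactors.card ≤ m.divisors.card := by
  rw [Nat.card_divisors h0, ← prod_const]
  refine prod_le_prod' fun p h => Nat.succ_le_succ ?_
  obtain ⟨h1, h2, -⟩ := Nat.mem_primeFactors.1 h
  exact h1.factorization_pos_of_dvd h0 h2

lemma Dl_bd {k Y : ℕ} {a b : Fin k → ℕ} (h : ∀ i, a i ≤ Y ∧ 1 ≤ b i ∧ b i < a i) (hN : Nd a b)
    (hY : 1 ≤ Y) : Dl a b ≠ 0 ∧ Dl a b ≤ Y ^ (k + 2 * k * k) := by
  refine ⟨mul_ne_zero (prod_ne_zero_iff.2 fun i _ => by have := h i; omega)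
    (prod_ne_zero_iff.2 fun i _ => prod_ne_zero_iff.2 fun j hj => ?_), ?_⟩
  · rw [Int.natAbs_ne_zero, sub_ne_zero]
    exact_mod_cast hN i j (mem_erase.1 hj).1.symm
  · have m : ∀ i j, a i * b j ≤ Y ^ 2 := fun i j => by
      rw [sq]; exact Nat.mul_le_mul (h i).1 (by have := h j; omega)
    have h1 : ∏ i, a i ≤ Y ^ k := by
      simpa using prod_le_pow_card univ a Y fun i _ => (h i).1
    have h2 : ∀ i, ∏ j ∈ univ.erase i, ((a i : ℤ) * b j - (a j : ℤ) * b i).natAbs ≤ Y ^ (2 * k) :=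
      fun i => by
        refine (prod_le_pow_card _ _ (Y ^ 2) fun j _ => ?_).trans ?_
        · have := m i j
          have := m j i
          rw [← Nat.cast_mul, ← Nat.cast_mul]
          omega
        · rw [← pow_mul]
          refine Nat.pow_le_pow_right hY (Nat.mul_le_mul_left _ ?_)
          simp
    have h3 := prod_le_pow_card univ _ _ fun i _ => h2 i
    rw [card_univ, Fintype.card_fin, ← pow_mul] at h3
    rw [pow_add]
    exact Nat.mul_le_mul h1 h3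

lemma eul {C : ℝ} (hC : 1 ≤ C) {D Z : ℕ} (hD : D ≠ 0) {ν : ℕ → ℝ} (h0 : ∀ p, 0 ≤ ν p)
    (h : ∀ p, p.Prime → ν p ≤ C / p ∧ (¬ p ∣ D → ν p ≤ C / (p : ℝ) ^ 2)) :
    ∏ p ∈ PP 0 Z, (1 + √p * ν p) ≤
      (D.divisors.card : ℝ) ^ ⌈C⌉₊ * Real.exp (C * ∑' n : ℕ, (n : ℝ) ^ (-(3 / 2) : ℝ)) := by
  have hs : Summable fun n : ℕ => (n : ℝ) ^ (-(3 / 2) : ℝ) :=
    Real.summable_nat_rpow.2 (by norm_num)
  have h1 : 1 + C ≤ 2 ^ ⌈C⌉₊ := by
    have : ⌈C⌉₊ + 1 ≤ 2 ^ ⌈C⌉₊ := Nat.lt_two_pow_self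
    have h2 : (⌈C⌉₊ : ℝ) + 1 ≤ 2 ^ ⌈C⌉₊ := by exact_mod_cast this
    linarith [Nat.le_ceil C]
  calc _ ≤ ∏ p ∈ PP 0 Z, ((if p ∣ D then (2 : ℝ) ^ ⌈C⌉₊ else 1) *
          Real.exp (C * (p : ℝ) ^ (-(3 / 2) : ℝ))) := by
        refine prod_le_prod (fun p _ => by have := h0 p; positivity) fun p hp => ?_
        have pp := (mem_PP.1 hp).2.2
        have p1 : (1 : ℝ) ≤ p := by exact_mod_cast pp.one_le
        have p0 : (0 : ℝ) < p := by linarith
        split_ifs with hd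
        · have h2 : √p ≤ p := Real.sqrt_le_self_iff.2 (Or.inr p1)
          have h3 := mul_le_mul h2 (h p pp).1 (h0 p) p0.le
          rw [mul_div_cancel₀ _ p0.ne'] at h3
          exact le_trans (by linarith)
            (le_mul_of_one_le_right (by positivity) (Real.one_le_exp (by positivity)))
        · have h3 := mul_le_mul_of_nonneg_left ((h p pp).2 hd) (Real.sqrt_nonneg p)
          have e : √p * (C / (p : ℝ) ^ 2) = C * (p : ℝ) ^ (-(3 / 2) : ℝ) := by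
            rw [Real.sqrt_eq_rpow, ← Real.rpow_two, mul_div_left_comm, ← Real.rpow_sub p0]
            norm_num
          linarith [Real.add_one_le_exp (C * (p : ℝ) ^ (-(3 / 2) : ℝ))]
    _ ≤ _ := by
        rw [prod_mul_distrib, ← prod_filter, prod_const, ← Real.exp_sum, ← mul_sum, ← pow_mul,
          mul_comm ⌈C⌉₊, pow_mul]
        have h2 : (2 : ℝ) ^ ((PP 0 Z).filter (· ∣ D)).card ≤ D.divisors.card := by
          exact_mod_cast (Nat.pow_le_pow_right two_pos (card_le_card (filt hD))).trans (two_pow hD)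
        gcongr
        exact hs.sum_le_tsum _ fun _ _ => by positivity

end SSP

theorem ySS (h1 : T_Loc) (h2 : T_SS1) (h3 : T_SS2) (h4 : T_Mul) : T_SS := by
  intro k
  obtain ⟨C, hC, hL⟩ := h1 k
  refine ⟨k + (⌈C⌉₊ + 1), fun n => ?_⟩
  obtain ⟨S0, hS0⟩ := ev_ok (n * (1 + (k + 2 * k * k)))
    (Real.exp (C * ∑' n : ℕ, (n : ℝ) ^ (-(3 / 2) : ℝ)))
  refine ⟨S0, fun S N R a b Rs hS hR h hN => ?_⟩
  obtain ⟨ok, hE⟩ := hS0 S hS
  have S1 : 1 ≤ S ^ n := Nat.one_le_pow _ _ (by have := ok.two; omega)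
  have S2 := ok.two'
  have hb : ∀ i, (1 ≤ b i ∧ b i < a i) ∧ (b i).Coprime (a i) := fun i => by
    simpa [RU] using (h i).2.1
  have ha : ∀ i, 1 ≤ a i := fun i => by have := hb i; omega
  obtain ⟨D0, D1⟩ := SSP.Dl_bd (fun i => ⟨(h i).1, (hb i).1⟩) hN S1
  have tD : ((Dl a b).divisors.card : ℝ) ≤ S := ok.tau (by
    rw [pow_mul]; exact D1.trans (Nat.pow_le_pow_right S1 (by omega)))
  have P0 : 0 ≤ ∏ i, (a i : ℝ) / (a i).totient := prod_nonneg fun _ _ => by positivity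
  have P1 : ∏ i, (a i : ℝ) / (a i).totient ≤ (S : ℝ) ^ k := by
    refine (prod_le_prod (fun _ _ => by positivity) fun i _ => ok.tot (a := a i) ?_).trans (by simp)
    rw [pow_mul]; exact (h i).1.trans (Nat.le_self_pow (by omega) _)
  have t := (((h4 k a b (fun i => ⟨ha i, (hb i).2⟩) hN).const_mul (N : ℝ)).const_sub
    (∑ x ∈ Ico N (2 * N), ∏ i, mo (a i) (Rs i) (a i * x + b i))).abs
  refine le_of_tendsto t (eventually_atTop.2 ⟨∑ i, (a i + Rs i), fun Z hZ => ?_⟩)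
  have hZ' : ∀ i, a i + Rs i ≤ Z := fun i =>
    (single_le_sum (f := fun i => a i + Rs i) (fun _ _ => Nat.zero_le _) (mem_univ i)).trans hZ
  have e1 := h2 k a b Rs N Z fun i => by have := hZ' i; omega
  have e2 := h3 k a b Rs R Z hR fun i => ⟨(h i).2.2, by have := hZ' i; omega⟩
  have e3 := SSP.eul (Z := Z) hC D0 (nI_nonneg a b) fun p hp =>
    ⟨(hL a b p hp fun i => (hb i).2).1, (hL a b p hp fun i => (hb i).2).2.1⟩
  have e4 : ∏ p ∈ PP 0 Z, (1 + √p * nI a b p) ≤ (S : ℝ) ^ (⌈C⌉₊ + 1) := by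
    rw [pow_succ]
    exact e3.trans (by gcongr)
  have e5 : ∏ p ∈ PP 0 Z, sp a b p =
      (∏ i, (a i : ℝ) / (a i).totient) * ∏ p ∈ PP 0 Z, ∑ I, mI a b p I := by
    rw [← prod_congr rfl fun p hp => (hL a b p (mem_PP.1 hp).2.2 fun i => (hb i).2).2.2.1,
      prod_mul_distrib, Finset.prod_comm, mul_comm]
    congr 1
    exact prod_congr rfl fun i _ => SSP.tot (ha i) (by have := hZ' i; omega)
  have e6 : (2 : ℝ) ≤ (S : ℝ) ^ (⌈C⌉₊ + 1) := S2.trans (le_self_pow₀ (by linarith) (by omega))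
  simp only [mo, prod_mul_distrib]
  rw [← mul_sum, e5, mul_left_comm, ← mul_sub, abs_mul, abs_of_nonneg P0, pow_add, mul_assoc]
  refine mul_le_mul P1 ?_ (abs_nonneg _) (by positivity)
  refine (abs_sub_le _ _ _).trans (le_trans (add_le_add e1 (d := N * (1 / √R * (S : ℝ) ^ (⌈C⌉₊ + 1)))
    ?_) ?_)
  · rw [← mul_sub, abs_mul, Nat.abs_cast]
    exact mul_le_mul_of_nonneg_left (e2.trans (by gcongr)) (Nat.cast_nonneg _)
  · rw [mul_add]
    exact add_le_add (by gcongr) (le_of_eq (by ring))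

end Pool.Agent.P.MP_746f10_nt.HL
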