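import Pool.Agent.P.MP_746f10_nt.HL.Base

/-! Products of periodic functions and the expansion of the product of the models. -/

namespace Pool.Agent.P.MP_746f10_nt.HL

open Finset
open Pool.Agent.P.MP_746f10_nt.AP Pool.Agent.P.MP_746f10_nt.AZ

namespace SS1P

lemma shift {F : ℕ → ℝ} {M : ℕ} (h : ∀ x y, x ≡ y [MOD M] → F x = F y) (y : ℕ) :
    ∑ x ∈ range M, F (y + x) = ∑ x ∈ range M, F x := by
  induction y with
  | zero => simp
  | succ y ih =>
    have e1 := sum_range_succ (fun x => F (y + x)) M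
    have e2 := sum_range_succ' (fun x => F (y + x)) M
    have e3 : F (y + M) = F (y + 0) := h _ _ (by simp [Nat.ModEq])
    simp only [← add_assoc, add_right_comm y _ 1] at e2
    linarith

lemma per {F : ℕ → ℝ} {M : ℕ} (hM : 1 ≤ M) (h : ∀ x y, x ≡ y [MOD M] → F x = F y)
    (h1 : ∀ x, |F x| ≤ 1) (N L : ℕ) :
    |∑ x ∈ range L, F (N + x) - L * (1 / (M : ℝ) * ∑ x ∈ range M, F x)| ≤ 2 * M := by
  have M0 : (0 : ℝ) < M := by exact_mod_cast hM
  have bd : ∀ (y n : ℕ), |∑ x ∈ range n, F (y + x)| ≤ n := fun y n =>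
    (abs_sum_le_sum_abs _ _).trans ((sum_le_card_nsmul _ _ 1 fun x _ => h1 _).trans (by simp))
  induction L using Nat.strong_induction_on with
  | _ L ih =>
    rcases lt_or_ge L M with hL | hL
    · have e1 := bd N L
      have e2 := bd 0 M
      simp only [zero_add] at e2
      have e3 : |1 / (M : ℝ) * ∑ x ∈ range M, F x| ≤ 1 := by
        rw [abs_mul, abs_of_pos (by positivity : (0 : ℝ) < 1 / M), one_div_mul_eq_div,
          div_le_one M0]
        exact e2
      have e4 : (L : ℝ) ≤ M := by exact_mod_cast hL.le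
      refine (abs_sub _ _).trans ?_
      rw [abs_mul, Nat.abs_cast]
      nlinarith [mul_le_mul_of_nonneg_left e3 (Nat.cast_nonneg L)]
    · obtain ⟨L', rfl⟩ := Nat.exists_eq_add_of_le' hL
      rw [sum_range_add]
      simp only [← add_assoc]
      rw [shift h]
      convert ih L' (by omega) using 2
      push_cast
      field_simp
      ring

lemma full {f G : ℕ → ℝ} {p M : ℕ} (hp : p ≠ 0) (hM : M ≠ 0) (hc : p.Coprime M)
    (hf : ∀ x y, x ≡ y [MOD p] → f x = f y) (hG : ∀ x y, x ≡ y [MOD M] → G x = G y) :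
    ∑ x ∈ range (p * M), f x * G x = (∑ x ∈ range p, f x) * ∑ x ∈ range M, G x := by
  rw [sum_mul_sum, ← sum_product']
  refine sum_nbij (fun x => (x % p, x % M)) (fun x _ => ?_) (fun x hx y hy e => ?_)
    (fun z hz => ?_) fun x _ => ?_
  · exact mem_product.2 ⟨mem_range.2 (Nat.mod_lt _ (Nat.pos_of_ne_zero hp)),
      mem_range.2 (Nat.mod_lt _ (Nat.pos_of_ne_zero hM))⟩
  · obtain ⟨e1, e2⟩ := Prod.mk.inj e
    exact Nat.ModEq.eq_of_lt_of_lt ((Nat.modEq_and_modEq_iff_modEq_mul hc).1 ⟨e1, e2⟩)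
      (mem_range.1 hx) (mem_range.1 hy)
  · obtain ⟨h1, h2⟩ := mem_product.1 (mem_coe.1 hz)
    refine ⟨Nat.chineseRemainder hc z.1 z.2,
      mem_coe.2 (mem_range.2 (Nat.chineseRemainder_lt_mul hc _ _ hp hM)), Prod.ext ?_ ?_⟩
    · exact Eq.trans (Nat.chineseRemainder hc z.1 z.2).2.1 (Nat.mod_eq_of_lt (mem_range.1 h1))
    · exact Eq.trans (Nat.chineseRemainder hc z.1 z.2).2.2 (Nat.mod_eq_of_lt (mem_range.1 h2))
  · rw [← hf _ _ (Nat.mod_modEq x p), ← hG _ _ (Nat.mod_modEq x M)]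

lemma prod_per {A : Finset ℕ} {g : ℕ → ℕ → ℝ}
    (h : ∀ p ∈ A, ∀ x y, x ≡ y [MOD p] → g p x = g p y) (x y : ℕ) (e : x ≡ y [MOD ∏ p ∈ A, p]) :
    ∏ p ∈ A, g p x = ∏ p ∈ A, g p y :=
  prod_congr rfl fun p hp => h p hp x y (e.of_dvd (dvd_prod_of_mem _ hp))

lemma full' (g : ℕ → ℕ → ℝ) (A : Finset ℕ) : (∀ p ∈ A, p.Prime) →
    (∀ p ∈ A, ∀ x y, x ≡ y [MOD p] → g p x = g p y) →
    ∑ x ∈ range (∏ p ∈ A, p), ∏ p ∈ A, g p x = ∏ p ∈ A, ∑ x ∈ range p, g p x := by
  induction A using Finset.induction_on with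
  | empty => simp
  | insert q A hq ih =>
    intro h1 h2
    have h3 : ∀ p ∈ A, p.Prime := fun p hp => h1 p (mem_insert_of_mem hp)
    have h4 := fun p hp => h2 p (mem_insert_of_mem (s := A) (b := q) hp)
    have q1 := h1 q (mem_insert_self _ _)
    simp only [prod_insert hq]
    rw [full q1.ne_zero (prod_ne_zero_iff.2 fun p hp => (h3 p hp).ne_zero)
      (Nat.Coprime.prod_right fun p hp => (Nat.coprime_primes q1 (h3 p hp)).2 fun e => hq (e ▸ hp))
      (h2 q (mem_insert_self _ _)) (prod_per h4), ih h3 h4]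

end SS1P

open SS1P in
theorem yCRT : T_CRT := by
  intro A g N h1 h2 h3
  have h := per (F := fun x => ∏ p ∈ A, g p x) (prod_pos fun p hp => (h1 p hp).pos) (prod_per h2)
    (fun x => by
      rw [abs_prod]
      exact prod_le_one (fun _ _ => abs_nonneg _) fun p hp => h3 p hp x) N N
  rw [full' g A h1 h2] at h
  rw [sum_Ico_eq_sum_range, show 2 * N - N = N by omega, prod_mul_distrib, prod_div_distrib,
    prod_const_one]
  push_cast at h
  exact h

theorem ySS1 (h : T_CRT) : T_SS1 := by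
  intro k a b Rs N Z hZ
  simp only [prod_univ_sum]
  rw [sum_comm, mul_sum, ← sum_sub_distrib]
  refine (abs_sum_le_sum_abs _ _).trans
    ((sum_le_card_nsmul _ _ (2 * ∏ i, (Rs i : ℝ)) fun q hq => ?_).trans ?_)
  · have hq' := fun i => mem_SQ.1 (Fintype.mem_piFinset.1 hq i)
    set A := (PP 0 Z).filter fun p => ∃ i, p ∣ q i with hA
    have a1 : ∀ p ∈ A, p.Prime := fun p hp => (mem_PP.1 (mem_filter.1 hp).1).2.2
    have e1 : ∀ x, ∏ i, rn (q i) (a i * x + b i) =
        ∏ p ∈ A, ∏ i ∈ univ.filter (fun i => p ∣ q i), lfi a b i p x := fun x => by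
      simp only [prod_filter]
      rw [prod_comm]
      refine prod_congr rfl fun i _ => ?_
      rw [← prod_filter, rn]
      refine prod_congr ?_ fun p hp => ?_
      · ext p
        have := (hq' i).1
        simp only [hA, Nat.mem_primeFactors, mem_filter, mem_PP]
        exact ⟨fun e => ⟨⟨⟨e.1.pos, (Nat.le_of_dvd this.1 e.2.1).trans (this.2.trans (hZ i)), e.1⟩,
          i, e.2.1⟩, e.2.1⟩, fun e => ⟨e.1.1.2.2, e.2, by omega⟩⟩
      · obtain ⟨p1, p2⟩ := mem_filter.1 hp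
        rw [lfi, if_neg fun e =>
          (a1 p p1).one_lt.ne' (Nat.eq_one_of_dvd_coprimes (hq' i).2.2 p2 e)]
    have e2 : ∏ p ∈ PP 0 Z, mI a b p (univ.filter fun i => p ∣ q i) =
        ∏ p ∈ A, mI a b p (univ.filter fun i => p ∣ q i) := by
      refine (prod_filter_of_ne fun p hp e => ?_).symm
      by_contra! h1
      rw [filter_false_of_mem fun i _ => h1 i] at e
      exact e (mI_empty a b (mem_PP.1 hp).1)
    simp only [e1]
    rw [e2]
    refine (h A (fun p x => ∏ i ∈ univ.filter (fun i => p ∣ q i), lfi a b i p x) N a1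
      (fun p _ x y e => prod_congr rfl fun i _ => ?_) fun p hp x => ?_).trans ?_
    · rw [lfi, lfi, lf_congr ((e.mul_left _).add_right _)]
    · rw [abs_prod]
      exact prod_le_one (fun _ _ => abs_nonneg _) fun i _ => abs_lfi_le a b i (a1 p hp).two_le x
    · have e3 : ∏ p ∈ A, p ≤ ∏ i, Rs i :=
        (Nat.le_of_dvd (prod_pos fun i _ => (hq' i).1.1) (Finset.prod_primes_dvd _
          (fun p hp => (a1 p hp).prime) fun p hp => by
            obtain ⟨i, hi⟩ := (mem_filter.1 hp).2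
            exact hi.trans (dvd_prod_of_mem q (mem_univ i)))).trans
          (prod_le_prod' fun i _ => (hq' i).1.2)
      have e4 : ((∏ p ∈ A, p : ℕ) : ℝ) ≤ ((∏ i, Rs i : ℕ) : ℝ) := Nat.cast_le.2 e3
      rw [Nat.cast_prod, Nat.cast_prod] at e4
      linarith
  · have e3 : (Fintype.piFinset fun i => SQ (a i) (Rs i)).card ≤ ∏ i, Rs i := by
      rw [Fintype.card_piFinset]
      exact prod_le_prod' fun i _ => card_SQ_le _ _
    have e4 : ((Fintype.piFinset fun i => SQ (a i) (Rs i)).card : ℝ) ≤ ∏ i, (Rs i : ℝ) := by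
      exact_mod_cast e3
    have e5 : (0 : ℝ) ≤ ∏ i, (Rs i : ℝ) := by positivity
    rw [nsmul_eq_mul]
    nlinarith

end Pool.Agent.P.MP_746f10_nt.HL
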