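import Pool.Agent.P.MP_746f10_nt.HL.Base

/-! Removing the truncation in the product of the models. -/

namespace Pool.Agent.P.MP_746f10_nt.HL

open Finset
open Pool.Agent.P.MP_746f10_nt.AP Pool.Agent.P.MP_746f10_nt.AZ

namespace SS2P

variable {k Z : ℕ}

/-- the configuration of a tuple -/
def cfg (Z : ℕ) (q : Fin k → ℕ) (p : PP 0 Z) : Finset (Fin k) := univ.filter fun i => p.1 ∣ q i

/-- the tuple of a configuration -/
def tup (c : PP 0 Z → Finset (Fin k)) (i : Fin k) : ℕ :=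
  ∏ p ∈ univ.filter (fun p : PP 0 Z => i ∈ c p), p.1

/-- the weight of a set of forms -/
noncomputable def wt (p : ℕ) (I : Finset (Fin k)) : ℕ := if I = ∅ then 1 else p

lemma pr (p : PP 0 Z) : p.1.Prime := (mem_PP.1 p.2).2.2

lemma dvd_tup (c : PP 0 Z → Finset (Fin k)) (i : Fin k) {r : ℕ} (hr : r.Prime) :
    r ∣ tup c i ↔ ∃ p : PP 0 Z, i ∈ c p ∧ p.1 = r := by
  rw [tup, hr.prime.dvd_finsetProd_iff]
  refine exists_congr fun p => ?_
  rw [mem_filter, Nat.prime_dvd_prime_iff_eq hr (pr p), eq_comm]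
  simp

lemma cfg_tup (c : PP 0 Z → Finset (Fin k)) : cfg Z (tup c) = c := by
  ext p i
  simp only [cfg, mem_filter, mem_univ, true_and, dvd_tup c i (pr p)]
  exact ⟨fun ⟨_, h, e⟩ => Subtype.ext e ▸ h, fun h => ⟨p, h, rfl⟩⟩

lemma tup_cfg {q : Fin k → ℕ} {i : Fin k} (h1 : 1 ≤ q i) (h2 : q i ≤ Z) (h3 : Squarefree (q i)) :
    tup (cfg Z q) i = q i := by
  rw [tup, ← Nat.prod_primeFactors_of_squarefree h3]
  refine prod_bij (fun p _ => p.1) (fun p hp => ?_) (fun _ _ _ _ e => Subtype.ext e)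
    (fun r hr => ?_) fun _ _ => rfl
  · exact Nat.mem_primeFactors.2 ⟨pr p, (mem_filter.1 (mem_filter.1 hp).2).2, by omega⟩
  · obtain ⟨r1, r2, -⟩ := Nat.mem_primeFactors.1 hr
    exact ⟨⟨r, mem_PP.2 ⟨r1.pos, (Nat.le_of_dvd h1 r2).trans h2, r1⟩⟩,
      mem_filter.2 ⟨mem_univ _, mem_filter.2 ⟨mem_univ _, r2⟩⟩, rfl⟩

lemma sqf (c : PP 0 Z → Finset (Fin k)) (i : Fin k) : Squarefree (tup c i) :=
  Finset.squarefree_prod_of_pairwise_isCoprime (fun p _ p' _ h => Nat.coprime_iff_isRelPrime.1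
    ((Nat.coprime_primes (pr p) (pr p')).2 fun e => h (Subtype.ext e)))
    fun p _ => (pr p).prime.squarefree

lemma tup_le (c : PP 0 Z → Finset (Fin k)) (i : Fin k) : tup c i ≤ ∏ p, wt p.1 (c p) := by
  rw [tup, prod_filter]
  refine prod_le_prod' fun p _ => ?_
  unfold wt
  split_ifs with h1 h2 h2
  · exact absurd (h2 ▸ h1) (notMem_empty i)
  · exact le_rfl
  · exact le_rfl
  · exact (pr p).pos

lemma out {a b Rs : Fin k → ℕ} {R : ℕ} (hR : 1 ≤ R) (h : ∀ i, R ≤ Rs i)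
    (c : PP 0 Z → Finset (Fin k)) (hc : tup c ∉ Fintype.piFinset fun i => SQ (a i) (Rs i)) :
    |∏ p, mI a b p.1 (c p)| ≤ 1 / √R * ∏ p, (√(wt p.1 (c p)) * |mI a b p.1 (c p)|) := by
  have R0 : 0 < √(R : ℝ) := Real.sqrt_pos.2 (by exact_mod_cast hR)
  by_cases h1 : ∃ p : PP 0 Z, ∃ i ∈ c p, p.1 ∣ a i
  · obtain ⟨p, i, hi, e⟩ := h1
    have e1 : mI a b p.1 (c p) = 0 := by
      rw [mI, sum_eq_zero fun n _ => prod_eq_zero hi (by rw [lfi, if_pos e]), mul_zero]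
    rw [prod_eq_zero (mem_univ p) e1, abs_zero]
    positivity
  obtain ⟨i, hi⟩ : ∃ i, Rs i < tup c i := by
    by_contra! h2
    refine hc (Fintype.mem_piFinset.2 fun i => mem_SQ.2
      ⟨⟨Nat.pos_of_ne_zero (sqf c i).ne_zero, h2 i⟩, sqf c i, ?_⟩)
    refine Nat.coprime_of_dvd fun r hr e e' => ?_
    obtain ⟨p, p1, rfl⟩ := (dvd_tup c i hr).1 e
    exact h1 ⟨p, i, p1, e'⟩
  have e2 : (R : ℝ) ≤ ∏ p, (wt p.1 (c p) : ℝ) := by
    rw [← Nat.cast_prod]
    exact Nat.cast_le.2 ((h i).trans (hi.le.trans (tup_le c i)))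
  rw [prod_mul_distrib, ← Real.sqrt_prod _ fun _ _ => by positivity, ← abs_prod, ← mul_assoc]
  refine le_mul_of_one_le_left (abs_nonneg _) ?_
  rw [one_div_mul_eq_div, one_le_div R0]
  exact Real.sqrt_le_sqrt e2

end SS2P

open SS2P in
theorem ySS2 : T_SS2 := by
  intro k a b Rs R Z hR h
  have e1 : ∑ q ∈ Fintype.piFinset (fun i => SQ (a i) (Rs i)),
      ∏ p ∈ PP 0 Z, mI a b p (univ.filter fun i => p ∣ q i) =
      ∑ c ∈ univ.filter (fun c : PP 0 Z → Finset (Fin k) =>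
        tup c ∈ Fintype.piFinset fun i => SQ (a i) (Rs i)), ∏ p, mI a b p.1 (c p) := by
    have t : ∀ q ∈ Fintype.piFinset (fun i => SQ (a i) (Rs i)), tup (cfg Z q) = q := fun q hq =>
      funext fun i => by
        have := mem_SQ.1 (Fintype.mem_piFinset.1 hq i)
        exact tup_cfg this.1.1 (this.1.2.trans (h i).2) this.2.1
    refine sum_nbij' (cfg Z) tup (fun q hq => mem_filter.2 ⟨mem_univ _, (t q hq).symm ▸ hq⟩)
      (fun c hc => (mem_filter.1 hc).2) t (fun c _ => cfg_tup c) fun q _ => ?_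
    exact (prod_coe_sort _ _).symm
  have e2 : ∀ f : ℕ → Finset (Fin k) → ℝ, ∏ p ∈ PP 0 Z, ∑ I, f p I =
      ∑ c : PP 0 Z → Finset (Fin k), ∏ p, f p.1 (c p) := fun f => by
    rw [← prod_coe_sort, prod_univ_sum, Fintype.piFinset_univ]
  have e3 : ∏ p ∈ PP 0 Z, (1 + √p * nI a b p) =
      ∏ p ∈ PP 0 Z, ∑ I, √(wt p I) * |mI a b p I| := prod_congr rfl fun p hp => by
    rw [← add_sum_erase _ _ (mem_univ ∅), mI_empty a b (mem_PP.1 hp).1, nI, mul_sum]
    congr 1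
    · simp [wt]
    · exact sum_congr rfl fun I hI => by rw [wt, if_neg (mem_erase.1 hI).1]
  rw [e1, e2, e3, e2, ← sum_filter_add_sum_filter_not univ
    fun c : PP 0 Z → Finset (Fin k) => tup c ∈ Fintype.piFinset fun i => SQ (a i) (Rs i),
    sub_add_cancel_left, abs_neg, mul_sum]
  refine (abs_sum_le_sum_abs _ _).trans ((sum_le_sum fun c hc =>
    out hR (fun i => (h i).1) c (mem_filter.1 hc).2).trans ?_)
  exact sum_le_sum_of_subset_of_nonneg (filter_subset _ _) fun c _ _ => by positivity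

end Pool.Agent.P.MP_746f10_nt.HL
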