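import Pool.Agent.P.MP_746f10_nt.HL.Base
import Pool.Agent.P.MP_746f10_nt.AP.TIb
import Pool.Agent.P.MP_746f10_nt.AP.Row
import Pool.Agent.P.MP_746f10_nt.AZ.RV

/-! Linear sums against a function without large coefficients. -/

namespace Pool.Agent.P.MP_746f10_nt.HL

open Finset ComplexConjugate
open Pool.Agent.P.MP_746f10_nt.AP Pool.Agent.P.MP_746f10_nt.AZ
open Pool.Agent.P.MP_746f10_nt.AP.TIaP (cq)
open Pool.Agent.P.MP_0ad054_nt (e mn dn e_add dn_add_int cs_norm norm_e conj_e)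
open Pool.Agent.P.MP_0ad054_nt.An.LSP (spaced additive farey)

namespace TI2P

/-- the large sieve at the points `r a / q` -/
theorem lsv {R X a : ℕ} (hR : 1 ≤ R) {S : Finset ℕ} (hS : S ⊆ Icc 1 R)
    (ha : ∀ q ∈ S, a.Coprime q) {I : Finset ℕ}
    (hI : I ⊆ Icc 1 X) (u : ℕ → ℂ) :
    ∑ q ∈ S, ∑ r ∈ (range q).filter (fun r => r.Coprime q),
      ‖∑ n ∈ I, u n * e ((r : ℝ) * a / q * n)‖ ^ 2 ≤
      6 * (X + (R : ℝ) ^ 2) * (1 + Real.log R) * ∑ n ∈ I, ‖u n‖ ^ 2 := by
  have hl := Real.log_natCast_nonneg R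
  have key : ∀ q r : ℕ, 1 ≤ q →
      (r : ℝ) * a / q = ((r * a % q : ℕ) : ℝ) / q + ((r * a / q : ℕ) : ℝ) := fun q r hq => by
    have hq' : (q : ℝ) ≠ 0 := by positivity
    have h : ((r * a % q : ℕ) : ℝ) + q * ((r * a / q : ℕ) : ℝ) = r * a := by
      exact_mod_cast Nat.mod_add_div (r * a) q
    rw [← h]
    field_simp
  have h1 := additive (S.sigma fun q => (range q).filter fun b => b.Coprime q)
    (fun z => (z.2 : ℝ) * a / z.1) X (V := 6 * (X + (R : ℝ) ^ 2) * (1 + Real.log R))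
    (by positivity)
    (fun r _ => (spaced _ _ (Q := R ^ 2) (by positivity) (Nat.cast_nonneg X) (fun s hs t ht hst => by
      rw [mem_sigma, mem_filter, mem_range] at hs ht
      have s1 := (mem_Icc.1 (hS hs.1)).1
      have t1 := (mem_Icc.1 (hS ht.1)).1
      have co : ∀ q r : ℕ, r.Coprime q → a.Coprime q → (r * a % q).Coprime q := fun q r h h' => by
        have := (Nat.Coprime.mul_left h h').symm
        rwa [Nat.Coprime, Nat.gcd_rec] at this
      have h2 := farey (hS hs.1) (hS ht.1) (Nat.mod_lt (s.2 * a) s1) (Nat.mod_lt (t.2 * a) t1)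
        (co _ _ hs.2.2 (ha _ hs.1)) (co _ _ ht.2.2 (ha _ ht.1)) fun h => hst (by
          obtain ⟨q, r⟩ := s
          obtain ⟨q', r'⟩ := t
          obtain ⟨h3, h4⟩ := h
          dsimp only at h3 h4 hs ht
          subst h3
          have h5 : r ≡ r' [MOD q] := Nat.ModEq.cancel_right_of_coprime (ha _ hs.1).symm h4
          rw [Nat.ModEq.eq_of_lt_of_lt h5 hs.2.1 ht.2.1])
      rw [key _ _ s1, key _ _ t1, ← dn_add_int _ (((t.2 * a / t.1 : ℕ) : ℤ) - (s.2 * a / s.1 : ℕ))]
      convert h2 using 2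
      simp only [Int.cast_sub, Int.cast_natCast]
      ring) _).trans (by
      push_cast
      rw [Real.log_pow]
      have : (0 : ℝ) ≤ X := Nat.cast_nonneg X
      push_cast
      nlinarith [mul_nonneg this hl, mul_nonneg (sq_nonneg (R : ℝ)) hl, sq_nonneg (R : ℝ)]))
    fun n => if n ∈ I then u n else 0
  rw [sum_sigma] at h1
  simp only [ite_mul, zero_mul, sum_ite_mem, inter_eq_right.2 hI] at h1
  refine h1.trans (mul_le_mul_of_nonneg_left (le_of_eq ?_) (by positivity))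
  rw [← inter_eq_right.2 hI, ← sum_ite_mem, inter_eq_right.2 hI]
  exact sum_congr rfl fun n _ => by split_ifs <;> simp

lemma expand (a N : ℕ) (Q : Finset ℕ) (γ u v : ℕ → ℂ) :
    Bf a N (fun m => ∑ q ∈ Q, γ q * cq q m) u v =
      ∑ q ∈ Q, γ q * ∑ r ∈ (range q).filter (fun r => r.Coprime q),
        (∑ n ∈ Ico N (2 * N), u n * e ((r : ℝ) * a / q * n)) *
          ∑ b ∈ Ico 1 a, v b * e ((r : ℝ) * (1 : ℕ) / q * b) := by
  simp only [sum_mul_sum]
  simp only [Bf, cq, mul_sum, sum_mul]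
  refine (sum_congr rfl fun n _ => sum_comm).trans (sum_comm.trans ?_)
  refine sum_congr rfl fun q _ => ?_
  refine (sum_congr rfl fun n _ => sum_comm).trans (sum_comm.trans ?_)
  refine sum_congr rfl fun r _ => sum_congr rfl fun n _ => sum_congr rfl fun b _ => ?_
  have : (r : ℝ) * (a * n + b : ℕ) / q = (r : ℝ) * a / q * n + (r : ℝ) * (1 : ℕ) / q * b := by
    push_cast
    ring
  rw [this, e_add]
  ring

/-- a rational frequency with a small denominator -/
lemma leak (h1 : T_NF) {a : ℕ} [NeZero a] {T q : ℕ} (r : ℕ) {f : ZMod a → ℂ} {F : ℝ} (hT : 2 ≤ T)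
    (hf : Mq f (Fam a (T ^ 17)) (1 / (T : ℝ) ^ 28) F) (hq : 1 ≤ q) (hq' : q ≤ T ^ 2) :
    ‖∑ b ∈ Ico 1 a, f b * e ((r : ℝ) * (1 : ℕ) / q * b)‖ ≤ 3 * a / (T : ℝ) ^ 4 := by
  have T2 : (2 : ℝ) ≤ T := by exact_mod_cast hT
  rcases (NeZero.one_le (n := a)).eq_or_lt with ha | ha
  · simp only [← ha, Ico_self, sum_empty, norm_zero]; positivity
  have h2 := h1 a f ((r : ℝ) * (1 : ℕ) / q) (1 / (T : ℝ) ^ 28) (T ^ 8) (Nat.one_le_pow _ _ (by omega))
    (by positivity) hf.l2 fun l hl => by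
      have q0 : (0 : ℝ) < q := by exact_mod_cast hq
      have q1 : (q : ℝ) ≤ T ^ 2 := by exact_mod_cast hq'
      have b1 : |(q : ℤ) * l + r * a| ≤ (T ^ 17 : ℕ) := by
        have : |(q : ℝ) * l + r * a| ≤ T ^ 17 := by
          rw [show (q : ℝ) * l + r * a = q * (l + (r : ℝ) * (1 : ℕ) / q * a) by
            push_cast; field_simp, abs_mul, abs_of_pos q0]
          push_cast at hl ⊢
          calc _ ≤ (T : ℝ) ^ 2 * (T ^ 8 + T ^ 8) := by
                gcongr
                exact hl.trans (by gcongr; exact one_le_pow₀ (by linarith))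
            _ = 2 * T ^ 10 := by ring
            _ ≤ T ^ 7 * T ^ 10 := by
                gcongr; exact T2.trans (le_self_pow₀ (by linarith) (by norm_num))
            _ = _ := by ring
        exact_mod_cast this
      refine le_trans (le_of_eq ?_) (hf.cf (fun y => fm a 1 1 l y.val) ⟨q, 1, q * l + r * a, l, 1,
        hq, le_rfl, (mul_one q).le.trans (hq'.trans (Nat.pow_le_pow_right (by omega) (by norm_num))),
        b1, ⟨-r, by push_cast; ring⟩, fun _ => rfl⟩)
      refine congrArg _ (sum_congr rfl fun y _ => ?_)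
      by_cases hy : IsUnit y
      · have u1 : IsUnit ((y.val : ℕ) : ZMod (a * 1)) := (ZMod.isUnit_iff_coprime _ _).2 (by
          rw [mul_one, ← ZMod.isUnit_iff_coprime, ZMod.natCast_zmod_val]; exact hy)
        have u2 := RowP.std_eq a (-(l * y.val))
        rw [Int.cast_neg, Int.cast_mul, Int.cast_natCast, ZMod.natCast_zmod_val] at u2
        simp only [fm, range_one, sum_singleton, mul_zero, add_zero, MulChar.one_apply u1, u2,
          Nat.cast_one, div_one, one_mul, conj_e]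
        congr 2; push_cast; ring
      · rw [hf.zero y hy, zero_mul, zero_mul]
  rw [range_eq_Ico, sum_eq_sum_Ico_succ_bot (by omega), Nat.cast_zero, hf.zero' ha, zero_mul,
    zero_add] at h2
  refine h2.trans ?_
  push_cast
  rw [show (T : ℝ) ^ 8 = (T ^ 4) ^ 2 by ring, Real.sqrt_sq (by positivity), mul_comm 3, mul_div_assoc]
  refine mul_le_mul_of_nonneg_left ?_ (by positivity)
  have : 1 / (T : ℝ) ^ 28 * (2 * (T ^ 4) ^ 2 + 3) ≤ 1 / T ^ 4 := by
    rw [div_mul_eq_mul_div, div_le_div_iff₀ (by positivity) (by positivity)]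
    have h8 : (1 : ℝ) ≤ T ^ 8 := one_le_pow₀ (by linarith)
    have h16 : (2 : ℝ) ^ 16 ≤ T ^ 16 := by gcongr
    calc _ ≤ (5 * T ^ 8) * (T : ℝ) ^ 4 :=
          mul_le_mul_of_nonneg_right (by nlinarith) (by positivity)
      _ = 5 * T ^ 12 := by ring
      _ ≤ T ^ 16 * T ^ 12 := by gcongr; linarith
      _ = _ := by ring
  refine (add_le_add_left this _).trans (le_of_eq (by ring))

lemma ident (D : ℕ) (γ : ℕ → ℝ) (m : ℕ) : ((∑ d ∈ Icc 1 D, γ d * dd m d : ℝ) : ℂ) =
    ∑ q ∈ Icc 1 D, (RVP.gm D γ q : ℂ) * cq q m := by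
  rcases Nat.eq_zero_or_pos D with rfl | hD
  · simp
  conv_rhs => rw [← insert_Icc_add_one_left_eq_Icc hD, sum_insert (by simp)]
  rw [one_add_one_eq_two, ← RVP.ident, RVP.cq_one, mul_one, ← Complex.ofReal_add, RVP.gm, filter_true_of_mem (by simp),
    ← sum_add_distrib]
  exact congrArg _ (sum_congr rfl fun d _ => by ring)

end TI2P

open TI2P

theorem yTIb2 : T_TIb2 := by
  refine ⟨12, by norm_num, fun a N w D γ u v ha hw hN hγ hγa hu hv => ?_⟩
  have hl := Real.log_natCast_nonneg D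
  rcases le_or_gt D w with hDw | hwD
  · simp only [Bf, Ioc_eq_empty_of_le hDw, sum_empty, zero_mul, sum_const_zero, norm_zero]
    positivity
  obtain ⟨x, hx, x0⟩ : ∃ x : ℝ, x ^ 2 = a ∧ 0 < x ∧ √a = x :=
    ⟨_, Real.sq_sqrt (Nat.cast_nonneg a), Real.sqrt_pos.2 (by exact_mod_cast ha), rfl⟩
  obtain ⟨y, hy, y0⟩ : ∃ y : ℝ, y ^ 2 = N ∧ 0 < y ∧ √N = y :=
    ⟨_, Real.sq_sqrt (Nat.cast_nonneg N), Real.sqrt_pos.2 (by exact_mod_cast hN), rfl⟩
  obtain ⟨x0, ex⟩ := x0
  obtain ⟨y0, ey⟩ := y0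
  set U : ℕ → ℕ → ℂ := fun q r => ∑ n ∈ Ico N (2 * N), u n * e ((r : ℝ) * a / q * n) with hU
  set V : ℕ → ℕ → ℂ := fun q r => ∑ b ∈ Ico 1 a, v b * e ((r : ℝ) * (1 : ℕ) / q * b) with hV
  set s : ℕ → ℝ := fun q => if a.Coprime q then
    ∑ r ∈ (range q).filter (fun r => r.Coprime q), ‖U q r‖ * ‖V q r‖ else 0 with hs
  have e1 : Bf a N (fun m => ∑ q ∈ Ioc w D, γ q * cq q m) u v =
      ∑ q ∈ Ioc w D, γ q * ∑ r ∈ (range q).filter (fun r => r.Coprime q), U q r * V q r :=
    expand a N (Ioc w D) γ u v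
  have e2 : ‖∑ q ∈ Ioc w D, γ q * ∑ r ∈ (range q).filter (fun r => r.Coprime q), U q r * V q r‖ ≤
      ∑ q ∈ Ioc w D, s q / q := by
    refine (norm_sum_le _ _).trans (sum_le_sum fun q _ => ?_)
    by_cases hq : a.Coprime q
    · rw [norm_mul, div_eq_inv_mul, ← one_div]
      refine mul_le_mul (hγ q) ((norm_sum_le _ _).trans (le_of_eq ?_)) (norm_nonneg _)
        (by positivity)
      simp only [hs, norm_mul, if_pos hq]
    · have h0 : γ q = 0 := by
        by_contra h
        exact hq (hγa q h).symm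
      simp only [hs, h0, if_neg hq, zero_mul, norm_zero, zero_div, le_refl]
  set L := 1 + Real.log D with hL
  have L1 : 1 ≤ L := by linarith
  have e3 : ∀ R, w ≤ R → R ≤ D → ∑ q ∈ Ioc w R, s q ≤
      6 * L * x * y * (2 * x * y) + 6 * L * x * y * (x + 2 * y) * R + 6 * L * x * y * R ^ 2 := by
    intro R h1 h2
    have hR : 1 ≤ R := hw.trans h1
    have R0 : (0 : ℝ) < R := by exact_mod_cast hR
    have hlR := Real.log_natCast_nonneg R
    have hLR : 1 + Real.log R ≤ L := by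
      have := Real.log_le_log R0 (show (R : ℝ) ≤ D by exact_mod_cast h2)
      linarith
    have a1 := lsv (X := 2 * N) (a := a) (I := Ico N (2 * N)) hR
      (filter_subset (fun q => a.Coprime q) (Icc 1 R)) (fun q hq => (mem_filter.1 hq).2)
      (fun n hn => by rw [mem_Ico] at hn; rw [mem_Icc]; omega) u
    have a2 := lsv (X := a) (a := 1) (I := Ico 1 a) hR
      (filter_subset (fun q => a.Coprime q) (Icc 1 R)) (fun q _ => Nat.coprime_one_left q)
      (fun n hn => by rw [mem_Ico] at hn; rw [mem_Icc]; omega) v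
    have c1 : ∑ n ∈ Ico N (2 * N), ‖u n‖ ^ 2 ≤ y ^ 2 := by
      refine (sum_le_card_nsmul _ _ 1 fun n _ => pow_le_one₀ (norm_nonneg _) (hu n)).trans ?_
      rw [Nat.card_Ico, hy, two_mul, Nat.add_sub_cancel, nsmul_one]
    have b1 : 6 * (((2 * N : ℕ) : ℝ) + (R : ℝ) ^ 2) * (1 + Real.log R) *
        ∑ n ∈ Ico N (2 * N), ‖u n‖ ^ 2 ≤ 6 * (2 * y + R) ^ 2 * L * y ^ 2 := by
      push_cast
      rw [← hy]
      gcongr
      nlinarith [mul_pos y0 R0]
    have b2 : 6 * ((a : ℝ) + (R : ℝ) ^ 2) * (1 + Real.log R) * ∑ b ∈ Ico 1 a, ‖v b‖ ^ 2 ≤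
        6 * (x + R) ^ 2 * L * x ^ 2 := by
      rw [← hx] at hv ⊢
      gcongr
      nlinarith [mul_pos x0 R0]
    have d1 := sum_mul_sq_le_sq_mul_sq
      (((Icc 1 R).filter fun q => a.Coprime q).sigma fun q =>
        (range q).filter fun r => r.Coprime q)
      (fun z => ‖U z.1 z.2‖) fun z => ‖V z.1 z.2‖
    rw [sum_sigma, sum_sigma, sum_sigma] at d1
    have d2 := d1.trans (mul_le_mul (a1.trans b1) (a2.trans b2) (by positivity) (by positivity))
    have d3 : ∑ q ∈ Ioc w R, s q ≤ ∑ q ∈ Icc 1 R, s q :=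
      sum_le_sum_of_subset_of_nonneg
        (fun q hq => by rw [mem_Ioc] at hq; rw [mem_Icc]; omega) fun q _ _ => by
          simp only [hs]
          split_ifs
          · positivity
          · exact le_rfl
    have d4 : ∑ q ∈ Icc 1 R, s q = ∑ q ∈ (Icc 1 R).filter (fun q => a.Coprime q),
        ∑ r ∈ (range q).filter (fun r => r.Coprime q), ‖U q r‖ * ‖V q r‖ :=
      (sum_filter _ _).symm
    rw [d4] at d3
    refine d3.trans (abs_le_of_sq_le_sq' (d2.trans (le_of_eq ?_)) (by positivity)).2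
    ring
  have e4 := TIbP.abel hw hwD.le (by positivity) (by positivity) e3
  rw [e1, Real.sqrt_mul (Nat.cast_nonneg a), ex, ey, ← hx, ← hy]
  refine e2.trans (e4.trans ?_)
  have w0 : (0 : ℝ) < w := by exact_mod_cast hw
  have D0 : (0 : ℝ) ≤ D := Nat.cast_nonneg D
  have e5 : 12 * L ^ 2 * (1 / w + 1 / y + 1 / x + D / (x * y)) * x ^ 2 * y ^ 2 =
      6 * L * x * y * (L * (2 * x * y / w) + (2 * x + 2 * y) * L + L * (2 * D)) := by
    field_simp
    ring
  have e6 : 6 * L * x * y * (2 * x * y) / w + 6 * L * x * y * (x + 2 * y) * L +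
      2 * (6 * L * x * y) * D = 6 * L * x * y * (2 * x * y / w + (x + 2 * y) * L + 2 * D) := by
    ring
  rw [← hL, e5, e6]
  refine mul_le_mul_of_nonneg_left (add_le_add (add_le_add ?_ ?_) ?_) (by positivity)
  · exact le_mul_of_one_le_left (by positivity) L1
  · exact mul_le_mul_of_nonneg_right (by linarith) (by positivity)
  · exact le_mul_of_one_le_left (by positivity) L1

theorem yTI2 (h1 : T_NF) (h2 : T_TIb2) : T_TI2 := by
  obtain ⟨C, hC, h2⟩ := h2
  refine ⟨C + 3, by positivity, fun a _ N T D u f F hN hT hu hf => ?_⟩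
  have T2 : (2 : ℝ) ≤ T := by exact_mod_cast hT
  have hl := Real.log_natCast_nonneg D
  have ha := NeZero.one_le (n := a)
  have main : ∀ γ : ℕ → ℂ, (∀ q, ‖γ q‖ ≤ 1 / q) → (∀ q, γ q ≠ 0 → q.Coprime a) →
      ‖Bf a N (fun m => ∑ q ∈ Icc 1 D, γ q * cq q m) u (fun b => f b)‖ ≤ (C + 3) *
        (1 + Real.log D) ^ 2 * (1 / (T : ℝ) ^ 2 + 1 / √N + 1 / √a + D / √(a * N)) * a * N := by
    intro γ g1 g2
    have a1 := h2 a N (T ^ 2) D γ u (fun b => f b) ha (Nat.one_le_pow _ _ (by omega)) hN g1 g2 hu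
      (by
        refine le_trans ?_ hf.l2
        rw [← sum_image (s := Ico 1 a) (g := fun b : ℕ => (b : ZMod a)) (f := fun y => ‖f y‖ ^ 2)
          fun x hx y hy h => Nat.ModEq.eq_of_lt_of_lt ((ZMod.natCast_eq_natCast_iff _ _ _).1 h)
            (mem_Ico.1 hx).2 (mem_Ico.1 hy).2]
        exact sum_le_sum_of_subset_of_nonneg (subset_univ _) fun _ _ _ => by positivity)
    rw [expand] at a1 ⊢
    rw [← sum_filter_add_sum_filter_not _ (· ≤ T ^ 2), show (Icc 1 D).filter (¬ · ≤ T ^ 2) =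
      Ioc (T ^ 2) D by ext q; simp only [mem_filter, mem_Icc, mem_Ioc]; omega]
    refine (norm_add_le_of_le ((norm_sum_le _ _).trans (sum_le_card_nsmul _ _
      (N * (3 * a / (T : ℝ) ^ 4)) fun q hq => ?_)) a1).trans ?_
    · obtain ⟨q1, q2⟩ := mem_filter.1 hq
      have q0 : (0 : ℝ) < q := by exact_mod_cast (mem_Icc.1 q1).1
      rw [norm_mul]
      refine (mul_le_mul (g1 q) ((norm_sum_le _ _).trans (sum_le_card_nsmul _ _
        (N * (3 * a / (T : ℝ) ^ 4)) fun r _ => ?_)) (norm_nonneg _) (by positivity)).trans ?_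
      · rw [norm_mul]
        refine mul_le_mul ((norm_sum_le _ _).trans ((sum_le_card_nsmul _ _ 1 fun n _ => ?_).trans
          ?_)) (leak h1 r hT hf (mem_Icc.1 q1).1 q2) (norm_nonneg _) (by positivity)
        · rw [norm_mul, norm_e, mul_one]; exact hu n
        · rw [Nat.card_Ico, two_mul, Nat.add_sub_cancel, nsmul_one]
      · have : (((range q).filter fun r => r.Coprime q).card : ℝ) ≤ q := by
          exact_mod_cast (card_filter_le _ _).trans (card_range q).le
        rw [nsmul_eq_mul, ← mul_assoc]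
        exact mul_le_of_le_one_left (by positivity)
          (by rw [one_div, inv_mul_le_iff₀ q0, mul_one]; exact this)
    · have c1 : (((Icc 1 D).filter (· ≤ T ^ 2)).card : ℝ) ≤ T ^ 2 := by
        have : (Icc 1 D).filter (· ≤ T ^ 2) ⊆ Icc 1 (T ^ 2) := fun q hq => by
          rw [mem_filter, mem_Icc] at hq; rw [mem_Icc]; omega
        exact_mod_cast (card_le_card this).trans (by simp)
      have c2 : (1 : ℝ) ≤ (1 + Real.log D) ^ 2 := one_le_pow₀ (by linarith)
      rw [nsmul_eq_mul]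
      push_cast
      calc _ ≤ (T : ℝ) ^ 2 * (N * (3 * a / (T : ℝ) ^ 4)) + _ := by gcongr
        _ = 3 * 1 * (1 / (T : ℝ) ^ 2 + 0 + 0 + 0) * a * N + _ := by congr 1; field_simp; ring
        _ ≤ 3 * (1 + Real.log D) ^ 2 * (1 / (T : ℝ) ^ 2 + 1 / √N + 1 / √a + D / √(a * N)) * a * N +
            _ := by gcongr <;> positivity
        _ = _ := by ring
  refine ⟨main, fun lam hlam => ?_⟩
  set L := 1 + Real.log D with hL
  have L0 : 0 < L := by linarith
  set lam' : ℕ → ℝ := fun d => if d.Coprime a then lam d else 0 with hl'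
  have b1 : ∀ d, |lam' d| ≤ 1 := fun d => by
    simp only [hl']; split_ifs; exacts [hlam d, by simp]
  have b2 := main (fun q => ((RVP.gm D lam' q / L : ℝ) : ℂ)) (fun q => by
      rw [Complex.norm_real, Real.norm_eq_abs, abs_div, abs_of_pos L0, div_le_iff₀' L0]
      exact RVP.gm_le D b1 q) fun q hq => by
    obtain ⟨d, d1, d2⟩ := exists_ne_zero_of_sum_ne_zero (s := (Icc 1 D).filter (q ∣ ·))
      (f := fun d => lam' d / d) fun h => hq (by rw [RVP.gm, h]; simp)
    refine Nat.Coprime.coprime_dvd_left (mem_filter.1 d1).2 (by_contra fun h => d2 ?_)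
    simp only [hl', if_neg h, zero_div]
  have b3 : Bf a N (fun m => ((∑ d ∈ Icc 1 D, lam d * dd m d : ℝ) : ℂ)) u (fun b => f b) = L *
      Bf a N (fun m => ∑ q ∈ Icc 1 D, ((RVP.gm D lam' q / L : ℝ) : ℂ) * cq q m) u fun b => f b := by
    simp only [Bf, mul_sum (a := (L : ℂ))]
    refine sum_congr rfl fun n _ => sum_congr rfl fun b _ => ?_
    by_cases hb : b.Coprime a
    · have : ∑ d ∈ Icc 1 D, lam d * dd (a * n + b) d = ∑ d ∈ Icc 1 D, lam' d * dd (a * n + b) d :=
        sum_congr rfl fun d _ => by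
          simp only [hl', dd]
          split_ifs with e1 e2
          · rfl
          · exact absurd (((coprime_row a n b).2 hb).coprime_dvd_left e1) e2
          all_goals simp
      have L1 : (L : ℂ) ≠ 0 := by exact_mod_cast L0.ne'
      rw [this, ident, ← mul_assoc, ← mul_assoc, mul_sum]
      congr 2
      exact sum_congr rfl fun q _ => by push_cast; field_simp
    · rw [hf.zero _ (mt (ZMod.isUnit_iff_coprime _ _).1 hb), mul_zero, mul_zero, mul_zero]
  rw [b3, norm_mul, Complex.norm_real, Real.norm_of_nonneg L0.le]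
  exact (mul_le_mul_of_nonneg_left b2 L0.le).trans (le_of_eq (by ring))

end Pool.Agent.P.MP_746f10_nt.HL
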