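import Pool.Agent.P.MP_746f10_nt.HL.Base
import Pool.Agent.P.MP_746f10_nt.AP.Red

/-! Telescoping along the forms, and a form with a small modulus against the models. -/

namespace Pool.Agent.P.MP_746f10_nt.HL

open Finset
open Pool.Agent.P.MP_746f10_nt.AP Pool.Agent.P.MP_746f10_nt.AZ

namespace TelP

/-- the cut norm bounds the column sums on average -/
lemma col {a N : ℕ} {c u : ℕ → ℝ} {δ M : ℝ} (H : SmallC a N c δ) (hM : 0 < M)
    (hu : ∀ n ∈ Ico N (2 * N), |u n| ≤ M) :
    ∑ b ∈ RU a, |∑ x ∈ Ico N (2 * N), c (a * x + b) * u x| ≤ M * (δ * a * N) := by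
  classical
  have h1 := H.real (u := fun n => if n ∈ Ico N (2 * N) then u n / M else 0)
    (v := fun b => if b ∈ RU a then
      (if 0 ≤ ∑ x ∈ Ico N (2 * N), c (a * x + b) * u x then 1 else -1) else 0)
    (fun n => ?_) (fun b => ?_) fun b hb => ?_
  · rw [← div_le_iff₀' hM]
    refine le_trans (le_of_eq ?_) ((le_abs_self _).trans h1)
    rw [Br, sum_comm, sum_div, ← sum_subset (s₁ := RU a) (filter_subset _ _) fun b _ hb => by
      simp only [if_neg hb, mul_zero, sum_const_zero]]
    refine sum_congr rfl fun b hb => ?_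
    have e : ∑ n ∈ Ico N (2 * N), c (a * n + b) * (if n ∈ Ico N (2 * N) then u n / M else 0) =
        (∑ x ∈ Ico N (2 * N), c (a * x + b) * u x) / M := by
      rw [sum_div]
      exact sum_congr rfl fun n hn => by rw [if_pos hn, mul_div_assoc]
    rw [if_pos hb, ← sum_mul, e]
    split_ifs with h
    · rw [abs_of_nonneg h, mul_one]
    · rw [abs_of_neg (not_le.1 h), mul_neg_one, neg_div]
  · split_ifs with h
    · rw [abs_div, abs_of_pos hM]
      exact (div_le_one hM).2 (hu n h)
    · simp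
  · split_ifs <;> simp
  · by_contra h
    exact hb (if_neg fun h2 => h (mem_RU.1 h2).2)

lemma card_pi {k : ℕ} (a : Fin k → ℕ) :
    ((Fintype.piFinset fun i => RU (a i)).card : ℝ) ≤ ∏ i, (a i : ℝ) := by
  rw [Fintype.card_piFinset, Nat.cast_prod]
  gcongr with i
  exact card_RU_le _

/-- one form is exchanged -/
lemma step {m N : ℕ} (J : Fin (m + 1)) (a : Fin (m + 1) → ℕ) (G G' : Fin (m + 1) → ℕ → ℝ)
    {B δ : ℝ} (hB : 0 < B) (hδ : 0 ≤ δ) (hG : ∀ i, G' (J.succAbove i) = G (J.succAbove i))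
    (hb : ∀ i, ∀ x ∈ Ico N (2 * N), ∀ b ∈ Ico 1 (a (J.succAbove i)),
      |G (J.succAbove i) (a (J.succAbove i) * x + b)| ≤ B)
    (H : SmallC (a J) N (fun m => G J m - G' J m) δ) :
    ∑ b ∈ Fintype.piFinset (fun i => RU (a i)),
      |∑ x ∈ Ico N (2 * N), ∏ i, G i (a i * x + b i) -
        ∑ x ∈ Ico N (2 * N), ∏ i, G' i (a i * x + b i)| ≤ B ^ m * δ * (N * ∏ i, (a i : ℝ)) := by
  rw [RedP.split J]
  refine (sum_le_card_nsmul _ _ (B ^ m * (δ * a J * N)) fun t ht => ?_).trans ?_
  · refine le_trans (le_of_eq (sum_congr rfl fun b _ => congrArg _ ?_))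
      (col (u := fun x => ∏ i, G (J.succAbove i) (a (J.succAbove i) * x + t i)) H
        (pow_pos hB m) fun x hx => ?_)
    · rw [← sum_sub_distrib]
      refine sum_congr rfl fun x _ => ?_
      rw [Fin.prod_univ_succAbove _ J, Fin.prod_univ_succAbove _ J]
      simp only [Fin.insertNth_apply_same, Fin.insertNth_apply_succAbove, hG]
      ring
    · rw [abs_prod]
      refine (prod_le_prod (fun _ _ => abs_nonneg _) fun i _ =>
        hb i x hx _ (mem_RU.1 (Fintype.mem_piFinset.1 ht i)).1).trans (by simp)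
  · rw [nsmul_eq_mul, Fin.prod_univ_succAbove _ J]
    calc _ ≤ (∏ i, (a (J.succAbove i) : ℝ)) * (B ^ m * (δ * a J * N)) :=
          mul_le_mul_of_nonneg_right (card_pi fun i => a (J.succAbove i)) (by positivity)
      _ = _ := by ring

/-- the hybrid factors -/
def FF {k : ℕ} (G G' : Fin k → ℕ → ℝ) (j : ℕ) (i : Fin k) : ℕ → ℝ :=
  if i.val < j then G' i else G i

end TelP

open TelP

theorem yTel : T_Tel := by
  intro k N a G G' B δ hB hδ hb H
  have key : ∀ j, j ≤ k → ∑ b ∈ Fintype.piFinset (fun i => RU (a i)),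
      |∑ x ∈ Ico N (2 * N), ∏ i, G i (a i * x + b i) -
        ∑ x ∈ Ico N (2 * N), ∏ i, FF G G' j i (a i * x + b i)| ≤
      j * B ^ k * δ * (N * ∏ i, (a i : ℝ)) := by
    intro j hj
    induction j with
    | zero => simp [FF]
    | succ j ih =>
      obtain ⟨m, rfl⟩ : ∃ m, k = m + 1 := ⟨k - 1, by omega⟩
      have h1 := step (N := N) ⟨j, hj⟩ a (FF G G' j) (FF G G' (j + 1)) (B := B) (by linarith) hδ
        (fun i => ?_) (fun i x hx b h0 => ?_) ?_
      · refine (sum_le_sum fun b _ => abs_sub_le _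
          (∑ x ∈ Ico N (2 * N), ∏ i, FF G G' j i (a i * x + b i)) _).trans ?_
        rw [sum_add_distrib]
        refine (add_le_add (ih (by omega)) h1).trans ?_
        have h2 : B ^ m ≤ B ^ (m + 1) := pow_le_pow_right₀ hB m.le_succ
        have h3 : B ^ m * δ * (N * ∏ i, (a i : ℝ)) ≤ B ^ (m + 1) * δ * (N * ∏ i, (a i : ℝ)) := by
          gcongr
        push_cast
        linarith
      · have : ((⟨j, hj⟩ : Fin (m + 1)).succAbove i).val ≠ j := fun e =>
          Fin.succAbove_ne _ i (Fin.ext e)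
        exact if_congr (by omega) rfl rfl
      · unfold FF
        split_ifs
        exacts [(hb _ x hx b h0).2, (hb _ x hx b h0).1]
      · have e1 : FF G G' (j + 1) (⟨j, hj⟩ : Fin (m + 1)) = G' ⟨j, hj⟩ := if_pos j.lt_succ_self
        have e2 : FF G G' j (⟨j, hj⟩ : Fin (m + 1)) = G ⟨j, hj⟩ := if_neg (lt_irrefl j)
        rw [e1, e2]
        exact H _
  simpa only [FF, Fin.is_lt, if_true] using key k le_rfl

theorem yZer : T_Zer := by
  intro k N R a H B δ hδ hB h
  have B0 : 0 ≤ B := le_trans (by positivity) (hB 0)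
  rw [RedP.split 0]
  simp only [Fin.zero_succAbove, Fin.insertNth_zero', Fin.cons_zero, Fin.cons_succ]
  refine (sum_le_card_nsmul _ _ ((R * B) ^ k * (δ * (a 0 * N))) fun t _ => ?_).trans ?_
  · have e : ∀ b : ℕ, ∑ x ∈ Ico N (2 * N), H (a 0 * x + b) *
        ∏ i : Fin k, mo (a i.succ) R (a i.succ * x + t i) =
        (∏ i : Fin k, (a i.succ : ℝ) / (a i.succ).totient) *
          ∑ q ∈ Fintype.piFinset fun i : Fin k => SQ (a i.succ) R, ∑ x ∈ Ico N (2 * N),
            H (a 0 * x + b) * ∏ i, rn (q i) (a i.succ * x + t i) := fun b => by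
      rw [sum_comm, mul_sum]
      refine sum_congr rfl fun x _ => ?_
      rw [← mul_sum, ← prod_univ_sum (fun i : Fin k => SQ (a i.succ) R)
        fun i q => rn q (a i.succ * x + t i)]
      simp only [mo, prod_mul_distrib]
      ring
    have p0 : 0 ≤ ∏ i : Fin k, (a i.succ : ℝ) / (a i.succ).totient := by positivity
    have p1 : ∏ i : Fin k, (a i.succ : ℝ) / (a i.succ).totient ≤ B ^ k :=
      (prod_le_prod (fun _ _ => by positivity) fun i _ => hB i.succ).trans (by simp)
    have p2 : ((Fintype.piFinset fun i : Fin k => SQ (a i.succ) R).card : ℝ) ≤ (R : ℝ) ^ k := by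
      rw [Fintype.card_piFinset]
      exact_mod_cast (prod_le_pow_card univ _ R fun i _ => card_SQ_le _ _).trans (by simp)
    simp only [e, abs_mul, abs_of_nonneg p0]
    rw [← mul_sum, mul_pow, mul_comm _ (B ^ k), mul_assoc]
    refine mul_le_mul p1 ?_ (sum_nonneg fun _ _ => abs_nonneg _) (by positivity)
    refine (sum_le_sum fun b _ => abs_sum_le_sum_abs _ _).trans ?_
    rw [sum_comm]
    refine (sum_le_card_nsmul _ _ (δ * (a 0 * N)) fun q hq => ?_).trans ?_
    · have hq' := fun i => (mem_SQ.1 (Fintype.mem_piFinset.1 hq i)).1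
      refine h (∏ i, q i) _ (Nat.succ_le_of_lt (prod_pos fun i _ => (hq' i).1))
        ?_ (fun x y hxy => prod_congr rfl fun i _ => rn_congr ?_) fun x => ?_
      · simpa using prod_le_pow_card univ q R fun i _ => (hq' i).2
      · exact ((hxy.of_dvd (dvd_prod_of_mem q (mem_univ i))).mul_left _).add_right _
      · rw [abs_prod]
        exact prod_le_one (fun _ _ => abs_nonneg _) fun i _ => abs_rn_le _ _
    · rw [nsmul_eq_mul]
      exact mul_le_mul_of_nonneg_right p2 (by positivity)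
  · rw [nsmul_eq_mul, Fin.prod_univ_succ]
    calc _ ≤ (∏ i : Fin k, (a i.succ : ℝ)) * ((R * B) ^ k * (δ * (a 0 * N))) :=
          mul_le_mul_of_nonneg_right (card_pi fun i : Fin k => a i.succ) (by positivity)
      _ = _ := by ring

end Pool.Agent.P.MP_746f10_nt.HL
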