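import Pool.Agent.P.MP_746f10_nt.HL.Base
import Pool.Agent.P.MP_26a8c3_nt.QE.Psi

/-! The identity of Vaughan and the prime number theorem for intervals. -/

namespace Pool.Agent.P.MP_746f10_nt.HL

open Finset
open Pool.Agent.P.MP_746f10_nt.AP Pool.Agent.P.MP_746f10_nt.AZ
open scoped ArithmeticFunction.vonMangoldt ArithmeticFunction.Moebius ArithmeticFunction.zeta

namespace VauP

/-- the head of the Moebius function -/
noncomputable def mL (V : ℕ) : ArithmeticFunction ℝ :=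
  ⟨fun d => if d ≤ V then (μ d : ℝ) else 0, by simp⟩

/-- the tail of the Moebius function -/
noncomputable def mG (V : ℕ) : ArithmeticFunction ℝ := ⟨muG V, by simp [muG]⟩

/-- the head of the von Mangoldt function -/
noncomputable def lL (U : ℕ) : ArithmeticFunction ℝ :=
  ⟨fun d => if d ≤ U then Λ d else 0, by simp⟩

/-- the tail of the von Mangoldt function -/
noncomputable def lG (U : ℕ) : ArithmeticFunction ℝ :=
  ⟨fun d => if U < d then Λ d else 0, by simp⟩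

lemma mL_apply (V d : ℕ) : mL V d = if d ≤ V then (μ d : ℝ) else 0 := rfl
lemma mG_apply (V d : ℕ) : mG V d = muG V d := rfl
lemma lL_apply (U d : ℕ) : lL U d = if d ≤ U then Λ d else 0 := rfl
lemma lG_apply (U d : ℕ) : lG U d = if U < d then Λ d else 0 := rfl

lemma m_add (V : ℕ) : mL V + mG V = (μ : ArithmeticFunction ℝ) := by
  ext d
  rw [ArithmeticFunction.add_apply, mL_apply, mG_apply, muG, ArithmeticFunction.intCoe_apply]
  by_cases h : d ≤ V
  · rw [if_pos h, if_neg (not_lt.2 h), add_zero]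
  · rw [if_neg h, if_pos (not_le.1 h), zero_add]

lemma l_add (U : ℕ) : lL U + lG U = Λ := by
  ext d
  rw [ArithmeticFunction.add_apply, lL_apply, lG_apply]
  by_cases h : d ≤ U
  · rw [if_pos h, if_neg (not_lt.2 h), add_zero]
  · rw [if_neg h, if_pos (not_le.1 h), zero_add]

lemma ident (U V : ℕ) : lG U + mL V * lL U * (ζ : ArithmeticFunction ℝ) =
    mL V * ArithmeticFunction.log + mG V * (lG U * (ζ : ArithmeticFunction ℝ)) := by
  have h1 : (mL V + mG V) * (ζ : ArithmeticFunction ℝ) = 1 := by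
    rw [m_add, ArithmeticFunction.coe_moebius_mul_coe_zeta]
  have h2 : (lL U + lG U) * (ζ : ArithmeticFunction ℝ) = ArithmeticFunction.log := by
    rw [l_add, ArithmeticFunction.vonMangoldt_mul_zeta]
  linear_combination (mL V) * h2 - (lG U) * h1

lemma laG_eq (U l : ℕ) : (lG U * (ζ : ArithmeticFunction ℝ)) l = laG U l := by
  rw [ArithmeticFunction.coe_mul_zeta_apply, laG, sum_filter]
  rfl

lemma vg_eq (U V d : ℕ) : vg U V d = mL V d * Real.log d + (mL V * lL U) d := by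
  rw [vg, ArithmeticFunction.mul_apply, sum_filter, mL_apply, ite_mul, zero_mul]
  congr 1
  refine sum_congr rfl fun x _ => ?_
  rw [mL_apply, lL_apply]
  by_cases h1 : x.1 ≤ V <;> by_cases h2 : x.2 ≤ U <;> simp [h1, h2]

lemma sum_dd {f : ℕ → ℝ} {D m : ℕ} (hm : m ≠ 0) (hf : ∀ d, D < d → f d = 0) :
    ∑ d ∈ Icc 1 D, f d * dd m d = ∑ d ∈ m.divisors, f d := by
  simp only [dd, mul_ite, mul_one, mul_zero]
  rw [← sum_filter]
  refine sum_subset (fun d hd => Nat.mem_divisors.2 ⟨(mem_filter.1 hd).2, hm⟩) fun d hd hd' => ?_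
  refine hf d (not_le.1 fun h => hd' ?_)
  exact mem_filter.2 ⟨mem_Icc.2 ⟨Nat.pos_of_mem_divisors hd, h⟩, Nat.dvd_of_mem_divisors hd⟩

lemma vg_zero {U V d : ℕ} (hU : 1 ≤ U) (hd : U * V < d) : vg U V d = 0 := by
  have h1 : V < d := lt_of_le_of_lt (Nat.le_mul_of_pos_left V hU) hd
  rw [vg, if_neg (not_le.2 h1), zero_add]
  refine sum_eq_zero fun x hx => ?_
  obtain ⟨h2, h3, h4⟩ := mem_filter.1 hx
  have h5 := (Nat.mem_divisorsAntidiagonal.1 h2).1
  have h6 : x.1 * x.2 ≤ V * U := Nat.mul_le_mul h3 h4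
  rw [h5, mul_comm] at h6
  omega

lemma vaughan (U V m : ℕ) (hU : 1 ≤ U) (hm : U < m) :
    Λ m = Real.log m * ∑ d ∈ Icc 1 V, (μ d : ℝ) * dd m d -
      ∑ d ∈ Icc 1 (U * V), vg U V d * dd m d + cv (muG V) (laG U) m := by
  have m0 : m ≠ 0 := by omega
  have h := congrArg (fun F : ArithmeticFunction ℝ => F m) (ident U V)
  simp only [ArithmeticFunction.add_apply] at h
  have e1 : (mG V * (lG U * (ζ : ArithmeticFunction ℝ))) m = cv (muG V) (laG U) m := by
    rw [ArithmeticFunction.mul_apply, cv]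
    exact sum_congr rfl fun x _ => by rw [laG_eq, mG_apply]
  have e2 : (mL V * ArithmeticFunction.log) m =
      ∑ d ∈ m.divisors, mL V d * (Real.log m - Real.log d) := by
    rw [ArithmeticFunction.mul_apply,
      Nat.sum_divisorsAntidiagonal fun k l => mL V k * ArithmeticFunction.log l]
    refine sum_congr rfl fun d hd => ?_
    have d0 : (d : ℝ) ≠ 0 := by exact_mod_cast (Nat.pos_of_mem_divisors hd).ne'
    rw [ArithmeticFunction.log_apply, Nat.cast_div (Nat.dvd_of_mem_divisors hd) d0,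
      Real.log_div (by exact_mod_cast m0) d0]
  have e3 : ∑ d ∈ Icc 1 V, (μ d : ℝ) * dd m d = ∑ d ∈ m.divisors, mL V d := by
    rw [← sum_dd (D := V) m0 fun d hd => by rw [mL_apply, if_neg (not_le.2 hd)]]
    exact sum_congr rfl fun d hd => by rw [mL_apply, if_pos (mem_Icc.1 hd).2]
  rw [lG_apply, if_pos hm, ArithmeticFunction.coe_mul_zeta_apply, e1, e2] at h
  rw [e3, sum_dd m0 fun d hd => vg_zero hU hd]
  simp only [vg_eq, mul_sub, sum_add_distrib, sum_sub_distrib, ← sum_mul] at h ⊢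
  linarith

lemma vg_le (U V d : ℕ) : |vg U V d| ≤ 2 * Real.log d := by
  have l0 := Real.log_natCast_nonneg d
  have h1 : |(if d ≤ V then (μ d : ℝ) * Real.log d else 0)| ≤ Real.log d := by
    split_ifs
    · rw [abs_mul, abs_of_nonneg l0]
      exact mul_le_of_le_one_left l0 (abs_mu_le d)
    · simpa using l0
  have h2 : |∑ x ∈ d.divisorsAntidiagonal.filter (fun x => x.1 ≤ V ∧ x.2 ≤ U),
      (μ x.1 : ℝ) * Λ x.2| ≤ Real.log d := by
    refine (abs_sum_le_sum_abs _ _).trans ?_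
    refine (sum_le_sum_of_subset_of_nonneg (filter_subset _ _) fun _ _ _ => abs_nonneg _).trans ?_
    rw [← ArithmeticFunction.vonMangoldt_sum,
      ← Nat.sum_divisorsAntidiagonal' fun _ l => Λ l]
    refine sum_le_sum fun x _ => ?_
    rw [abs_mul, abs_of_nonneg ArithmeticFunction.vonMangoldt_nonneg]
    exact mul_le_of_le_one_left ArithmeticFunction.vonMangoldt_nonneg (abs_mu_le _)
  refine (abs_add_le _ _).trans ?_
  linarith

lemma laG_bd (U l : ℕ) : 0 ≤ laG U l ∧ laG U l ≤ Real.log l ∧ (laG U l ≠ 0 → U < l) := by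
  refine ⟨sum_nonneg fun _ _ => ArithmeticFunction.vonMangoldt_nonneg, ?_, fun h => ?_⟩
  · rw [← ArithmeticFunction.vonMangoldt_sum]
    exact sum_le_sum_of_subset_of_nonneg (filter_subset _ _)
      fun _ _ _ => ArithmeticFunction.vonMangoldt_nonneg
  · obtain ⟨d, hd, -⟩ := exists_ne_zero_of_sum_ne_zero h
    exact lt_of_lt_of_le (mem_filter.1 hd).2 (Nat.divisor_le (mem_filter.1 hd).1)

lemma powers (Y : ℕ) : ∑ m ∈ range (Y + 1), (Λ m - th m) ≤ 2 * √Y * Real.log Y := by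
  rcases Nat.eq_zero_or_pos Y with rfl | h0
  · simp [th]
  have h := Chebyshev.psi_sub_theta_le (x := Y) (by exact_mod_cast h0)
  rw [Chebyshev.psi_eq_sum_Icc, Chebyshev.theta_eq_sum_Icc, Nat.floor_natCast, sum_filter,
    ← Nat.range_succ_eq_Icc_zero] at h
  rw [sum_sub_distrib]
  refine le_of_eq_of_le ?_ h
  congr 1
  refine sum_congr rfl fun m _ => ?_
  split_ifs with hm
  exacts [th_of_prime hm, th_of_not hm]

lemma rng {E : ℝ} {Y z : ℕ} (hE : 0 ≤ E) (h : ∀ X : ℕ, X ≤ Y → |∑ n ∈ Icc 1 X, Λ n - X| ≤ E)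
    (hz : z ≤ Y) : |∑ n ∈ range z, Λ n - z| ≤ E + 1 := by
  rcases z with _ | z
  · simp only [range_zero, sum_empty, Nat.cast_zero, sub_zero, abs_zero]
    linarith
  have e : ∑ n ∈ range (z + 1), Λ n = ∑ n ∈ Icc 1 z, Λ n := by
    rw [Nat.range_succ_eq_Icc_zero, ← add_sum_Ioc_eq_sum_Icc (Nat.zero_le z)]
    simp only [ArithmeticFunction.map_zero, zero_add]
    rfl
  have h1 := abs_le.1 (h z (by omega))
  rw [e, abs_le]
  push_cast
  constructor <;> linarith [h1.1, h1.2]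

lemma num {C S X E r L : ℝ} (hC : 0 < C) (hS : 2 ≤ S) (hCS : 6 * C + 6 ≤ S) (hX : S ^ 8 ≤ X)
    (hE : E ≤ 3 * X / S ^ 3) (r0 : 0 ≤ r) (hr : r ^ 2 = 3 * X) (hL : L ≤ S) :
    2 * (C * E + 1) + 2 * r * L ≤ X / S := by
  have S0 : 0 < S := by linarith
  have S3 : 0 < S ^ 3 := by positivity
  have S1 : 1 ≤ S := by linarith
  have X0 : 0 < X := lt_of_lt_of_le (by positivity) hX
  have h1 : 1 ≤ X / S ^ 3 := by
    rw [one_le_div S3]
    exact (pow_le_pow_right₀ S1 (by norm_num)).trans hX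
  have h2 : r * S ^ 4 ≤ 2 * X := by
    refine (abs_le_of_sq_le_sq' ?_ (by positivity)).2
    calc (r * S ^ 4) ^ 2 = 3 * X * S ^ 8 := by rw [mul_pow, hr]; ring
      _ ≤ 3 * X * X := by gcongr
      _ ≤ _ := by nlinarith
  have h3 : r * L ≤ 2 * (X / S ^ 3) := by
    refine (mul_le_mul_of_nonneg_left hL r0).trans ?_
    rw [← mul_div_assoc, le_div_iff₀ S3]
    linarith
  have h4 : C * E ≤ C * (3 * (X / S ^ 3)) := by
    rw [← mul_div_assoc]
    exact mul_le_mul_of_nonneg_left hE hC.le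
  have h5 : (6 * C + 6) * (X / S ^ 3) ≤ S ^ 2 * (X / S ^ 3) :=
    mul_le_mul_of_nonneg_right (hCS.trans (by nlinarith)) (by positivity)
  have h6 : S ^ 2 * (X / S ^ 3) = X / S := by field_simp
  linarith

end VauP

theorem yVau : T_Vau := ⟨VauP.vaughan, VauP.vg_le, VauP.laG_bd, VauP.powers⟩

theorem yPN2 {θ : ℝ} (hθ : θ < 1) (hZ : Pool.Agent.P.MP_26a8c3_nt.QE.ZF θ) (h : T_Vau) :
    T_PN2 := by
  obtain ⟨κ, C, k0, k1, hC, -, hψ⟩ := Pool.Agent.P.MP_26a8c3_nt.QE.psi hθ hZ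
  refine ⟨⌈3 / κ⌉₊ + 8, fun n => ?_⟩
  obtain ⟨S0, hS0⟩ := ev_ok (n + 2) (6 * C + 6)
  refine ⟨S0, fun S X y z hS hX hj hyz hz => ?_⟩
  obtain ⟨ok, hCS⟩ := hS0 S hS
  have S2 := ok.two'
  have S1 : (1 : ℝ) ≤ S := by linarith
  have hj' : (S : ℝ) ^ (⌈3 / κ⌉₊ + 8) ≤ X := by exact_mod_cast hj
  have h8 : (S : ℝ) ^ 8 ≤ X := (pow_le_pow_right₀ S1 (by omega)).trans hj'
  have X1 : (1 : ℝ) ≤ X := (one_le_pow₀ S1).trans h8
  have h3X : 3 * X ≤ S ^ (n + 2) := by
    have h4 : 2 ^ 2 ≤ S ^ 2 := Nat.pow_le_pow_left ok.two 2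
    calc 3 * X ≤ S ^ 2 * S ^ n := Nat.mul_le_mul (by omega) hX
      _ = _ := by ring
  have hL := ok.log h3X
  have hE : (3 * X : ℝ) ^ (1 - κ) ≤ 3 * X / (S : ℝ) ^ 3 := by
    rw [Real.rpow_sub (by linarith), Real.rpow_one]
    refine div_le_div_of_nonneg_left (by linarith) (by positivity) ?_
    calc (S : ℝ) ^ 3 = (S : ℝ) ^ (3 : ℝ) := by norm_cast
      _ ≤ (S : ℝ) ^ (((⌈3 / κ⌉₊ + 8 : ℕ) : ℝ) * κ) := by
          refine Real.rpow_le_rpow_of_exponent_le S1 ?_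
          have := Nat.le_ceil (3 / κ)
          rw [div_le_iff₀ k0] at this
          push_cast
          linarith
      _ = ((S : ℝ) ^ (⌈3 / κ⌉₊ + 8)) ^ κ := by
          rw [Real.rpow_mul (by linarith), Real.rpow_natCast]
      _ ≤ _ := Real.rpow_le_rpow (by positivity) (by linarith) k0.le
  have E0 : 0 ≤ C * (3 * X : ℝ) ^ (1 - κ) := by positivity
  have hR : ∀ X' : ℕ, X' ≤ 3 * X → |∑ n ∈ Icc 1 X', Λ n - X'| ≤ C * (3 * X : ℝ) ^ (1 - κ) :=
    fun X' h' => hψ X' _ (by linarith) (by exact_mod_cast h')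
  have a1 := abs_le.1 (VauP.rng E0 hR hz)
  have a2 := abs_le.1 (VauP.rng E0 hR (hyz.trans hz))
  have b0 : 0 ≤ ∑ m ∈ Ico y z, (Λ m - th m) := sum_nonneg fun m _ => sub_nonneg.2 (th_le_vm m)
  have b1 : ∑ m ∈ Ico y z, (Λ m - th m) ≤ 2 * √(3 * X : ℕ) * Real.log (3 * X : ℕ) := by
    refine le_trans (sum_le_sum_of_subset_of_nonneg (fun m hm => ?_)
      fun m _ _ => sub_nonneg.2 (th_le_vm m)) (h.2.2.2 (3 * X))
    have := (mem_Ico.1 hm).2
    exact mem_range.2 (by omega)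
  have b2 := VauP.num (r := √(3 * X : ℕ)) (L := Real.log (3 * X : ℕ)) hC S2 hCS h8 hE
    (Real.sqrt_nonneg _) (by rw [Real.sq_sqrt (Nat.cast_nonneg _)]; push_cast; ring)
    (by linarith)
  rw [sum_sub_distrib, sum_Ico_eq_sub _ hyz] at b0 b1
  rw [abs_le]
  constructor <;> linarith [a1.1, a1.2, a2.1, a2.2]

end Pool.Agent.P.MP_746f10_nt.HL
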