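import Pool.Agent.P.MP_746f10_nt.HL.Base
import Pool.Agent.P.MP_746f10_nt.AP.QWin
import Pool.Agent.P.MP_746f10_nt.AP.QPair
import Pool.Agent.P.MP_746f10_nt.AP.Row

/-! The window averages on a short range, by a Fejer majorant. -/

namespace Pool.Agent.P.MP_746f10_nt.HL

open Finset ComplexConjugate
open Pool.Agent.P.MP_746f10_nt.AP Pool.Agent.P.MP_746f10_nt.AZ
open Pool.Agent.P.MP_0ad054_nt (e)

namespace Win2P

variable {a : ℕ} [NeZero a]

lemma sum_all {M : Type} [AddCommMonoid M] (g : ZMod a → M) :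
    ∑ y ∈ range a, g y = ∑ y : ZMod a, g y :=
  sum_nbij' (fun c => (c : ZMod a)) (fun x => x.val) (fun _ _ => mem_univ _)
    (fun x _ => mem_range.2 (ZMod.val_lt x))
    (fun _ hc => ZMod.val_natCast_of_lt (mem_range.1 hc))
    (fun x _ => ZMod.natCast_zmod_val x) fun _ _ => rfl

/-- the Dirichlet kernel -/
noncomputable def DK (H : ℕ) (y : ZMod a) : ℂ :=
  ∑ h ∈ range H, ZMod.stdAddChar (((h : ℤ) : ZMod a) * y)

lemma DK_ge {H y : ℕ} (h : 6 * (H * y) ≤ a) : (H : ℝ) ^ 2 / 4 ≤ ‖DK H (y : ZMod a)‖ ^ 2 := by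
  have ha : (0 : ℝ) < a := by exact_mod_cast Nat.pos_of_ne_zero (NeZero.ne a)
  have h1 : (H : ℝ) / 2 ≤ (DK H (y : ZMod a)).re := by
    rw [DK, Complex.re_sum]
    refine le_trans (le_of_eq ?_) (card_nsmul_le_sum _ _ (1 / 2 : ℝ) fun j hj => ?_)
    · rw [card_range, nsmul_eq_mul]; ring
    · have h2 : (((j : ℤ) : ZMod a) * (y : ZMod a)) = ((j * y : ℤ) : ZMod a) := by push_cast; rfl
      have h3 : e (((j * y : ℤ) : ℝ) / a) =
          Complex.exp ((2 * Real.pi * (j * y / a) : ℝ) * Complex.I) := by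
        unfold e; congr 1; push_cast; ring
      rw [h2, RowP.std_eq, h3, Complex.exp_ofReal_mul_I_re, ← Real.cos_pi_div_three]
      have h4 : 6 * ((j : ℝ) * y) ≤ a := by
        have : 6 * (j * y) ≤ a :=
          le_trans (Nat.mul_le_mul_left _ (Nat.mul_le_mul_right _ (mem_range.1 hj).le)) h
        exact_mod_cast this
      have h5 : (j : ℝ) * y / a ≤ 1 / 6 := by rw [div_le_iff₀ ha]; linarith
      have h6 := Real.pi_pos
      refine Real.cos_le_cos_of_nonneg_of_le_pi (by positivity) (by linarith) ?_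
      nlinarith
  have h2 := h1.trans (Complex.re_le_norm _)
  have h3 : (0 : ℝ) ≤ H / 2 := by positivity
  nlinarith

lemma DK_sq (H : ℕ) (y : ZMod a) : ((‖DK H y‖ ^ 2 : ℝ) : ℂ) =
    ∑ h ∈ range H, ∑ h' ∈ range H, ZMod.stdAddChar ((((h : ℤ) - h' : ℤ) : ZMod a) * y) := by
  push_cast
  rw [← Complex.mul_conj', DK, map_sum, sum_mul_sum]
  refine sum_congr rfl fun h _ => sum_congr rfl fun h' _ => ?_
  rw [← AddChar.map_neg_eq_conj, ← AddChar.map_add_eq_mul]
  congr 1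
  push_cast
  ring

omit [NeZero a] in
lemma gcd_sum (ha : a ≠ 0) {H h : ℕ} (hh : h < H) :
    ∑ h' ∈ (range H).erase h, Int.gcd ((h : ℤ) - h') a ≤ a.divisors.card * H := by
  calc _ ≤ ∑ h' ∈ (range H).erase h, ∑ d ∈ a.divisors, if h' ≡ h [MOD d] then d else 0 := by
        refine sum_le_sum fun h' _ => ?_
        have h1 : Int.gcd ((h : ℤ) - h') a ∈ a.divisors :=
          Nat.mem_divisors.2 ⟨Int.natCast_dvd_natCast.1 (Int.gcd_dvd_right _ _), ha⟩
        refine le_trans (le_of_eq ?_) (single_le_sum (fun _ _ => Nat.zero_le _) h1)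
        rw [if_pos (Nat.modEq_iff_dvd.2 (Int.gcd_dvd_left _ _))]
    _ ≤ _ := by
        rw [sum_comm, ← smul_eq_mul]
        refine sum_le_card_nsmul _ _ _ fun d hd => ?_
        have hd0 := Nat.pos_of_mem_divisors hd
        have h1 : h ∈ (range H).filter (fun x => x ≡ h [MOD d]) :=
          mem_filter.2 ⟨mem_range.2 hh, Nat.ModEq.refl _⟩
        rw [← sum_filter, sum_const, smul_eq_mul, filter_erase, card_erase_of_mem h1,
          ← Nat.count_eq_card_filter_range, Nat.count_modEq_card _ hd0]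
        refine le_trans (Nat.mul_le_mul_right _ ?_) (Nat.div_mul_le_self H d)
        generalize H / d = q
        split_ifs <;> omega

/-- the twisted second moment -/
noncomputable def TT (P : Finset (ℕ × ℕ)) (W : ℕ × ℕ → ZMod a → ℂ) (h : ℤ) : ℂ :=
  ∑ p ∈ P, ∑ y : ZMod a, ZMod.stdAddChar ((h : ZMod a) * y) * (W p y * conj (W p y))

lemma major (P : Finset (ℕ × ℕ)) (W : ℕ × ℕ → ZMod a → ℂ) {L H : ℕ} (hL : 6 * (H * L) ≤ a)
    (hLa : L ≤ a) {A B : ℝ} (hB : 0 ≤ B) (h0 : ∑ p ∈ P, ∑ y, ‖W p y‖ ^ 2 ≤ A)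
    (h1 : ∀ h : ℤ, ‖TT P W h‖ ≤ Int.gcd h a * B) :
    (H : ℝ) ^ 2 / 4 * ∑ p ∈ P, ∑ y ∈ range L, ‖W p y‖ ^ 2 ≤
      H * (A + a.divisors.card * H * B) := by
  have e0 : ‖TT P W 0‖ ≤ A := by
    refine (norm_sum_le _ _).trans (le_trans (sum_le_sum fun p _ => ?_) h0)
    refine (norm_sum_le _ _).trans (le_of_eq (sum_congr rfl fun y _ => ?_))
    simp [sq]
  have e1 : ((∑ p ∈ P, ∑ y : ZMod a, ‖DK H y‖ ^ 2 * ‖W p y‖ ^ 2 : ℝ) : ℂ) =
      ∑ h ∈ range H, ∑ h' ∈ range H, TT P W ((h : ℤ) - h') := by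
    simp only [TT, Complex.ofReal_sum, Complex.ofReal_mul, DK_sq, sum_mul]
    simp only [Complex.ofReal_pow, ← Complex.mul_conj']
    rw [sum_congr rfl fun p _ => sum_comm, sum_comm]
    refine sum_congr rfl fun h _ => ?_
    rw [sum_congr rfl fun p _ => sum_comm, sum_comm]
  calc _ ≤ ∑ p ∈ P, ∑ y : ZMod a, ‖DK H y‖ ^ 2 * ‖W p y‖ ^ 2 := by
        rw [mul_sum]
        refine sum_le_sum fun p _ => ?_
        rw [← sum_all, mul_sum]
        refine le_trans (sum_le_sum fun y hy => ?_) (sum_le_sum_of_subset_of_nonneg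
          (range_mono hLa) fun _ _ _ => by positivity)
        refine mul_le_mul_of_nonneg_right (DK_ge (le_trans ?_ hL)) (sq_nonneg _)
        exact Nat.mul_le_mul_left _ (Nat.mul_le_mul_left _ (mem_range.1 hy).le)
    _ ≤ ‖∑ h ∈ range H, ∑ h' ∈ range H, TT P W ((h : ℤ) - h')‖ := by
        rw [← e1, Complex.norm_real]
        exact le_abs_self _
    _ ≤ _ := by
        refine (norm_sum_le _ _).trans ((sum_le_card_nsmul _ _ _ fun h hh => ?_).trans
          (le_of_eq (by rw [card_range, nsmul_eq_mul])))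
        refine (norm_sum_le _ _).trans ?_
        rw [← add_sum_erase _ _ hh, sub_self]
        refine add_le_add e0 ((sum_le_sum fun h' _ => h1 _).trans ?_)
        rw [← sum_mul]
        refine mul_le_mul_of_nonneg_right ?_ hB
        exact_mod_cast gcd_sum (NeZero.ne a) (mem_range.1 hh)

lemma expand (P : Finset (ℕ × ℕ)) (V : ℕ × ℕ → ZMod a → ℂ) {ω : ZMod a → ℝ} (h0 : ∀ z, 0 ≤ ω z)
    (h1 : ∑ z, ω z = 1) (h : ℤ) {B : ℝ}
    (hB : ∀ z z', ‖∑ p ∈ P, ∑ y : ZMod a, ZMod.stdAddChar ((h : ZMod a) * y) *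
      (V p (y + z) * conj (V p (y + z')))‖ ≤ B) :
    ‖TT P (fun p y => ∑ z, (ω z : ℂ) * V p (y + z)) h‖ ≤ B := by
  have e1 : TT P (fun p y => ∑ z, (ω z : ℂ) * V p (y + z)) h =
      ∑ z, ∑ z', ((ω z * ω z' : ℝ) : ℂ) * ∑ p ∈ P, ∑ y : ZMod a,
        ZMod.stdAddChar ((h : ZMod a) * y) * (V p (y + z) * conj (V p (y + z'))) := by
    simp only [TT, map_sum, sum_mul_sum]
    simp only [mul_sum]
    rw [sum_congr rfl fun p _ => sum_comm, sum_comm]
    refine sum_congr rfl fun z _ => ?_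
    rw [sum_congr rfl fun p _ => sum_comm, sum_comm]
    refine sum_congr rfl fun z' _ => sum_congr rfl fun p _ => sum_congr rfl fun y _ => ?_
    rw [map_mul (starRingEnd ℂ), Complex.conj_ofReal]
    push_cast
    ring
  rw [e1]
  calc _ ≤ ∑ z, ∑ z', ω z * ω z' * B := by
        refine (norm_sum_le _ _).trans (sum_le_sum fun z _ => ?_)
        refine (norm_sum_le _ _).trans (sum_le_sum fun z' _ => ?_)
        rw [norm_mul, Complex.norm_real, Real.norm_of_nonneg (mul_nonneg (h0 z) (h0 z'))]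
        exact mul_le_mul_of_nonneg_left (hB z z') (mul_nonneg (h0 z) (h0 z'))
    _ = B := by
        simp only [← sum_mul, ← mul_sum, h1]
        ring

lemma num {g x K n : ℝ} (hg : 1 ≤ g) (hx : 0 ≤ x) (hK : 0 ≤ K) :
    √(x * (K + √(6 * (g * n)))) ≤ g * √(x * (K + √(6 * n))) := by
  have h1 : √(6 * (g * n)) ≤ g * √(6 * n) := by
    rw [mul_left_comm, Real.sqrt_mul (by linarith)]
    refine mul_le_mul_of_nonneg_right (Real.sqrt_le_iff.2 ⟨by linarith, by nlinarith⟩)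
      (Real.sqrt_nonneg _)
  have h2 := Real.sqrt_nonneg (6 * n)
  have h3 : 0 ≤ x * (K + √(6 * n)) := by positivity
  refine Real.sqrt_le_iff.2 ⟨by positivity, ?_⟩
  rw [mul_pow, Real.sq_sqrt h3, mul_left_comm (g ^ 2)]
  refine mul_le_mul_of_nonneg_left ?_ hx
  have h4 : g ≤ g ^ 2 := by nlinarith
  nlinarith [mul_le_mul_of_nonneg_right h4 h2, mul_le_mul_of_nonneg_right (hg.trans h4) hK]

lemma full (h1 : T_LH) (f : ZMod a → ℂ) {ω : ZMod a → ℝ} {fe : ℤ → ℂ} {R : ℕ}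
    (hK : Ker R ω fe) (hR : 4 * R ≤ a) (k k' : ℕ) :
    ∑ y, ‖∑ z, (ω z : ℂ) * ww f k k' (y + z)‖ ^ 2 ≤
      2 * a * ∑ r ∈ Icc (-(R : ℤ)) R, G3 f k k' r := by
  have e2 := (h1 a (fun r => fe r * wh (ww f k k') r) (Icc (-(R : ℤ)) R) R 1 a
    (fun r hr => abs_le.2 (mem_Icc.1 hr)) hR).1
  rw [← sum_all]
  simp only [hK.eq]
  refine e2.trans ?_
  rw [← two_mul]
  refine mul_le_mul_of_nonneg_left (sum_le_sum fun r _ => ?_) (by positivity)
  unfold G3
  refine pow_le_pow_left₀ (norm_nonneg _) ?_ 2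
  rw [norm_mul]
  exact mul_le_of_le_one_left (norm_nonneg _) (hK.bd r)

end Win2P

open Win2P in
theorem yWin2 (h1 : T_LH) (h2 : T_Pair) (h3 : S_L2) (h4 : T_Cnt) (h5 : T_Psi) : T_Win2 := by
  classical
  intro a _ f S τ F G1 ω fe K R L g0 D hf hK hR hg0 hKa hL hLa hD hG1
  have ha : 0 < a := Nat.pos_of_ne_zero (NeZero.ne a)
  set B := Icc 1 K ×ˢ Icc 1 K with hB
  set P := (Pc a K).filter (fun p => ¬ g0 < Nat.gcd p.1 p.2) with hP
  set W : ℕ × ℕ → ZMod a → ℂ := fun p y => ∑ z, (ω z : ℂ) * ww f p.1 p.2 (y + z) with hW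
  set W0 : ℝ := a * F ^ 2 * √(a * K * (K + √(150 * (a.divisors.card : ℝ) ^ 2 * (K : ℝ) ^ 2 *
        (g0 + 16 * (K : ℝ) ^ 2 / a) * (1 + K * D / a)))) with hW0
  have W0n : 0 ≤ W0 := by positivity
  have hPc : P ⊆ Pc a K := filter_subset _ _
  have hPB : P ⊆ B := hPc.trans (filter_subset _ _)
  have hcard : (P.card : ℝ) ≤ (K : ℝ) ^ 2 := by
    have := card_le_card hPB
    rw [hB, card_product, Nat.card_Icc, Nat.add_sub_cancel] at this
    exact_mod_cast this.trans_eq (sq K).symm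
  have G0 : 0 ≤ G1 :=
    (sum_nonneg fun p _ => sum_nonneg fun r _ => G3_nonneg _ _ _ _).trans hG1
  have a0 : ∑ p ∈ P, ∑ y, ‖W p y‖ ^ 2 ≤ 2 * a * G1 := by
    refine (sum_le_sum fun p _ => full h1 f hK hR p.1 p.2).trans ?_
    rw [← mul_sum]
    refine mul_le_mul_of_nonneg_left (le_trans ?_ hG1) (by positivity)
    exact sum_le_sum_of_subset_of_nonneg hPc fun p _ _ => sum_nonneg fun r _ => G3_nonneg _ _ _ _
  have a1 : ∀ h : ℤ, ‖TT P W h‖ ≤ Int.gcd h a * W0 := by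
    intro h
    refine expand P (fun p => ww f p.1 p.2) hK.nn hK.one h fun z z' => ?_
    have c1 := h4 a K D _ h P hPc hKa (fun x => QPairP.fibre h3 a K g0 x) hD
    refine (h5 a f F _ K h P z z' hf.zero hf.l2 hf.sup hPc hKa c1).trans ?_
    have c2 : (1 : ℝ) ≤ Int.gcd h a := by
      exact_mod_cast Int.gcd_pos_of_ne_zero_right h (by exact_mod_cast ha.ne')
    have c3 : (6 : ℝ) * (25 * (a.divisors.card : ℝ) ^ 2 * (K : ℝ) ^ 2 *
        (g0 + 16 * (K : ℝ) ^ 2 / a) * (1 + K * D / a)) = 150 * (a.divisors.card : ℝ) ^ 2 *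
        (K : ℝ) ^ 2 * (g0 + 16 * (K : ℝ) ^ 2 / a) * (1 + K * D / a) := by ring
    refine (mul_le_mul_of_nonneg_left (num c2 (by positivity) (Nat.cast_nonneg _))
      (by positivity)).trans (le_of_eq ?_)
    rw [c3, hW0]
    ring
  set H := a / (6 * L) with hH
  have H1 : 1 ≤ H := (Nat.one_le_div_iff (by omega)).2 hLa
  have H2 : 6 * (H * L) ≤ a := by
    have := Nat.div_mul_le_self a (6 * L)
    rw [← hH] at this
    nlinarith
  have H3 : a ≤ 12 * L * H := by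
    have := Nat.lt_mul_div_succ a (show 0 < 6 * L by omega)
    rw [← hH] at this
    nlinarith
  have a2 := major P W H2 (by omega) W0n a0 a1
  have a3 : ∑ p ∈ P, ∑ y ∈ range L, ‖W p y‖ ^ 2 ≤ 96 * L * G1 + 8 * a.divisors.card * W0 := by
    have c1 : (0 : ℝ) < H := by exact_mod_cast H1
    have c2 : (a : ℝ) ≤ 12 * L * H := by exact_mod_cast H3
    have c3 : 0 ≤ (a.divisors.card : ℝ) * W0 := by positivity
    refine le_of_mul_le_mul_left (a2.trans ?_) (show (0 : ℝ) < (H : ℝ) ^ 2 / 4 by positivity)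
    have c4 := mul_le_mul_of_nonneg_right c2 (mul_nonneg c1.le G0)
    nlinarith [mul_nonneg (sq_nonneg (H : ℝ)) c3]
  have hFL : 0 ≤ F ^ 2 * L := by positivity
  have pt : ∀ p ∈ B, ∑ y ∈ range L, ‖W p y‖ ≤
      (if g0 < Nat.gcd p.1 p.2 then F ^ 2 * L else 0) +
      (if p ∈ P then √(L * ∑ y ∈ range L, ‖W p y‖ ^ 2) else 0) := by
    intro p hp
    have n3 : 0 ≤ (if p ∈ P then √(L * ∑ y ∈ range L, ‖W p y‖ ^ 2) else 0) := by
      split_ifs
      · exact Real.sqrt_nonneg _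
      · exact le_rfl
    by_cases c1 : g0 < Nat.gcd p.1 p.2
    · have t0 : ∑ y ∈ range L, ‖W p y‖ ≤ F ^ 2 * L := by
        refine (sum_le_card_nsmul _ _ _ fun y _ =>
          QWinP.triv hf.sup hK.nn hK.one _ _ _).trans ?_
        rw [card_range, nsmul_eq_mul, mul_comm]
      rw [if_pos c1]
      linarith
    rw [if_neg c1, zero_add]
    by_cases c3 : p.1.Coprime a ∧ p.2.Coprime a
    · have c4 : p ∈ P := mem_filter.2 ⟨mem_filter.2 ⟨hp, c3⟩, c1⟩
      rw [if_pos c4]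
      refine (QWinP.sum_le_sqrt _ _).trans (le_of_eq ?_)
      rw [card_range]
    · have : ∑ y ∈ range L, ‖W p y‖ = 0 :=
        sum_eq_zero fun y _ => by
          simp only [hW]
          rw [sum_eq_zero fun z _ => by rw [ww_eq_zero hf.zero c3, mul_zero], norm_zero]
      linarith
  rw [← sum_product' (Icc 1 K) (Icc 1 K)
    (fun k k' => ∑ y ∈ range L, ‖∑ z, (ω z : ℂ) * ww f k k' (y + z)‖)]
  refine (sum_le_sum pt).trans ?_
  rw [sum_add_distrib, ← sum_filter, sum_ite_mem, inter_eq_right.2 hPB, sum_const, nsmul_eq_mul]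
  refine add_le_add ?_ (QWinP.sum_sqrt_le P _ (fun p _ => by positivity) (Nat.cast_nonneg _)
    (Nat.cast_nonneg _) hcard a3)
  rw [mul_comm]
  exact mul_le_mul_of_nonneg_left (h2 K g0 hg0).1 hFL

end Pool.Agent.P.MP_746f10_nt.HL
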